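import Mathlib

/-!
# AS module E3 ASY (pure analysis)
-/

namespace Pool.Agent.AS

open Set Filter
open scoped Topology

namespace Asy

theorem lower_ratio {s : ℝ} (hs : 1 ≤ s) (i : ℕ) :
    (((i : ℝ) + 1 / 2) / ((i : ℝ) + 3 / 2)) ^ s ≤ ((i : ℝ) + 1 / 2) / ((i : ℝ) + 1 / 2 + s) := by
  have hi : (0 : ℝ) ≤ i := Nat.cast_nonneg i
  have h1 : (0 : ℝ) < (i : ℝ) + 1 / 2 := by linarith
  have hb : 1 + s * (1 / ((i : ℝ) + 1 / 2)) ≤ (1 + 1 / ((i : ℝ) + 1 / 2)) ^ s :=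
    one_add_mul_self_le_rpow_one_add (by have : 0 < 1 / ((i : ℝ) + 1 / 2) := by positivity
                                         linarith) hs
  have e1 : ((i : ℝ) + 1 / 2) / ((i : ℝ) + 3 / 2) = (1 + 1 / ((i : ℝ) + 1 / 2))⁻¹ := by
    field_simp
    ring
  have e2 : ((i : ℝ) + 1 / 2) / ((i : ℝ) + 1 / 2 + s) = (1 + s * (1 / ((i : ℝ) + 1 / 2)))⁻¹ := by
    field_simp
  rw [e1, e2, Real.inv_rpow (by positivity)]
  exact inv_anti₀ (by positivity) hb

theorem upper_ratio {s : ℝ} (hs : 1 ≤ s) (i : ℕ) :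
    ((i : ℝ) + 1 / 2) / ((i : ℝ) + 1 / 2 + s) ≤
      (((i : ℝ) + s - 1 / 2) / ((i : ℝ) + 1 + s - 1 / 2)) ^ s := by
  have hi : (0 : ℝ) ≤ i := Nat.cast_nonneg i
  have h1 : (0 : ℝ) < (i : ℝ) + 1 / 2 + s := by linarith
  have hb : 1 + s * (-(1 / ((i : ℝ) + 1 / 2 + s))) ≤ (1 + -(1 / ((i : ℝ) + 1 / 2 + s))) ^ s := by
    apply one_add_mul_self_le_rpow_one_add _ hs
    have : 1 / ((i : ℝ) + 1 / 2 + s) ≤ 1 := by
      rw [div_le_one h1]
      linarith
    linarith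
  have e1 : ((i : ℝ) + 1 / 2) / ((i : ℝ) + 1 / 2 + s) =
      1 + s * (-(1 / ((i : ℝ) + 1 / 2 + s))) := by
    field_simp
    ring
  have e2 : ((i : ℝ) + s - 1 / 2) / ((i : ℝ) + 1 + s - 1 / 2) =
      1 + -(1 / ((i : ℝ) + 1 / 2 + s)) := by
    have h2 : (i : ℝ) + 1 + s - 1 / 2 = (i : ℝ) + 1 / 2 + s := by ring
    rw [h2]
    field_simp
    ring
  rw [e1, e2]
  exact hb

theorem eqr (α : ℝ) (i : ℕ) : ((i : ℝ) + 1 / 2) / ((i : ℝ) + α + 3 / 2) =
    ((i : ℝ) + 1 / 2) / ((i : ℝ) + 1 / 2 + (1 + α)) := by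
  congr 1
  ring

theorem prod_lower {α : ℝ} (hα : 0 < α) (j : ℕ) :
    ((1 / 2) / ((j : ℝ) + 1 / 2)) ^ (1 + α) ≤
      ∏ i ∈ Finset.range j, (((i : ℝ) + 1 / 2) / ((i : ℝ) + α + 3 / 2)) := by
  induction j with
  | zero => simp
  | succ j ih =>
    have hj : (0 : ℝ) ≤ j := Nat.cast_nonneg j
    rw [Finset.prod_range_succ]
    have h := lower_ratio (s := 1 + α) (by linarith) j
    rw [← eqr] at h
    have e : ((1 / 2) / (((j + 1 : ℕ) : ℝ) + 1 / 2)) ^ (1 + α) =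
        ((1 / 2) / ((j : ℝ) + 1 / 2)) ^ (1 + α) *
          (((j : ℝ) + 1 / 2) / ((j : ℝ) + 3 / 2)) ^ (1 + α) := by
      rw [← Real.mul_rpow (by positivity) (by positivity)]
      congr 1
      push_cast
      have : (j : ℝ) + 1 / 2 ≠ 0 := by positivity
      have : (j : ℝ) + 3 / 2 ≠ 0 := by positivity
      have : (j : ℝ) + 1 + 1 / 2 ≠ 0 := by positivity
      field_simp
      ring
    rw [e]
    exact mul_le_mul ih h (by positivity) (Finset.prod_nonneg fun i _ => by positivity)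

theorem prod_upper {α : ℝ} (hα : 0 < α) (j : ℕ) :
    ∏ i ∈ Finset.range j, (((i : ℝ) + 1 / 2) / ((i : ℝ) + α + 3 / 2)) ≤
      ((α + 1 / 2) / ((j : ℝ) + α + 1 / 2)) ^ (1 + α) := by
  induction j with
  | zero =>
    have : (α + 1 / 2) / (((0 : ℕ) : ℝ) + α + 1 / 2) = 1 := by
      push_cast
      rw [zero_add]
      exact div_self (by positivity)
    rw [this]
    simp
  | succ j ih =>
    have hj : (0 : ℝ) ≤ j := Nat.cast_nonneg j
    rw [Finset.prod_range_succ]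
    have h := upper_ratio (s := 1 + α) (by linarith) j
    rw [← eqr] at h
    have e : ((α + 1 / 2) / (((j + 1 : ℕ) : ℝ) + α + 1 / 2)) ^ (1 + α) =
        ((α + 1 / 2) / ((j : ℝ) + α + 1 / 2)) ^ (1 + α) *
          (((j : ℝ) + (1 + α) - 1 / 2) / ((j : ℝ) + 1 + (1 + α) - 1 / 2)) ^ (1 + α) := by
      have h1 : (j : ℝ) + (1 + α) - 1 / 2 = (j : ℝ) + α + 1 / 2 := by ring
      have h2 : (j : ℝ) + 1 + (1 + α) - 1 / 2 = (j : ℝ) + 1 + α + 1 / 2 := by ring
      rw [h1, h2, ← Real.mul_rpow (by positivity) (by positivity)]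
      congr 1
      push_cast
      have : (j : ℝ) + α + 1 / 2 ≠ 0 := by positivity
      have : (j : ℝ) + 1 + α + 1 / 2 ≠ 0 := by positivity
      field_simp
    rw [e]
    exact mul_le_mul ih h (by positivity) (by positivity)

end Asy

theorem prod_asy {α : ℝ} (hα : 0 < α) : ∃ c c' : ℝ, 0 < c ∧ 0 < c' ∧ ∀ j : ℕ,
    c * ((j : ℝ) + 1) ^ (-(1 + α)) ≤
      ∏ i ∈ Finset.range j, (((i : ℝ) + 1 / 2) / ((i : ℝ) + α + 3 / 2)) ∧
    ∏ i ∈ Finset.range j, (((i : ℝ) + 1 / 2) / ((i : ℝ) + α + 3 / 2)) ≤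
      c' * ((j : ℝ) + 1) ^ (-(1 + α)) := by
  refine ⟨(1 / 2) ^ (1 + α), (2 * α + 1) ^ (1 + α), by positivity, by positivity, fun j => ?_⟩
  have hj : (0 : ℝ) ≤ j := Nat.cast_nonneg j
  constructor
  · refine le_trans ?_ (Asy.prod_lower hα j)
    rw [Real.rpow_neg (by positivity), ← Real.inv_rpow (by positivity),
      ← Real.mul_rpow (by positivity) (by positivity)]
    apply Real.rpow_le_rpow (by positivity) _ (by linarith)
    rw [← div_eq_mul_inv]
    exact div_le_div_of_nonneg_left (by norm_num) (by positivity) (by linarith)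
  · refine le_trans (Asy.prod_upper hα j) ?_
    rw [Real.rpow_neg (by positivity), ← Real.inv_rpow (by positivity),
      ← Real.mul_rpow (by positivity) (by positivity)]
    apply Real.rpow_le_rpow (by positivity) _ (by linarith)
    rw [← div_eq_mul_inv, div_le_div_iff₀ (by positivity) (by positivity)]
    nlinarith [mul_nonneg hα.le hj, mul_pos hα hα]

namespace Asy

theorem rel {α : ℝ} (hα : 0 < α) (j : ℕ) :
    ∏ i ∈ Finset.range j, (((i : ℝ) + 1 / 2) / ((i : ℝ) + α + 1 / 2)) =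
      (∏ i ∈ Finset.range j, (((i : ℝ) + 1 / 2) / ((i : ℝ) + α + 3 / 2))) *
        (((j : ℝ) + α + 1 / 2) / (α + 1 / 2)) := by
  induction j with
  | zero =>
    have : (((0 : ℕ) : ℝ) + α + 1 / 2) / (α + 1 / 2) = 1 := by
      push_cast
      rw [zero_add]
      exact div_self (by positivity)
    rw [this]
    simp
  | succ j ih =>
    rw [Finset.prod_range_succ, Finset.prod_range_succ, ih]
    push_cast
    have h1 : (j : ℝ) + α + 1 / 2 ≠ 0 := by positivity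
    have h2 : (j : ℝ) + α + 3 / 2 ≠ 0 := by positivity
    have h3 : α + 1 / 2 ≠ 0 := by positivity
    have h4 : (j : ℝ) + 1 + α + 1 / 2 = (j : ℝ) + α + 3 / 2 := by ring
    rw [h4]
    generalize (∏ i ∈ Finset.range j, (((i : ℝ) + 1 / 2) / ((i : ℝ) + α + 3 / 2))) = P
    field_simp

theorem partial_sum {α : ℝ} (hα : 0 < α) (n : ℕ) :
    ∑ j ∈ Finset.range n, 2 * α / (1 + 2 * α) *
      ∏ i ∈ Finset.range j, (((i : ℝ) + 1 / 2) / ((i : ℝ) + α + 3 / 2)) =
    1 - ∏ i ∈ Finset.range n, (((i : ℝ) + 1 / 2) / ((i : ℝ) + α + 1 / 2)) := by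
  induction n with
  | zero => simp
  | succ n ih =>
    rw [Finset.sum_range_succ, ih, Finset.prod_range_succ, rel hα n]
    have h1 : (n : ℝ) + α + 1 / 2 ≠ 0 := by positivity
    have h3 : α + 1 / 2 ≠ 0 := by positivity
    have h5 : 1 + 2 * α ≠ 0 := by positivity
    have e : (((n : ℝ) + α + 1 / 2) / (α + 1 / 2)) * (((n : ℝ) + 1 / 2) / ((n : ℝ) + α + 1 / 2)) =
        ((n : ℝ) + 1 / 2) / (α + 1 / 2) := by
      field_simp
    have e2 : 2 * α / (1 + 2 * α) = α / (α + 1 / 2) := by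
      rw [div_eq_div_iff h5 h3]
      ring
    rw [mul_assoc, e, e2]
    have e3 : ((n : ℝ) + α + 1 / 2) / (α + 1 / 2) =
        ((n : ℝ) + 1 / 2) / (α + 1 / 2) + α / (α + 1 / 2) := by
      rw [← add_div]
      congr 1
      ring
    rw [e3]
    ring

theorem prod_tendsto {α : ℝ} (hα : 0 < α) :
    Tendsto (fun n : ℕ => ∏ i ∈ Finset.range n, (((i : ℝ) + 1 / 2) / ((i : ℝ) + α + 1 / 2)))
      atTop (𝓝 0) := by
  obtain ⟨c, c', hc, hc', h⟩ := prod_asy hα
  have hlim : Tendsto (fun n : ℕ => c' * (1 + 1 / (α + 1 / 2)) * ((n : ℝ) + 1) ^ (-α))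
      atTop (𝓝 0) := by
    have h1 : Tendsto (fun n : ℕ => ((n : ℝ) + 1)) atTop atTop :=
      tendsto_atTop_add_const_right _ _ tendsto_natCast_atTop_atTop
    have h2 := ((tendsto_rpow_neg_atTop hα).comp h1).const_mul (c' * (1 + 1 / (α + 1 / 2)))
    rw [mul_zero] at h2
    exact h2
  refine squeeze_zero (fun n => Finset.prod_nonneg fun i _ => by positivity) (fun n => ?_) hlim
  have hn : (0 : ℝ) ≤ n := Nat.cast_nonneg n
  rw [rel hα n]
  have h2 : ((n : ℝ) + α + 1 / 2) / (α + 1 / 2) ≤ (1 + 1 / (α + 1 / 2)) * ((n : ℝ) + 1) := by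
    have h3 : (1 + 1 / (α + 1 / 2)) * ((n : ℝ) + 1) =
        ((α + 3 / 2) * ((n : ℝ) + 1)) / (α + 1 / 2) := by
      have : α + 1 / 2 ≠ 0 := by positivity
      field_simp
      ring
    rw [h3]
    apply div_le_div_of_nonneg_right _ (by positivity)
    nlinarith [mul_nonneg hα.le hn]
  calc (∏ i ∈ Finset.range n, (((i : ℝ) + 1 / 2) / ((i : ℝ) + α + 3 / 2))) *
        (((n : ℝ) + α + 1 / 2) / (α + 1 / 2))
      ≤ (c' * ((n : ℝ) + 1) ^ (-(1 + α))) * ((1 + 1 / (α + 1 / 2)) * ((n : ℝ) + 1)) :=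
        mul_le_mul (h n).2 h2 (by positivity) (by positivity)
    _ = c' * (1 + 1 / (α + 1 / 2)) * ((n : ℝ) + 1) ^ (-α) := by
        have : ((n : ℝ) + 1) ^ (-α) = ((n : ℝ) + 1) ^ (-(1 + α)) * ((n : ℝ) + 1) := by
          have h4 := Real.rpow_add (x := (n : ℝ) + 1) (by positivity) (-(1 + α)) 1
          rw [Real.rpow_one] at h4
          rw [← h4]
          congr 1
          ring
        rw [this]
        ring

end Asy

theorem prod_sum {α : ℝ} (hα : 0 < α) : HasSum (fun j : ℕ => 2 * α / (1 + 2 * α) *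
    ∏ i ∈ Finset.range j, (((i : ℝ) + 1 / 2) / ((i : ℝ) + α + 3 / 2))) 1 := by
  rw [hasSum_iff_tendsto_nat_of_nonneg]
  · have h := (Asy.prod_tendsto hα).const_sub 1
    rw [sub_zero] at h
    refine h.congr fun n => ?_
    rw [Asy.partial_sum hα n]
  · intro j
    exact mul_nonneg (by positivity) (Finset.prod_nonneg fun i _ => by positivity)

end Pool.Agent.AS
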