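import Pool.Agent.Lib.MP_daa227_pr_AS.Defs

/-!
# The explicit chain
-/

namespace Pool.Agent.AS

open MP_daa227_pr (Chain)

noncomputable section

theorem pE_right {α : ℝ} {x : ℤ} (hx : 0 < x) (y : ℤ) : pE α x y =
    if y = x + 1 then (x : ℝ) / (2 * x - 1 + 2 * α)
      else if y = x - 1 then ((x : ℝ) - 1 + 2 * α) / (2 * x - 1 + 2 * α) else 0 := by
  unfold pE
  rw [if_pos hx]

theorem pE_zero {α : ℝ} (y : ℤ) : pE α 0 y = if y = 1 ∨ y = -1 then 1 / 2 else 0 := by
  unfold pE
  rw [if_neg (lt_irrefl 0), if_pos rfl]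

theorem pE_left {α : ℝ} {x : ℤ} (hx : x < 0) (y : ℤ) : pE α x y =
    if y = x + 1 then 2 / 3 else if y = x - 1 then 1 / 3 else 0 := by
  unfold pE
  rw [if_neg (by omega), if_neg (by omega)]

theorem pE_den {α : ℝ} (hα : 0 < α) {x : ℤ} (hx : 0 < x) : 0 < 2 * (x : ℝ) - 1 + 2 * α := by
  have h : (1 : ℝ) ≤ x := by exact_mod_cast hx
  linarith

/-- the explicit chain -/
def chE {α : ℝ} (hα : 0 < α) : Chain where
  p := pE α
  nonneg x y := by
    rcases lt_trichotomy 0 x with hx | hx | hx
    · rw [pE_right hx]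
      have h1 := pE_den hα hx
      have h2 : (1 : ℝ) ≤ x := by exact_mod_cast hx
      split_ifs
      · exact div_nonneg (by linarith) h1.le
      · exact div_nonneg (by linarith) h1.le
      · exact le_rfl
    · rw [← hx, pE_zero]
      split_ifs <;> norm_num
    · rw [pE_left hx]
      split_ifs <;> norm_num
  near x y hy := by
    rw [Finset.mem_Icc] at hy
    rcases lt_trichotomy 0 x with hx | hx | hx
    · rw [pE_right hx, if_neg (by omega), if_neg (by omega)]
    · subst hx
      rw [pE_zero, if_neg (by omega)]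
    · rw [pE_left hx, if_neg (by omega), if_neg (by omega)]
  sum_one x := by
    rw [Pool.Agent.AZ.sum_nb]
    rcases lt_trichotomy 0 x with hx | hx | hx
    · rw [pE_right hx, pE_right hx, pE_right hx, if_neg (by omega), if_pos rfl, if_neg (by omega),
        if_neg (by omega), if_pos rfl]
      have h1 := pE_den hα hx
      rw [add_zero, ← add_div, div_eq_one_iff_eq h1.ne']
      ring
    · subst hx
      rw [pE_zero, pE_zero, pE_zero, if_pos (by omega), if_neg (by omega), if_pos (by omega)]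
      norm_num
    · rw [pE_left hx, pE_left hx, pE_left hx, if_neg (by omega), if_pos rfl, if_neg (by omega),
        if_neg (by omega), if_pos rfl]
      norm_num
  up x := by
    rcases lt_trichotomy 0 x with hx | hx | hx
    · rw [pE_right hx, if_pos rfl]
      have h2 : (0 : ℝ) < x := by exact_mod_cast hx
      exact div_pos h2 (pE_den hα hx)
    · subst hx
      rw [pE_zero, if_pos (by omega)]
      norm_num
    · rw [pE_left hx, if_pos rfl]
      norm_num
  down x := by
    rcases lt_trichotomy 0 x with hx | hx | hx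
    · rw [pE_right hx, if_neg (by omega), if_pos rfl]
      have h2 : (1 : ℝ) ≤ x := by exact_mod_cast hx
      exact div_pos (by linarith) (pE_den hα hx)
    · subst hx
      rw [pE_zero, if_pos (by omega)]
      norm_num
    · rw [pE_left hx, if_neg (by omega), if_pos rfl]
      norm_num

theorem chE_p {α : ℝ} (hα : 0 < α) (x y : ℤ) : (chE hα).p x y = pE α x y := rfl

theorem chE_nl {α : ℝ} (hα : 0 < α) (x : ℤ) : (chE hα).p x x = 0 := by
  rw [chE_p]
  rcases lt_trichotomy 0 x with hx | hx | hx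
  · rw [pE_right hx, if_neg (by omega), if_neg (by omega)]
  · subst hx
    rw [pE_zero, if_neg (by omega)]
  · rw [pE_left hx, if_neg (by omega), if_neg (by omega)]

theorem chE_up {α : ℝ} (hα : 0 < α) {x : ℤ} (hx : 0 < x) :
    (chE hα).p x (x + 1) = (x : ℝ) / (2 * x - 1 + 2 * α) := by
  rw [chE_p, pE_right hx, if_pos rfl]

theorem chE_down {α : ℝ} (hα : 0 < α) {x : ℤ} (hx : 0 < x) :
    (chE hα).p x (x - 1) = ((x : ℝ) - 1 + 2 * α) / (2 * x - 1 + 2 * α) := by
  rw [chE_p, pE_right hx, if_neg (by omega), if_pos rfl]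

theorem chE_zero_up {α : ℝ} (hα : 0 < α) : (chE hα).p 0 1 = 1 / 2 := by
  rw [chE_p, pE_zero, if_pos (by omega)]

theorem chE_zero_down {α : ℝ} (hα : 0 < α) : (chE hα).p 0 (-1) = 1 / 2 := by
  rw [chE_p, pE_zero, if_pos (by omega)]

theorem chE_left_up {α : ℝ} (hα : 0 < α) {x : ℤ} (hx : x < 0) : (chE hα).p x (x + 1) = 2 / 3 := by
  rw [chE_p, pE_left hx, if_pos rfl]

theorem chE_left_down {α : ℝ} (hα : 0 < α) {x : ℤ} (hx : x < 0) : (chE hα).p x (x - 1) = 1 / 3 := by
  rw [chE_p, pE_left hx, if_neg (by omega), if_pos rfl]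

end

end Pool.Agent.AS
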