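import Pool.Agent.Lib.MP_daa227_pr_AS.Chn
import Pool.Agent.Lib.MP_daa227_pr_OT.KConv

/-!
# The closed form of the first passage law of the explicit chain
-/

namespace Pool.Agent.AS

open MP_daa227_pr (Chain K0)
open Finset (range)

noncomputable section

theorem closed_step_one {α : ℝ} (hα : 0 < α) (n : ℕ) : K0 (chE hα) (n + 2) 1 =
    1 / (1 + 2 * α) * K0 (chE hα) (n + 1) 2 := by
  rw [K0, if_neg (Nat.succ_ne_zero n), zero_add]
  have h2 : (Finset.Icc ((1 : ℤ) - 1) (1 + 1) \ {0}) = {1, 2} := by decide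
  rw [h2, Finset.sum_pair (by decide), chE_nl, zero_mul, zero_add]
  have h3 := chE_up hα (x := 1) one_pos
  norm_num at h3
  rw [show (2 : ℤ) = 1 + 1 from rfl] at *
  rw [chE_up hα (x := 1) one_pos]
  push_cast
  congr 1
  ring

theorem closed_step {α : ℝ} (hα : 0 < α) (n : ℕ) {x : ℤ} (hx : 2 ≤ x) :
    K0 (chE hα) (n + 1) x =
      (x : ℝ) / (2 * x - 1 + 2 * α) * K0 (chE hα) n (x + 1) +
        ((x : ℝ) - 1 + 2 * α) / (2 * x - 1 + 2 * α) * K0 (chE hα) n (x - 1) := by
  rw [K0]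
  have h1 : (if n = 0 then (chE hα).p x 0 else 0) = 0 := by
    split_ifs
    · apply (chE hα).near
      rw [Finset.mem_Icc]
      omega
    · rfl
  have h2 : (Finset.Icc (x - 1) (x + 1) \ {0}) = Finset.Icc (x - 1) (x + 1) := by
    rw [Finset.sdiff_eq_self_iff_disjoint, Finset.disjoint_singleton_right, Finset.mem_Icc]
    omega
  rw [h1, zero_add, h2, Pool.Agent.AZ.sum_nb, chE_nl, zero_mul, add_zero,
    chE_up hα (by omega), chE_down hα (by omega)]
  ring

/-- the closed form: first passage from `r + 1` to `0` at time `r + 1 + 2 k` -/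
def cl (α : ℝ) (r k : ℕ) : ℝ :=
  2 * α / (1 + 2 * α) * (∏ i ∈ range r, (2 * α + 1 + (i : ℝ))) / (r.factorial : ℝ) *
    ((r + 2 * k).factorial : ℝ) /
      (2 ^ (r + 2 * k) * (k.factorial : ℝ) * ∏ i ∈ range (r + k), (α + 3 / 2 + (i : ℝ)))

theorem cl_pos_prod {α : ℝ} (hα : 0 < α) (m : ℕ) :
    0 < ∏ i ∈ range m, (α + 3 / 2 + (i : ℝ)) :=
  Finset.prod_pos fun i _ => by positivity

theorem cl_zero_zero (α : ℝ) : cl α 0 0 = 2 * α / (1 + 2 * α) := by
  simp [cl]

theorem cl_zero_succ {α : ℝ} (hα : 0 < α) (j : ℕ) :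
    1 / (1 + 2 * α) * cl α 1 j = cl α 0 (j + 1) := by
  unfold cl
  have h1 : 1 + 2 * j = 2 * j + 1 := by ring
  have h2 : 0 + 2 * (j + 1) = 2 * j + 1 + 1 := by ring
  have h3 : 1 + j = j + 1 := by ring
  have h4 : 0 + (j + 1) = j + 1 := by ring
  rw [h1, h2, h3, h4, Nat.factorial_succ (2 * j + 1), Nat.factorial_succ j]
  have hQ := cl_pos_prod hα (j + 1)
  have hj : (0 : ℝ) < (j.factorial : ℝ) := by exact_mod_cast Nat.factorial_pos j
  have h5 : (0 : ℝ) < 1 + 2 * α := by linarith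
  simp only [Finset.prod_range_one, Finset.prod_range_zero, Nat.cast_zero, Nat.factorial_one,
    Nat.factorial_zero, Nat.cast_one, Nat.cast_mul, Nat.cast_add, Nat.cast_ofNat]
  generalize ∏ i ∈ range (j + 1), (α + 3 / 2 + (i : ℝ)) = Q at hQ
  generalize ((2 * j + 1).factorial : ℝ) = Fa
  field_simp
  ring

theorem cl_succ_zero {α : ℝ} (hα : 0 < α) (s : ℕ) :
    ((s : ℝ) + 1 + 2 * α) / (2 * s + 3 + 2 * α) * cl α s 0 = cl α (s + 1) 0 := by
  unfold cl
  simp only [Nat.mul_zero, Nat.add_zero, Nat.factorial_zero, Nat.cast_one, mul_one]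
  rw [Finset.prod_range_succ, Finset.prod_range_succ _ s]
  have hQ := cl_pos_prod hα s
  have h1 : (0 : ℝ) < (s.factorial : ℝ) := by exact_mod_cast Nat.factorial_pos s
  have h2 : (0 : ℝ) < ((s + 1).factorial : ℝ) := by exact_mod_cast Nat.factorial_pos (s + 1)
  have h5 : (0 : ℝ) < 1 + 2 * α := by linarith
  have h6 : (0 : ℝ) < 2 * s + 3 + 2 * α := by positivity
  have h7 : (0 : ℝ) < α + 3 / 2 + s := by positivity
  generalize ∏ i ∈ range s, (α + 3 / 2 + (i : ℝ)) = Q at hQ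
  generalize ∏ i ∈ range s, (2 * α + 1 + (i : ℝ)) = R
  field_simp
  ring

theorem cl_succ_succ {α : ℝ} (hα : 0 < α) (s l : ℕ) :
    ((s : ℝ) + 2) / (2 * s + 3 + 2 * α) * cl α (s + 2) l +
      ((s : ℝ) + 1 + 2 * α) / (2 * s + 3 + 2 * α) * cl α s (l + 1) = cl α (s + 1) (l + 1) := by
  unfold cl
  have e1 : s + 2 + 2 * l = s + 2 * l + 2 := by ring
  have e2 : s + 2 * (l + 1) = s + 2 * l + 2 := by ring
  have e3 : s + 1 + 2 * (l + 1) = s + 2 * l + 2 + 1 := by ring
  have e4 : s + 2 + l = s + l + 1 + 1 := by ring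
  have e5 : s + (l + 1) = s + l + 1 := by ring
  have e6 : s + 1 + (l + 1) = s + l + 1 + 1 := by ring
  rw [e1, e2, e3, e4, e5, e6, Nat.factorial_succ (s + 2 * l + 2), Nat.factorial_succ l,
    Finset.prod_range_succ _ (s + l + 1), show s + 2 = s + 1 + 1 from rfl,
    Nat.factorial_succ (s + 1), Nat.factorial_succ s, Finset.prod_range_succ _ (s + 1),
    Finset.prod_range_succ _ s]
  have hQ := cl_pos_prod hα (s + l + 1)
  have h1 : (0 : ℝ) < (s.factorial : ℝ) := by exact_mod_cast Nat.factorial_pos s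
  have h2 : (0 : ℝ) < (l.factorial : ℝ) := by exact_mod_cast Nat.factorial_pos l
  have h5 : (0 : ℝ) < 1 + 2 * α := by linarith
  have h6 : (0 : ℝ) < 2 * s + 3 + 2 * α := by positivity
  have h7 : (0 : ℝ) < α + 3 / 2 + ((s : ℝ) + l + 1) := by positivity
  push_cast
  generalize ∏ i ∈ range (s + l + 1), (α + 3 / 2 + (i : ℝ)) = Q at hQ
  generalize ∏ i ∈ range s, (2 * α + 1 + (i : ℝ)) = R
  generalize ((s + 2 * l + 2).factorial : ℝ) = Fa
  rw [pow_succ]
  field_simp
  ring

theorem K0_cl {α : ℝ} (hα : 0 < α) : ∀ n r k : ℕ, r + 1 + 2 * k = n →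
    K0 (chE hα) n ((r : ℤ) + 1) = cl α r k := by
  intro n
  induction n with
  | zero => intro r k h; omega
  | succ n ih =>
    intro r k h
    rcases Nat.eq_zero_or_pos r with hr | hr
    · subst hr
      rcases Nat.eq_zero_or_pos k with hk | hk
      · subst hk
        have hn : n = 0 := by omega
        subst hn
        rw [cl_zero_zero, K0, if_pos rfl]
        have h2 : (Finset.Icc ((((0 : ℕ) : ℤ) + 1) - 1) ((((0 : ℕ) : ℤ) + 1) + 1) \ {0}) =
            {1, 2} := by decide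
        rw [h2, Finset.sum_pair (by decide), K0, K0, mul_zero, mul_zero, add_zero, add_zero]
        have h3 := chE_down hα (x := 1) one_pos
        norm_num at h3
        rw [show (((0 : ℕ) : ℤ) + 1) = 1 by norm_num, h3]
      · obtain ⟨j, rfl⟩ : ∃ j, k = j + 1 := ⟨k - 1, by omega⟩
        obtain ⟨n', rfl⟩ : ∃ n', n = n' + 1 := ⟨n - 1, by omega⟩
        rw [show (((0 : ℕ) : ℤ) + 1) = 1 by norm_num, closed_step_one]
        have h4 := ih 1 j (by omega)
        rw [show (((1 : ℕ) : ℤ) + 1) = 2 by norm_num] at h4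
        rw [h4, cl_zero_succ hα]
    · obtain ⟨s, rfl⟩ : ∃ s, r = s + 1 := ⟨r - 1, by omega⟩
      rw [closed_step hα n (by push_cast; omega)]
      have h4 := ih s k (by omega)
      rw [show (((s + 1 : ℕ) : ℤ) + 1) - 1 = (s : ℤ) + 1 by push_cast; ring, h4]
      rcases Nat.eq_zero_or_pos k with hk | hk
      · subst hk
        rw [Pool.Agent.OT.K1.K0_zero _ n _ (by push_cast; omega) (by push_cast; omega), mul_zero,
          zero_add, ← cl_succ_zero hα s]
        push_cast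
        congr 1
        ring
      · obtain ⟨l, rfl⟩ : ∃ l, k = l + 1 := ⟨k - 1, by omega⟩
        have h5 := ih (s + 2) l (by omega)
        rw [show (((s + 1 : ℕ) : ℤ) + 1) + 1 = ((s + 2 : ℕ) : ℤ) + 1 by push_cast; ring, h5,
          ← cl_succ_succ hα s l]
        push_cast
        congr 1
        · congr 1
          ring
        · congr 1
          ring

theorem K0_closed {α : ℝ} (hα : 0 < α) (j : ℕ) : K0 (chE hα) (2 * j + 1) 1 =
    2 * α / (1 + 2 * α) * ∏ i ∈ Finset.range j, (((i : ℝ) + 1 / 2) / ((i : ℝ) + α + 3 / 2)) := by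
  have h1 := K0_cl hα (2 * j + 1) 0 j (by ring)
  rw [show (((0 : ℕ) : ℤ) + 1) = 1 by norm_num] at h1
  rw [h1]
  clear h1
  induction j with
  | zero => simp [cl]
  | succ j ih =>
    rw [Finset.prod_range_succ, ← mul_assoc, ← ih]
    unfold cl
    have h2 : 0 + 2 * (j + 1) = 2 * j + 1 + 1 := by ring
    have h3 : 0 + 2 * j = 2 * j := by ring
    have h4 : 0 + (j + 1) = j + 1 := by ring
    rw [h2, h3, h4, Nat.zero_add, Nat.factorial_succ (2 * j + 1), Nat.factorial_succ (2 * j),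
      Nat.factorial_succ j, Finset.prod_range_succ _ j, pow_succ, pow_succ]
    have hQ := cl_pos_prod hα j
    have hj : (0 : ℝ) < (j.factorial : ℝ) := by exact_mod_cast Nat.factorial_pos j
    have h5 : (0 : ℝ) < 1 + 2 * α := by linarith
    have h7 : (0 : ℝ) < α + 3 / 2 + (j : ℝ) := by positivity
    have h8 : (0 : ℝ) < (j : ℝ) + α + 3 / 2 := by positivity
    simp only [Finset.prod_range_zero, Nat.factorial_zero]
    push_cast
    generalize ∏ i ∈ range j, (α + 3 / 2 + (i : ℝ)) = Q at hQ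
    generalize ((2 * j).factorial : ℝ) = Fa
    field_simp
    ring

end

end Pool.Agent.AS
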