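import Pool.Agent.Lib.MP_daa227_pr_AS.Ren
import Pool.Agent.Lib.MP_daa227_pr.Rev

/-!
# The annealed constrained partition function is a log-convex renewal sequence
-/

namespace Pool.Agent.AS

open MeasureTheory ProbabilityTheory Set Filter
open scoped ENNReal Topology
open MP_daa227_pr (Chain Zk Zf Gk Gf KU K0 ushift shift seqLaw ExpMom Good GoodW mom DepOn)
open Pool.Agent.AZ (Kv Zd Zfd cneg lmg)
open Pool.Agent.OT (phi Wc Kp Km)
open MP_daa227_pr.Rev (Kk qk rh rh_pos Kk_zero Kk_succ Kk_symm)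

noncomputable section

namespace ConvA

theorem Zd_eq (C : Chain) (u : ℝ) (n : ℕ) (x y : ℤ) : Zd C (vu u) n x y = Kk C (-u) phi n x y := by
  unfold Zd Kk
  congr 1
  funext a z
  unfold MP_daa227_pr.Wdet vu
  rw [neg_neg]

/-- Chapman-Kolmogorov -/
theorem Kk_mul_eq (C : Chain) (η : ℝ) (φ : ℤ → ℝ) (m n : ℕ) (x z : ℤ) (S : Finset ℤ)
    (hS : Finset.Icc (x - m) (x + m) ⊆ S) :
    ∑ y ∈ S, Kk C η φ m x y * Kk C η φ n y z = Kk C η φ (m + n) x z := by
  induction m generalizing x with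
  | zero =>
    rw [Nat.zero_add]
    have h1 : ∀ y, Kk C η φ 0 x y * Kk C η φ n y z = if x = y then Kk C η φ n x z else 0 := by
      intro y
      rw [Kk_zero]
      split
      · next h => rw [h, one_mul]
      · rw [zero_mul]
    simp_rw [h1]
    rw [Finset.sum_ite_eq, if_pos]
    apply hS
    simp
  | succ m ih =>
    have h1 : m + 1 + n = (m + n) + 1 := by omega
    rw [h1, Kk_succ]
    calc ∑ y ∈ S, Kk C η φ (m + 1) x y * Kk C η φ n y z
        = ∑ w ∈ Finset.Icc (x - 1) (x + 1), qk C η φ x w *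
            ∑ y ∈ S, Kk C η φ m w y * Kk C η φ n y z := by
          simp_rw [Kk_succ, Finset.sum_mul, Finset.mul_sum]
          rw [Finset.sum_comm]
          refine Finset.sum_congr rfl fun w _ => Finset.sum_congr rfl fun y _ => ?_
          ring
      _ = _ := by
          refine Finset.sum_congr rfl fun w hw => ?_
          rw [ih w]
          intro y hy
          apply hS
          rw [Finset.mem_Icc] at hw hy ⊢
          push_cast
          omega

theorem Kk_pair (C : Chain) (η : ℝ) (φ : ℤ → ℝ) (m n : ℕ) (S : Finset ℤ)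
    (hS : Finset.Icc (-(m : ℤ)) m ⊆ S) :
    Kk C η φ (m + n) 0 0 = ∑ y ∈ S, rh C η φ 0 / rh C η φ y * (Kk C η φ m 0 y * Kk C η φ n 0 y) := by
  rw [← Kk_mul_eq C η φ m n 0 0 S (by rwa [zero_sub, zero_add])]
  refine Finset.sum_congr rfl fun y _ => ?_
  have h1 := Kk_symm C η φ n 0 y
  have h2 := (rh_pos C η φ y).ne'
  have h3 : Kk C η φ n y 0 = rh C η φ 0 * Kk C η φ n 0 y / rh C η φ y := by
    rw [eq_div_iff h2, mul_comm]
    exact h1.symm
  rw [h3]
  ring

theorem sum_pairs (f : ℕ → ℝ) (N : ℕ) : ∑ m ∈ Finset.Ioc 0 (2 * N), f m =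
    ∑ k ∈ Finset.range N, (f (2 * k + 1) + f (2 * (k + 1))) := by
  induction N with
  | zero => simp
  | succ N ih =>
    rw [Finset.sum_range_succ, ← ih]
    have h1 : 2 * (N + 1) = 2 * N + 1 + 1 := by ring
    rw [h1, Finset.sum_Ioc_succ_top (by omega), Finset.sum_Ioc_succ_top (by omega)]
    ring

end ConvA

theorem An_conv (C : Chain) (u : ℝ) (n : ℕ) : An C u (n + 1) ^ 2 ≤ An C u n * An C u (n + 2) := by
  unfold An
  rw [ConvA.Zd_eq, ConvA.Zd_eq, ConvA.Zd_eq]
  have e1 : 2 * (n + 1) = n + (n + 2) := by ring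
  have e2 : 2 * n = n + n := by ring
  have e3 : 2 * (n + 2) = (n + 2) + (n + 2) := by ring
  set S : Finset ℤ := Finset.Icc (-((n + 2 : ℕ) : ℤ)) ((n + 2 : ℕ) : ℤ) with hS
  have hs : Finset.Icc (-(n : ℤ)) n ⊆ S := by
    rw [hS]
    apply Finset.Icc_subset_Icc
    · push_cast
      omega
    · push_cast
      omega
  rw [e1, e2, e3, ConvA.Kk_pair C (-u) phi n (n + 2) S hs, ConvA.Kk_pair C (-u) phi n n S hs,
    ConvA.Kk_pair C (-u) phi (n + 2) (n + 2) S (Finset.Subset.refl _)]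
  have hr : ∀ y, 0 ≤ rh C (-u) phi 0 / rh C (-u) phi y := fun y =>
    div_nonneg (rh_pos C _ _ 0).le (rh_pos C _ _ y).le
  refine Finset.sum_sq_le_sum_mul_sum_of_sq_le_mul _ ?_ ?_ ?_
  · intro y _
    exact mul_nonneg (hr y) (mul_self_nonneg _)
  · intro y _
    exact mul_nonneg (hr y) (mul_self_nonneg _)
  · intro y _
    refine le_of_eq ?_
    ring

theorem An_ren (C : Chain) (hnl : ∀ x, C.p x x = 0) (u : ℝ) :
    RenS (G (Kp C) (Km C) u) (An C u) where
  zero := Pool.Agent.AZ.Zd_zero C (vu u) 0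
  succ n := by
    have h1 := Pool.Agent.AZ.Zd_renewal C (vu u) (n := 2 * (n + 1)) (by omega)
    show Zd C (vu u) (2 * (n + 1)) 0 0 = _
    rw [h1, ConvA.sum_pairs]
    refine Finset.sum_congr rfl fun k hk => ?_
    rw [Finset.mem_range] at hk
    have h2 : 2 * (n + 1) - (2 * k + 1) = 2 * (n - k) + 1 := by omega
    have h3 : 2 * (n + 1) - 2 * (k + 1) = 2 * (n - k) := by omega
    rw [h2, h3, Zd_odd C hnl, mul_zero, zero_add, Kv_half C hnl]
    rfl
  pos n := Pool.Agent.AZ.Zd_even_pos C (vu u) n 0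
  conv n := An_conv C u n

end

end Pool.Agent.AS
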