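import Mathlib

/-!
# Elementary sums (module S6 of project AS)
-/

namespace Pool.Agent.AS

theorem conv_exp {θ c : ℝ} (hθ : 0 ≤ θ) (hc : 0 < c) : ∃ K : ℝ, 0 < K ∧ ∀ n : ℕ,
    ∑ i ∈ Finset.range (n + 1), ((i : ℝ) + 1) ^ (-θ) * Real.exp (-(c * ((n : ℝ) - i))) ≤
      K * ((n : ℝ) + 1) ^ (-θ) := by
  obtain ⟨m, hm⟩ := exists_nat_ge θ
  have hs : Summable fun j : ℕ => ((j : ℝ) + 1) ^ θ * Real.exp (-(c * j)) := by
    have h0 := (summable_nat_add_iff 1).mpr (Real.summable_pow_mul_exp_neg_nat_mul m hc)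
    have h1 := h0.mul_left (Real.exp c)
    refine Summable.of_nonneg_of_le (fun j => by positivity) (fun j => ?_) h1
    have hj : (1 : ℝ) ≤ (j : ℝ) + 1 := by
      have : (0 : ℝ) ≤ j := Nat.cast_nonneg j
      linarith
    have h2 : ((j : ℝ) + 1) ^ θ ≤ ((j : ℝ) + 1) ^ m := by
      rw [← Real.rpow_natCast]
      exact Real.rpow_le_rpow_of_exponent_le hj hm
    have h3 : Real.exp c * (((j + 1 : ℕ) : ℝ) ^ m * Real.exp (-c * ((j + 1 : ℕ) : ℝ))) =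
        ((j : ℝ) + 1) ^ m * Real.exp (-(c * j)) := by
      have : Real.exp (-(c * j)) = Real.exp c * Real.exp (-c * ((j + 1 : ℕ) : ℝ)) := by
        rw [← Real.exp_add]
        congr 1
        push_cast
        ring
      rw [this]
      push_cast
      ring
    rw [h3]
    exact mul_le_mul_of_nonneg_right h2 (Real.exp_pos _).le
  refine ⟨(∑' j : ℕ, ((j : ℝ) + 1) ^ θ * Real.exp (-(c * j))) + 1, ?_, fun n => ?_⟩
  · have : 0 ≤ ∑' j : ℕ, ((j : ℝ) + 1) ^ θ * Real.exp (-(c * j)) :=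
      tsum_nonneg (fun j => by positivity)
    linarith
  have h1 : ∑ i ∈ Finset.range (n + 1), ((i : ℝ) + 1) ^ (-θ) *
      Real.exp (-(c * ((n : ℝ) - i))) ≤
      ∑ i ∈ Finset.range (n + 1), ((n : ℝ) + 1) ^ (-θ) *
        ((((n - i : ℕ) : ℝ) + 1) ^ θ * Real.exp (-(c * ((n - i : ℕ) : ℝ)))) := by
    apply Finset.sum_le_sum
    intro i hi
    have hin : i ≤ n := Nat.lt_succ_iff.mp (Finset.mem_range.mp hi)
    have hc1 : ((n - i : ℕ) : ℝ) = (n : ℝ) - i := by push_cast [Nat.cast_sub hin]; ring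
    rw [hc1]
    have hi0 : (0 : ℝ) ≤ i := Nat.cast_nonneg i
    have hn0 : (i : ℝ) ≤ n := by exact_mod_cast hin
    have h2 : ((i : ℝ) + 1) ^ (-θ) ≤ ((n : ℝ) + 1) ^ (-θ) * (((n : ℝ) - i) + 1) ^ θ := by
      have h3 : ((n : ℝ) + 1) ^ θ ≤ (((i : ℝ) + 1) * (((n : ℝ) - i) + 1)) ^ θ := by
        apply Real.rpow_le_rpow (by linarith) _ hθ
        nlinarith
      rw [Real.mul_rpow (by linarith) (by linarith)] at h3
      have h4 : 0 < ((i : ℝ) + 1) ^ θ := Real.rpow_pos_of_pos (by linarith) _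
      have h5 : 0 < ((n : ℝ) + 1) ^ θ := Real.rpow_pos_of_pos (by linarith) _
      rw [Real.rpow_neg (by linarith), Real.rpow_neg (by linarith), ← one_div, ← div_eq_inv_mul,
        div_le_div_iff₀ h4 h5]
      linarith
    calc ((i : ℝ) + 1) ^ (-θ) * Real.exp (-(c * ((n : ℝ) - i)))
        ≤ (((n : ℝ) + 1) ^ (-θ) * (((n : ℝ) - i) + 1) ^ θ) * Real.exp (-(c * ((n : ℝ) - i))) :=
          mul_le_mul_of_nonneg_right h2 (Real.exp_pos _).le
      _ = _ := by ring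
  refine h1.trans ?_
  rw [← Finset.mul_sum, mul_comm]
  apply mul_le_mul_of_nonneg_right _ (Real.rpow_nonneg (by positivity) _)
  have h6 : ∑ i ∈ Finset.range (n + 1),
      ((((n - i : ℕ) : ℝ) + 1) ^ θ * Real.exp (-(c * ((n - i : ℕ) : ℝ)))) =
      ∑ j ∈ Finset.range (n + 1), (((j : ℝ) + 1) ^ θ * Real.exp (-(c * j))) := by
    have := Finset.sum_range_reflect
      (fun j : ℕ => (((j : ℝ) + 1) ^ θ * Real.exp (-(c * j)))) (n + 1)
    rw [← this]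
    apply Finset.sum_congr rfl
    intro i _
    have : n + 1 - 1 - i = n - i := by omega
    simp only [this]
  rw [h6]
  have h7 := hs.sum_le_tsum (Finset.range (n + 1)) (fun j _ => by positivity)
  linarith

theorem sum_rpow {θ : ℝ} (h0 : 0 ≤ θ) (h1 : θ < 1) : ∃ K : ℝ, 0 < K ∧ ∀ n : ℕ,
    ∑ i ∈ Finset.range n, ((i : ℝ) + 1) ^ (-θ) ≤ K * (n : ℝ) ^ (1 - θ) := by
  have ha : 0 < 1 - θ := by linarith
  refine ⟨1 / (1 - θ), by positivity, fun n => ?_⟩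
  induction n with
  | zero =>
    rw [Finset.range_zero, Finset.sum_empty, Nat.cast_zero]
    exact mul_nonneg (by positivity) (Real.rpow_nonneg le_rfl _)
  | succ n ih =>
    rw [Finset.sum_range_succ]
    have hn : (0 : ℝ) ≤ n := Nat.cast_nonneg n
    have hn1 : (0 : ℝ) < (n : ℝ) + 1 := by linarith
    have hs : (-1 : ℝ) ≤ -(1 / ((n : ℝ) + 1)) := by
      have : 1 / ((n : ℝ) + 1) ≤ 1 := by
        rw [div_le_one hn1]
        linarith
      linarith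
    have h2 := rpow_one_add_le_one_add_mul_self hs ha.le (by linarith : 1 - θ ≤ 1)
    have h3 : (n : ℝ) = ((n : ℝ) + 1) * (1 + -(1 / ((n : ℝ) + 1))) := by
      field_simp
      ring
    have h4 : (n : ℝ) ^ (1 - θ) =
        ((n : ℝ) + 1) ^ (1 - θ) * (1 + -(1 / ((n : ℝ) + 1))) ^ (1 - θ) := by
      conv_lhs => rw [h3]
      rw [Real.mul_rpow hn1.le (by linarith)]
    have h5 : ((n : ℝ) + 1) ^ (-θ) = ((n : ℝ) + 1) ^ (1 - θ) * (1 / ((n : ℝ) + 1)) := by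
      rw [mul_one_div, show (-θ : ℝ) = (1 - θ) - 1 by ring, Real.rpow_sub_one hn1.ne']
    have h6 : (n : ℝ) ^ (1 - θ) ≤ ((n : ℝ) + 1) ^ (1 - θ) - (1 - θ) * ((n : ℝ) + 1) ^ (-θ) := by
      rw [h4, h5]
      have h7 : 0 < ((n : ℝ) + 1) ^ (1 - θ) := Real.rpow_pos_of_pos hn1 _
      nlinarith
    have h8 : ((n + 1 : ℕ) : ℝ) = (n : ℝ) + 1 := by push_cast; ring
    rw [h8]
    have h9 : 1 / (1 - θ) * (n : ℝ) ^ (1 - θ) ≤
        1 / (1 - θ) * (((n : ℝ) + 1) ^ (1 - θ) - (1 - θ) * ((n : ℝ) + 1) ^ (-θ)) :=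
      mul_le_mul_of_nonneg_left h6 (by positivity)
    have h10 : 1 / (1 - θ) * (((n : ℝ) + 1) ^ (1 - θ) - (1 - θ) * ((n : ℝ) + 1) ^ (-θ)) =
        1 / (1 - θ) * ((n : ℝ) + 1) ^ (1 - θ) - ((n : ℝ) + 1) ^ (-θ) := by
      field_simp
    linarith

theorem sum_sq_bdd {θ : ℝ} (h1 : 1 / 2 < θ) : ∃ K : ℝ, 0 < K ∧ ∀ n : ℕ,
    ∑ i ∈ Finset.range n, (((i : ℝ) + 1) ^ (-θ)) ^ 2 ≤ K := by
  have hs : Summable fun i : ℕ => (((i : ℝ) + 1) ^ (-θ)) ^ 2 := by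
    have h0 : Summable fun i : ℕ => (i : ℝ) ^ (-(2 * θ)) :=
      Real.summable_nat_rpow.mpr (by linarith)
    have h2 := (summable_nat_add_iff 1).mpr h0
    refine h2.congr (fun i => ?_)
    have hi : (0 : ℝ) ≤ (i : ℝ) + 1 := by positivity
    rw [← Real.rpow_natCast, ← Real.rpow_mul hi]
    push_cast
    congr 1
    ring
  refine ⟨(∑' i : ℕ, (((i : ℝ) + 1) ^ (-θ)) ^ 2) + 1, ?_, fun n => ?_⟩
  · have : 0 ≤ ∑' i : ℕ, (((i : ℝ) + 1) ^ (-θ)) ^ 2 := tsum_nonneg (fun j => by positivity)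
    linarith
  · have h7 := hs.sum_le_tsum (Finset.range n) (fun j _ => by positivity)
    linarith

end Pool.Agent.AS
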