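import Pool.Agent.Lib.MP_daa227_pr_AS.Defs
import Pool.Agent.Lib.MP_daa227_pr_OT.KConv

/-!
# The tilted renewal sequence is nonincreasing
-/

namespace Pool.Agent.AS

open MeasureTheory ProbabilityTheory Set Filter
open scoped ENNReal Topology

noncomputable section

namespace Dec

variable {a b : ℕ → ℝ} {α : ℝ}

theorem a_nonneg (hK : Ker a b α) (k : ℕ) : 0 ≤ a k := by
  rcases Nat.eq_zero_or_pos k with h | h
  · subst h
    rw [hK.a_zero]
  · exact (hK.a_pos k h).le

theorem G_nonneg (hK : Ker a b α) (u : ℝ) (k : ℕ) : 0 ≤ G a b u k := by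
  unfold G
  have h1 := a_nonneg hK k
  have h2 := hK.b_nonneg k
  positivity

theorem rec_tilt {u F : ℝ} {A : ℕ → ℝ} (hA : RenS (G a b u) A) (n : ℕ) :
    A (n + 1) * Real.exp (-(2 * F * ((n + 1 : ℕ) : ℝ))) =
      ∑ k ∈ Finset.range (n + 1), (G a b u (k + 1) * Real.exp (-(2 * F * ((k : ℝ) + 1)))) *
        (A (n - k) * Real.exp (-(2 * F * ((n - k : ℕ) : ℝ)))) := by
  rw [hA.succ, Finset.sum_mul]
  refine Finset.sum_congr rfl fun k hk => ?_
  rw [Finset.mem_range] at hk
  have h1 : ((n - k : ℕ) : ℝ) = (n : ℝ) - k := by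
    rw [Nat.cast_sub (by omega)]
  have h2 : Real.exp (-(2 * F * ((n + 1 : ℕ) : ℝ))) =
      Real.exp (-(2 * F * ((k : ℝ) + 1))) * Real.exp (-(2 * F * ((n - k : ℕ) : ℝ))) := by
    rw [← Real.exp_add, h1]
    congr 1
    push_cast
    ring
  rw [h2]
  ring

end Dec

variable {a b : ℕ → ℝ} {α : ℝ}

theorem bn_le_one {u F : ℝ} (hK : Ker a b α) (hR : Root a b u F) {A : ℕ → ℝ}
    (hA : RenS (G a b u) A) (n : ℕ) : A n * Real.exp (-(2 * F * n)) ≤ 1 := by
  induction n using Nat.strong_induction_on with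
  | _ n ih =>
    rcases Nat.eq_zero_or_pos n with h | h
    · subst h
      rw [hA.zero]
      simp
    · obtain ⟨m, rfl⟩ : ∃ m, n = m + 1 := ⟨n - 1, by omega⟩
      rw [Dec.rec_tilt hA m]
      have h0 : ∀ k : ℕ, 0 ≤ G a b u (k + 1) * Real.exp (-(2 * F * ((k : ℝ) + 1))) := fun k =>
        mul_nonneg (Dec.G_nonneg hK u _) (Real.exp_pos _).le
      calc ∑ k ∈ Finset.range (m + 1), (G a b u (k + 1) * Real.exp (-(2 * F * ((k : ℝ) + 1)))) *
            (A (m - k) * Real.exp (-(2 * F * ((m - k : ℕ) : ℝ))))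
          ≤ ∑ k ∈ Finset.range (m + 1), G a b u (k + 1) * Real.exp (-(2 * F * ((k : ℝ) + 1))) := by
            refine Finset.sum_le_sum fun k _ => ?_
            exact mul_le_of_le_one_right (h0 k) (ih (m - k) (by omega))
        _ ≤ 1 := sum_le_hasSum _ (fun k _ => h0 k) hR.2

theorem bn_anti {u F : ℝ} (hK : Ker a b α) (hR : Root a b u F) {A : ℕ → ℝ}
    (hA : RenS (G a b u) A) {m n : ℕ} (hmn : m ≤ n) :
    A n * Real.exp (-(2 * F * n)) ≤ A m * Real.exp (-(2 * F * m)) := by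
  have h1 : ∀ k : ℕ, A (k + 1) * Real.exp (-(2 * F * ((k + 1 : ℕ) : ℝ))) ≤
      A k * Real.exp (-(2 * F * (k : ℝ))) := by
    intro k
    refine Pool.Agent.OT.K1.anti (f := fun k : ℕ => A k * Real.exp (-(2 * F * (k : ℝ))))
      (fun k => mul_pos (hA.pos k) (Real.exp_pos _)) ?_ (fun k => bn_le_one hK hR hA k) k
    intro k
    have h2 := hA.conv k
    have h3 : Real.exp (-(2 * F * ((k + 1 : ℕ) : ℝ))) ^ 2 =
        Real.exp (-(2 * F * (k : ℝ))) * Real.exp (-(2 * F * ((k + 2 : ℕ) : ℝ))) := by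
      rw [← Real.exp_nat_mul, ← Real.exp_add]
      congr 1
      push_cast
      ring
    show (A (k + 1) * Real.exp (-(2 * F * ((k + 1 : ℕ) : ℝ)))) ^ 2 ≤
      A k * Real.exp (-(2 * F * (k : ℝ))) * (A (k + 2) * Real.exp (-(2 * F * ((k + 2 : ℕ) : ℝ))))
    rw [mul_pow, h3]
    have h4 : 0 ≤ Real.exp (-(2 * F * (k : ℝ))) * Real.exp (-(2 * F * ((k + 2 : ℕ) : ℝ))) := by
      positivity
    calc A (k + 1) ^ 2 * (Real.exp (-(2 * F * (k : ℝ))) * Real.exp (-(2 * F * ((k + 2 : ℕ) : ℝ))))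
        ≤ A k * A (k + 2) *
          (Real.exp (-(2 * F * (k : ℝ))) * Real.exp (-(2 * F * ((k + 2 : ℕ) : ℝ)))) :=
          mul_le_mul_of_nonneg_right h2 h4
      _ = _ := by ring
  induction n, hmn using Nat.le_induction with
  | base => exact le_rfl
  | succ n _ ih => exact (h1 n).trans ih

/-- renewal identity; the second factor is the probability of a gap larger than `n - m` -/
theorem bn_id {u F : ℝ} {A : ℕ → ℝ} (hA : RenS (G a b u) A) (n : ℕ) :
    ∑ m ∈ Finset.range (n + 1), A m * Real.exp (-(2 * F * m)) *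
      (1 - ∑ j ∈ Finset.range (n - m), G a b u (j + 1) * Real.exp (-(2 * F * ((j : ℝ) + 1)))) =
      1 := by
  induction n with
  | zero =>
    rw [Finset.sum_range_one, hA.zero]
    simp
  | succ n ih =>
    rw [Finset.sum_range_succ, Nat.sub_self, Finset.range_zero, Finset.sum_empty, sub_zero, mul_one]
    have h1 : ∀ m ∈ Finset.range (n + 1), A m * Real.exp (-(2 * F * m)) *
        (1 - ∑ j ∈ Finset.range (n + 1 - m), G a b u (j + 1) *
          Real.exp (-(2 * F * ((j : ℝ) + 1)))) =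
        A m * Real.exp (-(2 * F * m)) *
        (1 - ∑ j ∈ Finset.range (n - m), G a b u (j + 1) * Real.exp (-(2 * F * ((j : ℝ) + 1)))) -
        (G a b u (n - m + 1) * Real.exp (-(2 * F * (((n - m : ℕ) : ℝ) + 1)))) *
          (A m * Real.exp (-(2 * F * m))) := by
      intro m hm
      rw [Finset.mem_range] at hm
      have h2 : n + 1 - m = n - m + 1 := by omega
      rw [h2, Finset.sum_range_succ]
      ring
    rw [Finset.sum_congr rfl h1, Finset.sum_sub_distrib, ih, Dec.rec_tilt hA n]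
    have h3 : ∑ m ∈ Finset.range (n + 1),
        (G a b u (n - m + 1) * Real.exp (-(2 * F * (((n - m : ℕ) : ℝ) + 1)))) *
          (A m * Real.exp (-(2 * F * m))) =
        ∑ k ∈ Finset.range (n + 1), (G a b u (k + 1) * Real.exp (-(2 * F * ((k : ℝ) + 1)))) *
        (A (n - k) * Real.exp (-(2 * F * ((n - k : ℕ) : ℝ)))) := by
      rw [← Finset.sum_flip]
      refine Finset.sum_congr rfl fun m hm => ?_
      rw [Finset.mem_range] at hm
      have h4 : n - (n - m) = m := by omega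
      rw [h4]
    rw [h3]
    ring

end

end Pool.Agent.AS
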