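import Pool.Agent.Lib.MP_daa227_pr_AZ.Basic
import Pool.Agent.Lib.MP_daa227_pr_OT.Defs

/-!
# Copolymer with light negative excursions: the transition has order `1 / α`. Definitions.
-/

namespace Pool.Agent.AS

open MeasureTheory ProbabilityTheory Set Filter
open scoped ENNReal Topology
open MP_daa227_pr (Chain Zk Zf Gk Gf KU K0 ushift shift seqLaw ExpMom Good GoodW mom DepOn)
open Pool.Agent.AZ (Kv Zd Zfd cneg lmg)
open Pool.Agent.OT (phi Wc Kp Km)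

noncomputable section

/-! ### Sequences -/

/-- excursion laws in half time: positive excursions `a` with loop exponent `α < 1/2`, negative
excursions `b` exponentially small -/
structure Ker (a b : ℕ → ℝ) (α : ℝ) : Prop where
  α_pos : 0 < α
  α_lt : α < 1 / 2
  a_zero : a 0 = 0
  b_zero : b 0 = 0
  a_pos : ∀ k : ℕ, 1 ≤ k → 0 < a k
  a_anti : ∀ k : ℕ, 1 ≤ k → a (k + 1) ≤ a k
  b_nonneg : ∀ k : ℕ, 0 ≤ b k
  sum_one : HasSum (fun k => a k + b k) 1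
  low : ∀ ε : ℝ, 0 < ε → ∃ c : ℝ, 0 < c ∧ ∀ k : ℕ, 1 ≤ k → c * (k : ℝ) ^ (-(1 + α + ε)) ≤ a k
  up : ∀ ε : ℝ, 0 < ε → ∃ c : ℝ, 0 < c ∧ ∀ k : ℕ, 1 ≤ k → a k ≤ c * (k : ℝ) ^ (-(1 + α - ε))
  neg : ∃ c₀ M : ℝ, 0 < c₀ ∧ 0 < M ∧ ∀ k : ℕ, b k ≤ M * Real.exp (-(c₀ * k))

/-- annealed excursion weights at distance `u` from the annealed critical point, in half time -/
def G (a b : ℕ → ℝ) (u : ℝ) (k : ℕ) : ℝ :=
  Real.exp u * a k + Real.exp (2 * k * u) * b k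

/-- `F` is the annealed free energy (per unit of time) -/
def Root (a b : ℕ → ℝ) (u F : ℝ) : Prop :=
  0 < F ∧ HasSum (fun k : ℕ => G a b u (k + 1) * Real.exp (-(2 * F * ((k : ℝ) + 1)))) 1

/-- `A` is the renewal sequence of `g`, positive and log-convex -/
structure RenS (g A : ℕ → ℝ) : Prop where
  zero : A 0 = 1
  succ : ∀ n : ℕ, A (n + 1) = ∑ k ∈ Finset.range (n + 1), g (k + 1) * A (n - k)
  pos : ∀ n : ℕ, 0 < A n
  conv : ∀ n : ℕ, A (n + 1) ^ 2 ≤ A n * A (n + 2)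

/-! ### The chain -/

/-- site exponents of the annealed copolymer at distance `u` from the annealed critical point -/
def vu (u : ℝ) (z : ℤ) : ℝ := u * phi z

/-- annealed constrained partition function in half time -/
def An (C : Chain) (u : ℝ) (n : ℕ) : ℝ := Zd C (vu u) (2 * n) 0 0

/-- `Tn C v η n x = E_x[exp (∑_{i=1}^n v(S_i)) η(S_n)]` -/
def Tn (C : Chain) (v η : ℤ → ℝ) : ℕ → ℤ → ℝ
  | 0, x => η x
  | n + 1, x => ∑ z ∈ Finset.Icc (x - 1) (x + 1), C.p x z * Real.exp (v z) * Tn C v η n z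

/-- `Nn C v η n x = E_x[exp (∑_{i=1}^n v(S_i)) η(S_n); S_i ≠ 0 for 1 ≤ i ≤ n]` -/
def Nn (C : Chain) (v η : ℤ → ℝ) : ℕ → ℤ → ℝ
  | 0, x => η x
  | n + 1, x => ∑ z ∈ Finset.Icc (x - 1) (x + 1) \ {0}, C.p x z * Real.exp (v z) * Nn C v η n z

/-- weight function on the nonpositive half line -/
structure IsW (C : Chain) (c₀ : ℝ) (w : ℤ → ℝ) : Prop where
  c_pos : 0 < c₀
  zero : w 0 = 1
  pos : ∀ x : ℤ, x ≤ 0 → 0 < w x
  out : ∀ x : ℤ, 0 < x → w x = 0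
  sup : ∀ x : ℤ, x < 0 → Real.exp c₀ * ∑ z ∈ Finset.Icc (x - 1) (x + 1), C.p x z * w z ≤ w x

/-- terminal function: `x > 0` and the first visit to `0` takes exactly `2N` steps -/
def kap (C : Chain) (N : ℕ) (x : ℤ) : ℝ := if 0 < x then K0 C (2 * N) x else 0

/-- two replicas: `Hn C u γ η n x y = E_{x,y}[exp (∑_{i=1}^n (u 1_{S_i ≤ 0} + u 1_{S'_i ≤ 0} +
γ 1_{S_i ≤ 0, S'_i ≤ 0})) η(S_n) η(S'_n)]` -/
def Hn (C : Chain) (u γ : ℝ) (η : ℤ → ℝ) : ℕ → ℤ → ℤ → ℝ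
  | 0, x, y => η x * η y
  | n + 1, x, y => ∑ z ∈ Finset.Icc (x - 1) (x + 1), ∑ z' ∈ Finset.Icc (y - 1) (y + 1),
      C.p x z * C.p y z' * Real.exp (vu u z + vu u z' + γ * (phi z * phi z')) *
        Hn C u γ η n z z'

/-- partition function with the terminal function `η` -/
def Zt (C : Chain) (W : ℝ → ℤ → ℝ) (η : ℤ → ℝ) : ℕ → (ℕ → ℝ) → ℤ → ℝ
  | 0, _, x => η x
  | n + 1, ω, x => ∑ z ∈ Finset.Icc (x - 1) (x + 1), C.p x z * W (ω 0) z * Zt C W η n (shift 1 ω) z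

/-- quenched average of the logarithm of the constrained partition function -/
def Ps (C : Chain) (μ : Measure ℝ) (β h : ℝ) (n : ℕ) : ℝ :=
  ∫ ω, Real.log (Zk C (Wc β h) n ω 0 0) ∂seqLaw μ

/-- quenched free energy -/
def Fq (C : Chain) (μ : Measure ℝ) (β h : ℝ) : ℝ :=
  ⨆ n : ℕ, Ps C μ β h (2 * (n + 1)) / (2 * (n + 1) : ℕ)

/-! ### An explicit chain -/

/-- transition probabilities of an explicit chain with positive loop exponent `α`: upwards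
`x / (2x - 1 + 2α)` on `x > 0`, `1/2` at `0`, `1/3` downwards on `x < 0` -/
def pE (α : ℝ) (x y : ℤ) : ℝ :=
  if 0 < x then
    (if y = x + 1 then (x : ℝ) / (2 * x - 1 + 2 * α)
      else if y = x - 1 then ((x : ℝ) - 1 + 2 * α) / (2 * x - 1 + 2 * α) else 0)
  else if x = 0 then (if y = 1 ∨ y = -1 then 1 / 2 else 0)
  else (if y = x + 1 then 2 / 3 else if y = x - 1 then 1 / 3 else 0)

end

end Pool.Agent.AS
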