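import Pool.Agent.Lib.MP_daa227_pr_AS.Defs

/-!
# First return and last visit to zero
-/

namespace Pool.Agent.AS

open MeasureTheory ProbabilityTheory Set Filter
open scoped ENNReal Topology
open MP_daa227_pr (Chain Zk Zf Gk Gf KU K0 ushift shift seqLaw ExpMom Good GoodW mom DepOn)
open Pool.Agent.AZ (Kv Zd Zfd cneg lmg)
open Pool.Agent.OT (phi Wc Kp Km)

noncomputable section

theorem sum_Ioc_shift (f : ℕ → ℝ) (n : ℕ) :
    ∑ t ∈ Finset.Ioc 0 n, f t = ∑ t ∈ Finset.range n, f (t + 1) := by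
  refine Finset.sum_bij' (fun t _ => t - 1) (fun t _ => t + 1) ?_ ?_ ?_ ?_ ?_
  · intro t ht
    rw [Finset.mem_Ioc] at ht
    rw [Finset.mem_range]
    omega
  · intro t ht
    rw [Finset.mem_range] at ht
    rw [Finset.mem_Ioc]
    omega
  · intro t ht
    rw [Finset.mem_Ioc] at ht
    omega
  · intro t ht
    omega
  · intro t ht
    rw [Finset.mem_Ioc] at ht
    have h : t - 1 + 1 = t := by omega
    rw [h]

theorem sum_nb_split (C : Chain) (f : ℤ → ℝ) (x : ℤ) :
    ∑ z ∈ Finset.Icc (x - 1) (x + 1), C.p x z * f z =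
      C.p x 0 * f 0 + ∑ z ∈ Finset.Icc (x - 1) (x + 1) \ {0}, C.p x z * f z := by
  by_cases h : (0 : ℤ) ∈ Finset.Icc (x - 1) (x + 1)
  · rw [← Finset.sum_sdiff (Finset.singleton_subset_iff.2 h), Finset.sum_singleton, add_comm]
  · rw [C.near x 0 h, zero_mul, zero_add, Finset.sdiff_singleton_eq_erase,
      Finset.erase_eq_of_notMem h]

theorem first_return (C : Chain) (v η : ℤ → ℝ) (n : ℕ) (x : ℤ) :
    Tn C v η n x = ∑ t ∈ Finset.Ioc 0 n, Kv C v t x * Tn C v η (n - t) 0 + Nn C v η n x := by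
  induction n generalizing x with
  | zero => simp [Tn, Nn]
  | succ n ih =>
    have hK0 : ∀ z : ℤ, Kv C v 0 z = 0 := fun z => rfl
    have e1 : Tn C v η (n + 1) x =
        C.p x 0 * (Real.exp (v 0) * Tn C v η n 0) +
          ∑ z ∈ Finset.Icc (x - 1) (x + 1) \ {0}, C.p x z * (Real.exp (v z) * Tn C v η n z) := by
      rw [Tn]
      simp only [mul_assoc]
      exact sum_nb_split C (fun z => Real.exp (v z) * Tn C v η n z) x
    have e2 : ∑ z ∈ Finset.Icc (x - 1) (x + 1) \ {0}, C.p x z * (Real.exp (v z) * Tn C v η n z) =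
        ∑ t ∈ Finset.range (n + 1), (∑ z ∈ Finset.Icc (x - 1) (x + 1) \ {0},
          C.p x z * Real.exp (v z) * Kv C v t z) * Tn C v η (n - t) 0 + Nn C v η (n + 1) x := by
      rw [Nn]
      have e3 : ∀ z : ℤ, Tn C v η n z = ∑ t ∈ Finset.range (n + 1),
          Kv C v t z * Tn C v η (n - t) 0 + Nn C v η n z := by
        intro z
        rw [ih z, sum_Ioc_shift (fun t => Kv C v t z * Tn C v η (n - t) 0), Finset.sum_range_succ',
          hK0, zero_mul, add_zero]
      simp only [Finset.sum_mul]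
      rw [Finset.sum_comm, ← Finset.sum_add_distrib]
      refine Finset.sum_congr rfl fun z _ => ?_
      rw [e3 z, ← mul_assoc, mul_add, Finset.mul_sum]
      congr 1
      refine Finset.sum_congr rfl fun t _ => ?_
      ring
    rw [e1, e2, sum_Ioc_shift (fun t => Kv C v t x * Tn C v η (n + 1 - t) 0)]
    have e4 : ∀ t ∈ Finset.range (n + 1), Kv C v (t + 1) x * Tn C v η (n + 1 - (t + 1)) 0 =
        (if t = 0 then C.p x 0 * Real.exp (v 0) else 0) * Tn C v η (n - t) 0 +
        (∑ z ∈ Finset.Icc (x - 1) (x + 1) \ {0},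
          C.p x z * Real.exp (v z) * Kv C v t z) * Tn C v η (n - t) 0 := by
      intro t ht
      rw [Pool.Agent.AZ.Kv_succ, add_mul]
      have h : n + 1 - (t + 1) = n - t := by omega
      rw [h]
    rw [Finset.sum_congr rfl e4, Finset.sum_add_distrib]
    have e5 : ∑ t ∈ Finset.range (n + 1),
        (if t = 0 then C.p x 0 * Real.exp (v 0) else 0) * Tn C v η (n - t) 0 =
        C.p x 0 * (Real.exp (v 0) * Tn C v η n 0) := by
      rw [Finset.sum_range_succ', if_pos rfl, Nat.sub_zero, ← mul_assoc]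
      have h : ∑ t ∈ Finset.range n, (if t + 1 = 0 then C.p x 0 * Real.exp (v 0) else 0) *
          Tn C v η (n - (t + 1)) 0 = 0 :=
        Finset.sum_eq_zero fun t _ => by rw [if_neg (Nat.succ_ne_zero t), zero_mul]
      rw [h, zero_add]
    rw [e5]
    ring

theorem last_zero (C : Chain) (v η : ℤ → ℝ) (n : ℕ) :
    Tn C v η n 0 = ∑ i ∈ Finset.range (n + 1), Zd C v i 0 0 * Nn C v η (n - i) 0 := by
  induction n using Nat.strong_induction_on with
  | _ n ih =>
    rw [first_return, Finset.sum_range_succ', Pool.Agent.AZ.Zd_zero, one_mul, Nat.sub_zero]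
    congr 1
    rw [sum_Ioc_shift (fun t => Kv C v t 0 * Tn C v η (n - t) 0)]
    have e1 : ∀ t ∈ Finset.range n, Kv C v (t + 1) 0 * Tn C v η (n - (t + 1)) 0 =
        ∑ i ∈ Finset.range (n - t), Kv C v (t + 1) 0 * (Zd C v i 0 0 *
          Nn C v η (n - (t + 1) - i) 0) := by
      intro t ht
      rw [Finset.mem_range] at ht
      rw [ih (n - (t + 1)) (by omega), Finset.mul_sum]
      have h : n - (t + 1) + 1 = n - t := by omega
      rw [h]
    have e2 : ∀ i ∈ Finset.range n, Zd C v (i + 1) 0 0 * Nn C v η (n - (i + 1)) 0 =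
        ∑ m ∈ Finset.range (i + 1), Kv C v (m + 1) 0 * Zd C v (i + 1 - (m + 1)) 0 0 *
          Nn C v η (n - (i + 1)) 0 := by
      intro i hi
      rw [Pool.Agent.AZ.Zd_renewal C v (Nat.succ_ne_zero i),
        sum_Ioc_shift (fun m => Kv C v m 0 * Zd C v (i + 1 - m) 0 0), Finset.sum_mul]
    rw [Finset.sum_congr rfl e1, Finset.sum_congr rfl e2, Finset.sum_sigma', Finset.sum_sigma']
    refine Finset.sum_bij' (fun a _ => (⟨a.1 + a.2, a.1⟩ : (_ : ℕ) × ℕ))
      (fun a _ => (⟨a.2, a.1 - a.2⟩ : (_ : ℕ) × ℕ)) ?_ ?_ ?_ ?_ ?_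
    · rintro ⟨t, i⟩ h
      rw [Finset.mem_sigma, Finset.mem_range, Finset.mem_range] at h ⊢
      dsimp only at h ⊢
      omega
    · rintro ⟨i, m⟩ h
      rw [Finset.mem_sigma, Finset.mem_range, Finset.mem_range] at h ⊢
      dsimp only at h ⊢
      omega
    · rintro ⟨t, i⟩ h
      dsimp only
      rw [Nat.add_sub_cancel_left]
    · rintro ⟨i, m⟩ h
      rw [Finset.mem_sigma, Finset.mem_range, Finset.mem_range] at h
      dsimp only at h ⊢
      rw [Nat.add_sub_cancel' (by omega : m ≤ i)]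
    · rintro ⟨t, i⟩ h
      rw [Finset.mem_sigma, Finset.mem_range, Finset.mem_range] at h
      dsimp only at h ⊢
      have h1 : t + i + 1 - (t + 1) = i := by omega
      have h2 : n - (t + i + 1) = n - (t + 1) - i := by omega
      rw [h1, h2, mul_assoc]

end

end Pool.Agent.AS
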