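import Pool.Agent.Lib.MP_daa227_pr_AS.Defs

/-!
# Weight functions: hitting and taboo estimates
-/

namespace Pool.Agent.AS

open MP_daa227_pr (Chain K0)
open Pool.Agent.OT (phi)

noncomputable section

namespace Tab

theorem w_nonneg {C : Chain} {c : ℝ} {w : ℤ → ℝ} (hw : IsW C c w) (x : ℤ) : 0 ≤ w x := by
  rcases le_or_gt x 0 with hx | hx
  · exact (hw.pos x hx).le
  · exact (hw.out x hx).ge

theorem sum_split (C : Chain) (x : ℤ) (f : ℤ → ℝ) :
    ∑ z ∈ Finset.Icc (x - 1) (x + 1), C.p x z * f z =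
      C.p x 0 * f 0 + ∑ z ∈ Finset.Icc (x - 1) (x + 1) \ {0}, C.p x z * f z := by
  by_cases h : (0 : ℤ) ∈ Finset.Icc (x - 1) (x + 1)
  · rw [← Finset.sum_sdiff (Finset.singleton_subset_iff.2 h), Finset.sum_singleton, add_comm]
  · rw [C.near x 0 h, zero_mul, zero_add, Finset.sdiff_singleton_eq_erase, Finset.erase_eq_of_notMem h]

theorem neg_of_mem {x z : ℤ} (hx : x < 0) (hz : z ∈ Finset.Icc (x - 1) (x + 1) \ {0}) : z < 0 := by
  rw [Finset.mem_sdiff, Finset.mem_Icc, Finset.mem_singleton] at hz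
  omega

theorem sup' {C : Chain} {c : ℝ} {w : ℤ → ℝ} (hw : IsW C c w) {x : ℤ} (hx : x < 0) :
    Real.exp c * (C.p x 0 + ∑ z ∈ Finset.Icc (x - 1) (x + 1) \ {0}, C.p x z * w z) ≤ w x := by
  have h1 := hw.sup x hx
  rwa [sum_split, hw.zero, mul_one] at h1

theorem K0_succ (C : Chain) (n : ℕ) (x : ℤ) : K0 C (n + 1) x = (if n = 0 then C.p x 0 else 0) +
    ∑ z ∈ Finset.Icc (x - 1) (x + 1) \ {0}, C.p x z * K0 C n z := rfl

theorem Nn_succ (C : Chain) (v η : ℤ → ℝ) (n : ℕ) (x : ℤ) : Nn C v η (n + 1) x =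
    ∑ z ∈ Finset.Icc (x - 1) (x + 1) \ {0}, C.p x z * Real.exp (v z) * Nn C v η n z := rfl

theorem sum_Ioc_range (f : ℕ → ℝ) (n : ℕ) :
    ∑ t ∈ Finset.Ioc 0 n, f t = ∑ t ∈ Finset.range n, f (t + 1) := by
  induction n with
  | zero => simp
  | succ n ih => rw [Finset.sum_Ioc_succ_top (Nat.zero_le n), Finset.sum_range_succ, ih]

theorem hit_range {C : Chain} {c : ℝ} {w : ℤ → ℝ} (hw : IsW C c w) (n : ℕ) : ∀ x : ℤ, x < 0 →
    ∑ t ∈ Finset.range n, Real.exp (c * (t + 1 : ℕ)) * K0 C (t + 1) x ≤ w x := by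
  induction n with
  | zero =>
    intro x hx
    rw [Finset.range_zero, Finset.sum_empty]
    exact (hw.pos x hx.le).le
  | succ n ih =>
    intro x hx
    refine le_trans ?_ (sup' hw hx)
    have h1 : ∀ t ∈ Finset.range (n + 1), Real.exp (c * (t + 1 : ℕ)) * K0 C (t + 1) x =
        Real.exp c * ((if t = 0 then C.p x 0 else 0) +
          ∑ z ∈ Finset.Icc (x - 1) (x + 1) \ {0}, C.p x z * (Real.exp (c * t) * K0 C t z)) := by
      intro t _
      have h2 : Real.exp (c * (t + 1 : ℕ)) = Real.exp c * Real.exp (c * t) := by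
        rw [← Real.exp_add]
        congr 1
        push_cast
        ring
      rw [K0_succ, h2, mul_assoc]
      congr 1
      rw [mul_add]
      congr 1
      · split_ifs with ht
        · rw [ht]
          simp
        · rw [mul_zero]
      · rw [Finset.mul_sum]
        refine Finset.sum_congr rfl fun z _ => ?_
        ring
    rw [Finset.sum_congr rfl h1, ← Finset.mul_sum]
    refine mul_le_mul_of_nonneg_left ?_ (Real.exp_pos c).le
    rw [Finset.sum_add_distrib]
    apply add_le_add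
    · rw [Finset.sum_ite_eq' (Finset.range (n + 1)) 0]
      simp
    · rw [Finset.sum_comm]
      refine Finset.sum_le_sum fun z hz => ?_
      rw [← Finset.mul_sum]
      refine mul_le_mul_of_nonneg_left ?_ (C.nonneg x z)
      rw [Finset.sum_range_succ']
      have h3 : K0 C 0 z = 0 := rfl
      rw [h3, mul_zero, add_zero]
      exact ih z (neg_of_mem hx hz)

theorem Nn_pos_zero {C : Chain} {c : ℝ} {w : ℤ → ℝ} (hw : IsW C c w) (v : ℤ → ℝ) (n : ℕ) :
    ∀ x : ℤ, 0 < x → Nn C v w n x = 0 := by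
  induction n with
  | zero => exact fun x hx => hw.out x hx
  | succ n ih =>
    intro x hx
    rw [Nn_succ]
    refine Finset.sum_eq_zero fun z hz => ?_
    rw [Finset.mem_sdiff, Finset.mem_Icc, Finset.mem_singleton] at hz
    rw [ih z (by omega), mul_zero]

theorem tab_aux {C : Chain} {c : ℝ} {w : ℤ → ℝ} (hw : IsW C c w) (u : ℝ) (n : ℕ) :
    ∀ x : ℤ, x < 0 → Nn C (vu u) w n x ≤ Real.exp ((u - c) * n) * w x := by
  induction n with
  | zero =>
    intro x _
    have h1 : Nn C (vu u) w 0 x = w x := rfl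
    rw [h1]
    simp
  | succ n ih =>
    intro x hx
    rw [Nn_succ]
    have h1 : ∀ z ∈ Finset.Icc (x - 1) (x + 1) \ {0},
        C.p x z * Real.exp (vu u z) * Nn C (vu u) w n z ≤
          Real.exp u * Real.exp ((u - c) * n) * (C.p x z * w z) := by
      intro z hz
      have hz0 := neg_of_mem hx hz
      have h2 : vu u z = u := by
        unfold vu phi
        rw [if_pos hz0.le, mul_one]
      rw [h2]
      have h3 := ih z hz0
      have h4 : 0 ≤ C.p x z * Real.exp u := mul_nonneg (C.nonneg x z) (Real.exp_pos u).le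
      calc C.p x z * Real.exp u * Nn C (vu u) w n z
          ≤ C.p x z * Real.exp u * (Real.exp ((u - c) * n) * w z) :=
            mul_le_mul_of_nonneg_left h3 h4
        _ = Real.exp u * Real.exp ((u - c) * n) * (C.p x z * w z) := by ring
    refine (Finset.sum_le_sum h1).trans ?_
    rw [← Finset.mul_sum]
    have h5 := sup' hw hx
    have h6 : ∑ z ∈ Finset.Icc (x - 1) (x + 1) \ {0}, C.p x z * w z ≤ Real.exp (-c) * w x := by
      have h7 : Real.exp c * ∑ z ∈ Finset.Icc (x - 1) (x + 1) \ {0}, C.p x z * w z ≤ w x := by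
        refine le_trans ?_ h5
        refine mul_le_mul_of_nonneg_left ?_ (Real.exp_pos c).le
        linarith [C.nonneg x 0]
      have h8 : Real.exp (-c) * (Real.exp c * ∑ z ∈ Finset.Icc (x - 1) (x + 1) \ {0}, C.p x z * w z)
          ≤ Real.exp (-c) * w x := mul_le_mul_of_nonneg_left h7 (Real.exp_pos _).le
      rwa [← mul_assoc, ← Real.exp_add, neg_add_cancel, Real.exp_zero, one_mul] at h8
    calc Real.exp u * Real.exp ((u - c) * n) *
          ∑ z ∈ Finset.Icc (x - 1) (x + 1) \ {0}, C.p x z * w z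
        ≤ Real.exp u * Real.exp ((u - c) * n) * (Real.exp (-c) * w x) :=
          mul_le_mul_of_nonneg_left h6 (by positivity)
      _ = Real.exp ((u - c) * (n + 1 : ℕ)) * w x := by
          rw [← mul_assoc, ← Real.exp_add, ← Real.exp_add]
          congr 2
          push_cast
          ring

end Tab

open Tab

theorem w_hit {C : Chain} {c : ℝ} {w : ℤ → ℝ} (hw : IsW C c w) (n : ℕ) {x : ℤ} (hx : x < 0) :
    ∑ t ∈ Finset.Ioc 0 n, Real.exp (c * t) * K0 C t x ≤ w x := by
  rw [sum_Ioc_range]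
  exact hit_range hw n x hx

theorem w_tab {C : Chain} {c : ℝ} {w : ℤ → ℝ} (hw : IsW C c w) (u : ℝ) (n : ℕ) {x : ℤ}
    (hx : x < 0) : Nn C (vu u) w n x ≤ Real.exp ((u - c) * n) * w x :=
  tab_aux hw u n x hx

theorem w_tab_zero {C : Chain} {c : ℝ} {w : ℤ → ℝ} (hw : IsW C c w) : ∃ K : ℝ, 0 < K ∧
    ∀ (u : ℝ), 0 ≤ u → u ≤ 1 → ∀ n : ℕ,
      Nn C (vu u) w n 0 ≤ K * Real.exp ((u - c) * n) := by
  have hw1 : 0 < w (-1) := hw.pos (-1) (by norm_num)
  have hK : 0 < Real.exp c * w (-1) := mul_pos (Real.exp_pos c) hw1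
  refine ⟨1 + Real.exp c * w (-1), by linarith, ?_⟩
  intro u _ _ n
  cases n with
  | zero =>
    have h1 : Nn C (vu u) w 0 0 = w 0 := rfl
    rw [h1, hw.zero, Nat.cast_zero, mul_zero, Real.exp_zero, mul_one]
    linarith
  | succ n =>
    rw [Nn_succ, Pool.Agent.AZ.nb_zero, Finset.sum_pair (by norm_num),
      Nn_pos_zero hw (vu u) n 1 one_pos, mul_zero, zero_add]
    have h2 : vu u (-1) = u := by
      unfold vu phi
      rw [if_pos (by norm_num), mul_one]
    rw [h2]
    have h3 := tab_aux hw u n (-1) (by norm_num)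
    have h4 : C.p 0 (-1) ≤ 1 := by
      have h5 := C.sum_one 0
      rw [Pool.Agent.AZ.sum_nb] at h5
      have h6 := C.nonneg 0 0
      have h7 := C.nonneg 0 (0 + 1)
      have h8 : (0 : ℤ) - 1 = -1 := by norm_num
      rw [h8] at h5
      linarith
    calc C.p 0 (-1) * Real.exp u * Nn C (vu u) w n (-1)
        ≤ C.p 0 (-1) * Real.exp u * (Real.exp ((u - c) * n) * w (-1)) :=
          mul_le_mul_of_nonneg_left h3 (mul_nonneg (C.nonneg _ _) (Real.exp_pos u).le)
      _ ≤ 1 * Real.exp u * (Real.exp ((u - c) * n) * w (-1)) := by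
          gcongr
      _ = Real.exp c * w (-1) * Real.exp ((u - c) * (n + 1 : ℕ)) := by
          have h9 : Real.exp u * Real.exp ((u - c) * n) =
              Real.exp c * Real.exp ((u - c) * (n + 1 : ℕ)) := by
            rw [← Real.exp_add, ← Real.exp_add]
            congr 1
            push_cast
            ring
          calc 1 * Real.exp u * (Real.exp ((u - c) * n) * w (-1))
              = Real.exp u * Real.exp ((u - c) * n) * w (-1) := by ring
            _ = Real.exp c * w (-1) * Real.exp ((u - c) * (n + 1 : ℕ)) := by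
                rw [h9]
                ring
      _ ≤ (1 + Real.exp c * w (-1)) * Real.exp ((u - c) * (n + 1 : ℕ)) := by
          gcongr
          linarith

end

end Pool.Agent.AS
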