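import Pool.Agent.Lib.MP_daa227_pr_AS.Ren
import Pool.Agent.Lib.MP_daa227_pr_AS.Last
import Pool.Agent.Lib.MP_daa227_pr_AS.Tab

/-!
# The partition function with the terminal function `kap`
-/

namespace Pool.Agent.AS

open MeasureTheory ProbabilityTheory Set Filter
open scoped ENNReal Topology
open MP_daa227_pr (Chain Zk Zf Gk Gf KU K0 ushift shift seqLaw ExpMom Good GoodW mom DepOn)
open Pool.Agent.AZ (Kv Zd Zfd cneg lmg)
open Pool.Agent.OT (phi Wc Kp Km)

noncomputable section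

theorem exp_vu_pos (u : ℝ) {z : ℤ} (hz : 0 < z) : Real.exp (vu u z) = 1 := by
  unfold vu phi
  rw [if_neg (by omega), mul_zero, Real.exp_zero]

/-- `Nn` on the positive side -/
theorem Nn_right (C : Chain) (u : ℝ) {N : ℕ} (hN : 1 ≤ N) (j : ℕ) {x : ℤ} (hx : 0 < x) :
    Nn C (vu u) (kap C N) j x = K0 C (j + 2 * N) x := by
  induction j generalizing x with
  | zero =>
    rw [Nn, kap, if_pos hx, Nat.zero_add]
  | succ j ih =>
    have h : j + 1 + 2 * N = (j + 2 * N) + 1 := by omega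
    rw [Nn, h, K0, if_neg (by omega), zero_add]
    refine Finset.sum_congr rfl fun z hz => ?_
    rw [Finset.mem_sdiff, Finset.mem_Icc, Finset.mem_singleton] at hz
    have hz0 : 0 < z := by omega
    rw [ih hz0, exp_vu_pos u hz0, mul_one]

/-- `Nn` on the negative side -/
theorem Nn_left (C : Chain) (u : ℝ) (N : ℕ) (j : ℕ) {x : ℤ} (hx : x < 0) :
    Nn C (vu u) (kap C N) j x = 0 := by
  induction j generalizing x with
  | zero => rw [Nn, kap, if_neg (by omega)]
  | succ j ih =>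
    rw [Nn]
    refine Finset.sum_eq_zero fun z hz => ?_
    rw [Finset.mem_sdiff, Finset.mem_Icc, Finset.mem_singleton] at hz
    rw [ih (by omega), mul_zero]

theorem Nn_zero_zero (C : Chain) (u : ℝ) (N : ℕ) : Nn C (vu u) (kap C N) 0 0 = 0 := by
  rw [Nn, kap, if_neg (lt_irrefl 0)]

theorem Nn_zero_succ (C : Chain) (u : ℝ) {N : ℕ} (hN : 1 ≤ N) (j : ℕ) :
    Nn C (vu u) (kap C N) (j + 1) 0 = C.p 0 1 * K0 C (j + 2 * N) 1 := by
  rw [Nn, Pool.Agent.AZ.nb_zero, Finset.sum_pair (by norm_num), Nn_right C u hN j one_pos,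
    Nn_left C u N j (by norm_num), exp_vu_pos u one_pos, mul_one, mul_zero, add_zero]

theorem sum_range_even {f : ℕ → ℝ} (hf : ∀ m, f (2 * m + 1) = 0) (n : ℕ) :
    ∑ i ∈ Finset.range (2 * n), f i = ∑ m ∈ Finset.range n, f (2 * m) := by
  induction n with
  | zero => simp
  | succ n ih =>
    have h : 2 * (n + 1) = 2 * n + 1 + 1 := by ring
    rw [h, Finset.sum_range_succ, Finset.sum_range_succ, ih, hf, add_zero, Finset.sum_range_succ]

theorem f_even (C : Chain) (hnl : ∀ x, C.p x x = 0) (u : ℝ) {N : ℕ} (hN : 1 ≤ N) (n : ℕ) :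
    Tn C (vu u) (kap C N) (2 * n) 0 = ∑ m ∈ Finset.range n, An C u m * Kp C (n - m + N) := by
  rw [last_zero, Finset.sum_range_succ, Nat.sub_self, Nn_zero_zero, mul_zero, add_zero,
    sum_range_even (fun m => by rw [Zd_odd C hnl, zero_mul])]
  refine Finset.sum_congr rfl fun m hm => ?_
  rw [Finset.mem_range] at hm
  have h : 2 * n - 2 * m = (2 * (n - m) - 1) + 1 := by omega
  have h2 : 2 * (n - m) - 1 + 2 * N = 2 * (n - m + N) - 1 := by omega
  rw [h, Nn_zero_succ C u hN, h2]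
  rfl

theorem f_odd (C : Chain) (hnl : ∀ x, C.p x x = 0) (u : ℝ) {N : ℕ} (hN : 1 ≤ N) (n : ℕ) :
    Tn C (vu u) (kap C N) (2 * n + 1) 0 = 0 := by
  have h0 : 2 * n + 1 + 1 = 2 * (n + 1) := by ring
  rw [last_zero, h0, sum_range_even (fun m => by rw [Zd_odd C hnl, zero_mul])]
  refine Finset.sum_eq_zero fun m hm => ?_
  rw [Finset.mem_range] at hm
  have h : 2 * n + 1 - 2 * m = 2 * (n - m) + 1 := by omega
  rw [h, Nn_zero_succ C u hN, K0_parity C hnl, mul_zero, mul_zero]
  rw [Int.not_even_iff_odd]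
  exact ⟨((n - m + N : ℕ) : ℤ), by push_cast; ring⟩

theorem f_left {C : Chain} {c : ℝ} {w : ℤ → ℝ} (hw : IsW C c w) {u F D : ℝ} (huF : u - F ≤ c)
    (hD : 0 ≤ D) (N n : ℕ)
    (h : ∀ m : ℕ, m ≤ n → Tn C (vu u) (kap C N) m 0 ≤ D * Real.exp (F * m)) {x : ℤ} (hx : x ≤ 0) :
    Tn C (vu u) (kap C N) n x ≤ D * Real.exp (F * n) * w x := by
  rcases hx.lt_or_eq with hx | hx
  · have hK0 : ∀ t : ℕ, 0 ≤ K0 C t x := fun t => MP_daa227_pr.K0_nonneg C t x
    rw [first_return, Nn_left C u N n hx, add_zero]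
    have hDE : 0 ≤ D * Real.exp (F * n) := mul_nonneg hD (Real.exp_pos _).le
    calc ∑ t ∈ Finset.Ioc 0 n, Kv C (vu u) t x * Tn C (vu u) (kap C N) (n - t) 0
        ≤ ∑ t ∈ Finset.Ioc 0 n, D * Real.exp (F * n) * (Real.exp (c * t) * K0 C t x) := by
          refine Finset.sum_le_sum fun t ht => ?_
          rw [Finset.mem_Ioc] at ht
          rw [Kv_left C u t hx]
          have h1 := h (n - t) (Nat.sub_le n t)
          rw [Nat.cast_sub ht.2] at h1
          have h2 : Real.exp (t * u) * Real.exp (F * ((n : ℝ) - t)) ≤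
              Real.exp (F * n) * Real.exp (c * t) := by
            rw [← Real.exp_add, ← Real.exp_add]
            refine Real.exp_le_exp.2 ?_
            have h3 : (u - F) * t ≤ c * t := mul_le_mul_of_nonneg_right huF (Nat.cast_nonneg t)
            nlinarith
          calc Real.exp (t * u) * K0 C t x * Tn C (vu u) (kap C N) (n - t) 0
              ≤ Real.exp (t * u) * K0 C t x * (D * Real.exp (F * ((n : ℝ) - t))) :=
                mul_le_mul_of_nonneg_left h1 (mul_nonneg (Real.exp_pos _).le (hK0 t))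
            _ = D * K0 C t x * (Real.exp (t * u) * Real.exp (F * ((n : ℝ) - t))) := by ring
            _ ≤ D * K0 C t x * (Real.exp (F * n) * Real.exp (c * t)) :=
                mul_le_mul_of_nonneg_left h2 (mul_nonneg hD (hK0 t))
            _ = D * Real.exp (F * n) * (Real.exp (c * t) * K0 C t x) := by ring
      _ = D * Real.exp (F * n) * ∑ t ∈ Finset.Ioc 0 n, Real.exp (c * t) * K0 C t x := by
          rw [Finset.mul_sum]
      _ ≤ D * Real.exp (F * n) * w x := mul_le_mul_of_nonneg_left (w_hit hw n hx) hDE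
  · subst hx
    rw [hw.zero, mul_one]
    exact h n le_rfl

end

end Pool.Agent.AS
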