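import Pool.Agent.Lib.MP_daa227_pr_AS.Defs

/-!
# Two replicas
-/

namespace Pool.Agent.AS

open MeasureTheory ProbabilityTheory Set Filter
open scoped ENNReal Topology
open MP_daa227_pr (Chain Zk Zf Gk Gf KU K0 ushift shift seqLaw ExpMom Good GoodW mom DepOn)
open Pool.Agent.AZ (Kv Zd Zfd cneg lmg)
open Pool.Agent.OT (phi Wc Kp Km)

noncomputable section

namespace HB

theorem phi_cases (x : ℤ) : (x ≤ 0 ∧ phi x = 1) ∨ (0 < x ∧ phi x = 0) := by
  unfold Pool.Agent.OT.phi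
  by_cases h : x ≤ 0
  · left; exact ⟨h, if_pos h⟩
  · right; exact ⟨by omega, if_neg h⟩

theorem Tn_nonneg {C : Chain} {v η : ℤ → ℝ} (hη : ∀ x, 0 ≤ η x) (n : ℕ) (x : ℤ) :
    0 ≤ Tn C v η n x := by
  induction n generalizing x with
  | zero => exact hη x
  | succ n ih =>
    simp only [Tn]
    exact Finset.sum_nonneg fun z _ =>
      mul_nonneg (mul_nonneg (C.nonneg x z) (Real.exp_pos _).le) (ih z)

/-- the two replica operator -/
def T2 (C : Chain) (u : ℝ) (f : ℤ → ℤ → ℝ) (x y : ℤ) : ℝ :=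
  ∑ z ∈ Finset.Icc (x - 1) (x + 1), ∑ z' ∈ Finset.Icc (y - 1) (y + 1),
    C.p x z * C.p y z' * Real.exp (vu u z + vu u z') * f z z'

theorem T2_mono {C : Chain} {u : ℝ} {f g : ℤ → ℤ → ℝ} (h : ∀ x y, f x y ≤ g x y) (x y : ℤ) :
    T2 C u f x y ≤ T2 C u g x y := by
  unfold T2
  refine Finset.sum_le_sum fun z _ => Finset.sum_le_sum fun z' _ => ?_
  exact mul_le_mul_of_nonneg_left (h z z')
    (mul_nonneg (mul_nonneg (C.nonneg _ _) (C.nonneg _ _)) (Real.exp_pos _).le)

theorem T2_add {C : Chain} {u : ℝ} {f g : ℤ → ℤ → ℝ} (x y : ℤ) :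
    T2 C u (fun a b => f a b + g a b) x y = T2 C u f x y + T2 C u g x y := by
  unfold T2
  rw [← Finset.sum_add_distrib]
  refine Finset.sum_congr rfl fun z _ => ?_
  rw [← Finset.sum_add_distrib]
  refine Finset.sum_congr rfl fun z' _ => ?_
  ring

theorem T2_smul {C : Chain} {u : ℝ} {f : ℤ → ℤ → ℝ} (r : ℝ) (x y : ℤ) :
    T2 C u (fun a b => r * f a b) x y = r * T2 C u f x y := by
  unfold T2
  rw [Finset.mul_sum]
  refine Finset.sum_congr rfl fun z _ => ?_
  rw [Finset.mul_sum]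
  refine Finset.sum_congr rfl fun z' _ => ?_
  ring

theorem T2_sum {C : Chain} {u : ℝ} {ι : Type*} (s : Finset ι) (f : ι → ℤ → ℤ → ℝ) (x y : ℤ) :
    T2 C u (fun a b => ∑ i ∈ s, f i a b) x y = ∑ i ∈ s, T2 C u (f i) x y := by
  classical
  induction s using Finset.induction_on with
  | empty => simp [T2]
  | insert i s hi ih =>
    rw [Finset.sum_insert hi, ← ih, ← T2_add]
    congr 1
    funext a b
    rw [Finset.sum_insert hi]

theorem T2_prod {C : Chain} {u : ℝ} (η : ℤ → ℝ) (n : ℕ) (x y : ℤ) :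
    T2 C u (fun a b => Tn C (vu u) η n a * Tn C (vu u) η n b) x y =
      Tn C (vu u) η (n + 1) x * Tn C (vu u) η (n + 1) y := by
  simp only [Tn, T2]
  rw [Finset.sum_mul_sum]
  refine Finset.sum_congr rfl fun z _ => Finset.sum_congr rfl fun z' _ => ?_
  rw [Real.exp_add]
  ring

theorem Hn_succ (C : Chain) (u γ : ℝ) (η : ℤ → ℝ) (n : ℕ) (x y : ℤ) :
    Hn C u γ η (n + 1) x y =
      T2 C u (fun a b => Hn C u γ η n a b + (Real.exp γ - 1) * (phi a * phi b * Hn C u γ η n a b))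
        x y := by
  simp only [Hn, T2]
  refine Finset.sum_congr rfl fun z _ => Finset.sum_congr rfl fun z' _ => ?_
  have key : Real.exp (γ * (phi z * phi z')) = 1 + (Real.exp γ - 1) * (phi z * phi z') := by
    rcases phi_cases z with ⟨_, h⟩ | ⟨_, h⟩ <;> rcases phi_cases z' with ⟨_, h'⟩ | ⟨_, h'⟩ <;>
      rw [h, h'] <;> simp
  rw [Real.exp_add, key]
  ring

/-- upper bound -/
def B (C : Chain) (u F D γ : ℝ) (η w : ℤ → ℝ) (n : ℕ) (x y : ℤ) : ℝ :=
  Tn C (vu u) η n x * Tn C (vu u) η n y +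
    ∑ m ∈ Finset.range n, ((Real.exp γ - 1) * (2 * D ^ 2 * Real.exp (2 * F * ((n - 1 - m : ℕ) : ℝ)))) *
      (Tn C (vu u) w (m + 1) x * Tn C (vu u) w (m + 1) y)

theorem B_succ (C : Chain) (u F D γ : ℝ) (η w : ℤ → ℝ) (n : ℕ) (x y : ℤ) :
    T2 C u (fun a b => B C u F D γ η w n a b + (Real.exp γ - 1) *
      (2 * D ^ 2 * Real.exp (2 * F * n) * (w a * w b))) x y = B C u F D γ η w (n + 1) x y := by
  have e1 : T2 C u (fun a b => (Real.exp γ - 1) *
      (2 * D ^ 2 * Real.exp (2 * F * n) * (w a * w b))) x y =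
      ((Real.exp γ - 1) * (2 * D ^ 2 * Real.exp (2 * F * n))) *
        (Tn C (vu u) w 1 x * Tn C (vu u) w 1 y) := by
    have h := T2_prod (C := C) (u := u) w 0 x y
    rw [← h, ← T2_smul]
    simp only [Tn]
    congr 1
    funext a b
    ring
  rw [T2_add, e1]
  unfold B
  rw [T2_add, T2_prod, T2_sum, Finset.sum_range_succ']
  have e2 : ∀ m ∈ Finset.range n, T2 C u (fun a b => ((Real.exp γ - 1) *
      (2 * D ^ 2 * Real.exp (2 * F * ((n - 1 - m : ℕ) : ℝ)))) *
      (Tn C (vu u) w (m + 1) a * Tn C (vu u) w (m + 1) b)) x y =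
      ((Real.exp γ - 1) * (2 * D ^ 2 * Real.exp (2 * F * ((n + 1 - 1 - (m + 1) : ℕ) : ℝ)))) *
      (Tn C (vu u) w (m + 1 + 1) x * Tn C (vu u) w (m + 1 + 1) y) := by
    intro m _
    rw [T2_smul, T2_prod]
    congr 5
    have : n - 1 - m = n + 1 - 1 - (m + 1) := by omega
    rw [this]
  rw [Finset.sum_congr rfl e2]
  simp only [Nat.add_sub_cancel, Nat.sub_zero, zero_add]
  ring

end HB

open HB in
theorem hb {C : Chain} {c : ℝ} {w : ℤ → ℝ} (hw : IsW C c w) {u F D γ : ℝ} (hγ : 0 ≤ γ)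
    {η : ℤ → ℝ} (hη : ∀ x, 0 ≤ η x) {q : ℕ → ℝ} (M : ℕ)
    (hf : ∀ n : ℕ, n ≤ M → ∀ x : ℤ, x ≤ 0 → Tn C (vu u) η n x ≤ D * Real.exp (F * n) * w x)
    (hU : ∀ n : ℕ, n ≤ M → ∀ x : ℤ, x ≤ 0 → Tn C (vu u) w n x ≤ Real.exp (F * n) * q n * w x)
    (hq : (Real.exp γ - 1) * ∑ n ∈ Finset.Ioc 0 M, q n ^ 2 ≤ 1 / 2) {n : ℕ} (hn : n ≤ M)
    {x y : ℤ} (hx : x ≤ 0) (hy : y ≤ 0) :
    Hn C u γ η n x y ≤ 2 * D ^ 2 * Real.exp (2 * F * n) * (w x * w y) := by
  have hw0 : ∀ a, 0 ≤ w a := by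
    intro a
    by_cases h : a ≤ 0
    · exact (hw.pos a h).le
    · exact (hw.out a (by omega)).ge
  have hκ : 0 ≤ Real.exp γ - 1 := by
    have := Real.one_le_exp hγ
    linarith
  -- the bound for `B` on the nonpositive quadrant
  have hB : ∀ n : ℕ, n ≤ M → ∀ a b : ℤ, a ≤ 0 → b ≤ 0 →
      B C u F D γ η w n a b ≤ 2 * D ^ 2 * Real.exp (2 * F * n) * (w a * w b) := by
    intro n hn a b ha hb
    have hww : 0 ≤ w a * w b := mul_nonneg (hw0 a) (hw0 b)
    have h1 : Tn C (vu u) η n a * Tn C (vu u) η n b ≤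
        D ^ 2 * Real.exp (2 * F * n) * (w a * w b) := by
      have ha1 := hf n hn a ha
      have hb1 := hf n hn b hb
      calc Tn C (vu u) η n a * Tn C (vu u) η n b
          ≤ (D * Real.exp (F * n) * w a) * (D * Real.exp (F * n) * w b) :=
            mul_le_mul ha1 hb1 (Tn_nonneg hη _ _) ((Tn_nonneg hη _ _).trans ha1)
        _ = D ^ 2 * Real.exp (2 * F * n) * (w a * w b) := by
            have : Real.exp (2 * F * n) = Real.exp (F * n) * Real.exp (F * n) := by
              rw [← Real.exp_add]; ring_nf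
            rw [this]; ring
    have h2 : ∀ m ∈ Finset.range n, ((Real.exp γ - 1) *
        (2 * D ^ 2 * Real.exp (2 * F * ((n - 1 - m : ℕ) : ℝ)))) *
        (Tn C (vu u) w (m + 1) a * Tn C (vu u) w (m + 1) b) ≤
        (2 * D ^ 2 * Real.exp (2 * F * n) * (w a * w b)) *
          ((Real.exp γ - 1) * q (m + 1) ^ 2) := by
      intro m hm
      have hm' : m < n := Finset.mem_range.1 hm
      have ha1 := hU (m + 1) (by omega) a ha
      have hb1 := hU (m + 1) (by omega) b hb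
      have h3 : Tn C (vu u) w (m + 1) a * Tn C (vu u) w (m + 1) b ≤
          Real.exp (2 * F * ((m + 1 : ℕ) : ℝ)) * q (m + 1) ^ 2 * (w a * w b) := by
        calc Tn C (vu u) w (m + 1) a * Tn C (vu u) w (m + 1) b
            ≤ (Real.exp (F * ((m + 1 : ℕ) : ℝ)) * q (m + 1) * w a) *
              (Real.exp (F * ((m + 1 : ℕ) : ℝ)) * q (m + 1) * w b) :=
              mul_le_mul ha1 hb1 (Tn_nonneg hw0 _ _) ((Tn_nonneg hw0 _ _).trans ha1)
          _ = _ := by
              have : Real.exp (2 * F * ((m + 1 : ℕ) : ℝ)) =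
                  Real.exp (F * ((m + 1 : ℕ) : ℝ)) * Real.exp (F * ((m + 1 : ℕ) : ℝ)) := by
                rw [← Real.exp_add]; ring_nf
              rw [this]; ring
      have hc : 0 ≤ (Real.exp γ - 1) *
          (2 * D ^ 2 * Real.exp (2 * F * ((n - 1 - m : ℕ) : ℝ))) := by positivity
      calc _ ≤ ((Real.exp γ - 1) * (2 * D ^ 2 * Real.exp (2 * F * ((n - 1 - m : ℕ) : ℝ)))) *
            (Real.exp (2 * F * ((m + 1 : ℕ) : ℝ)) * q (m + 1) ^ 2 * (w a * w b)) :=
            mul_le_mul_of_nonneg_left h3 hc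
        _ = _ := by
            have hnat : (n : ℝ) = ((n - 1 - m : ℕ) : ℝ) + ((m + 1 : ℕ) : ℝ) := by
              have : n = (n - 1 - m) + (m + 1) := by omega
              exact_mod_cast this
            have : Real.exp (2 * F * n) = Real.exp (2 * F * ((n - 1 - m : ℕ) : ℝ)) *
                Real.exp (2 * F * ((m + 1 : ℕ) : ℝ)) := by
              rw [← Real.exp_add, hnat]; ring_nf
            rw [this]; ring
    have h4 : (Real.exp γ - 1) * ∑ m ∈ Finset.range n, q (m + 1) ^ 2 ≤ 1 / 2 := by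
      refine le_trans (mul_le_mul_of_nonneg_left ?_ hκ) hq
      have : ∑ m ∈ Finset.range n, q (m + 1) ^ 2 =
          ∑ m ∈ (Finset.range n).map ⟨fun m => m + 1, add_left_injective 1⟩, q m ^ 2 := by
        rw [Finset.sum_map]; rfl
      rw [this]
      refine Finset.sum_le_sum_of_subset_of_nonneg ?_ fun i _ _ => sq_nonneg _
      intro i hi
      rw [Finset.mem_map] at hi
      obtain ⟨m, hm, rfl⟩ := hi
      rw [Finset.mem_range] at hm
      rw [Finset.mem_Ioc]
      constructor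
      · exact Nat.succ_pos m
      · show m + 1 ≤ M
        omega
    have hpos : 0 ≤ D ^ 2 * Real.exp (2 * F * n) * (w a * w b) := by positivity
    unfold B
    calc _ ≤ D ^ 2 * Real.exp (2 * F * n) * (w a * w b) +
          ∑ m ∈ Finset.range n, (2 * D ^ 2 * Real.exp (2 * F * n) * (w a * w b)) *
            ((Real.exp γ - 1) * q (m + 1) ^ 2) := add_le_add h1 (Finset.sum_le_sum h2)
      _ = D ^ 2 * Real.exp (2 * F * n) * (w a * w b) *
            (1 + 2 * ((Real.exp γ - 1) * ∑ m ∈ Finset.range n, q (m + 1) ^ 2)) := by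
          rw [← Finset.mul_sum, ← Finset.mul_sum]; ring
      _ ≤ D ^ 2 * Real.exp (2 * F * n) * (w a * w b) * 2 :=
          mul_le_mul_of_nonneg_left (by linarith) hpos
      _ = _ := by ring
  -- induction
  have hmain : ∀ n : ℕ, n ≤ M → ∀ a b : ℤ, Hn C u γ η n a b ≤ B C u F D γ η w n a b := by
    intro n
    induction n with
    | zero =>
      intro _ a b
      simp [Hn, B, Tn]
    | succ n ih =>
      intro hn a b
      have ih' := ih (by omega)
      rw [Hn_succ, ← B_succ]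
      refine T2_mono (fun x y => ?_) a b
      refine add_le_add (ih' x y) (mul_le_mul_of_nonneg_left ?_ hκ)
      have hww : 0 ≤ 2 * D ^ 2 * Real.exp (2 * F * n) * (w x * w y) :=
        mul_nonneg (by positivity) (mul_nonneg (hw0 x) (hw0 y))
      rcases phi_cases x with ⟨hx1, h⟩ | ⟨_, h⟩
      · rcases phi_cases y with ⟨hy1, h'⟩ | ⟨_, h'⟩
        · rw [h, h', one_mul, one_mul]
          exact (ih' x y).trans (hB n (by omega) x y hx1 hy1)
        · rw [h', mul_zero, zero_mul]; exact hww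
      · rw [h, zero_mul, zero_mul]; exact hww
  exact (hmain n hn x y).trans (hB n hn x y hx hy)

end

end Pool.Agent.AS
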