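import Pool.Agent.Lib.MP_daa227_pr_AS.Defs

/-!
# AS module S2 ROOTB: bounds for the annealed free energy
-/

namespace Pool.Agent.AS

open Set Filter
open scoped Topology

namespace RootB

variable {a b : ℕ → ℝ} {α : ℝ}

theorem a_nonneg (hK : Ker a b α) (k : ℕ) : 0 ≤ a k := by
  rcases Nat.eq_zero_or_pos k with h | h
  · rw [h, hK.a_zero]
  · exact (hK.a_pos k h).le

theorem summable_a (hK : Ker a b α) : Summable a :=
  Summable.of_nonneg_of_le (a_nonneg hK) (fun k => le_add_of_nonneg_right (hK.b_nonneg k))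
    hK.sum_one.summable

theorem summable_b (hK : Ker a b α) : Summable b :=
  Summable.of_nonneg_of_le hK.b_nonneg (fun k => le_add_of_nonneg_left (a_nonneg hK k))
    hK.sum_one.summable

theorem tsum_add_one (hK : Ker a b α) : (∑' k, a k) + ∑' k, b k = 1 := by
  rw [← (summable_a hK).tsum_add (summable_b hK)]
  exact hK.sum_one.tsum_eq

theorem tsum_a_pos (hK : Ker a b α) : 0 < ∑' k, a k :=
  (summable_a hK).tsum_pos (a_nonneg hK) 1 (hK.a_pos 1 le_rfl)

theorem root_all (hK : Ker a b α) {u F : ℝ} (hR : Root a b u F) :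
    HasSum (fun k : ℕ => Real.exp u * (a k * Real.exp (-(2 * F * k))) +
      b k * Real.exp (2 * k * (u - F))) 1 := by
  have h2 := (hasSum_nat_add_iff (f := fun k : ℕ => G a b u k * Real.exp (-(2 * F * k)))
    (g := 1) 1).1 (by
      have h := hR.2
      refine h.congr_fun ?_ |> fun h => h
      intro k
      push_cast
      rfl)
  have h3 : (1 : ℝ) + ∑ i ∈ Finset.range 1, G a b u i * Real.exp (-(2 * F * i)) = 1 := by
    simp [G, hK.a_zero, hK.b_zero]
  rw [h3] at h2
  refine h2.congr_fun ?_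
  intro k
  unfold G
  have : Real.exp (2 * k * (u - F)) = Real.exp (2 * k * u) * Real.exp (-(2 * F * k)) := by
    rw [← Real.exp_add]
    congr 1
    ring
  rw [this]
  ring

theorem exp_sub_one_le (x : ℝ) : Real.exp x - 1 ≤ x * Real.exp x := by
  have h := Real.add_one_le_exp (-x)
  have h2 : 0 < Real.exp x := Real.exp_pos x
  have h3 : Real.exp (-x) * Real.exp x = 1 := by
    rw [← Real.exp_add]
    simp
  nlinarith [mul_le_mul_of_nonneg_right h h2.le]

theorem one_sub_exp_le {x s : ℝ} (hx : 0 ≤ x) (hs : 0 ≤ s) (hs1 : s ≤ 1) :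
    1 - Real.exp (-x) ≤ x ^ s := by
  rcases le_total x 1 with h | h
  · have h1 : x ≤ x ^ s := by
      rcases hx.eq_or_lt with h0 | h0
      · rw [← h0]
        exact Real.rpow_nonneg le_rfl s
      · have := Real.rpow_le_rpow_of_exponent_ge h0 h hs1
        rwa [Real.rpow_one] at this
    have h2 := Real.add_one_le_exp (-x)
    linarith
  · have h1 : 1 ≤ x ^ s := Real.one_le_rpow h hs
    have h2 := Real.exp_pos (-x)
    linarith

theorem a_exp_summable (hK : Ker a b α) {F : ℝ} (hF : 0 ≤ F) :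
    Summable fun k : ℕ => a k * Real.exp (-(2 * F * k)) := by
  refine Summable.of_nonneg_of_le (fun k => mul_nonneg (a_nonneg hK k) (Real.exp_pos _).le)
    (fun k => ?_) (summable_a hK)
  have : Real.exp (-(2 * F * k)) ≤ 1 := by
    rw [Real.exp_le_one_iff]
    have : 0 ≤ 2 * F * k := by positivity
    linarith
  exact mul_le_of_le_one_right (a_nonneg hK k) this

theorem b_summable_exp (hK : Ker a b α) {u F : ℝ} (hF : 0 ≤ F) (hR : Root a b u F) :
    Summable fun k : ℕ => b k * Real.exp (2 * k * (u - F)) := by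
  refine Summable.of_nonneg_of_le (fun k => mul_nonneg (hK.b_nonneg k) (Real.exp_pos _).le)
    (fun k => ?_) (root_all hK hR).summable
  have := a_nonneg hK k
  have h2 : 0 ≤ Real.exp u * (a k * Real.exp (-(2 * F * k))) := by positivity
  linarith

theorem root_split (hK : Ker a b α) {u F : ℝ} (hR : Root a b u F) :
    Real.exp u * (∑' k : ℕ, a k * Real.exp (-(2 * F * k))) +
      ∑' k : ℕ, b k * Real.exp (2 * k * (u - F)) = 1 := by
  have h1 := (a_exp_summable hK hR.1.le).mul_left (Real.exp u)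
  have h2 := b_summable_exp hK hR.1.le hR
  rw [← tsum_mul_left, ← h1.tsum_add h2]
  exact (root_all hK hR).tsum_eq

theorem b_up (hK : Ker a b α) : ∃ C u₀ : ℝ, 0 < C ∧ 0 < u₀ ∧ ∀ u : ℝ, 0 < u → u ≤ u₀ →
    Summable (fun k : ℕ => b k * Real.exp (2 * k * u)) ∧
    ∑' k : ℕ, b k * Real.exp (2 * k * u) ≤ (∑' k, b k) + C * u := by
  obtain ⟨c₀, M, hc, hM, hb⟩ := hK.neg
  have hs : Summable fun k : ℕ => 2 * M * ((k : ℝ) ^ 1 * Real.exp (-(c₀ / 2) * k)) :=
    (Real.summable_pow_mul_exp_neg_nat_mul 1 (half_pos hc)).mul_left _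
  refine ⟨(∑' k : ℕ, 2 * M * ((k : ℝ) ^ 1 * Real.exp (-(c₀ / 2) * k))) + 1, c₀ / 4, ?_,
    by positivity, fun u hu hu0 => ?_⟩
  · have : 0 ≤ ∑' k : ℕ, 2 * M * ((k : ℝ) ^ 1 * Real.exp (-(c₀ / 2) * k)) :=
      tsum_nonneg fun k => by positivity
    linarith
  have key : ∀ k : ℕ, b k * Real.exp (2 * k * u) ≤
      b k + (2 * M * ((k : ℝ) ^ 1 * Real.exp (-(c₀ / 2) * k))) * u := by
    intro k
    have hk : (0 : ℝ) ≤ k := Nat.cast_nonneg k
    have h1 := exp_sub_one_le (2 * k * u)
    have h2 : b k * (Real.exp (2 * k * u) - 1) ≤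
        (M * Real.exp (-(c₀ * k))) * (2 * k * u * Real.exp (c₀ / 2 * k)) := by
      have h3 : Real.exp (2 * k * u) ≤ Real.exp (c₀ / 2 * k) := by
        apply Real.exp_le_exp.2
        nlinarith [mul_le_mul_of_nonneg_left hu0 hk]
      have h4 : Real.exp (2 * k * u) - 1 ≤ 2 * k * u * Real.exp (c₀ / 2 * k) :=
        h1.trans (mul_le_mul_of_nonneg_left h3 (by positivity))
      have h5 : 0 ≤ Real.exp (2 * k * u) - 1 := by
        have : 1 ≤ Real.exp (2 * k * u) := Real.one_le_exp (by positivity)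
        linarith
      exact mul_le_mul (hb k) h4 h5 (by positivity)
    have h6 : (M * Real.exp (-(c₀ * k))) * (2 * k * u * Real.exp (c₀ / 2 * k)) =
        (2 * M * ((k : ℝ) ^ 1 * Real.exp (-(c₀ / 2) * k))) * u := by
      have : Real.exp (-(c₀ / 2) * k) = Real.exp (-(c₀ * k)) * Real.exp (c₀ / 2 * k) := by
        rw [← Real.exp_add]
        congr 1
        ring
      rw [this]
      ring
    linarith
  have hsum : Summable fun k : ℕ => b k + (2 * M * ((k : ℝ) ^ 1 * Real.exp (-(c₀ / 2) * k))) * u :=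
    (summable_b hK).add (hs.mul_right u)
  have hs2 : Summable (fun k : ℕ => b k * Real.exp (2 * k * u)) :=
    Summable.of_nonneg_of_le (fun k => mul_nonneg (hK.b_nonneg k) (Real.exp_pos _).le) key hsum
  refine ⟨hs2, ?_⟩
  have h7 := hs2.tsum_le_tsum key hsum
  rw [(summable_b hK).tsum_add (hs.mul_right u), tsum_mul_right] at h7
  nlinarith

theorem a_tail (hK : Ker a b α) {δ : ℝ} (hδ : 0 < δ) : ∃ c : ℝ, 0 < c ∧ ∀ F : ℝ, 0 < F → F ≤ 1 →
    ∑' k : ℕ, a k * Real.exp (-(2 * F * k)) ≤ (∑' k, a k) - c * F ^ (α + δ) := by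
  obtain ⟨c, hc, hlow⟩ := hK.low δ hδ
  have hα := hK.α_pos
  have he : 0 < 1 - Real.exp (-1) := by
    have : Real.exp (-1) < 1 := by
      rw [Real.exp_lt_one_iff]
      norm_num
    linarith
  refine ⟨(1 - Real.exp (-1)) * (c / 2) * 3 ^ (-(α + δ)), by positivity, fun F hF hF1 => ?_⟩
  set K : ℕ := ⌈1 / (2 * F)⌉₊ with hKd
  have hK1 : 1 / (2 * F) ≤ K := Nat.le_ceil _
  have hKpos : 0 < K := Nat.ceil_pos.2 (by positivity)
  have hK2 : (K : ℝ) < 1 / (2 * F) + 1 := Nat.ceil_lt_add_one (by positivity)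
  have hK3 : 2 * (K : ℝ) ≤ 3 / F := by
    have h1 : (1 : ℝ) ≤ 1 / F := by
      rw [le_div_iff₀ hF]
      linarith
    have h2 : 1 / (2 * F) = 1 / F / 2 := by
      field_simp
    have h3 : 3 / F = 3 * (1 / F) := by ring
    rw [h3]
    rw [h2] at hK2
    linarith
  have hs1 := a_exp_summable hK hF.le
  have hs2 : Summable fun k : ℕ => a k * (1 - Real.exp (-(2 * F * k))) := by
    have := (summable_a hK).sub hs1
    refine this.congr fun k => ?_
    ring
  have h4 : (∑' k, a k) - ∑' k : ℕ, a k * Real.exp (-(2 * F * k)) =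
      ∑' k : ℕ, a k * (1 - Real.exp (-(2 * F * k))) := by
    rw [← (summable_a hK).tsum_sub hs1]
    refine tsum_congr fun k => ?_
    ring
  have hnn : ∀ k : ℕ, 0 ≤ a k * (1 - Real.exp (-(2 * F * k))) := by
    intro k
    refine mul_nonneg (a_nonneg hK k) ?_
    have : Real.exp (-(2 * F * k)) ≤ 1 := by
      rw [Real.exp_le_one_iff]
      have : 0 ≤ 2 * F * k := by positivity
      linarith
    linarith
  have h5 : ∑ k ∈ Finset.Ico K (2 * K), a k * (1 - Real.exp (-(2 * F * k))) ≤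
      ∑' k : ℕ, a k * (1 - Real.exp (-(2 * F * k))) :=
    hs2.sum_le_tsum _ fun k _ => hnn k
  have h6 : ∀ k ∈ Finset.Ico K (2 * K), c * (2 * K : ℝ) ^ (-(1 + α + δ)) * (1 - Real.exp (-1)) ≤
      a k * (1 - Real.exp (-(2 * F * k))) := by
    intro k hk
    rw [Finset.mem_Ico] at hk
    have hkpos : 0 < k := lt_of_lt_of_le hKpos hk.1
    have hkr : (0 : ℝ) < k := by exact_mod_cast hkpos
    have hk2 : (k : ℝ) ≤ 2 * K := by exact_mod_cast hk.2.le
    have h7 : c * (2 * K : ℝ) ^ (-(1 + α + δ)) ≤ a k := by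
      refine le_trans (mul_le_mul_of_nonneg_left ?_ hc.le) (hlow k hkpos)
      exact Real.rpow_le_rpow_of_nonpos hkr hk2 (by linarith)
    have h8 : 1 - Real.exp (-1) ≤ 1 - Real.exp (-(2 * F * k)) := by
      have h9 : (1 : ℝ) ≤ 2 * F * k := by
        have : (K : ℝ) ≤ k := by exact_mod_cast hk.1
        have h10 : 1 / (2 * F) ≤ k := hK1.trans this
        rw [div_le_iff₀ (by positivity)] at h10
        linarith
      have : Real.exp (-(2 * F * k)) ≤ Real.exp (-1) := Real.exp_le_exp.2 (by linarith)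
      linarith
    exact mul_le_mul h7 h8 he.le (a_nonneg hK k)
  have h11 := Finset.sum_le_sum h6
  rw [Finset.sum_const, Nat.card_Ico, nsmul_eq_mul] at h11
  have h12 : ((2 * K - K : ℕ) : ℝ) = K := by
    congr 1
    omega
  rw [h12] at h11
  have h13 : (1 - Real.exp (-1)) * (c / 2) * 3 ^ (-(α + δ)) * F ^ (α + δ) ≤
      K * (c * (2 * K : ℝ) ^ (-(1 + α + δ)) * (1 - Real.exp (-1))) := by
    have hKr : (0 : ℝ) < K := by exact_mod_cast hKpos
    have h14 : (2 * K : ℝ) ^ (-(1 + α + δ)) = (2 * K : ℝ)⁻¹ * (2 * K : ℝ) ^ (-(α + δ)) := by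
      rw [← Real.rpow_neg_one, ← Real.rpow_add (by positivity)]
      congr 1
      ring
    have h15 : (3 : ℝ) ^ (-(α + δ)) * F ^ (α + δ) ≤ (2 * K : ℝ) ^ (-(α + δ)) := by
      have h16 : (3 : ℝ) ^ (-(α + δ)) * F ^ (α + δ) = (3 / F) ^ (-(α + δ)) := by
        rw [Real.div_rpow (by norm_num) hF.le, Real.rpow_neg hF.le, div_inv_eq_mul]
      rw [h16]
      exact Real.rpow_le_rpow_of_nonpos (by positivity) hK3 (by linarith)
    rw [h14]
    have h17 : K * (c * ((2 * K : ℝ)⁻¹ * (2 * K : ℝ) ^ (-(α + δ))) * (1 - Real.exp (-1))) =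
        (1 - Real.exp (-1)) * (c / 2) * (2 * K : ℝ) ^ (-(α + δ)) := by
      field_simp
    rw [h17, mul_assoc]
    exact mul_le_mul_of_nonneg_left h15 (by positivity)
  linarith

theorem upper (hK : Ker a b α) {δ : ℝ} (hδ : 0 < δ) : ∃ C u₀ : ℝ, 0 < C ∧ 0 < u₀ ∧
    ∀ u F : ℝ, 0 < u → u ≤ u₀ → Root a b u F → F ≤ 1 ∧ F ^ (α + δ) ≤ C * u := by
  obtain ⟨C, u₁, hC, hu₁, hb⟩ := b_up hK
  obtain ⟨c, hc, ha⟩ := a_tail hK hδ
  have hα := hK.α_pos
  have hmain : ∀ u F : ℝ, 0 < u → u ≤ u₁ → u ≤ 1 → Root a b u F →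
      (min F 1) ^ (α + δ) ≤ ((3 + C) / c) * u := by
    intro u F hu hu1 hu2 hR
    have hF := hR.1
    set F' := min F 1 with hF'
    have hF'0 : 0 < F' := lt_min hF one_pos
    have hF'1 : F' ≤ 1 := min_le_right _ _
    have hF'F : F' ≤ F := min_le_left _ _
    obtain ⟨hb1, hb2⟩ := hb u hu hu1
    have h1 := root_split hK hR
    have h2 : ∑' k : ℕ, a k * Real.exp (-(2 * F * k)) ≤ (∑' k, a k) - c * F' ^ (α + δ) := by
      refine le_trans ((a_exp_summable hK hF.le).tsum_le_tsum (fun k => ?_)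
        (a_exp_summable hK hF'0.le)) (ha F' hF'0 hF'1)
      refine mul_le_mul_of_nonneg_left (Real.exp_le_exp.2 ?_) (a_nonneg hK k)
      have hk : (0 : ℝ) ≤ k := Nat.cast_nonneg k
      nlinarith [mul_le_mul_of_nonneg_right hF'F hk]
    have h3 : ∑' k : ℕ, b k * Real.exp (2 * k * (u - F)) ≤ (∑' k, b k) + C * u := by
      refine le_trans ((b_summable_exp hK hF.le hR).tsum_le_tsum (fun k => ?_) hb1) hb2
      refine mul_le_mul_of_nonneg_left (Real.exp_le_exp.2 ?_) (hK.b_nonneg k)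
      have hk : (0 : ℝ) ≤ k := Nat.cast_nonneg k
      nlinarith [mul_nonneg hk hF.le]
    have h4 := tsum_add_one hK
    have h5 : (∑' k, a k) ≤ 1 := by
      have : 0 ≤ ∑' k, b k := tsum_nonneg hK.b_nonneg
      linarith
    have h6 := tsum_a_pos hK
    have h7 : Real.exp u ≤ 1 + 3 * u := by
      have h8 := exp_sub_one_le u
      have h9 : Real.exp u ≤ 3 := by
        have : Real.exp u ≤ Real.exp 1 := Real.exp_le_exp.2 hu2
        have := Real.exp_one_lt_d9
        linarith
      nlinarith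
    have h8 : 1 ≤ Real.exp u := Real.one_le_exp hu.le
    have h9 : Real.exp u * (∑' k : ℕ, a k * Real.exp (-(2 * F * k))) ≤
        (∑' k, a k) + 3 * u - c * F' ^ (α + δ) := by
      have h10 : Real.exp u * (∑' k : ℕ, a k * Real.exp (-(2 * F * k))) ≤
          Real.exp u * ((∑' k, a k) - c * F' ^ (α + δ)) :=
        mul_le_mul_of_nonneg_left h2 (Real.exp_pos u).le
      have h11 : 0 ≤ c * F' ^ (α + δ) := by positivity
      nlinarith
    have h12 : c * F' ^ (α + δ) ≤ (3 + C) * u := by linarith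
    rw [div_mul_eq_mul_div, le_div_iff₀ hc]
    linarith
  refine ⟨(3 + C) / c, min (min u₁ 1) (c / (3 + C) / 2), by positivity, by positivity,
    fun u F hu hu0 hR => ?_⟩
  have hu1 : u ≤ u₁ := hu0.trans ((min_le_left _ _).trans (min_le_left _ _))
  have hu2 : u ≤ 1 := hu0.trans ((min_le_left _ _).trans (min_le_right _ _))
  have hu3 : u ≤ c / (3 + C) / 2 := hu0.trans (min_le_right _ _)
  have h := hmain u F hu hu1 hu2 hR
  have hF1 : F ≤ 1 := by
    by_contra hF
    push Not at hF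
    rw [min_eq_right hF.le, Real.one_rpow] at h
    have : (3 + C) / c * u ≤ (3 + C) / c * (c / (3 + C) / 2) :=
      mul_le_mul_of_nonneg_left hu3 (by positivity)
    have h2 : (3 + C) / c * (c / (3 + C) / 2) = 1 / 2 := by
      field_simp
    linarith
  rw [min_eq_left hF1] at h
  exact ⟨hF1, h⟩

theorem lower (hK : Ker a b α) {δ : ℝ} (hδ : 0 < δ) (hδα : δ < α) : ∃ c : ℝ, 0 < c ∧
    ∀ u F : ℝ, 0 < u → u ≤ 1 → Root a b u F → c * u ≤ F ^ (α - δ) := by
  obtain ⟨C, hC, hup⟩ := hK.up (δ / 2) (half_pos hδ)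
  have hα := hK.α_pos
  have hα2 := hK.α_lt
  have hs : Summable fun k : ℕ => C * (k : ℝ) ^ (-(1 + δ / 2)) :=
    (Real.summable_nat_rpow.2 (by linarith)).mul_left C
  set S := ∑' k : ℕ, C * (k : ℝ) ^ (-(1 + δ / 2)) with hS
  have hS0 : 0 ≤ S := tsum_nonneg fun k => by positivity
  have hPp := tsum_a_pos hK
  have hPp1 : (∑' k, a k) ≤ 1 := by
    have h1 : 0 ≤ ∑' k, b k := tsum_nonneg hK.b_nonneg
    have h2 := tsum_add_one hK
    linarith
  refine ⟨(∑' k, a k) / (6 * S + 1), by positivity, fun u F hu hu1 hR => ?_⟩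
  have hF := hR.1
  have hFp : 0 < F ^ (α - δ) := by positivity
  have hsmall : (∑' k, a k) / (6 * S + 1) ≤ 1 := by
    rw [div_le_one (by positivity)]
    linarith
  rcases le_total u F with huF | hFu
  · refine le_trans (mul_le_of_le_one_left hu.le hsmall) ?_
    rcases le_total F 1 with h1 | h1
    · refine huF.trans ?_
      have := Real.rpow_le_rpow_of_exponent_ge hF h1 (show α - δ ≤ 1 by linarith)
      rwa [Real.rpow_one] at this
    · exact hu1.trans (Real.one_le_rpow h1 (by linarith))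
  · have hF1 : F ≤ 1 := hFu.trans hu1
    have h1 := root_split hK hR
    have h2 : ∑' k, b k ≤ ∑' k : ℕ, b k * Real.exp (2 * k * (u - F)) := by
      refine (summable_b hK).tsum_le_tsum (fun k => ?_) (b_summable_exp hK hF.le hR)
      have : 1 ≤ Real.exp (2 * k * (u - F)) := by
        apply Real.one_le_exp
        have : 0 ≤ u - F := by linarith
        positivity
      exact le_mul_of_one_le_right (hK.b_nonneg k) this
    have h3 : (∑' k, a k) - ∑' k : ℕ, a k * Real.exp (-(2 * F * k)) ≤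
        S * (2 * F ^ (α - δ)) := by
      rw [← (summable_a hK).tsum_sub (a_exp_summable hK hF.le), hS, ← tsum_mul_right]
      refine ((summable_a hK).sub (a_exp_summable hK hF.le)).tsum_le_tsum (fun k => ?_)
        (hs.mul_right _)
      rcases Nat.eq_zero_or_pos k with hk | hk
      · rw [hk, hK.a_zero]
        simp only [zero_mul, sub_zero]
        positivity
      have hkr : (0 : ℝ) < k := by exact_mod_cast hk
      have h4 : 1 - Real.exp (-(2 * F * k)) ≤ (2 * F * k) ^ (α - δ) :=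
        one_sub_exp_le (by positivity) (by linarith) (by linarith)
      have h5 : (2 * F * k) ^ (α - δ) ≤ 2 * F ^ (α - δ) * (k : ℝ) ^ (α - δ) := by
        rw [Real.mul_rpow (by positivity) hkr.le, Real.mul_rpow (by norm_num) hF.le]
        have h6 : (2 : ℝ) ^ (α - δ) ≤ 2 := by
          have := Real.rpow_le_rpow_of_exponent_le (show (1 : ℝ) ≤ 2 by norm_num)
            (show α - δ ≤ 1 by linarith)
          rwa [Real.rpow_one] at this
        gcongr
      have h7 : a k - a k * Real.exp (-(2 * F * k)) = a k * (1 - Real.exp (-(2 * F * k))) := by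
        ring
      rw [h7]
      calc a k * (1 - Real.exp (-(2 * F * k)))
          ≤ (C * (k : ℝ) ^ (-(1 + α - δ / 2))) * (2 * F ^ (α - δ) * (k : ℝ) ^ (α - δ)) := by
            refine mul_le_mul (hup k hk) (h4.trans h5) ?_ (by positivity)
            have : Real.exp (-(2 * F * k)) ≤ 1 := by
              rw [Real.exp_le_one_iff]
              have : 0 ≤ 2 * F * k := by positivity
              linarith
            linarith
        _ = C * (k : ℝ) ^ (-(1 + δ / 2)) * (2 * F ^ (α - δ)) := by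
            have h8 : (k : ℝ) ^ (-(1 + δ / 2)) =
                (k : ℝ) ^ (-(1 + α - δ / 2)) * (k : ℝ) ^ (α - δ) := by
              rw [← Real.rpow_add hkr]
              congr 1
              ring
            rw [h8]
            ring
    have h4 := tsum_add_one hK
    have h9 : 1 + u ≤ Real.exp u := by
      have := Real.add_one_le_exp u
      linarith
    have h10 : Real.exp u ≤ 3 := by
      have : Real.exp u ≤ Real.exp 1 := Real.exp_le_exp.2 hu1
      have := Real.exp_one_lt_d9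
      linarith
    have h11 : Real.exp u * (∑' k, a k) - Real.exp u * (S * (2 * F ^ (α - δ))) ≤
        Real.exp u * ∑' k : ℕ, a k * Real.exp (-(2 * F * k)) := by
      rw [← mul_sub]
      exact mul_le_mul_of_nonneg_left (by linarith) (Real.exp_pos u).le
    have h12 : Real.exp u * (S * (2 * F ^ (α - δ))) ≤ 3 * (S * (2 * F ^ (α - δ))) :=
      mul_le_mul_of_nonneg_right h10 (by positivity)
    have h13 : (1 + u) * (∑' k, a k) ≤ Real.exp u * (∑' k, a k) :=
      mul_le_mul_of_nonneg_right h9 hPp.le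
    have h14 : (∑' k, a k) * u ≤ 6 * S * F ^ (α - δ) := by
      nlinarith
    rw [div_mul_eq_mul_div, div_le_iff₀ (by positivity)]
    nlinarith

end RootB

section

variable {a b : ℕ → ℝ} {α : ℝ}

theorem root_bounds (hK : Ker a b α) {ε : ℝ} (hε : 0 < ε) : ∃ u₁ : ℝ, 0 < u₁ ∧
    ∀ u F : ℝ, 0 < u → u ≤ u₁ → Root a b u F →
      u ^ (1 / α + ε) ≤ F ∧ F ≤ u ^ (1 / α - ε) := by
  have hα := hK.α_pos
  set δ : ℝ := min (ε * α ^ 2 / 4) (α / 4) with hδ
  have hδ0 : 0 < δ := lt_min (by positivity) (by positivity)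
  have hδ1 : δ ≤ ε * α ^ 2 / 4 := min_le_left _ _
  have hδ2 : δ ≤ α / 4 := min_le_right _ _
  have hδ3 : δ / α ≤ ε * α / 4 := by
    rw [div_le_iff₀ hα]
    nlinarith
  obtain ⟨C, u₀, hC, hu₀, hup⟩ := RootB.upper hK hδ0
  obtain ⟨c, hc, hlow⟩ := RootB.lower hK hδ0 (by linarith)
  have hεα : 0 < ε * α / 2 := by positivity
  set t : ℝ := min (c / 2) (1 / (2 * C)) with ht
  have ht0 : 0 < t := lt_min (by positivity) (by positivity)
  refine ⟨min (min u₀ 1) (t ^ (ε * α / 2)⁻¹), by positivity, fun u F hu hu1 hR => ?_⟩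
  have hu2 : u ≤ u₀ := hu1.trans ((min_le_left _ _).trans (min_le_left _ _))
  have hu3 : u ≤ 1 := hu1.trans ((min_le_left _ _).trans (min_le_right _ _))
  have hu4 : u ≤ t ^ (ε * α / 2)⁻¹ := hu1.trans (min_le_right _ _)
  have hu5 : u ^ (ε * α / 2) ≤ t := by
    have := Real.rpow_le_rpow hu.le hu4 hεα.le
    rwa [← Real.rpow_mul ht0.le, inv_mul_cancel₀ hεα.ne', Real.rpow_one] at this
  have hu6 : 0 < u ^ (ε * α / 2) := by positivity
  have hF := hR.1
  constructor
  · by_contra h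
    push Not at h
    have h1 := hlow u F hu hu3 hR
    have h2 : F ^ (α - δ) < (u ^ (1 / α + ε)) ^ (α - δ) :=
      Real.rpow_lt_rpow hF.le h (by linarith)
    rw [← Real.rpow_mul hu.le] at h2
    have h3 : 1 + ε * α / 2 ≤ (1 / α + ε) * (α - δ) := by
      have h4 : (1 / α + ε) * (α - δ) = 1 - δ / α + ε * α - ε * δ := by
        field_simp
        ring
      rw [h4]
      nlinarith
    have h5 : u ^ ((1 / α + ε) * (α - δ)) ≤ u ^ (1 + ε * α / 2) :=
      Real.rpow_le_rpow_of_exponent_ge hu hu3 h3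
    rw [Real.rpow_add hu, Real.rpow_one] at h5
    have h6 : u * u ^ (ε * α / 2) ≤ u * (c / 2) :=
      mul_le_mul_of_nonneg_left (hu5.trans (min_le_left _ _)) hu.le
    nlinarith [mul_pos hc hu]
  · by_contra h
    push Not at h
    have h1 := (hup u F hu hu2 hR).2
    have h2 : (u ^ (1 / α - ε)) ^ (α + δ) < F ^ (α + δ) :=
      Real.rpow_lt_rpow (by positivity) h (by linarith)
    rw [← Real.rpow_mul hu.le] at h2
    have h3 : (1 / α - ε) * (α + δ) ≤ 1 - ε * α / 2 := by
      have h4 : (1 / α - ε) * (α + δ) = 1 + δ / α - ε * α - ε * δ := by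
        field_simp
        ring
      rw [h4]
      nlinarith [mul_pos hε hδ0]
    have h5 : u ^ (1 - ε * α / 2) ≤ u ^ ((1 / α - ε) * (α + δ)) :=
      Real.rpow_le_rpow_of_exponent_ge hu hu3 h3
    rw [Real.rpow_sub hu, Real.rpow_one] at h5
    have h6 : u / u ^ (ε * α / 2) < C * u := lt_of_le_of_lt h5 (lt_of_lt_of_le h2 h1)
    rw [div_lt_iff₀ hu6] at h6
    have h7 : u ^ (ε * α / 2) ≤ 1 / (2 * C) := hu5.trans (min_le_right _ _)
    have h8 : C * u * u ^ (ε * α / 2) ≤ C * u * (1 / (2 * C)) :=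
      mul_le_mul_of_nonneg_left h7 (by positivity)
    have h9 : C * u * (1 / (2 * C)) = u / 2 := by
      field_simp
    linarith

end

end Pool.Agent.AS
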