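import Pool.Agent.Lib.MP_daa227_pr_AS.Dec
import Pool.Agent.Lib.MP_daa227_pr_AS.RootB
import Pool.Agent.Lib.MP_daa227_pr_AS.CvxS

/-!
# Module S5: lower bound on the renewal sequence
-/

namespace Pool.Agent.AS

open MeasureTheory ProbabilityTheory Set Filter
open scoped ENNReal Topology

noncomputable section

variable {a b : ℕ → ℝ} {α : ℝ}

namespace LowB

/-- one term of the `p`-series is at most a difference -/
theorem rpow_step {s : ℝ} (hs : 0 < s) (j : ℕ) :
    ((j : ℝ) + 1) ^ (-(1 + s)) ≤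
      (2 : ℝ) ^ (1 + s) / s * (((j : ℝ) + 1) ^ (-s) - ((j : ℝ) + 1 + 1) ^ (-s)) := by
  have hj : (0 : ℝ) ≤ j := Nat.cast_nonneg j
  set x : ℝ := (j : ℝ) + 1 with hx
  have hx1 : 1 ≤ x := by rw [hx]; linarith
  have hx0 : 0 < x := by linarith
  have hy0 : 0 < x + 1 := by linarith
  -- (x + 1)^(-s) (1 + s / (x + 1)) ≤ x^(-s)
  have h1 : (x + 1) ^ (-s) * (1 + s / (x + 1)) ≤ x ^ (-s) := by
    have hlog : Real.log x ≤ Real.log (x + 1) - 1 / (x + 1) := by
      have e1 : Real.log (x / (x + 1)) ≤ x / (x + 1) - 1 := Real.log_le_sub_one_of_pos (by positivity)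
      rw [Real.log_div hx0.ne' hy0.ne'] at e1
      have e2 : x / (x + 1) - 1 = -(1 / (x + 1)) := by field_simp; ring
      rw [e2] at e1
      linarith
    have h2 : 1 + s / (x + 1) ≤ Real.exp (s / (x + 1)) := by
      have := Real.add_one_le_exp (s / (x + 1))
      linarith
    calc (x + 1) ^ (-s) * (1 + s / (x + 1)) ≤ (x + 1) ^ (-s) * Real.exp (s / (x + 1)) :=
          mul_le_mul_of_nonneg_left h2 (Real.rpow_nonneg hy0.le _)
      _ = Real.exp (Real.log (x + 1) * (-s) + s / (x + 1)) := by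
          rw [Real.rpow_def_of_pos hy0, ← Real.exp_add]
      _ ≤ Real.exp (Real.log x * (-s)) := by
          apply Real.exp_le_exp.mpr
          have : s * Real.log x ≤ s * (Real.log (x + 1) - 1 / (x + 1)) :=
            mul_le_mul_of_nonneg_left hlog hs.le
          have e3 : s * (1 / (x + 1)) = s / (x + 1) := by ring
          nlinarith
      _ = x ^ (-s) := by rw [Real.rpow_def_of_pos hx0]
  have h3 : s * (x + 1) ^ (-(1 + s)) ≤ x ^ (-s) - (x + 1) ^ (-s) := by
    have e4 : (x + 1) ^ (-(1 + s)) = (x + 1) ^ (-s) / (x + 1) := by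
      rw [show -(1 + s) = -s - 1 by ring, Real.rpow_sub_one hy0.ne']
    rw [e4]
    have e5 : s * ((x + 1) ^ (-s) / (x + 1)) = (x + 1) ^ (-s) * (s / (x + 1)) := by ring
    rw [e5]
    nlinarith
  have h4 : x ^ (-(1 + s)) ≤ (2 : ℝ) ^ (1 + s) * (x + 1) ^ (-(1 + s)) := by
    have e6 : (2 : ℝ) ^ (1 + s) * (x + 1) ^ (-(1 + s)) = ((x + 1) / 2) ^ (-(1 + s)) := by
      rw [Real.div_rpow hy0.le (by norm_num), Real.rpow_neg (by norm_num : (0 : ℝ) ≤ 2)]
      field_simp
    rw [e6]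
    exact Real.rpow_le_rpow_of_nonpos (by linarith) (by linarith) (by linarith)
  have h5 : (x + 1) ^ (-(1 + s)) ≤ (x ^ (-s) - (x + 1) ^ (-s)) / s := by
    rw [le_div_iff₀ hs]
    linarith
  calc x ^ (-(1 + s)) ≤ (2 : ℝ) ^ (1 + s) * (x + 1) ^ (-(1 + s)) := h4
    _ ≤ (2 : ℝ) ^ (1 + s) * ((x ^ (-s) - (x + 1) ^ (-s)) / s) :=
        mul_le_mul_of_nonneg_left h5 (Real.rpow_nonneg (by norm_num) _)
    _ = _ := by ring

theorem tail_rpow {s : ℝ} (hs : 0 < s) {k K : ℕ} (hk : k ≤ K) :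
    ∑ j ∈ Finset.Ico k K, ((j : ℝ) + 1) ^ (-(1 + s)) ≤
      (2 : ℝ) ^ (1 + s) / s * ((k : ℝ) + 1) ^ (-s) := by
  have h : ∑ j ∈ Finset.Ico k K, ((j : ℝ) + 1) ^ (-(1 + s)) ≤
      (2 : ℝ) ^ (1 + s) / s * (((k : ℝ) + 1) ^ (-s) - ((K : ℝ) + 1) ^ (-s)) := by
    induction K, hk using Nat.le_induction with
    | base => simp
    | succ K hK ih =>
      rw [Finset.sum_Ico_succ_top hK]
      have := rpow_step hs K
      push_cast
      rw [mul_sub] at this ih ⊢
      linarith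
  refine h.trans (mul_le_mul_of_nonneg_left ?_ (by positivity))
  have : 0 ≤ ((K : ℝ) + 1) ^ (-s) := by positivity
  linarith

theorem tail_exp {d : ℝ} (hd : 0 < d) {k K : ℕ} (hk : k ≤ K) :
    ∑ j ∈ Finset.Ico k K, Real.exp (-(d * ((j : ℝ) + 1))) ≤ 1 / d * Real.exp (-(d * k)) := by
  have h : ∑ j ∈ Finset.Ico k K, Real.exp (-(d * ((j : ℝ) + 1))) ≤
      1 / d * (Real.exp (-(d * k)) - Real.exp (-(d * K))) := by
    induction K, hk using Nat.le_induction with
    | base => simp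
    | succ K hK ih =>
      rw [Finset.sum_Ico_succ_top hK]
      have h1 : Real.exp (-(d * ((K : ℝ) + 1))) ≤
          1 / d * (Real.exp (-(d * K)) - Real.exp (-(d * ((K : ℝ) + 1)))) := by
        have e1 : Real.exp (-(d * K)) = Real.exp (-(d * ((K : ℝ) + 1))) * Real.exp d := by
          rw [← Real.exp_add]; congr 1; ring
        have e2 := Real.add_one_le_exp d
        have e3 : 0 < Real.exp (-(d * ((K : ℝ) + 1))) := Real.exp_pos _
        rw [e1, one_div, ← div_eq_inv_mul, le_div_iff₀ hd]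
        nlinarith
      push_cast
      rw [mul_sub] at h1 ih ⊢
      linarith
  refine h.trans (mul_le_mul_of_nonneg_left ?_ (by positivity))
  have : 0 ≤ Real.exp (-(d * K)) := (Real.exp_pos _).le
  linarith

theorem exp_le_rpow {d s : ℝ} (hd : 0 < d) (hs : s ≤ 1) (k : ℕ) :
    Real.exp (-(d * k)) ≤ (1 + 1 / d) * ((k : ℝ) + 1) ^ (-s) := by
  have hk : (0 : ℝ) ≤ k := Nat.cast_nonneg k
  have h1 : (k : ℝ) + 1 ≤ (1 + 1 / d) * Real.exp (d * k) := by
    have e1 := Real.add_one_le_exp (d * k)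
    have e2 : (1 + 1 / d) * (d * k + 1) ≤ (1 + 1 / d) * Real.exp (d * k) :=
      mul_le_mul_of_nonneg_left e1 (by positivity)
    have e3 : (1 + 1 / d) * (d * k + 1) = d * k + 1 / d + (k + 1) := by field_simp; ring
    have e4 : 0 ≤ d * k + 1 / d := by positivity
    linarith
  have h2 : ((k : ℝ) + 1)⁻¹ ≤ ((k : ℝ) + 1) ^ (-s) := by
    rw [← Real.rpow_neg_one]
    exact Real.rpow_le_rpow_of_exponent_le (by linarith) (by linarith)
  have h3 : Real.exp (-(d * k)) ≤ (1 + 1 / d) * ((k : ℝ) + 1)⁻¹ := by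
    rw [Real.exp_neg, ← div_eq_mul_inv, le_div_iff₀ (by positivity), inv_mul_le_iff₀ (Real.exp_pos _)]
    linarith
  exact h3.trans (mul_le_mul_of_nonneg_left h2 (by positivity))

theorem sum_exp_rpow {s : ℝ} (h0 : 0 ≤ s) (h1 : s < 1) : ∃ C : ℝ, 0 < C ∧ ∀ F : ℝ, 0 < F →
    F ≤ 1 / 2 → ∀ n : ℕ,
      ∑ k ∈ Finset.range n, Real.exp (-(2 * F * k)) * ((k : ℝ) + 1) ^ (-s) ≤ C * F ^ (-(1 - s)) := by
  obtain ⟨K₁, hK₁, hsum⟩ := sum_rpow h0 h1
  refine ⟨K₁ * 2 ^ (1 - s) + 3 / 2, by positivity, fun F hF hF2 n => ?_⟩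
  set K : ℕ := ⌈1 / F⌉₊ with hK
  have hK1 : 1 / F ≤ K := Nat.le_ceil _
  have hK2 : (K : ℝ) ≤ 2 / F := by
    have e1 : (K : ℝ) < 1 / F + 1 := Nat.ceil_lt_add_one (by positivity)
    have e2 : 1 ≤ 1 / F := by rw [le_div_iff₀ hF]; linarith
    have e3 : 2 / F = 1 / F + 1 / F := by ring
    linarith
  have hterm : ∀ k ∈ Finset.range n, Real.exp (-(2 * F * k)) * ((k : ℝ) + 1) ^ (-s) ≤
      (if k < K then ((k : ℝ) + 1) ^ (-s) else 0) +
        Real.exp (2 * F) * F ^ s * Real.exp (-(2 * F * ((k : ℝ) + 1))) := by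
    intro k _
    have hk : (0 : ℝ) ≤ k := Nat.cast_nonneg k
    have hpos : 0 ≤ Real.exp (2 * F) * F ^ s * Real.exp (-(2 * F * ((k : ℝ) + 1))) := by positivity
    by_cases hkK : k < K
    · rw [if_pos hkK]
      have e1 : Real.exp (-(2 * F * k)) ≤ 1 := by
        rw [Real.exp_le_one_iff]
        have : 0 ≤ 2 * F * k := by positivity
        linarith
      have e2 : 0 ≤ ((k : ℝ) + 1) ^ (-s) := by positivity
      have e3 := mul_le_mul_of_nonneg_right e1 e2
      linarith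
    · rw [if_neg hkK, zero_add]
      have e1 : (K : ℝ) ≤ k := by exact_mod_cast Nat.le_of_not_lt hkK
      have e2 : ((k : ℝ) + 1) ^ (-s) ≤ (1 / F) ^ (-s) :=
        Real.rpow_le_rpow_of_nonpos (by positivity) (by linarith) (by linarith)
      have e3 : (1 / F) ^ (-s) = F ^ s := by
        rw [one_div, Real.inv_rpow hF.le, Real.rpow_neg hF.le, inv_inv]
      rw [e3] at e2
      have e4 : Real.exp (2 * F) * F ^ s * Real.exp (-(2 * F * ((k : ℝ) + 1))) =
          Real.exp (-(2 * F * k)) * F ^ s := by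
        have : Real.exp (-(2 * F * k)) = Real.exp (2 * F) * Real.exp (-(2 * F * ((k : ℝ) + 1))) := by
          rw [← Real.exp_add]; congr 1; ring
        rw [this]; ring
      rw [e4]
      exact mul_le_mul_of_nonneg_left e2 (Real.exp_pos _).le
  have hA : ∑ k ∈ Finset.range n, (if k < K then ((k : ℝ) + 1) ^ (-s) else 0) ≤
      ∑ k ∈ Finset.range K, ((k : ℝ) + 1) ^ (-s) := by
    rw [← Finset.sum_filter]
    apply Finset.sum_le_sum_of_subset_of_nonneg
    · intro k hk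
      rw [Finset.mem_filter] at hk
      exact Finset.mem_range.mpr hk.2
    · intro k _ _
      positivity
  have hB : ∑ k ∈ Finset.range K, ((k : ℝ) + 1) ^ (-s) ≤ K₁ * 2 ^ (1 - s) * F ^ (-(1 - s)) := by
    refine (hsum K).trans ?_
    rw [mul_assoc]
    apply mul_le_mul_of_nonneg_left _ hK₁.le
    have e1 : (K : ℝ) ^ (1 - s) ≤ (2 / F) ^ (1 - s) :=
      Real.rpow_le_rpow (Nat.cast_nonneg _) hK2 (by linarith)
    refine e1.trans (le_of_eq ?_)
    rw [Real.div_rpow (by norm_num) hF.le, Real.rpow_neg hF.le, div_eq_mul_inv]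
  have hC : ∑ k ∈ Finset.range n, Real.exp (2 * F) * F ^ s * Real.exp (-(2 * F * ((k : ℝ) + 1))) ≤
      3 / 2 * F ^ (-(1 - s)) := by
    rw [← Finset.mul_sum]
    have e1 : ∑ k ∈ Finset.range n, Real.exp (-(2 * F * ((k : ℝ) + 1))) ≤ 1 / (2 * F) := by
      have := tail_exp (d := 2 * F) (by positivity) (Nat.zero_le n)
      rw [Nat.Ico_zero_eq_range] at this
      simpa using this
    have e2 : Real.exp (2 * F) ≤ 3 := by
      have e3 : Real.exp (2 * F) ≤ Real.exp 1 := Real.exp_le_exp.mpr (by linarith)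
      have e4 := Real.exp_one_lt_d9
      linarith
    have e5 : F ^ (-(1 - s)) = F ^ s / F := by
      rw [show -(1 - s) = s - 1 by ring, Real.rpow_sub_one hF.ne']
    rw [e5]
    have e6 : 0 ≤ F ^ s := by positivity
    calc Real.exp (2 * F) * F ^ s * ∑ k ∈ Finset.range n, Real.exp (-(2 * F * ((k : ℝ) + 1)))
        ≤ 3 * F ^ s * (1 / (2 * F)) := by
          apply mul_le_mul _ e1 (Finset.sum_nonneg fun k _ => (Real.exp_pos _).le) (by positivity)
          exact mul_le_mul_of_nonneg_right e2 e6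
      _ = 3 / 2 * (F ^ s / F) := by field_simp
  calc ∑ k ∈ Finset.range n, Real.exp (-(2 * F * k)) * ((k : ℝ) + 1) ^ (-s)
      ≤ ∑ k ∈ Finset.range n, ((if k < K then ((k : ℝ) + 1) ^ (-s) else 0) +
        Real.exp (2 * F) * F ^ s * Real.exp (-(2 * F * ((k : ℝ) + 1)))) := Finset.sum_le_sum hterm
    _ = ∑ k ∈ Finset.range n, (if k < K then ((k : ℝ) + 1) ^ (-s) else 0) +
        ∑ k ∈ Finset.range n, Real.exp (2 * F) * F ^ s * Real.exp (-(2 * F * ((k : ℝ) + 1))) :=
        Finset.sum_add_distrib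
    _ ≤ K₁ * 2 ^ (1 - s) * F ^ (-(1 - s)) + 3 / 2 * F ^ (-(1 - s)) :=
        add_le_add (hA.trans hB) hC
    _ = _ := by ring

/-- the probability of a gap larger than `k` -/
def Tt (a b : ℕ → ℝ) (u F : ℝ) (k : ℕ) : ℝ :=
  1 - ∑ j ∈ Finset.range k, G a b u (j + 1) * Real.exp (-(2 * F * ((j : ℝ) + 1)))

theorem term_nonneg (hK : Ker a b α) (u F : ℝ) (j : ℕ) :
    0 ≤ G a b u (j + 1) * Real.exp (-(2 * F * ((j : ℝ) + 1))) := by
  apply mul_nonneg _ (Real.exp_pos _).le
  unfold G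
  have h1 := (hK.a_pos (j + 1) (by omega)).le
  have h2 := hK.b_nonneg (j + 1)
  positivity

theorem Tt_anti (hK : Ker a b α) (u F : ℝ) {k l : ℕ} (h : k ≤ l) : Tt a b u F l ≤ Tt a b u F k := by
  unfold Tt
  have : ∑ j ∈ Finset.range k, G a b u (j + 1) * Real.exp (-(2 * F * ((j : ℝ) + 1))) ≤
      ∑ j ∈ Finset.range l, G a b u (j + 1) * Real.exp (-(2 * F * ((j : ℝ) + 1))) := by
    apply Finset.sum_le_sum_of_subset_of_nonneg
    · exact Finset.range_subset_range.mpr h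
    · intro j _ _
      exact term_nonneg hK u F j
  linarith

theorem Tt_le (hK : Ker a b α) {e : ℝ} (he : 0 < e) (hea : e < α) :
    ∃ C u₂ : ℝ, 0 < C ∧ 0 < u₂ ∧ ∀ u F : ℝ, 0 < u → u ≤ u₂ → Root a b u F → ∀ k : ℕ,
      Tt a b u F k ≤ C * (Real.exp (-(2 * F * k)) * ((k : ℝ) + 1) ^ (-(α - e))) := by
  obtain ⟨c, hc, hup⟩ := hK.up e he
  obtain ⟨c₀, M, hc₀, hM, hneg⟩ := hK.neg
  set s : ℝ := α - e with hs
  have hs0 : 0 < s := by rw [hs]; linarith
  have hs1 : s ≤ 1 := by have := hK.α_lt; rw [hs]; linarith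
  refine ⟨Real.exp 1 * c * ((2 : ℝ) ^ (1 + s) / s) + M * (1 / (c₀ / 2) * (1 + 1 / (c₀ / 2))),
    min 1 (c₀ / 4), by positivity, by positivity, fun u F hu hu2 hR k => ?_⟩
  have hu1 : u ≤ 1 := hu2.trans (min_le_left _ _)
  have hu3 : u ≤ c₀ / 4 := hu2.trans (min_le_right _ _)
  have hF : 0 < F := hR.1
  have hkey : ∀ K : ℕ, k ≤ K →
      ∑ j ∈ Finset.Ico k K, G a b u (j + 1) * Real.exp (-(2 * F * ((j : ℝ) + 1))) ≤
      (Real.exp 1 * c * ((2 : ℝ) ^ (1 + s) / s) + M * (1 / (c₀ / 2) * (1 + 1 / (c₀ / 2)))) *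
        (Real.exp (-(2 * F * k)) * ((k : ℝ) + 1) ^ (-s)) := by
    intro K hkK
    have hterm : ∀ j ∈ Finset.Ico k K,
        G a b u (j + 1) * Real.exp (-(2 * F * ((j : ℝ) + 1))) ≤
        Real.exp (-(2 * F * k)) * (Real.exp 1 * c * ((j : ℝ) + 1) ^ (-(1 + s)) +
          M * Real.exp (-(c₀ / 2 * ((j : ℝ) + 1)))) := by
      intro j hj
      rw [Finset.mem_Ico] at hj
      have hjk : (k : ℝ) ≤ j := by exact_mod_cast hj.1
      have hj0 : (0 : ℝ) ≤ j := Nat.cast_nonneg j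
      have h1 : Real.exp (-(2 * F * ((j : ℝ) + 1))) ≤ Real.exp (-(2 * F * k)) := by
        apply Real.exp_le_exp.mpr
        have : 2 * F * k ≤ 2 * F * ((j : ℝ) + 1) :=
          mul_le_mul_of_nonneg_left (by linarith) (by positivity)
        linarith
      have h2 : G a b u (j + 1) ≤ Real.exp 1 * c * ((j : ℝ) + 1) ^ (-(1 + s)) +
          M * Real.exp (-(c₀ / 2 * ((j : ℝ) + 1))) := by
        unfold G
        have e1 := hup (j + 1) (by omega)
        have e2 := hneg (j + 1)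
        push_cast at e1 e2 ⊢
        have e3 : -(1 + α - e) = -(1 + s) := by rw [hs]; ring
        rw [e3] at e1
        have e4 : Real.exp u ≤ Real.exp 1 := Real.exp_le_exp.mpr hu1
        have e5 : 0 ≤ c * ((j : ℝ) + 1) ^ (-(1 + s)) := by positivity
        have e6 : Real.exp u * a (j + 1) ≤ Real.exp 1 * (c * ((j : ℝ) + 1) ^ (-(1 + s))) :=
          mul_le_mul e4 e1 (hK.a_pos (j + 1) (by omega)).le (Real.exp_pos _).le
        have e7 : Real.exp (2 * ((j : ℝ) + 1) * u) * b (j + 1) ≤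
            M * Real.exp (-(c₀ / 2 * ((j : ℝ) + 1))) := by
          calc Real.exp (2 * ((j : ℝ) + 1) * u) * b (j + 1)
              ≤ Real.exp (2 * ((j : ℝ) + 1) * u) * (M * Real.exp (-(c₀ * ((j : ℝ) + 1)))) :=
                mul_le_mul_of_nonneg_left e2 (Real.exp_pos _).le
            _ = M * Real.exp (2 * ((j : ℝ) + 1) * u + -(c₀ * ((j : ℝ) + 1))) := by
                rw [Real.exp_add]; ring
            _ ≤ M * Real.exp (-(c₀ / 2 * ((j : ℝ) + 1))) := by
                apply mul_le_mul_of_nonneg_left _ hM.le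
                apply Real.exp_le_exp.mpr
                nlinarith
        linarith
      have h3 : 0 ≤ Real.exp 1 * c * ((j : ℝ) + 1) ^ (-(1 + s)) +
          M * Real.exp (-(c₀ / 2 * ((j : ℝ) + 1))) := by positivity
      calc G a b u (j + 1) * Real.exp (-(2 * F * ((j : ℝ) + 1)))
          ≤ (Real.exp 1 * c * ((j : ℝ) + 1) ^ (-(1 + s)) +
            M * Real.exp (-(c₀ / 2 * ((j : ℝ) + 1)))) * Real.exp (-(2 * F * k)) :=
            mul_le_mul h2 h1 (Real.exp_pos _).le h3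
        _ = _ := by ring
    refine (Finset.sum_le_sum hterm).trans ?_
    rw [← Finset.mul_sum, Finset.sum_add_distrib, ← Finset.mul_sum, ← Finset.mul_sum]
    have e1 := tail_rpow hs0 hkK
    have e2 := (tail_exp (d := c₀ / 2) (by positivity) hkK).trans
      (mul_le_mul_of_nonneg_left (exp_le_rpow (d := c₀ / 2) (s := s) (by positivity) hs1 k)
        (by positivity))
    have e3 : Real.exp 1 * c * ∑ j ∈ Finset.Ico k K, ((j : ℝ) + 1) ^ (-(1 + s)) ≤
        Real.exp 1 * c * ((2 : ℝ) ^ (1 + s) / s * ((k : ℝ) + 1) ^ (-s)) :=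
      mul_le_mul_of_nonneg_left e1 (by positivity)
    have e4 := mul_le_mul_of_nonneg_left e2 hM.le
    calc Real.exp (-(2 * F * k)) * (Real.exp 1 * c * ∑ j ∈ Finset.Ico k K, ((j : ℝ) + 1) ^ (-(1 + s))
          + M * ∑ j ∈ Finset.Ico k K, Real.exp (-(c₀ / 2 * ((j : ℝ) + 1))))
        ≤ Real.exp (-(2 * F * k)) * (Real.exp 1 * c * ((2 : ℝ) ^ (1 + s) / s * ((k : ℝ) + 1) ^ (-s)) +
          M * (1 / (c₀ / 2) * ((1 + 1 / (c₀ / 2)) * ((k : ℝ) + 1) ^ (-s)))) :=
          mul_le_mul_of_nonneg_left (add_le_add e3 e4) (Real.exp_pos _).le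
      _ = _ := by ring
  have hlim := hR.2.tendsto_sum_nat
  have hle : (1 : ℝ) ≤ ∑ j ∈ Finset.range k, G a b u (j + 1) * Real.exp (-(2 * F * ((j : ℝ) + 1))) +
      (Real.exp 1 * c * ((2 : ℝ) ^ (1 + s) / s) + M * (1 / (c₀ / 2) * (1 + 1 / (c₀ / 2)))) *
        (Real.exp (-(2 * F * k)) * ((k : ℝ) + 1) ^ (-s)) := by
    refine le_of_tendsto hlim ?_
    filter_upwards [eventually_ge_atTop k] with K hkK
    rw [← Finset.sum_range_add_sum_Ico _ hkK]
    have := hkey K hkK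
    linarith
  unfold Tt
  linarith

end LowB

open LowB

theorem lowb (hK : Ker a b α) {ε : ℝ} (hε : 0 < ε) : ∃ u₁ : ℝ, 0 < u₁ ∧
    ∀ (u F : ℝ) (A : ℕ → ℝ), 0 < u → u ≤ u₁ → Root a b u F → RenS (G a b u) A →
      ∀ n : ℕ, 3 / F * Real.log (1 / F) ≤ n → (n : ℝ) ≤ F ^ (-2 : ℝ) →
      F ^ (1 - α + ε) ≤ A n * Real.exp (-(2 * F * n)) := by
  have hα := hK.α_pos
  have hα2 := hK.α_lt
  obtain ⟨e, he, hea, hee⟩ : ∃ e : ℝ, 0 < e ∧ e < α ∧ e < ε := by
    refine ⟨min (α / 2) (ε / 2), by positivity, ?_, ?_⟩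
    · exact (min_le_left _ _).trans_lt (by linarith)
    · exact (min_le_right _ _).trans_lt (by linarith)
  obtain ⟨C₂, u₂, hC₂, hu₂, hT⟩ := Tt_le hK he hea
  obtain ⟨C₃, hC₃, hS⟩ := sum_exp_rpow (s := α - e) (by linarith) (by linarith)
  obtain ⟨u₃, hu₃, hroot⟩ := root_bounds hK (ε := 1) one_pos
  set c : ℝ := 1 / (2 * C₂ * C₃) with hc
  have hcpos : 0 < c := by positivity
  set δ : ℝ := ε - e with hδ
  have hδ0 : 0 < δ := by rw [hδ]; linarith
  refine ⟨min (min u₂ u₃) (min (min (1 / 2) (1 / (4 * C₂))) (c ^ (1 / δ))), by positivity,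
    fun u F A hu hu1 hR hA n hn1 hn2 => ?_⟩
  have hF : 0 < F := hR.1
  have hua : u ≤ u₂ := hu1.trans ((min_le_left _ _).trans (min_le_left _ _))
  have hub : u ≤ u₃ := hu1.trans ((min_le_left _ _).trans (min_le_right _ _))
  have huc : u ≤ 1 / 2 :=
    hu1.trans ((min_le_right _ _).trans ((min_le_left _ _).trans (min_le_left _ _)))
  have hud : u ≤ 1 / (4 * C₂) :=
    hu1.trans ((min_le_right _ _).trans ((min_le_left _ _).trans (min_le_right _ _)))
  have hue : u ≤ c ^ (1 / δ) := hu1.trans ((min_le_right _ _).trans (min_le_right _ _))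
  have hFu : F ≤ u := by
    have e1 := (hroot u F hu hub hR).2
    have e2 : (1 : ℝ) ≤ 1 / α - 1 := by
      have : (2 : ℝ) ≤ 1 / α := by rw [le_div_iff₀ hα]; linarith
      linarith
    have e3 : u ^ (1 / α - 1) ≤ u ^ (1 : ℝ) :=
      Real.rpow_le_rpow_of_exponent_ge hu (by linarith) e2
    rw [Real.rpow_one] at e3
    exact e1.trans e3
  have hF2 : F ≤ 1 / 2 := hFu.trans huc
  have hTn := hT u F hu hua hR
  -- the first half
  have h1 : ((n : ℝ) + 1) * Tt a b u F n ≤ 1 / 2 := by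
    have e1 : Tt a b u F n ≤ C₂ * Real.exp (-(2 * F * n)) := by
      refine (hTn n).trans (mul_le_mul_of_nonneg_left ?_ hC₂.le)
      have e2 : ((n : ℝ) + 1) ^ (-(α - e)) ≤ 1 := by
        apply Real.rpow_le_one_of_one_le_of_nonpos
        · have : (0 : ℝ) ≤ n := Nat.cast_nonneg n
          linarith
        · linarith
      have e3 := mul_le_mul_of_nonneg_left e2 (Real.exp_pos (-(2 * F * n))).le
      linarith
    have e4 : Real.exp (-(2 * F * n)) ≤ F ^ 6 := by
      have e5 : 6 * Real.log (1 / F) ≤ 2 * F * n := by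
        have := mul_le_mul_of_nonneg_left hn1 (by positivity : 0 ≤ 2 * F)
        have e6 : 2 * F * (3 / F * Real.log (1 / F)) = 6 * Real.log (1 / F) := by
          field_simp; ring
        linarith
      have e7 : F ^ 6 = Real.exp (-(6 * Real.log (1 / F))) := by
        rw [one_div, Real.log_inv, ← Real.exp_log (pow_pos hF 6), Real.log_pow]
        congr 1
        push_cast
        ring
      rw [e7]
      exact Real.exp_le_exp.mpr (by linarith)
    have e8 : (n : ℝ) + 1 ≤ 2 * F ^ (-2 : ℝ) := by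
      have e9 : (1 : ℝ) ≤ F ^ (-2 : ℝ) :=
        Real.one_le_rpow_of_pos_of_le_one_of_nonpos hF (by linarith) (by norm_num)
      linarith
    have e10 : F ^ (-2 : ℝ) * F ^ 6 = F ^ 4 := by
      rw [← Real.rpow_natCast F 6, ← Real.rpow_add hF, ← Real.rpow_natCast F 4]
      norm_num
    have hn0 : (0 : ℝ) ≤ (n : ℝ) + 1 := by positivity
    calc ((n : ℝ) + 1) * Tt a b u F n ≤ ((n : ℝ) + 1) * (C₂ * F ^ 6) :=
          mul_le_mul_of_nonneg_left (e1.trans (mul_le_mul_of_nonneg_left e4 hC₂.le)) hn0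
      _ ≤ (2 * F ^ (-2 : ℝ)) * (C₂ * F ^ 6) := mul_le_mul_of_nonneg_right e8 (by positivity)
      _ = 2 * C₂ * F ^ 4 := by rw [← e10]; ring
      _ ≤ 2 * C₂ * (1 / (4 * C₂)) := by
          apply mul_le_mul_of_nonneg_left _ (by positivity)
          calc F ^ 4 ≤ F ^ 1 := pow_le_pow_of_le_one hF.le (by linarith) (by norm_num)
            _ = F := pow_one F
            _ ≤ u := hFu
            _ ≤ _ := hud
      _ = 1 / 2 := by field_simp; norm_num
  -- the second half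
  have h2 : ∑ k ∈ Finset.range n, Tt a b u F k ≤ C₂ * C₃ * F ^ (-(1 - (α - e))) := by
    calc ∑ k ∈ Finset.range n, Tt a b u F k
        ≤ ∑ k ∈ Finset.range n, C₂ * (Real.exp (-(2 * F * k)) * ((k : ℝ) + 1) ^ (-(α - e))) :=
          Finset.sum_le_sum fun k _ => hTn k
      _ = C₂ * ∑ k ∈ Finset.range n, Real.exp (-(2 * F * k)) * ((k : ℝ) + 1) ^ (-(α - e)) := by
          rw [Finset.mul_sum]
      _ ≤ C₂ * (C₃ * F ^ (-(1 - (α - e)))) := mul_le_mul_of_nonneg_left (hS F hF hF2 n) hC₂.le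
      _ = _ := by ring
  have hTnn : ∀ k, 0 ≤ Tt a b u F k := by
    intro k
    have e1 : ∑ j ∈ Finset.range k, G a b u (j + 1) * Real.exp (-(2 * F * ((j : ℝ) + 1))) ≤ 1 :=
      sum_le_hasSum _ (fun j _ => term_nonneg hK u F j) hR.2
    unfold Tt
    linarith
  set B : ℕ → ℝ := fun m => A m * Real.exp (-(2 * F * m)) with hB
  have hB0 : ∀ m, 0 ≤ B m := fun m => mul_nonneg (hA.pos m).le (Real.exp_pos _).le
  have hid : ∑ m ∈ Finset.range (2 * n + 1), B m * Tt a b u F (2 * n - m) = 1 := bn_id hA (2 * n)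
  have hsplit : ∑ m ∈ Finset.range (2 * n + 1), B m * Tt a b u F (2 * n - m) ≤
      ((n : ℝ) + 1) * Tt a b u F n + B n * ∑ k ∈ Finset.range n, Tt a b u F k := by
    rw [← Finset.sum_range_add_sum_Ico _ (show n + 1 ≤ 2 * n + 1 by omega)]
    apply add_le_add
    · calc ∑ m ∈ Finset.range (n + 1), B m * Tt a b u F (2 * n - m)
          ≤ ∑ m ∈ Finset.range (n + 1), Tt a b u F n := by
            apply Finset.sum_le_sum
            intro m hm
            rw [Finset.mem_range] at hm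
            have e1 : B m ≤ 1 := bn_le_one hK hR hA m
            have e2 : Tt a b u F (2 * n - m) ≤ Tt a b u F n := Tt_anti hK u F (by omega)
            calc B m * Tt a b u F (2 * n - m) ≤ 1 * Tt a b u F (2 * n - m) :=
                  mul_le_mul_of_nonneg_right e1 (hTnn _)
              _ ≤ _ := by rw [one_mul]; exact e2
        _ = ((n : ℝ) + 1) * Tt a b u F n := by
            rw [Finset.sum_const, Finset.card_range, nsmul_eq_mul]
            push_cast
            ring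
    · calc ∑ m ∈ Finset.Ico (n + 1) (2 * n + 1), B m * Tt a b u F (2 * n - m)
          ≤ ∑ m ∈ Finset.Ico (n + 1) (2 * n + 1), B n * Tt a b u F (2 * n - m) := by
            apply Finset.sum_le_sum
            intro m hm
            rw [Finset.mem_Ico] at hm
            exact mul_le_mul_of_nonneg_right (bn_anti hK hR hA (by omega)) (hTnn _)
        _ = B n * ∑ m ∈ Finset.Ico (n + 1) (2 * n + 1), Tt a b u F (2 * n - m) := by
            rw [Finset.mul_sum]
        _ = B n * ∑ k ∈ Finset.range n, Tt a b u F k := by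
            congr 1
            rw [Finset.sum_Ico_eq_sum_range, show 2 * n + 1 - (n + 1) = n by omega,
              ← Finset.sum_range_reflect]
            apply Finset.sum_congr rfl
            intro i hi
            rw [Finset.mem_range] at hi
            congr 1
            omega
  have hmain : 1 / 2 ≤ B n * (C₂ * C₃ * F ^ (-(1 - (α - e)))) := by
    have e1 := mul_le_mul_of_nonneg_left h2 (hB0 n)
    linarith
  have hBn : c * F ^ (1 - (α - e)) ≤ B n := by
    have e1 : F ^ (-(1 - (α - e))) = (F ^ (1 - (α - e)))⁻¹ := Real.rpow_neg hF.le _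
    rw [e1] at hmain
    have e2 : 0 < F ^ (1 - (α - e)) := Real.rpow_pos_of_pos hF _
    have e3 : B n * (C₂ * C₃ * (F ^ (1 - (α - e)))⁻¹) = B n * (C₂ * C₃) / F ^ (1 - (α - e)) := by
      rw [div_eq_mul_inv]; ring
    rw [e3, le_div_iff₀ e2] at hmain
    rw [hc, one_div, ← div_eq_inv_mul, div_le_iff₀ (by positivity)]
    nlinarith
  refine le_trans ?_ hBn
  have e1 : F ^ (1 - α + ε) = F ^ δ * F ^ (1 - (α - e)) := by
    rw [← Real.rpow_add hF]; congr 1; rw [hδ]; ring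
  rw [e1]
  apply mul_le_mul_of_nonneg_right _ (Real.rpow_nonneg hF.le _)
  calc F ^ δ ≤ (c ^ (1 / δ)) ^ δ := Real.rpow_le_rpow hF.le (hFu.trans hue) hδ0.le
    _ = c := by rw [← Real.rpow_mul hcpos.le, one_div, inv_mul_cancel₀ hδ0.ne', Real.rpow_one]

end

end Pool.Agent.AS
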