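import Pool.Agent.Lib.MP_daa227_pr_AS.Defs

/-!
# Excursion kernels of the copolymer potential; parity
-/

namespace Pool.Agent.AS

open MeasureTheory ProbabilityTheory Set Filter
open scoped ENNReal Topology
open MP_daa227_pr (Chain Zk Zf Gk Gf KU K0 ushift shift seqLaw ExpMom Good GoodW mom DepOn)
open Pool.Agent.AZ (Kv Zd Zfd cneg lmg)
open Pool.Agent.OT (phi Wc Kp Km)

noncomputable section

theorem Kv_right (C : Chain) (u : ℝ) (n : ℕ) {x : ℤ} (hx : 0 < x) :
    Kv C (vu u) n x = Real.exp u * K0 C n x := by
  induction n generalizing x with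
  | zero =>
    rw [AZ.Kv_zero, K0, mul_zero]
  | succ n ih =>
    rw [AZ.Kv_succ, K0, mul_add]
    congr 1
    · split_ifs
      · have : vu u 0 = u := by simp [vu, phi]
        rw [this, mul_comm]
      · rw [mul_zero]
    · rw [Finset.mul_sum]
      refine Finset.sum_congr rfl fun z hz => ?_
      rw [Finset.mem_sdiff, Finset.mem_Icc, Finset.mem_singleton] at hz
      have hz0 : 0 < z := by omega
      have : vu u z = 0 := by
        have : ¬ z ≤ 0 := by omega
        simp [vu, phi, this]
      rw [this, ih hz0, Real.exp_zero]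
      ring

theorem Kv_left (C : Chain) (u : ℝ) (n : ℕ) {x : ℤ} (hx : x < 0) :
    Kv C (vu u) n x = Real.exp (n * u) * K0 C n x := by
  induction n generalizing x with
  | zero =>
    rw [AZ.Kv_zero, K0, mul_zero]
  | succ n ih =>
    rw [AZ.Kv_succ, K0, mul_add]
    congr 1
    · split_ifs with h
      · subst h
        have : vu u 0 = u := by simp [vu, phi]
        rw [this, mul_comm]
        simp
      · rw [mul_zero]
    · rw [Finset.mul_sum]
      refine Finset.sum_congr rfl fun z hz => ?_
      rw [Finset.mem_sdiff, Finset.mem_Icc, Finset.mem_singleton] at hz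
      have hz0 : z < 0 := by omega
      have : vu u z = u := by
        have : z ≤ 0 := by omega
        simp [vu, phi, this]
      rw [this, ih hz0]
      push_cast
      rw [add_mul, one_mul, Real.exp_add]
      ring

theorem Kv_half (C : Chain) (hnl : ∀ x, C.p x x = 0) (u : ℝ) (k : ℕ) :
    Kv C (vu u) (2 * k) 0 = G (Kp C) (Km C) u k := by
  rcases k with _ | k
  · simp [G, Kp, Km, AZ.Kv_zero, K0]
  · have h : 2 * (k + 1) = (2 * k + 1) + 1 := by ring
    rw [h, AZ.Kv_split C hnl]
    unfold AZ.Es G
    rw [Kv_right C u _ (by norm_num : (0 : ℤ) < 1), Kv_left C u _ (by norm_num : (-1 : ℤ) < 0)]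
    have h1 : vu u 1 = 0 := by simp [vu, phi]
    have h2 : vu u (-1) = u := by simp [vu, phi]
    have h3 : 2 * (k + 1) - 1 = 2 * k + 1 := by omega
    have h4 : Real.exp (2 * ((k + 1 : ℕ) : ℝ) * u) =
        Real.exp u * Real.exp (((2 * k + 1 : ℕ) : ℝ) * u) := by
      rw [← Real.exp_add]
      congr 1
      push_cast
      ring
    rw [h1, h2, h4, Real.exp_zero]
    unfold OT.Kp OT.Km
    rw [h3]
    ring

theorem K0_parity (C : Chain) (hnl : ∀ x, C.p x x = 0) (n : ℕ) (x : ℤ) (h : ¬ Even ((n : ℤ) + x)) :
    K0 C n x = 0 := by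
  induction n generalizing x with
  | zero => rfl
  | succ n ih =>
    rw [K0]
    have h1 : (if n = 0 then C.p x 0 else 0) = 0 := by
      split_ifs with hn
      · subst hn
        by_cases hx : x = 0
        · rw [hx]; exact hnl 0
        · apply C.near
          intro h2
          rw [Finset.mem_Icc] at h2
          apply h
          have : x = 1 ∨ x = -1 := by omega
          rcases this with rfl | rfl
          · exact ⟨1, by norm_num⟩
          · exact ⟨0, by norm_num⟩
      · rfl
    rw [h1, zero_add]
    refine Finset.sum_eq_zero fun z hz => ?_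
    rw [Finset.mem_sdiff, Finset.mem_Icc, Finset.mem_singleton] at hz
    by_cases hzx : z = x
    · rw [hzx, hnl, zero_mul]
    · rw [ih z ?_, mul_zero]
      intro h2
      apply h
      push_cast
      have : z = x + 1 ∨ z = x - 1 := by omega
      rcases this with rfl | rfl
      · have e : (n : ℤ) + 1 + x = n + (x + 1) := by ring
        rwa [e]
      · have e : (n : ℤ) + 1 + x = n + (x - 1) + 2 := by ring
        rw [e]
        exact h2.add even_two

theorem Zd_parity (C : Chain) (hnl : ∀ x, C.p x x = 0) (v : ℤ → ℝ) (n : ℕ) (x y : ℤ)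
    (h : ¬ Even ((n : ℤ) + x + y)) : Zd C v n x y = 0 := by
  induction n generalizing x with
  | zero =>
    unfold AZ.Zd
    rw [Zk]
    split_ifs with hxy
    · exfalso
      apply h
      subst hxy
      exact ⟨x, by push_cast; ring⟩
    · rfl
  | succ n ih =>
    have h1 : Zd C v (n + 1) x y = ∑ z ∈ Finset.Icc (x - 1) (x + 1), C.p x z * Real.exp (v z) *
        Zd C v n z y := rfl
    rw [h1]
    refine Finset.sum_eq_zero fun z hz => ?_
    rw [Finset.mem_Icc] at hz
    by_cases hzx : z = x
    · rw [hzx, hnl, zero_mul, zero_mul]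
    · rw [ih z ?_, mul_zero]
      intro h2
      apply h
      push_cast
      have : z = x + 1 ∨ z = x - 1 := by omega
      rcases this with rfl | rfl
      · have e : (n : ℤ) + 1 + x + y = n + (x + 1) + y := by ring
        rwa [e]
      · have e : (n : ℤ) + 1 + x + y = n + (x - 1) + y + 2 := by ring
        rw [e]
        exact h2.add even_two

theorem Zd_odd (C : Chain) (hnl : ∀ x, C.p x x = 0) (v : ℤ → ℝ) (n : ℕ) :
    Zd C v (2 * n + 1) 0 0 = 0 := by
  apply Zd_parity C hnl
  push_cast
  rw [add_zero, add_zero, Int.not_even_iff_odd]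
  exact ⟨n, rfl⟩

end

end Pool.Agent.AS
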