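import Pool.Agent.Lib.MP_daa227_pr_AS.UpB
import Pool.Agent.Lib.MP_daa227_pr_AS.ConvA
import Pool.Agent.Lib.MP_daa227_pr_AS.Tab
import Pool.Agent.Lib.MP_daa227_pr_AS.CvxS
import Pool.Agent.Lib.MP_daa227_pr_AS.Ren
import Pool.Agent.Lib.MP_daa227_pr_AS.Last
import Pool.Agent.Lib.MP_daa227_pr.ExcLem

/-!
# Upper bound on the annealed partition function with terminal weight `w`
-/

namespace Pool.Agent.AS

open MeasureTheory ProbabilityTheory Set Filter
open scoped ENNReal Topology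
open MP_daa227_pr (Chain Zk Zf Gk Gf KU K0 ushift shift seqLaw ExpMom Good GoodW mom DepOn)
open Pool.Agent.AZ (Kv Zd Zfd cneg lmg)
open Pool.Agent.OT (phi Wc Kp Km)

noncomputable section

theorem UB.w_nonneg {C : Chain} {c : ℝ} {w : ℤ → ℝ} (hw : IsW C c w) (x : ℤ) : 0 ≤ w x := by
  rcases le_or_gt x 0 with h | h
  · exact (hw.pos x h).le
  · exact (hw.out x h).ge

theorem UB.Nn_nonneg (C : Chain) (v : ℤ → ℝ) {η : ℤ → ℝ} (hη : ∀ x, 0 ≤ η x) (n : ℕ) (x : ℤ) :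
    0 ≤ Nn C v η n x := by
  induction n generalizing x with
  | zero => exact hη x
  | succ n ih =>
    rw [Nn]
    exact Finset.sum_nonneg fun z _ =>
      mul_nonneg (mul_nonneg (C.nonneg _ _) (Real.exp_pos _).le) (ih z)

/-- `(1 + t)^θ e^{-a t} ≤ 1 + 1/a` for `0 ≤ θ ≤ 1` -/
theorem UB.poly_exp {θ a t : ℝ} (h0 : 0 ≤ θ) (h1 : θ ≤ 1) (ha : 0 < a) (ht : 0 ≤ t) :
    (t + 1) ^ θ * Real.exp (-(a * t)) ≤ 1 + 1 / a := by
  have e1 : (t + 1) ^ θ ≤ t + 1 := by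
    calc (t + 1) ^ θ ≤ (t + 1) ^ (1 : ℝ) :=
          Real.rpow_le_rpow_of_exponent_le (by linarith) h1
      _ = t + 1 := Real.rpow_one _
  have e2 : Real.exp (-(a * t)) ≤ 1 := by
    apply Real.exp_le_one_iff.mpr
    have := mul_nonneg ha.le ht
    linarith
  have e3 : t * Real.exp (-(a * t)) ≤ 1 / a := by
    have h2 : a * t + 1 ≤ Real.exp (a * t) := Real.add_one_le_exp _
    have h3 : Real.exp (-(a * t)) * Real.exp (a * t) = 1 := by
      rw [← Real.exp_add]; simp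
    have h4 : a * (t * Real.exp (-(a * t))) ≤ 1 := by
      have h5 : 0 < Real.exp (-(a * t)) := Real.exp_pos _
      nlinarith
    rw [le_div_iff₀ ha]
    linarith
  calc (t + 1) ^ θ * Real.exp (-(a * t)) ≤ (t + 1) * Real.exp (-(a * t)) :=
        mul_le_mul_of_nonneg_right e1 (Real.exp_pos _).le
    _ = t * Real.exp (-(a * t)) + Real.exp (-(a * t)) := by ring
    _ ≤ 1 + 1 / a := by linarith

/-- the value at `0` -/
theorem UB.zero {C : Chain} (hnl : ∀ x, C.p x x = 0) {c : ℝ} {w : ℤ → ℝ} (hw : IsW C c w)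
    {θ Cb K K₁ u F : ℝ} (hθ : 0 ≤ θ) (hCb : 0 < Cb) (hK : 0 < K)
    (hK₁ : ∀ n : ℕ, ∑ i ∈ Finset.range (n + 1), ((i : ℝ) + 1) ^ (-θ) *
      Real.exp (-(c / 2 * ((n : ℝ) - i))) ≤ K₁ * ((n : ℝ) + 1) ^ (-θ))
    (huc : u ≤ c / 2) (hF : 0 < F) (n : ℕ)
    (hA : ∀ m : ℕ, m ≤ n → An C u m * Real.exp (-(2 * F * m)) ≤ Cb * ((m : ℝ) + 1) ^ (-θ))
    (hN : ∀ m : ℕ, Nn C (vu u) w m 0 ≤ K * Real.exp ((u - c) * m)) :
    Tn C (vu u) w n 0 ≤ Real.exp (F * n) * (2 ^ θ * Cb * K * K₁ * ((n : ℝ) + 1) ^ (-θ)) := by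
  have hZ : ∀ i : ℕ, i ≤ n → Zd C (vu u) i 0 0 ≤
      Real.exp (F * i) * (2 ^ θ * Cb * ((i : ℝ) + 1) ^ (-θ)) := by
    intro i hi
    rcases Nat.even_or_odd' i with ⟨m, hm | hm⟩
    · have h1 := hA m (by omega)
      have h2 : An C u m = Zd C (vu u) i 0 0 := by rw [An, hm]
      have h3 : An C u m ≤ Real.exp (2 * F * m) * (Cb * ((m : ℝ) + 1) ^ (-θ)) := by
        have h4 : Real.exp (-(2 * F * m)) * Real.exp (2 * F * m) = 1 := by
          rw [← Real.exp_add]; simp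
        have h5 : 0 < Real.exp (2 * F * m) := Real.exp_pos _
        calc An C u m = An C u m * Real.exp (-(2 * F * m)) * Real.exp (2 * F * m) := by
              rw [mul_assoc, h4, mul_one]
          _ ≤ Cb * ((m : ℝ) + 1) ^ (-θ) * Real.exp (2 * F * m) :=
              mul_le_mul_of_nonneg_right h1 h5.le
          _ = _ := by ring
      have h6 : (i : ℝ) = 2 * m := by rw [hm]; push_cast; ring
      have h7 : ((m : ℝ) + 1) ^ (-θ) ≤ 2 ^ θ * ((i : ℝ) + 1) ^ (-θ) := by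
        have h8 : ((i : ℝ) + 1) / 2 ≤ (m : ℝ) + 1 := by rw [h6]; linarith
        have h9 : (0 : ℝ) < ((i : ℝ) + 1) / 2 := by positivity
        calc ((m : ℝ) + 1) ^ (-θ) ≤ (((i : ℝ) + 1) / 2) ^ (-θ) :=
              Real.rpow_le_rpow_of_nonpos h9 h8 (by linarith)
          _ = 2 ^ θ * ((i : ℝ) + 1) ^ (-θ) := by
              rw [Real.div_rpow (by positivity) (by norm_num), Real.rpow_neg (by norm_num : (0:ℝ) ≤ 2)]
              rw [div_inv_eq_mul, mul_comm]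
      rw [← h2]
      calc An C u m ≤ Real.exp (2 * F * m) * (Cb * ((m : ℝ) + 1) ^ (-θ)) := h3
        _ ≤ Real.exp (2 * F * m) * (Cb * (2 ^ θ * ((i : ℝ) + 1) ^ (-θ))) := by gcongr
        _ = Real.exp (F * i) * (2 ^ θ * Cb * ((i : ℝ) + 1) ^ (-θ)) := by
            rw [h6]; ring_nf
    · rw [hm, Zd_odd C hnl]
      positivity
  rw [last_zero]
  have hT : ∀ i ∈ Finset.range (n + 1), Zd C (vu u) i 0 0 * Nn C (vu u) w (n - i) 0 ≤
      Real.exp (F * n) * (2 ^ θ * Cb * K) * (((i : ℝ) + 1) ^ (-θ) *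
        Real.exp (-(c / 2 * ((n : ℝ) - i)))) := by
    intro i hi
    have hin : i ≤ n := by
      have := Finset.mem_range.mp hi
      omega
    have hin' : (i : ℝ) ≤ n := by exact_mod_cast hin
    have h1 : Nn C (vu u) w (n - i) 0 ≤
        K * (Real.exp (F * ((n : ℝ) - i)) * Real.exp (-(c / 2 * ((n : ℝ) - i)))) := by
      refine (hN (n - i)).trans ?_
      apply mul_le_mul_of_nonneg_left _ hK.le
      rw [← Real.exp_add, Nat.cast_sub hin]
      apply Real.exp_le_exp.mpr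
      have h2 : 0 ≤ (n : ℝ) - i := by linarith
      nlinarith
    calc Zd C (vu u) i 0 0 * Nn C (vu u) w (n - i) 0
        ≤ (Real.exp (F * i) * (2 ^ θ * Cb * ((i : ℝ) + 1) ^ (-θ))) *
          (K * (Real.exp (F * ((n : ℝ) - i)) * Real.exp (-(c / 2 * ((n : ℝ) - i))))) :=
          mul_le_mul (hZ i hin) h1 (UB.Nn_nonneg C _ (UB.w_nonneg hw) _ _) (by positivity)
      _ = (Real.exp (F * i) * Real.exp (F * ((n : ℝ) - i))) * (2 ^ θ * Cb * K) *
          (((i : ℝ) + 1) ^ (-θ) * Real.exp (-(c / 2 * ((n : ℝ) - i)))) := by ring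
      _ = _ := by
          rw [← Real.exp_add]
          congr 3
          ring_nf
  calc ∑ i ∈ Finset.range (n + 1), Zd C (vu u) i 0 0 * Nn C (vu u) w (n - i) 0
      ≤ ∑ i ∈ Finset.range (n + 1), Real.exp (F * n) * (2 ^ θ * Cb * K) *
        (((i : ℝ) + 1) ^ (-θ) * Real.exp (-(c / 2 * ((n : ℝ) - i)))) := Finset.sum_le_sum hT
    _ = Real.exp (F * n) * (2 ^ θ * Cb * K) * ∑ i ∈ Finset.range (n + 1),
        (((i : ℝ) + 1) ^ (-θ) * Real.exp (-(c / 2 * ((n : ℝ) - i)))) := by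
        rw [Finset.mul_sum]
    _ ≤ Real.exp (F * n) * (2 ^ θ * Cb * K) * (K₁ * ((n : ℝ) + 1) ^ (-θ)) := by
        apply mul_le_mul_of_nonneg_left (hK₁ n)
        positivity
    _ = _ := by ring

theorem ub {C : Chain} (hnl : ∀ x, C.p x x = 0) {α : ℝ} (hK : Ker (Kp C) (Km C) α) {c : ℝ}
    {w : ℤ → ℝ} (hw : IsW C c w) : ∃ θ Cq ε₂ u₂ : ℝ, 1 / 2 < θ ∧ 0 < Cq ∧ 0 < ε₂ ∧ 0 < u₂ ∧
      ∀ u F : ℝ, 0 < u → u ≤ u₂ → Root (Kp C) (Km C) u F → ∀ n : ℕ, (n : ℝ) ≤ F ^ (-(1 + ε₂)) →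
        ∀ x : ℤ, x ≤ 0 →
        Tn C (vu u) w n x ≤ Real.exp (F * n) * (Cq * ((n : ℝ) + 1) ^ (-θ)) * w x := by
  have hα0 := hK.α_pos
  have hα1 := hK.α_lt
  have hc := hw.c_pos
  obtain ⟨θ, hθ1, hθ2⟩ : ∃ θ : ℝ, 1 / 2 < θ ∧ θ < 1 - α :=
    ⟨3 / 4 - α / 2, by linarith, by linarith⟩
  have hθ0 : 0 < θ := by linarith
  obtain ⟨Cb, ε₂, u₂', hCb, hε₂, hu₂', hup⟩ := upb hK hθ0 hθ2
  obtain ⟨K, hKpos, htab⟩ := w_tab_zero hw
  obtain ⟨K₁, hK₁pos, hconv⟩ := conv_exp (θ := θ) (c := c / 2) hθ0.le (by positivity)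
  set C₀ : ℝ := 2 ^ θ * Cb * K * K₁ with hC₀
  have hC₀pos : 0 < C₀ := by positivity
  set K₂ : ℝ := 1 + 1 / (c / 2) with hK₂
  have hK₂pos : 0 < K₂ := by positivity
  refine ⟨θ, C₀ * K₂ + K₂ + C₀, ε₂, min u₂' (min 1 (c / 2)), hθ1, by positivity, hε₂,
    by positivity, ?_⟩
  intro u F hu huu hR n hn x hx
  have hu1 : u ≤ u₂' := huu.trans (min_le_left _ _)
  have hu2 : u ≤ 1 := huu.trans ((min_le_right _ _).trans (min_le_left _ _))
  have hu3 : u ≤ c / 2 := huu.trans ((min_le_right _ _).trans (min_le_right _ _))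
  have hF : 0 < F := hR.1
  -- the value at zero, for all times up to `n`
  have hz : ∀ m : ℕ, m ≤ n → Tn C (vu u) w m 0 ≤
      Real.exp (F * m) * (C₀ * ((m : ℝ) + 1) ^ (-θ)) := by
    intro m hm
    refine UB.zero hnl hw hθ0.le hCb hKpos hconv hu3 hF m ?_ (fun k => htab u hu.le hu2 k)
    intro k hk
    refine hup u F (An C u) hu hu1 hR (An_ren C hnl u) k ?_
    refine le_trans ?_ hn
    exact_mod_cast hk.trans hm
  have hn0 : (0 : ℝ) < (n : ℝ) + 1 := by positivity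
  have hnθ : 0 < ((n : ℝ) + 1) ^ (-θ) := Real.rpow_pos_of_pos hn0 _
  rcases hx.eq_or_lt with rfl | hx
  · rw [hw.zero, mul_one]
    refine (hz n le_rfl).trans ?_
    apply mul_le_mul_of_nonneg_left _ (Real.exp_pos _).le
    apply mul_le_mul_of_nonneg_right _ hnθ.le
    nlinarith [mul_pos hC₀pos hK₂pos]
  · rw [first_return]
    have hw0 : 0 < w x := hw.pos x hx.le
    have hterm : ∀ t ∈ Finset.Ioc 0 n, Kv C (vu u) t x * Tn C (vu u) w (n - t) 0 ≤
        Real.exp (F * n) * (C₀ * K₂ * ((n : ℝ) + 1) ^ (-θ)) * (Real.exp (c * t) * K0 C t x) := by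
      intro t ht
      obtain ⟨ht0, htn⟩ := Finset.mem_Ioc.mp ht
      have htn' : (t : ℝ) ≤ n := by exact_mod_cast htn
      have ht0' : (0 : ℝ) ≤ t := by positivity
      have hK0 : 0 ≤ K0 C t x := MP_daa227_pr.K0_nonneg C t x
      have h1 := hz (n - t) (Nat.sub_le _ _)
      rw [Nat.cast_sub htn] at h1
      have h2 : ((n : ℝ) - t + 1) ^ (-θ) ≤ ((n : ℝ) + 1) ^ (-θ) * ((t : ℝ) + 1) ^ θ := by
        have h3 : ((n : ℝ) + 1) / ((t : ℝ) + 1) ≤ (n : ℝ) - t + 1 := by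
          rw [div_le_iff₀ (by positivity)]
          nlinarith
        have h4 : (0 : ℝ) < ((n : ℝ) + 1) / ((t : ℝ) + 1) := by positivity
        calc ((n : ℝ) - t + 1) ^ (-θ) ≤ (((n : ℝ) + 1) / ((t : ℝ) + 1)) ^ (-θ) :=
              Real.rpow_le_rpow_of_nonpos h4 h3 (by linarith)
          _ = ((n : ℝ) + 1) ^ (-θ) * ((t : ℝ) + 1) ^ θ := by
              rw [Real.div_rpow (by positivity) (by positivity),
                Real.rpow_neg (by positivity : (0:ℝ) ≤ (t : ℝ) + 1), div_inv_eq_mul]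
      have h5 : Real.exp (t * u) * ((t : ℝ) + 1) ^ θ ≤ Real.exp (c * t) * K₂ := by
        have h6 := UB.poly_exp (θ := θ) (a := c / 2) (t := (t : ℝ)) hθ0.le (by linarith)
          (by positivity) ht0'
        have h7 : Real.exp (t * u) ≤ Real.exp (c * t) * Real.exp (-(c / 2 * t)) := by
          rw [← Real.exp_add]
          apply Real.exp_le_exp.mpr
          nlinarith
        calc Real.exp (t * u) * ((t : ℝ) + 1) ^ θ
            ≤ Real.exp (c * t) * Real.exp (-(c / 2 * t)) * ((t : ℝ) + 1) ^ θ := by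
              apply mul_le_mul_of_nonneg_right h7
              positivity
          _ = Real.exp (c * t) * (((t : ℝ) + 1) ^ θ * Real.exp (-(c / 2 * t))) := by ring
          _ ≤ Real.exp (c * t) * K₂ := mul_le_mul_of_nonneg_left h6 (Real.exp_pos _).le
      have h8 : Real.exp (F * ((n : ℝ) - t)) ≤ Real.exp (F * n) := by
        apply Real.exp_le_exp.mpr
        nlinarith [mul_nonneg hF.le ht0']
      rw [Kv_left C u t hx]
      have hKe : 0 ≤ Real.exp (t * u) * K0 C t x := mul_nonneg (Real.exp_pos _).le hK0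
      calc Real.exp (t * u) * K0 C t x * Tn C (vu u) w (n - t) 0
          ≤ Real.exp (t * u) * K0 C t x *
            (Real.exp (F * ((n : ℝ) - t)) * (C₀ * ((n : ℝ) - t + 1) ^ (-θ))) :=
            mul_le_mul_of_nonneg_left h1 hKe
        _ ≤ Real.exp (t * u) * K0 C t x *
            (Real.exp (F * n) * (C₀ * (((n : ℝ) + 1) ^ (-θ) * ((t : ℝ) + 1) ^ θ))) := by
            apply mul_le_mul_of_nonneg_left _ hKe
            apply mul_le_mul h8 _ _ (Real.exp_pos _).le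
            · exact mul_le_mul_of_nonneg_left h2 hC₀pos.le
            · apply mul_nonneg hC₀pos.le
              apply Real.rpow_nonneg
              linarith
        _ = Real.exp (F * n) * (C₀ * ((n : ℝ) + 1) ^ (-θ)) * K0 C t x *
            (Real.exp (t * u) * ((t : ℝ) + 1) ^ θ) := by ring
        _ ≤ Real.exp (F * n) * (C₀ * ((n : ℝ) + 1) ^ (-θ)) * K0 C t x *
            (Real.exp (c * t) * K₂) := by
            apply mul_le_mul_of_nonneg_left h5
            positivity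
        _ = _ := by ring
    have hN : Nn C (vu u) w n x ≤
        Real.exp (F * n) * (K₂ * ((n : ℝ) + 1) ^ (-θ)) * w x := by
      refine (w_tab hw u n hx).trans ?_
      apply mul_le_mul_of_nonneg_right _ hw0.le
      have h6 := UB.poly_exp (θ := θ) (a := c / 2) (t := (n : ℝ)) hθ0.le (by linarith)
          (by positivity) (by positivity)
      have h7 : Real.exp ((u - c) * n) ≤ Real.exp (-(c / 2 * n)) := by
        apply Real.exp_le_exp.mpr
        have : (0 : ℝ) ≤ n := by positivity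
        nlinarith
      have h8 : Real.exp (-(c / 2 * n)) ≤ K₂ * ((n : ℝ) + 1) ^ (-θ) := by
        have h9 : ((n : ℝ) + 1) ^ (-θ) * ((n : ℝ) + 1) ^ θ = 1 := by
          rw [← Real.rpow_add hn0]; simp
        calc Real.exp (-(c / 2 * n)) =
            (((n : ℝ) + 1) ^ θ * Real.exp (-(c / 2 * n))) * ((n : ℝ) + 1) ^ (-θ) := by
              rw [mul_comm (((n : ℝ) + 1) ^ θ), mul_assoc, mul_comm (((n : ℝ) + 1) ^ θ), h9, mul_one]
          _ ≤ K₂ * ((n : ℝ) + 1) ^ (-θ) := mul_le_mul_of_nonneg_right h6 hnθ.le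
      have h10 : 1 ≤ Real.exp (F * n) := by
        apply Real.one_le_exp
        positivity
      have h11 : 0 ≤ K₂ * ((n : ℝ) + 1) ^ (-θ) := by positivity
      calc Real.exp ((u - c) * n) ≤ K₂ * ((n : ℝ) + 1) ^ (-θ) := h7.trans h8
        _ = 1 * (K₂ * ((n : ℝ) + 1) ^ (-θ)) := (one_mul _).symm
        _ ≤ _ := mul_le_mul_of_nonneg_right h10 h11
    have hS : ∑ t ∈ Finset.Ioc 0 n, Kv C (vu u) t x * Tn C (vu u) w (n - t) 0 ≤
        Real.exp (F * n) * (C₀ * K₂ * ((n : ℝ) + 1) ^ (-θ)) * w x := by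
      refine (Finset.sum_le_sum hterm).trans ?_
      rw [← Finset.mul_sum]
      apply mul_le_mul_of_nonneg_left (w_hit hw n hx)
      positivity
    have hL : 0 ≤ Real.exp (F * n) * (C₀ * ((n : ℝ) + 1) ^ (-θ)) * w x := by positivity
    calc ∑ t ∈ Finset.Ioc 0 n, Kv C (vu u) t x * Tn C (vu u) w (n - t) 0 + Nn C (vu u) w n x
        ≤ Real.exp (F * n) * (C₀ * K₂ * ((n : ℝ) + 1) ^ (-θ)) * w x +
          Real.exp (F * n) * (K₂ * ((n : ℝ) + 1) ^ (-θ)) * w x := add_le_add hS hN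
      _ ≤ Real.exp (F * n) * (C₀ * K₂ * ((n : ℝ) + 1) ^ (-θ)) * w x +
          Real.exp (F * n) * (K₂ * ((n : ℝ) + 1) ^ (-θ)) * w x +
          Real.exp (F * n) * (C₀ * ((n : ℝ) + 1) ^ (-θ)) * w x := le_add_of_nonneg_right hL
      _ = _ := by ring

end

end Pool.Agent.AS
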