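import Pool.Agent.Lib.MP_daa227_pr_AS.Dec
import Pool.Agent.Lib.MP_daa227_pr_AS.RootB

/-!
# Upper bound for the normalised annealed partition function
-/

namespace Pool.Agent.AS

open MeasureTheory ProbabilityTheory Set Filter
open scoped ENNReal Topology

noncomputable section

section seq

variable {a b : ℕ → ℝ} {α : ℝ}

namespace UpB

/-- the normalised weights -/
def gw (a b : ℕ → ℝ) (u F : ℝ) (j : ℕ) : ℝ :=
  G a b u (j + 1) * Real.exp (-(2 * F * ((j : ℝ) + 1)))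

theorem a_nonneg (hK : Ker a b α) (k : ℕ) : 0 ≤ a k := by
  rcases Nat.eq_zero_or_pos k with h | h
  · rw [h, hK.a_zero]
  · exact (hK.a_pos k h).le

theorem le_G (hK : Ker a b α) {u : ℝ} (hu : 0 < u) (k : ℕ) : a k ≤ G a b u k := by
  unfold G
  have h1 : 1 ≤ Real.exp u := Real.one_le_exp hu.le
  have h2 := a_nonneg hK k
  have h3 : 0 ≤ Real.exp (2 * k * u) * b k := mul_nonneg (Real.exp_pos _).le (hK.b_nonneg k)
  nlinarith

theorem gw_nonneg (hK : Ker a b α) {u : ℝ} (hu : 0 < u) (F : ℝ) (j : ℕ) : 0 ≤ gw a b u F j :=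
  mul_nonneg ((a_nonneg hK _).trans (le_G hK hu _)) (Real.exp_pos _).le

theorem tail_ge (hK : Ker a b α) {u F : ℝ} (hu : 0 < u) (hR : Root a b u F) (n : ℕ) :
    ∑ j ∈ Finset.Ico n (2 * n + 1), gw a b u F j ≤ 1 - ∑ j ∈ Finset.range n, gw a b u F j := by
  have h1 : ∑ j ∈ Finset.range (2 * n + 1), gw a b u F j ≤ 1 :=
    sum_le_hasSum _ (fun j _ => gw_nonneg hK hu F j) hR.2
  have h2 := Finset.sum_range_add_sum_Ico (gw a b u F) (show n ≤ 2 * n + 1 by omega)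
  linarith

/-- the lower bound for the tails -/
theorem tail_low (hK : Ker a b α) {e c : ℝ} (he : 0 < e) (hc : 0 < c)
    (hlow : ∀ k : ℕ, 1 ≤ k → c * (k : ℝ) ^ (-(1 + α + e)) ≤ a k) {u F : ℝ} (hu : 0 < u)
    (hF1 : F ≤ 1) (hR : Root a b u F) {n : ℕ} (hn : (n : ℝ) ≤ 1 / F) :
    c * Real.exp (-6) * 2 ^ (-(1 + α + e)) * ((n : ℝ) + 1) ^ (-(α + e)) ≤
      1 - ∑ j ∈ Finset.range n, gw a b u F j := by
  refine le_trans ?_ (tail_ge hK hu hR n)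
  have hF := hR.1
  have hnF : (n : ℝ) * F ≤ 1 := by rwa [le_div_iff₀ hF] at hn
  have hα := hK.α_pos
  have hn0 : (0 : ℝ) ≤ n := Nat.cast_nonneg n
  have hterm : ∀ j ∈ Finset.Ico n (2 * n + 1),
      c * Real.exp (-6) * 2 ^ (-(1 + α + e)) * ((n : ℝ) + 1) ^ (-(1 + α + e)) ≤
        gw a b u F j := by
    intro j hj
    rw [Finset.mem_Ico] at hj
    have hj1 : (j : ℝ) ≤ 2 * n := by
      have : j ≤ 2 * n := by omega
      exact_mod_cast this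
    have hj0 : (0 : ℝ) ≤ j := Nat.cast_nonneg j
    have h1 : ((j + 1 : ℕ) : ℝ) ≤ 2 * ((n : ℝ) + 1) := by
      push_cast
      linarith
    have h2 : (0 : ℝ) < ((j + 1 : ℕ) : ℝ) := by positivity
    have h3 : (2 * ((n : ℝ) + 1)) ^ (-(1 + α + e)) ≤ ((j + 1 : ℕ) : ℝ) ^ (-(1 + α + e)) :=
      Real.rpow_le_rpow_of_nonpos h2 h1 (by linarith)
    have h4 : (2 * ((n : ℝ) + 1)) ^ (-(1 + α + e)) =
        2 ^ (-(1 + α + e)) * ((n : ℝ) + 1) ^ (-(1 + α + e)) :=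
      Real.mul_rpow (by norm_num) (by linarith)
    have h5 : c * (2 ^ (-(1 + α + e)) * ((n : ℝ) + 1) ^ (-(1 + α + e))) ≤ G a b u (j + 1) := by
      rw [← h4]
      exact (mul_le_mul_of_nonneg_left h3 hc.le).trans
        ((hlow (j + 1) (by omega)).trans (le_G hK hu (j + 1)))
    have h6 : Real.exp (-6) ≤ Real.exp (-(2 * F * ((j : ℝ) + 1))) := by
      apply Real.exp_le_exp.2
      have : F * j ≤ F * (2 * n) := mul_le_mul_of_nonneg_left hj1 hF.le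
      nlinarith
    unfold gw
    calc c * Real.exp (-6) * 2 ^ (-(1 + α + e)) * ((n : ℝ) + 1) ^ (-(1 + α + e))
        = (c * (2 ^ (-(1 + α + e)) * ((n : ℝ) + 1) ^ (-(1 + α + e)))) * Real.exp (-6) := by ring
      _ ≤ G a b u (j + 1) * Real.exp (-(2 * F * ((j : ℝ) + 1))) :=
          mul_le_mul h5 h6 (Real.exp_pos _).le ((a_nonneg hK _).trans (le_G hK hu _))
  have hsum := Finset.card_nsmul_le_sum (Finset.Ico n (2 * n + 1)) (gw a b u F) _ hterm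
  rw [Nat.card_Ico, nsmul_eq_mul] at hsum
  have hcard : (((2 * n + 1 - n : ℕ)) : ℝ) = (n : ℝ) + 1 := by
    have : 2 * n + 1 - n = n + 1 := by omega
    rw [this]
    push_cast
    ring
  rw [hcard] at hsum
  refine le_trans (le_of_eq ?_) hsum
  have h7 : ((n : ℝ) + 1) ^ (-(α + e)) = ((n : ℝ) + 1) * ((n : ℝ) + 1) ^ (-(1 + α + e)) := by
    rw [← Real.rpow_one_add' (by linarith) (by linarith)]
    congr 1
    ring
  rw [h7]
  ring

/-- the bound for `n ≤ 1 / F` -/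
theorem small (hK : Ker a b α) {e c : ℝ} (he : 0 < e) (he1 : e < 1 - α) (hc : 0 < c)
    (hlow : ∀ k : ℕ, 1 ≤ k → c * (k : ℝ) ^ (-(1 + α + e)) ≤ a k) {u F : ℝ} (hu : 0 < u)
    (hF1 : F ≤ 1) (hR : Root a b u F) {A : ℕ → ℝ} (hA : RenS (G a b u) A) {n : ℕ}
    (hn : (n : ℝ) ≤ 1 / F) :
    A n * Real.exp (-(2 * F * n)) ≤
      (c * Real.exp (-6) * 2 ^ (-(1 + α + e)))⁻¹ * ((n : ℝ) + 1) ^ (-(1 - α - e)) := by
  set D := c * Real.exp (-6) * 2 ^ (-(1 + α + e)) with hD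
  have hD0 : 0 < D := by positivity
  have hn1 : (0 : ℝ) < (n : ℝ) + 1 := by positivity
  set bn := A n * Real.exp (-(2 * F * n)) with hbn
  have hb0 : 0 ≤ bn := mul_nonneg (hA.pos n).le (Real.exp_pos _).le
  have hlowT := tail_low hK he hc hlow hu hF1 hR hn
  rw [← hD] at hlowT
  have hid := bn_id (F := F) hA n
  have hterm : ∀ m ∈ Finset.range (n + 1), bn * (D * ((n : ℝ) + 1) ^ (-(α + e))) ≤
      A m * Real.exp (-(2 * F * m)) *
      (1 - ∑ j ∈ Finset.range (n - m), G a b u (j + 1) * Real.exp (-(2 * F * ((j : ℝ) + 1)))) := by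
    intro m hm
    have hmn : m ≤ n := Nat.lt_succ_iff.1 (Finset.mem_range.1 hm)
    have h1 : bn ≤ A m * Real.exp (-(2 * F * m)) := bn_anti hK hR hA hmn
    have h2 : ∑ j ∈ Finset.range (n - m), gw a b u F j ≤ ∑ j ∈ Finset.range n, gw a b u F j :=
      Finset.sum_le_sum_of_subset_of_nonneg
        (Finset.range_subset_range.2 (Nat.sub_le n m)) fun j _ _ => gw_nonneg hK hu F j
    have h3 : D * ((n : ℝ) + 1) ^ (-(α + e)) ≤ 1 - ∑ j ∈ Finset.range (n - m), gw a b u F j := by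
      linarith
    exact mul_le_mul h1 h3 (by positivity) (hb0.trans h1)
  have hsum := Finset.card_nsmul_le_sum _ _ _ hterm
  rw [hid, Finset.card_range, nsmul_eq_mul] at hsum
  push_cast at hsum
  have h7 : ((n : ℝ) + 1) ^ (1 - α - e) = ((n : ℝ) + 1) * ((n : ℝ) + 1) ^ (-(α + e)) := by
    rw [← Real.rpow_one_add' hn1.le (by linarith)]
    congr 1
    ring
  have hX : 0 < ((n : ℝ) + 1) ^ (1 - α - e) := Real.rpow_pos_of_pos hn1 _
  rw [Real.rpow_neg hn1.le, ← mul_inv, ← one_div, le_div_iff₀ (mul_pos hD0 hX), h7]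
  calc bn * (D * (((n : ℝ) + 1) * ((n : ℝ) + 1) ^ (-(α + e))))
      = ((n : ℝ) + 1) * (bn * (D * ((n : ℝ) + 1) ^ (-(α + e)))) := by ring
    _ ≤ 1 := hsum

end UpB

theorem upb (hK : Ker a b α) {θ : ℝ} (h0 : 0 < θ) (hθ : θ < 1 - α) :
    ∃ Cb ε₂ u₂ : ℝ, 0 < Cb ∧ 0 < ε₂ ∧ 0 < u₂ ∧ ∀ (u F : ℝ) (A : ℕ → ℝ), 0 < u → u ≤ u₂ →
      Root a b u F → RenS (G a b u) A → ∀ n : ℕ, (n : ℝ) ≤ F ^ (-(1 + ε₂)) →
      A n * Real.exp (-(2 * F * n)) ≤ Cb * ((n : ℝ) + 1) ^ (-θ) := by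
  have hα := hK.α_pos
  have hα2 := hK.α_lt
  obtain ⟨e, he⟩ : ∃ e : ℝ, e = (1 - α - θ) / 2 := ⟨_, rfl⟩
  obtain ⟨σ, hσ⟩ : ∃ σ : ℝ, σ = 1 - α - e := ⟨_, rfl⟩
  have he0 : 0 < e := by linarith
  have he1 : e < 1 - α := by linarith
  have hσθ : θ < σ := by linarith
  have hσ0 : 0 < σ := by linarith
  obtain ⟨c, hc, hlow⟩ := hK.low e he0
  obtain ⟨u₁, hu₁, hrb⟩ := root_bounds hK one_pos
  obtain ⟨C1, hC1⟩ : ∃ C1 : ℝ, C1 = (c * Real.exp (-6) * 2 ^ (-(1 + α + e)))⁻¹ := ⟨_, rfl⟩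
  have hC10 : 0 < C1 := by
    rw [hC1]
    positivity
  have h2θ : (1 : ℝ) ≤ 2 ^ θ := Real.one_le_rpow (by norm_num) h0.le
  refine ⟨C1 * 2 ^ θ, σ / θ - 1, min u₁ 1, by positivity, ?_, lt_min hu₁ one_pos, ?_⟩
  · have : 1 < σ / θ := (one_lt_div h0).2 hσθ
    linarith
  intro u F A hu hu2 hR hA n hn
  have hF := hR.1
  have hF1 : F ≤ 1 := by
    refine (hrb u F hu (hu2.trans (min_le_left _ _)) hR).2.trans ?_
    apply Real.rpow_le_one hu.le (hu2.trans (min_le_right _ _))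
    have : 1 ≤ 1 / α := by
      rw [le_div_iff₀ hα]
      linarith
    linarith
  have hsm : ∀ m : ℕ, (m : ℝ) ≤ 1 / F →
      A m * Real.exp (-(2 * F * m)) ≤ C1 * ((m : ℝ) + 1) ^ (-σ) := by
    intro m hm
    have := UpB.small hK he0 he1 hc hlow hu hF1 hR hA hm
    rwa [← hC1, ← hσ] at this
  have hn1 : (0 : ℝ) < (n : ℝ) + 1 := by positivity
  rcases le_or_gt (n : ℝ) (1 / F) with h | h
  · have h1 : ((n : ℝ) + 1) ^ (-σ) ≤ ((n : ℝ) + 1) ^ (-θ) :=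
      Real.rpow_le_rpow_of_exponent_le (by
        have : (0 : ℝ) ≤ n := Nat.cast_nonneg n
        linarith) (by linarith)
    have h2 : 0 ≤ ((n : ℝ) + 1) ^ (-θ) := (Real.rpow_pos_of_pos hn1 _).le
    calc A n * Real.exp (-(2 * F * n)) ≤ C1 * ((n : ℝ) + 1) ^ (-σ) := hsm n h
      _ ≤ C1 * ((n : ℝ) + 1) ^ (-θ) := mul_le_mul_of_nonneg_left h1 hC10.le
      _ = C1 * 1 * ((n : ℝ) + 1) ^ (-θ) := by ring
      _ ≤ C1 * 2 ^ θ * ((n : ℝ) + 1) ^ (-θ) := by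
          apply mul_le_mul_of_nonneg_right _ h2
          exact mul_le_mul_of_nonneg_left h2θ hC10.le
  · have hinv : 0 < 1 / F := by positivity
    have hm1 : ((⌊1 / F⌋₊ : ℕ) : ℝ) ≤ 1 / F := Nat.floor_le hinv.le
    have hm2 : 1 / F < ((⌊1 / F⌋₊ : ℕ) : ℝ) + 1 := Nat.lt_floor_add_one _
    have hmn : ⌊1 / F⌋₊ ≤ n := Nat.floor_le_of_le h.le
    have h1 : (((⌊1 / F⌋₊ : ℕ) : ℝ) + 1) ^ (-σ) ≤ (1 / F) ^ (-σ) :=
      Real.rpow_le_rpow_of_nonpos hinv hm2.le (by linarith)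
    have h2 : (1 / F) ^ (-σ) = F ^ σ := by
      rw [one_div, Real.inv_rpow hF.le, Real.rpow_neg hF.le, inv_inv]
    have h3 : (1 : ℝ) ≤ n := by
      have : 1 ≤ 1 / F := by
        rw [le_div_iff₀ hF]
        linarith
      linarith
    have h4 : (n : ℝ) + 1 ≤ 2 * F ^ (-(1 + (σ / θ - 1))) := by linarith
    have h5 : (2 * F ^ (-(1 + (σ / θ - 1)))) ^ (-θ) ≤ ((n : ℝ) + 1) ^ (-θ) :=
      Real.rpow_le_rpow_of_nonpos hn1 h4 (by linarith)
    have h6 : (2 * F ^ (-(1 + (σ / θ - 1)))) ^ (-θ) = (2 ^ θ)⁻¹ * F ^ σ := by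
      rw [Real.mul_rpow (by norm_num) (Real.rpow_pos_of_pos hF _).le, ← Real.rpow_mul hF.le,
        Real.rpow_neg (by norm_num)]
      congr 2
      field_simp
      ring
    rw [h6] at h5
    have h7 : F ^ σ ≤ 2 ^ θ * ((n : ℝ) + 1) ^ (-θ) := by
      have h8 : (0 : ℝ) < 2 ^ θ := by positivity
      calc F ^ σ = 2 ^ θ * ((2 ^ θ)⁻¹ * F ^ σ) := by
            field_simp
        _ ≤ _ := mul_le_mul_of_nonneg_left h5 h8.le
    calc A n * Real.exp (-(2 * F * n))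
        ≤ A ⌊1 / F⌋₊ * Real.exp (-(2 * F * ((⌊1 / F⌋₊ : ℕ) : ℝ))) := bn_anti hK hR hA hmn
      _ ≤ C1 * (((⌊1 / F⌋₊ : ℕ) : ℝ) + 1) ^ (-σ) := hsm _ hm1
      _ ≤ C1 * F ^ σ := by
          rw [← h2]
          exact mul_le_mul_of_nonneg_left h1 hC10.le
      _ ≤ C1 * (2 ^ θ * ((n : ℝ) + 1) ^ (-θ)) := mul_le_mul_of_nonneg_left h7 hC10.le
      _ = C1 * 2 ^ θ * ((n : ℝ) + 1) ^ (-θ) := by ring

end seq

end

end Pool.Agent.AS
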