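import Pool.Agent.Lib.MP_daa227_pr_AS.Defs
import Pool.Agent.Lib.MP_daa227_pr_AZ.MinSol

/-!
# Existence of the weight function on the nonpositive half line (module C4)
-/

namespace Pool.Agent.AS

open MeasureTheory ProbabilityTheory Set Filter
open scoped ENNReal Topology
open MP_daa227_pr (Chain Zk Zf Gk Gf KU K0 ushift shift seqLaw ExpMom Good GoodW mom DepOn)
open Pool.Agent.AZ (Kv Zd Zfd cneg lmg)
open Pool.Agent.OT (phi Wc Kp Km)

noncomputable section

namespace WEx

/-- parity of the first visit times -/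
theorem K0_par (C : Chain) (hnl : ∀ x, C.p x x = 0) : ∀ (n : ℕ) (x : ℤ),
    ¬ Even ((n : ℤ) + x) → K0 C n x = 0
  | 0, _, _ => rfl
  | n + 1, x, h => by
    have h1 : (if n = 0 then C.p x 0 else 0) = 0 := by
      split_ifs with hn
      · subst hn
        by_cases hx : (0 : ℤ) ∈ Finset.Icc (x - 1) (x + 1)
        · rw [Finset.mem_Icc] at hx
          have hx0 : x = 0 := by
            rcases (by omega : x = -1 ∨ x = 0 ∨ x = 1) with hx | hx | hx
            · exact absurd (by rw [hx]; decide) h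
            · exact hx
            · exact absurd (by rw [hx]; decide) h
          rw [hx0, hnl 0]
        · exact C.near x 0 hx
      · rfl
    rw [K0, h1, zero_add]
    refine Finset.sum_eq_zero fun z hz => ?_
    rw [Finset.mem_sdiff, Finset.mem_Icc] at hz
    rcases (by omega : z = x ∨ z = x - 1 ∨ z = x + 1) with hz1 | hz1 | hz1
    · rw [hz1, hnl x, zero_mul]
    · rw [K0_par C hnl n z, mul_zero]
      intro h2
      apply h
      have h3 : ((n + 1 : ℕ) : ℤ) + x = (n : ℤ) + z + 2 := by rw [hz1]; push_cast; ring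
      rw [h3]
      exact h2.add (by decide)
    · rw [K0_par C hnl n z, mul_zero]
      intro h2
      apply h
      have h3 : ((n + 1 : ℕ) : ℤ) + x = (n : ℤ) + z := by rw [hz1]; push_cast; ring
      rw [h3]
      exact h2

/-- constant exponents -/
theorem Kv_const (C : Chain) (c : ℝ) : ∀ (n : ℕ) (x : ℤ),
    Kv C (fun _ => c) n x = Real.exp (c * n) * K0 C n x
  | 0, _ => by rw [AZ.Kv_zero, K0, mul_zero]
  | n + 1, x => by
    rw [AZ.Kv_succ, K0, mul_add, Finset.mul_sum]
    congr 1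
    · split_ifs with hn
      · subst hn
        simp only [Nat.zero_add, Nat.cast_one, mul_one]
        ring
      · rw [mul_zero]
    · refine Finset.sum_congr rfl fun z _ => ?_
      rw [Kv_const C c n z]
      have h1 : Real.exp (c * ((n + 1 : ℕ) : ℝ)) = Real.exp c * Real.exp (c * n) := by
        rw [← Real.exp_add]
        congr 1
        push_cast
        ring
      rw [h1]
      ring

end WEx

theorem exists_w (C : Chain) (hnl : ∀ x, C.p x x = 0) {c₀ M : ℝ} (hc : 0 < c₀)
    (hM : ∀ k : ℕ, Km C k ≤ M * Real.exp (-(c₀ * k))) : ∃ c : ℝ, ∃ w : ℤ → ℝ, IsW C c w := by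
  set c : ℝ := c₀ / 4 with hcdef
  have hc0 : 0 < c := by rw [hcdef]; positivity
  have hp : 0 < C.p 0 (-1) := C.down 0
  have hK0 : ∀ (n : ℕ) (x : ℤ), 0 ≤ K0 C n x := by
    intro n x
    rw [← AZ.Kv_K0]
    exact AZ.Kv_nonneg C _ n x
  have hM0 : 0 ≤ M := by
    have h1 := hM 0
    have h2 : 0 ≤ Km C 0 := mul_nonneg (C.nonneg _ _) (hK0 _ _)
    have h3 : Real.exp (-(c₀ * ((0 : ℕ) : ℝ))) = 1 := by simp
    rw [h3, mul_one] at h1
    exact h2.trans h1
  set B₀ : ℝ := M / C.p 0 (-1) with hB₀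
  have hB0 : 0 ≤ B₀ := div_nonneg hM0 hp.le
  -- the terms
  have hterm : ∀ n : ℕ, Kv (cneg C) (fun _ => c) n 1 ≤ B₀ * (Real.exp (-c)) ^ n := by
    intro n
    have h1 : Kv (cneg C) (fun _ => c) n 1 = Kv C (fun _ => c) n (-1) :=
      AZ.Kv_cneg C (fun _ => c) n 1
    rw [h1, WEx.Kv_const]
    have hpow : 0 ≤ B₀ * (Real.exp (-c)) ^ n := mul_nonneg hB0 (pow_nonneg (Real.exp_pos _).le n)
    by_cases hn : Even ((n : ℤ) + (-1))
    · obtain ⟨m, hm⟩ := hn
      have hk : ∃ k : ℕ, n = 2 * k + 1 := ⟨m.toNat, by omega⟩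
      obtain ⟨k, rfl⟩ := hk
      have h2 := hM (k + 1)
      have h3 : 2 * (k + 1) - 1 = 2 * k + 1 := by omega
      unfold Km at h2
      rw [h3] at h2
      have h4 : K0 C (2 * k + 1) (-1) ≤ B₀ * Real.exp (-(c₀ * ((k + 1 : ℕ) : ℝ))) := by
        rw [hB₀, div_mul_eq_mul_div, le_div_iff₀ hp, mul_comm]
        exact h2
      calc Real.exp (c * ((2 * k + 1 : ℕ) : ℝ)) * K0 C (2 * k + 1) (-1)
          ≤ Real.exp (c * ((2 * k + 1 : ℕ) : ℝ)) * (B₀ * Real.exp (-(c₀ * ((k + 1 : ℕ) : ℝ)))) :=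
            mul_le_mul_of_nonneg_left h4 (Real.exp_pos _).le
        _ = B₀ * Real.exp (c * ((2 * k + 1 : ℕ) : ℝ) + -(c₀ * ((k + 1 : ℕ) : ℝ))) := by
            rw [Real.exp_add]
            ring
        _ ≤ B₀ * Real.exp (((2 * k + 1 : ℕ) : ℝ) * (-c)) := by
            refine mul_le_mul_of_nonneg_left (Real.exp_le_exp.2 ?_) hB0
            have h5 : c₀ = 4 * c := by rw [hcdef]; ring
            rw [h5]
            push_cast
            nlinarith [hc0, (Nat.cast_nonneg k : (0 : ℝ) ≤ k)]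
        _ = B₀ * (Real.exp (-c)) ^ (2 * k + 1) := by rw [Real.exp_nat_mul]
    · rw [WEx.K0_par C hnl n (-1) hn, mul_zero]
      exact hpow
  have hlt : Real.exp (-c) < 1 := by
    rw [Real.exp_lt_one_iff]
    linarith
  have hsum : Summable fun n : ℕ => B₀ * (Real.exp (-c)) ^ n :=
    (summable_geometric_of_lt_one (Real.exp_pos _).le hlt).mul_left _
  have hB : ∀ N : ℕ, ∑ n ∈ Finset.range N, Kv (cneg C) (fun _ => c) n 1 ≤
      ∑' n : ℕ, B₀ * (Real.exp (-c)) ^ n := by
    intro N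
    refine le_trans (Finset.sum_le_sum fun n _ => hterm n) ?_
    exact hsum.sum_le_tsum _ fun n _ => mul_nonneg hB0 (pow_nonneg (Real.exp_pos _).le n)
  obtain ⟨f, hf, hs⟩ := AZ.min_sol (cneg C) (fun _ => c) hB
  have hf0 : 0 < f 0 := hf 0 le_rfl
  refine ⟨c, fun x => if x ≤ 0 then f (-x) / f 0 else 0, hc0, ?_, ?_, ?_, ?_⟩
  · simp only [le_refl, if_true, neg_zero]
    exact div_self hf0.ne'
  · intro x hx
    simp only [if_pos hx]
    exact div_pos (hf _ (by omega)) hf0
  · intro x hx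
    exact if_neg (by omega)
  · intro x hx
    rw [AZ.sum_nb]
    simp only [if_pos (show x - 1 ≤ 0 by omega), if_pos hx.le, if_pos (show x + 1 ≤ 0 by omega)]
    have h1 := hs (-x) (by omega)
    have e1 : (cneg C).p (-x) (-x - 1) = C.p x (x + 1) := by
      change C.p (- -x) (-(-x - 1)) = C.p x (x + 1)
      congr 1 <;> ring
    have e2 : (cneg C).p (-x) (-x) = C.p x x := by
      change C.p (- -x) (- -x) = C.p x x
      rw [neg_neg]
    have e3 : (cneg C).p (-x) (-x + 1) = C.p x (x - 1) := by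
      change C.p (- -x) (-(-x + 1)) = C.p x (x - 1)
      congr 1 <;> ring
    rw [e1, e2, e3] at h1
    have e4 : -(x - 1) = -x + 1 := by ring
    have e5 : -(x + 1) = -x - 1 := by ring
    rw [e4, e5]
    rw [← div_le_div_iff_of_pos_right hf0] at h1
    refine le_trans (le_of_eq ?_) h1
    field_simp
    ring

end

end Pool.Agent.AS
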