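import Pool.Agent.Lib.MP_daa227_pr_AS.RootB
import Pool.Agent.Lib.MP_daa227_pr_AS.Dec
import Pool.Agent.Lib.MP_daa227_pr_AS.UpB
import Pool.Agent.Lib.MP_daa227_pr_AS.LowB
import Pool.Agent.Lib.MP_daa227_pr_AS.CvxS
import Pool.Agent.Lib.MP_daa227_pr_AS.ConvA
import Pool.Agent.Lib.MP_daa227_pr_AS.WEx
import Pool.Agent.Lib.MP_daa227_pr_AS.UB
import Pool.Agent.Lib.MP_daa227_pr_AS.FB
import Pool.Agent.Lib.MP_daa227_pr_AS.HB
import Pool.Agent.Lib.MP_daa227_pr.ExcLem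

/-!
# Assembly of the deterministic part
-/

namespace Pool.Agent.AS

open MeasureTheory ProbabilityTheory Set Filter
open scoped ENNReal Topology
open MP_daa227_pr (Chain K0)
open Pool.Agent.AZ (Zd)
open Pool.Agent.OT (phi Kp Km)

noncomputable section

/-! ### Elementary facts for small `F` -/

theorem root_small {a b : ℕ → ℝ} {α : ℝ} (hK : Ker a b α) {F₀ : ℝ} (hF₀ : 0 < F₀) :
    ∃ u₁ : ℝ, 0 < u₁ ∧ ∀ u F : ℝ, 0 < u → u ≤ u₁ → Root a b u F → F ≤ F₀ := by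
  have hα := hK.α_pos
  obtain ⟨u₁, hu₁, h⟩ := root_bounds hK (ε := 1 / (2 * α)) (by positivity)
  refine ⟨min u₁ (F₀ ^ (2 * α)), lt_min hu₁ (Real.rpow_pos_of_pos hF₀ _), fun u F hu hu1 hR => ?_⟩
  have h2 := (h u F hu (hu1.trans (min_le_left _ _)) hR).2
  have h3 : 1 / α - 1 / (2 * α) = 1 / (2 * α) := by field_simp; ring
  rw [h3] at h2
  calc F ≤ u ^ (1 / (2 * α)) := h2
    _ ≤ (F₀ ^ (2 * α)) ^ (1 / (2 * α)) :=
      Real.rpow_le_rpow hu.le (hu1.trans (min_le_right _ _)) (by positivity)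
    _ = F₀ := by
      rw [← Real.rpow_mul hF₀.le, show 2 * α * (1 / (2 * α)) = 1 by field_simp, Real.rpow_one]

theorem small_const (K : ℝ) {δ : ℝ} (hδ : 0 < δ) : ∃ F₀ : ℝ, 0 < F₀ ∧ ∀ F : ℝ, 0 < F → F ≤ F₀ →
    K ≤ F ^ (-δ) := by
  have hm : 0 < max K 1 := lt_max_of_lt_right one_pos
  refine ⟨(max K 1) ^ (-(1 / δ)), Real.rpow_pos_of_pos hm _, fun F hF h => ?_⟩
  calc K ≤ max K 1 := le_max_left _ _
    _ = ((max K 1) ^ (-(1 / δ))) ^ (-δ) := by
      rw [← Real.rpow_mul hm.le, show -(1 / δ) * -δ = 1 by field_simp, Real.rpow_one]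
    _ ≤ F ^ (-δ) := Real.rpow_le_rpow_of_nonpos hF h (by linarith)

theorem small_N {C₂ e : ℝ} (hC : 0 < C₂) (he : 0 < e) : ∃ F₀ : ℝ, 0 < F₀ ∧ ∀ F : ℝ, 0 < F →
    F ≤ F₀ → 2 * ((⌈C₂ / F * Real.log (1 / F)⌉₊ : ℕ) : ℝ) ≤ F ^ (-(1 + e)) := by
  obtain ⟨F₀, hF₀, h⟩ := small_const (2 * (2 * C₂ / e + 1)) (half_pos he)
  refine ⟨min F₀ 1, lt_min hF₀ one_pos, fun F hF hle => ?_⟩
  have hF1 : F ≤ 1 := hle.trans (min_le_right _ _)
  have h1 := h F hF (hle.trans (min_le_left _ _))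
  have h2 : Real.log (1 / F) ≤ F ^ (-(e / 2)) / (e / 2) := by
    have := Real.log_le_rpow_div (x := 1 / F) (by positivity) (half_pos he)
    rwa [one_div, Real.inv_rpow hF.le, ← Real.rpow_neg hF.le, ← one_div] at this
  have h0 : 0 ≤ Real.log (1 / F) := Real.log_nonneg (by rw [le_div_iff₀ hF]; linarith)
  have h3 := (Nat.ceil_lt_add_one (a := C₂ / F * Real.log (1 / F)) (by positivity)).le
  have h4 : F ^ (-(1 + e / 2)) = F⁻¹ * F ^ (-(e / 2)) := by
    rw [← Real.rpow_neg_one F, ← Real.rpow_add hF]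
    congr 1
    ring
  have h5 : 1 ≤ F ^ (-(1 + e / 2)) :=
    Real.one_le_rpow_of_pos_of_le_one_of_nonpos hF hF1 (by linarith)
  have h6 : C₂ / F * Real.log (1 / F) ≤ 2 * C₂ / e * F ^ (-(1 + e / 2)) := by
    calc C₂ / F * Real.log (1 / F) ≤ C₂ / F * (F ^ (-(e / 2)) / (e / 2)) :=
          mul_le_mul_of_nonneg_left h2 (by positivity)
      _ = 2 * C₂ / e * F ^ (-(1 + e / 2)) := by
          rw [h4]
          field_simp
  have h7 : F ^ (-(1 + e)) = F ^ (-(e / 2)) * F ^ (-(1 + e / 2)) := by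
    rw [← Real.rpow_add hF]
    congr 1
    ring
  rw [h7]
  calc 2 * ((⌈C₂ / F * Real.log (1 / F)⌉₊ : ℕ) : ℝ)
      ≤ 2 * (2 * C₂ / e * F ^ (-(1 + e / 2)) + F ^ (-(1 + e / 2))) := by linarith
    _ = 2 * (2 * C₂ / e + 1) * F ^ (-(1 + e / 2)) := by ring
    _ ≤ F ^ (-(e / 2)) * F ^ (-(1 + e / 2)) :=
        mul_le_mul_of_nonneg_right h1 (by positivity)

theorem geom_low {F : ℝ} (hF : 0 < F) (hF1 : F ≤ 1 / 2) {N : ℕ}
    (h : 2 ≤ Real.exp (2 * F * N)) :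
    Real.exp (2 * F * N) / (8 * F) ≤ ∑ j ∈ Finset.range N, Real.exp (2 * F * j) := by
  have h1 : ∀ j : ℕ, Real.exp (2 * F * j) = Real.exp (2 * F) ^ j := by
    intro j
    rw [← Real.exp_nat_mul]
    congr 1
    ring
  have h2 : (∑ j ∈ Finset.range N, Real.exp (2 * F * j)) * (Real.exp (2 * F) - 1) =
      Real.exp (2 * F * N) - 1 := by
    rw [h1 N, Finset.sum_congr rfl fun j _ => h1 j]
    exact geom_sum_mul _ _
  have h3 : Real.exp (2 * F) - 1 ≤ 4 * F := by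
    have := Real.abs_exp_sub_one_le (x := 2 * F) (by rw [abs_of_pos (by positivity)]; linarith)
    rw [abs_of_pos (show 0 < 2 * F by positivity)] at this
    linarith [le_abs_self (Real.exp (2 * F) - 1)]
  have h4 : 0 ≤ ∑ j ∈ Finset.range N, Real.exp (2 * F * j) :=
    Finset.sum_nonneg fun j _ => (Real.exp_pos _).le
  rw [div_le_iff₀ (by positivity)]
  nlinarith [mul_le_mul_of_nonneg_left h3 h4]

section
variable {C : Chain} (hnl : ∀ x, C.p x x = 0) {α : ℝ} (hK : Ker (Kp C) (Km C) α)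
include hK

theorem Kp_anti {j k : ℕ} (hj : 1 ≤ j) (hjk : j ≤ k) : Kp C k ≤ Kp C j := by
  induction k, hjk using Nat.le_induction with
  | base => exact le_rfl
  | succ k hk ih => exact (hK.a_anti k (hj.trans hk)).trans ih

include hnl

theorem m_low {u F : ℝ} (hR : Root (Kp C) (Km C) u F) (hF1 : F ≤ 1 / 2) {N : ℕ} (hN : 1 ≤ N)
    (h2 : 2 ≤ Real.exp (2 * F * N)) :
    Kp C (2 * N) * (An C u N * Real.exp (-(2 * F * N))) * (Real.exp (2 * F * N) / (8 * F)) ≤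
      Tn C (vu u) (kap C N) (2 * N) 0 := by
  have hA := An_ren C hnl u
  rw [f_even C hnl u hN N]
  have hb0 : 0 ≤ An C u N * Real.exp (-(2 * F * N)) := mul_nonneg (hA.pos N).le (Real.exp_pos _).le
  have hK0 : 0 ≤ Kp C (2 * N) := (hK.a_pos _ (by omega)).le
  calc Kp C (2 * N) * (An C u N * Real.exp (-(2 * F * N))) * (Real.exp (2 * F * N) / (8 * F))
      ≤ Kp C (2 * N) * (An C u N * Real.exp (-(2 * F * N))) *
          ∑ j ∈ Finset.range N, Real.exp (2 * F * j) :=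
        mul_le_mul_of_nonneg_left (geom_low hR.1 hF1 h2) (mul_nonneg hK0 hb0)
    _ = ∑ j ∈ Finset.range N, Kp C (2 * N) * (An C u N * Real.exp (-(2 * F * N))) *
          Real.exp (2 * F * j) := Finset.mul_sum _ _ _
    _ ≤ ∑ j ∈ Finset.range N, An C u j * Kp C (N - j + N) := by
        refine Finset.sum_le_sum fun j hj => ?_
        rw [Finset.mem_range] at hj
        have h3 := bn_anti hK hR hA hj.le
        have h4 : Kp C (2 * N) ≤ Kp C (N - j + N) := Kp_anti hK (by omega) (by omega)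
        have h5 : An C u j * Real.exp (-(2 * F * j)) * Real.exp (2 * F * j) = An C u j := by
          rw [mul_assoc, ← Real.exp_add, neg_add_cancel, Real.exp_zero, mul_one]
        calc Kp C (2 * N) * (An C u N * Real.exp (-(2 * F * N))) * Real.exp (2 * F * j)
            ≤ Kp C (N - j + N) * (An C u j * Real.exp (-(2 * F * j))) * Real.exp (2 * F * j) := by
              refine mul_le_mul_of_nonneg_right ?_ (Real.exp_pos _).le
              exact mul_le_mul h4 h3 hb0 (hK0.trans h4)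
          _ = An C u j * Kp C (N - j + N) := by rw [mul_assoc, h5, mul_comm]

theorem T_up {u F S : ℝ} (hR : Root (Kp C) (Km C) u F) {N : ℕ} (hN : 1 ≤ N)
    (hS : ∑ j ∈ Finset.range N, An C u j * Real.exp (-(2 * F * j)) ≤ S) (n : ℕ) (hn : n ≤ 2 * N) :
    Tn C (vu u) (kap C N) n 0 ≤ Kp C N * S * Real.exp (F * n) := by
  have hA := An_ren C hnl u
  have hb0 : ∀ j : ℕ, 0 ≤ An C u j * Real.exp (-(2 * F * j)) := fun j =>
    mul_nonneg (hA.pos j).le (Real.exp_pos _).le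
  have hKN : 0 ≤ Kp C N := (hK.a_pos N hN).le
  have hS0 : 0 ≤ S := (Finset.sum_nonneg fun j _ => hb0 j).trans hS
  rcases Nat.even_or_odd' n with ⟨k, rfl | rfl⟩
  · rw [f_even C hnl u hN k]
    have hk : k ≤ N := by omega
    calc ∑ m ∈ Finset.range k, An C u m * Kp C (k - m + N)
        ≤ ∑ m ∈ Finset.range k, Kp C N * Real.exp (2 * F * k) *
            (An C u m * Real.exp (-(2 * F * m))) := by
          refine Finset.sum_le_sum fun m hm => ?_
          rw [Finset.mem_range] at hm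
          have h4 : Kp C (k - m + N) ≤ Kp C N := Kp_anti hK hN (by omega)
          have h5 : An C u m ≤ Real.exp (2 * F * k) * (An C u m * Real.exp (-(2 * F * m))) := by
            have h6 : (1 : ℝ) ≤ Real.exp (2 * F * k) * Real.exp (-(2 * F * m)) := by
              rw [← Real.exp_add]
              refine Real.one_le_exp ?_
              have : (m : ℝ) ≤ k := by exact_mod_cast hm.le
              nlinarith [hR.1]
            nlinarith [mul_le_mul_of_nonneg_left h6 (hA.pos m).le]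
          calc An C u m * Kp C (k - m + N)
              ≤ (Real.exp (2 * F * k) * (An C u m * Real.exp (-(2 * F * m)))) * Kp C N :=
                mul_le_mul h5 h4 (hK.a_pos _ (by omega)).le
                  (mul_nonneg (Real.exp_pos _).le (hb0 m))
            _ = _ := by ring
      _ = Kp C N * Real.exp (2 * F * k) *
            ∑ m ∈ Finset.range k, An C u m * Real.exp (-(2 * F * m)) := (Finset.mul_sum _ _ _).symm
      _ ≤ Kp C N * Real.exp (2 * F * k) * S := by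
          refine mul_le_mul_of_nonneg_left ?_ (mul_nonneg hKN (Real.exp_pos _).le)
          refine le_trans ?_ hS
          exact Finset.sum_le_sum_of_subset_of_nonneg (Finset.range_mono hk) fun j _ _ => hb0 j
      _ = Kp C N * S * Real.exp (F * ((2 * k : ℕ) : ℝ)) := by
          have : F * ((2 * k : ℕ) : ℝ) = 2 * F * k := by push_cast; ring
          rw [this]
          ring
  · rw [f_odd C hnl u hN k]
    exact mul_nonneg (mul_nonneg hKN hS0) (Real.exp_pos _).le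

end

theorem kap_nonneg (C : Chain) (N : ℕ) (x : ℤ) : 0 ≤ kap C N x := by
  unfold kap
  split_ifs
  · exact MP_daa227_pr.K0_nonneg C _ _
  · exact le_rfl

/-- `∑_{n=1}^{M} (Cq (n+1)^{-θ})²` -/
theorem sum_q {θ Cq K : ℝ}
    (hK : ∀ n : ℕ, ∑ i ∈ Finset.range n, (((i : ℝ) + 1) ^ (-θ)) ^ 2 ≤ K) (M : ℕ) :
    ∑ n ∈ Finset.Ioc 0 M, (Cq * ((n : ℝ) + 1) ^ (-θ)) ^ 2 ≤ Cq ^ 2 * K := by
  calc ∑ n ∈ Finset.Ioc 0 M, (Cq * ((n : ℝ) + 1) ^ (-θ)) ^ 2
      ≤ ∑ n ∈ Finset.range (M + 1), (Cq * ((n : ℝ) + 1) ^ (-θ)) ^ 2 := by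
        refine Finset.sum_le_sum_of_subset_of_nonneg ?_ fun j _ _ => sq_nonneg _
        intro n hn
        rw [Finset.mem_Ioc] at hn
        rw [Finset.mem_range]
        omega
    _ = Cq ^ 2 * ∑ n ∈ Finset.range (M + 1), (((n : ℝ) + 1) ^ (-θ)) ^ 2 := by
        rw [Finset.mul_sum]
        exact Finset.sum_congr rfl fun n _ => by ring
    _ ≤ Cq ^ 2 * K := mul_le_mul_of_nonneg_left (hK _) (sq_nonneg _)

/-! ### Power counting -/

/-- the ratio of the two bounds -/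
theorem ratio_pow {α e ε F n cu cl Cb K' kN k2N b : ℝ} (hα : 0 < α) (hα1 : α < 1 / 2) (he : 0 < e)
    (he1 : e ≤ 1 / 4) (heε : e ≤ ε / 32) (hF : 0 < F) (hF1 : F ≤ 1 / 2) (hn : 1 ≤ n)
    (hnF : n ≤ F ^ (-(1 + e))) (hcu : 0 < cu) (hcl : 0 < cl) (hCb : 0 < Cb) (hK' : 0 < K')
    (hkN : kN ≤ cu * n ^ (-(1 + α - e))) (hk2N : cl * (2 * n) ^ (-(1 + α + e)) ≤ k2N)
    (hb : F ^ (1 - α + e) ≤ b) (hc : 96 * (cu * Cb * K') / cl ≤ F ^ (-(ε / 4))) :
    12 * F * (kN * (Cb * (K' * n ^ (α + e)))) ≤ F ^ (-(ε / 2)) * (k2N * b) := by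
  have hn0 : 0 < n := by linarith
  have hF1' : F ≤ 1 := by linarith
  -- upper bound
  have h1 : 12 * F * (kN * (Cb * (K' * n ^ (α + e)))) ≤
      12 * (cu * Cb * K') * (F * F ^ (-((1 + e) * (α + 3 * e)))) * n ^ (-(1 + α + e)) := by
    have h2 : n ^ (α + 3 * e) ≤ F ^ (-((1 + e) * (α + 3 * e))) := by
      calc n ^ (α + 3 * e) ≤ (F ^ (-(1 + e))) ^ (α + 3 * e) :=
            Real.rpow_le_rpow hn0.le hnF (by positivity)
        _ = F ^ (-((1 + e) * (α + 3 * e))) := by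
            rw [← Real.rpow_mul hF.le]
            congr 1
            ring
    have h3 : n ^ (-(1 + α - e)) * n ^ (α + e) = n ^ (α + 3 * e) * n ^ (-(1 + α + e)) := by
      rw [← Real.rpow_add hn0, ← Real.rpow_add hn0]
      congr 1
      ring
    calc 12 * F * (kN * (Cb * (K' * n ^ (α + e))))
        ≤ 12 * F * ((cu * n ^ (-(1 + α - e))) * (Cb * (K' * n ^ (α + e)))) := by
          refine mul_le_mul_of_nonneg_left ?_ (by positivity)
          exact mul_le_mul_of_nonneg_right hkN (by positivity)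
      _ = 12 * (cu * Cb * K') * F * (n ^ (-(1 + α - e)) * n ^ (α + e)) := by ring
      _ = 12 * (cu * Cb * K') * F * n ^ (α + 3 * e) * n ^ (-(1 + α + e)) := by rw [h3]; ring
      _ ≤ 12 * (cu * Cb * K') * F * F ^ (-((1 + e) * (α + 3 * e))) * n ^ (-(1 + α + e)) := by
          refine mul_le_mul_of_nonneg_right ?_ (by positivity)
          exact mul_le_mul_of_nonneg_left h2 (by positivity)
      _ = _ := by ring
  -- lower bound
  have h4 : F ^ (-(ε / 2)) * (cl / 8 * n ^ (-(1 + α + e)) * F ^ (1 - α + e)) ≤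
      F ^ (-(ε / 2)) * (k2N * b) := by
    refine mul_le_mul_of_nonneg_left ?_ (by positivity)
    have h5 : cl / 8 * n ^ (-(1 + α + e)) ≤ k2N := by
      refine le_trans ?_ hk2N
      rw [Real.mul_rpow (by norm_num) hn0.le]
      have h6 : (1 : ℝ) / 8 ≤ 2 ^ (-(1 + α + e)) := by
        calc (1 : ℝ) / 8 = 2 ^ (-3 : ℝ) := by
              rw [Real.rpow_neg (by norm_num)]
              norm_num
          _ ≤ 2 ^ (-(1 + α + e)) := Real.rpow_le_rpow_of_exponent_le (by norm_num) (by linarith)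
      have h7 := mul_le_mul_of_nonneg_right h6 (show 0 ≤ cl * n ^ (-(1 + α + e)) by positivity)
      calc cl / 8 * n ^ (-(1 + α + e)) = 1 / 8 * (cl * n ^ (-(1 + α + e))) := by ring
        _ ≤ 2 ^ (-(1 + α + e)) * (cl * n ^ (-(1 + α + e))) := h7
        _ = _ := by ring
    exact mul_le_mul h5 hb (by positivity) (le_trans (by positivity) h5)
  refine h1.trans (le_trans ?_ h4)
  have h8 : 12 * (cu * Cb * K') ≤ cl / 8 * F ^ (-(ε / 4)) := by
    rw [div_le_iff₀ hcl] at hc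
    linarith
  have h9 : F ^ (-(ε / 4)) * (F * F ^ (-((1 + e) * (α + 3 * e)))) ≤
      F ^ (-(ε / 2)) * F ^ (1 - α + e) := by
    have h10 : F ^ (-(ε / 4)) * (F * F ^ (-((1 + e) * (α + 3 * e)))) =
        F ^ (-(ε / 4) + (1 + -((1 + e) * (α + 3 * e)))) := by
      rw [Real.rpow_add hF, Real.rpow_add hF, Real.rpow_one]
    rw [h10, ← Real.rpow_add hF]
    refine Real.rpow_le_rpow_of_exponent_ge hF hF1' ?_
    nlinarith [mul_pos hα he, mul_pos he he, mul_nonneg he.le (sub_nonneg.2 he1),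
      mul_nonneg he.le (sub_nonneg.2 hα1.le)]
  calc 12 * (cu * Cb * K') * (F * F ^ (-((1 + e) * (α + 3 * e)))) * n ^ (-(1 + α + e))
      ≤ (cl / 8 * F ^ (-(ε / 4))) * (F * F ^ (-((1 + e) * (α + 3 * e)))) *
          n ^ (-(1 + α + e)) := by
        refine mul_le_mul_of_nonneg_right ?_ (by positivity)
        exact mul_le_mul_of_nonneg_right h8 (by positivity)
    _ = cl / 8 * n ^ (-(1 + α + e)) *
          (F ^ (-(ε / 4)) * (F * F ^ (-((1 + e) * (α + 3 * e))))) := by ring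
    _ ≤ cl / 8 * n ^ (-(1 + α + e)) * (F ^ (-(ε / 2)) * F ^ (1 - α + e)) :=
        mul_le_mul_of_nonneg_left h9 (by positivity)
    _ = _ := by ring

/-- the first moment is large -/
theorem first_pow {α e C₁ F n cl k2N b E : ℝ} (hα : 0 < α) (hα1 : α < 1 / 2) (he : 0 < e)
    (he1 : e ≤ 1 / 4) (hF : 0 < F) (hF1 : F ≤ 1 / 2) (hn : 1 ≤ n)
    (hnF : n ≤ F ^ (-(1 + e))) (hcl : 0 < cl) (hk2N : cl * (2 * n) ^ (-(1 + α + e)) ≤ k2N)
    (hb : F ^ (1 - α + e) ≤ b) (hE : F ^ (-(2 * (C₁ + 5))) ≤ E)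
    (hc : 64 / cl ≤ F ^ (-(C₁ + 5))) :
    F ^ (-C₁) ≤ k2N * b * (E / (8 * F)) := by
  have hn0 : 0 < n := by linarith
  have hF1' : F ≤ 1 := by linarith
  have h5 : cl / 8 * F ^ (3 : ℝ) ≤ k2N := by
    refine le_trans ?_ hk2N
    rw [Real.mul_rpow (by norm_num) hn0.le]
    have h6 : (1 : ℝ) / 8 ≤ 2 ^ (-(1 + α + e)) := by
      calc (1 : ℝ) / 8 = 2 ^ (-3 : ℝ) := by
            rw [Real.rpow_neg (by norm_num)]
            norm_num
        _ ≤ 2 ^ (-(1 + α + e)) := Real.rpow_le_rpow_of_exponent_le (by norm_num) (by linarith)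
    have h7 : F ^ (3 : ℝ) ≤ n ^ (-(1 + α + e)) := by
      calc F ^ (3 : ℝ) ≤ F ^ (-(1 + e) * -(1 + α + e)) := by
            refine Real.rpow_le_rpow_of_exponent_ge hF hF1' ?_
            nlinarith [mul_nonneg he.le (sub_nonneg.2 he1), mul_nonneg he.le (sub_nonneg.2 hα1.le)]
        _ = (F ^ (-(1 + e))) ^ (-(1 + α + e)) := Real.rpow_mul hF.le _ _
        _ ≤ n ^ (-(1 + α + e)) := Real.rpow_le_rpow_of_nonpos hn0 hnF (by linarith)
    have h8 : 1 / 8 * F ^ (3 : ℝ) ≤ 2 ^ (-(1 + α + e)) * n ^ (-(1 + α + e)) :=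
      mul_le_mul h6 h7 (by positivity) (by positivity)
    nlinarith [mul_le_mul_of_nonneg_left h8 hcl.le]
  have h9 : F ^ (2 : ℝ) ≤ b :=
    (Real.rpow_le_rpow_of_exponent_ge hF hF1' (by linarith)).trans hb
  have h10 : F ^ (-(2 * (C₁ + 5))) / 8 ≤ E / (8 * F) := by
    have hE0 : 0 < E := lt_of_lt_of_le (Real.rpow_pos_of_pos hF _) hE
    calc F ^ (-(2 * (C₁ + 5))) / 8 ≤ E / 8 := by linarith
      _ ≤ E / (8 * F) := by
        apply div_le_div_of_nonneg_left hE0.le (by positivity)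
        linarith
  have h11 : F ^ (-C₁) = F ^ (5 : ℝ) * F ^ (-(2 * (C₁ + 5))) * F ^ (C₁ + 5) := by
    rw [← Real.rpow_add hF, ← Real.rpow_add hF]
    congr 1
    ring
  have h12 : F ^ (C₁ + 5) ≤ cl / 64 := by
    rw [Real.rpow_neg hF.le, div_le_iff₀ hcl] at hc
    have h13 : 0 < F ^ (C₁ + 5) := Real.rpow_pos_of_pos hF _
    rw [inv_mul_eq_div, le_div_iff₀ h13] at hc
    linarith
  calc F ^ (-C₁) = F ^ (5 : ℝ) * F ^ (-(2 * (C₁ + 5))) * F ^ (C₁ + 5) := h11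
    _ ≤ F ^ (5 : ℝ) * F ^ (-(2 * (C₁ + 5))) * (cl / 64) :=
        mul_le_mul_of_nonneg_left h12 (by positivity)
    _ = cl / 8 * F ^ (3 : ℝ) * F ^ (2 : ℝ) * (F ^ (-(2 * (C₁ + 5))) / 8) := by
        have : F ^ (5 : ℝ) = F ^ (3 : ℝ) * F ^ (2 : ℝ) := by
          rw [← Real.rpow_add hF]
          norm_num
        rw [this]
        ring
    _ ≤ k2N * b * (E / (8 * F)) := by
        refine mul_le_mul ?_ h10 (by positivity) ?_
        · exact mul_le_mul h5 h9 (by positivity) (le_trans (by positivity) h5)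
        · exact mul_nonneg (le_trans (by positivity) h5) (le_trans (by positivity) h9)

/-! ### The theorem -/

theorem det {C : Chain} (hnl : ∀ x, C.p x x = 0) {α : ℝ} (hK : Ker (Kp C) (Km C) α) :
    ∃ γ₀ : ℝ, 0 < γ₀ ∧ ∀ ε C₁ : ℝ, 0 < ε → 0 < C₁ → ∃ u₁ : ℝ, 0 < u₁ ∧ ∀ u F : ℝ, 0 < u →
      u ≤ u₁ → Root (Kp C) (Km C) u F → ∃ N : ℕ, 1 ≤ N ∧ (N : ℝ) ≤ F ^ (-(1 + ε)) ∧
        F ^ (-C₁) ≤ Tn C (vu u) (kap C N) (2 * N) 0 ∧
        ∀ γ : ℝ, 0 ≤ γ → γ ≤ γ₀ → Hn C u γ (kap C N) (2 * N) 0 0 ≤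
          F ^ (-ε) * Tn C (vu u) (kap C N) (2 * N) 0 ^ 2 := by
  obtain ⟨c₀, M, hc₀, -, hM⟩ := hK.neg
  obtain ⟨c, w, hw⟩ := exists_w C hnl hc₀ hM
  obtain ⟨θ, Cq, ε₂, u₂, hθ, hCq, hε₂, hu₂, hub⟩ := ub hnl hK hw
  obtain ⟨K₂, hK₂, hsq⟩ := sum_sq_bdd hθ
  have hα := hK.α_pos
  have hα1 := hK.α_lt
  have hpos : 0 < 1 / (2 * (Cq ^ 2 * K₂)) := by positivity
  refine ⟨Real.log (1 + 1 / (2 * (Cq ^ 2 * K₂))), Real.log_pos (by linarith), ?_⟩
  intro ε C₁ hε hC₁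
  -- the exponents
  obtain ⟨e, he, he1, heε, heα⟩ : ∃ e : ℝ, 0 < e ∧ e ≤ 1 / 4 ∧ e ≤ ε / 32 ∧ e < 1 - α := by
    refine ⟨min (1 / 4) (ε / 32), by positivity, min_le_left _ _, min_le_right _ _, ?_⟩
    exact lt_of_le_of_lt (min_le_left _ _) (by linarith)
  obtain ⟨Cb, ε₃, u₃, hCb, hε₃, hu₃, hupb⟩ := upb hK (θ := 1 - α - e) (by linarith) (by linarith)
  obtain ⟨u₄, hu₄, hlowb⟩ := lowb hK he
  obtain ⟨cl, hcl, hlow⟩ := hK.low e he
  obtain ⟨cu, hcu, hup⟩ := hK.up e he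
  obtain ⟨K', hK', hsum⟩ := sum_rpow (θ := 1 - α - e) (by linarith) (by linarith)
  obtain ⟨e₂, he₂, he₂1, he₂e, he₂ε, he₂2, he₂3⟩ : ∃ e₂ : ℝ, 0 < e₂ ∧ e₂ ≤ 1 ∧ e₂ ≤ e ∧ e₂ ≤ ε ∧
      e₂ ≤ ε₂ ∧ e₂ ≤ ε₃ := by
    refine ⟨min (min 1 e) (min ε (min ε₂ ε₃)), by positivity, ?_, ?_, ?_, ?_, ?_⟩
    · exact (min_le_left _ _).trans (min_le_left _ _)
    · exact (min_le_left _ _).trans (min_le_right _ _)
    · exact (min_le_right _ _).trans (min_le_left _ _)
    · exact (min_le_right _ _).trans ((min_le_right _ _).trans (min_le_left _ _))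
    · exact (min_le_right _ _).trans ((min_le_right _ _).trans (min_le_right _ _))
  -- smallness of `F`
  obtain ⟨F₁, hF₁, hN2⟩ := small_N (C₂ := C₁ + 5) (by linarith) he₂
  obtain ⟨F₂, hF₂, hc2⟩ := small_const (96 * (cu * Cb * K') / cl) (δ := ε / 4) (by positivity)
  obtain ⟨F₃, hF₃, hc3⟩ := small_const (64 / cl) (δ := C₁ + 5) (by positivity)
  obtain ⟨u₅, hu₅, hroot⟩ := root_small hK (F₀ := min (min F₁ F₂) (min F₃ (1 / 2))) (by positivity)
  refine ⟨min (min u₂ u₃) (min u₄ (min u₅ c)), ?_, ?_⟩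
  · have := hw.c_pos
    positivity
  intro u F hu hule hR
  have hu2 : u ≤ u₂ := hule.trans ((min_le_left _ _).trans (min_le_left _ _))
  have hu3 : u ≤ u₃ := hule.trans ((min_le_left _ _).trans (min_le_right _ _))
  have hu4 : u ≤ u₄ := hule.trans ((min_le_right _ _).trans (min_le_left _ _))
  have hu5 : u ≤ u₅ :=
    hule.trans ((min_le_right _ _).trans ((min_le_right _ _).trans (min_le_left _ _)))
  have huc : u ≤ c :=
    hule.trans ((min_le_right _ _).trans ((min_le_right _ _).trans (min_le_right _ _)))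
  have hFle := hroot u F hu hu5 hR
  have hF : 0 < F := hR.1
  have hFF₁ : F ≤ F₁ := hFle.trans ((min_le_left _ _).trans (min_le_left _ _))
  have hFF₂ : F ≤ F₂ := hFle.trans ((min_le_left _ _).trans (min_le_right _ _))
  have hFF₃ : F ≤ F₃ := hFle.trans ((min_le_right _ _).trans (min_le_left _ _))
  have hF1 : F ≤ 1 / 2 := hFle.trans ((min_le_right _ _).trans (min_le_right _ _))
  have hF1' : F ≤ 1 := by linarith
  have hN2F := hN2 F hF hFF₁
  obtain ⟨N, hNdef⟩ : ∃ N : ℕ, N = ⌈(C₁ + 5) / F * Real.log (1 / F)⌉₊ := ⟨_, rfl⟩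
  rw [← hNdef] at hN2F
  have hlog : 0 < Real.log (1 / F) := by
    refine Real.log_pos ?_
    rw [lt_div_iff₀ hF]
    linarith
  have hNlow : (C₁ + 5) / F * Real.log (1 / F) ≤ N := by
    rw [hNdef]
    exact Nat.le_ceil _
  have hN1 : 1 ≤ N := by
    have : (0 : ℝ) < N := lt_of_lt_of_le (by positivity) hNlow
    exact_mod_cast this
  have hN1' : (1 : ℝ) ≤ N := by exact_mod_cast hN1
  -- bounds on `N`
  have hmono : ∀ {a b : ℝ}, a ≤ b → F ^ (-(1 + a)) ≤ F ^ (-(1 + b)) := fun h =>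
    Real.rpow_le_rpow_of_exponent_ge hF hF1' (by linarith)
  have hNe2 : (N : ℝ) ≤ F ^ (-(1 + e₂)) := by linarith
  have hNε : (N : ℝ) ≤ F ^ (-(1 + ε)) := hNe2.trans (hmono he₂ε)
  have hNe : (N : ℝ) ≤ F ^ (-(1 + e)) := hNe2.trans (hmono he₂e)
  have hNm2 : (N : ℝ) ≤ F ^ (-2 : ℝ) := by
    refine hNe2.trans (Real.rpow_le_rpow_of_exponent_ge hF hF1' ?_)
    linarith
  have hN3 : 3 / F * Real.log (1 / F) ≤ N := by
    refine le_trans ?_ hNlow
    refine mul_le_mul_of_nonneg_right ?_ hlog.le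
    exact div_le_div_of_nonneg_right (by linarith) hF.le
  -- the exponential
  have hE : F ^ (-(2 * (C₁ + 5))) ≤ Real.exp (2 * F * N) := by
    rw [Real.rpow_def_of_pos hF]
    refine Real.exp_le_exp.2 ?_
    have h1 : Real.log (1 / F) = - Real.log F := by rw [one_div, Real.log_inv]
    have h2 : (C₁ + 5) * Real.log (1 / F) ≤ F * N := by
      have := mul_le_mul_of_nonneg_left hNlow hF.le
      calc (C₁ + 5) * Real.log (1 / F) = F * ((C₁ + 5) / F * Real.log (1 / F)) := by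
            field_simp
        _ ≤ F * N := this
    rw [h1] at h2
    linarith
  have hE2 : 2 ≤ Real.exp (2 * F * N) := by
    refine le_trans ?_ hE
    calc (2 : ℝ) ≤ F⁻¹ := by
          rw [le_inv_comm₀ (by norm_num) hF]
          linarith
      _ = F ^ (-1 : ℝ) := (Real.rpow_neg_one F).symm
      _ ≤ F ^ (-(2 * (C₁ + 5))) := Real.rpow_le_rpow_of_exponent_ge hF hF1' (by linarith)
  have hA := An_ren C hnl u
  -- bounds on the renewal sequence
  have hbN := hlowb u F (An C u) hu hu4 hR hA N hN3 hNm2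
  have hS : ∑ j ∈ Finset.range N, An C u j * Real.exp (-(2 * F * j)) ≤
      Cb * (K' * (N : ℝ) ^ (α + e)) := by
    calc ∑ j ∈ Finset.range N, An C u j * Real.exp (-(2 * F * j))
        ≤ ∑ j ∈ Finset.range N, Cb * ((j : ℝ) + 1) ^ (-(1 - α - e)) := by
          refine Finset.sum_le_sum fun j hj => ?_
          rw [Finset.mem_range] at hj
          refine hupb u F (An C u) hu hu3 hR hA j ?_
          have h1 : (j : ℝ) ≤ N := by exact_mod_cast hj.le
          exact h1.trans (hNe2.trans (hmono he₂3))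
      _ = Cb * ∑ j ∈ Finset.range N, ((j : ℝ) + 1) ^ (-(1 - α - e)) := (Finset.mul_sum _ _ _).symm
      _ ≤ Cb * (K' * (N : ℝ) ^ (1 - (1 - α - e))) := mul_le_mul_of_nonneg_left (hsum N) hCb.le
      _ = Cb * (K' * (N : ℝ) ^ (α + e)) := by
          congr 3
          ring
  have hmlow := m_low hnl hK hR hF1 hN1 hE2
  have hk2N : cl * (2 * (N : ℝ)) ^ (-(1 + α + e)) ≤ Kp C (2 * N) := by
    have := hlow (2 * N) (by omega)
    push_cast at this
    exact this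
  have hm1 := first_pow hα hα1 he he1 hF hF1 hN1' hNe hcl hk2N hbN hE (hc3 F hF hFF₃)
  have hm2 := hm1.trans hmlow
  refine ⟨N, hN1, hNε, hm2, fun γ hγ hγ1 => ?_⟩
  -- the second moment
  set D : ℝ := Kp C N * (Cb * (K' * (N : ℝ) ^ (α + e))) with hD
  have hKN : 0 ≤ Kp C N := (hK.a_pos N hN1).le
  have hD0 : 0 ≤ D := by positivity
  have hT := T_up hnl hK hR hN1 hS
  have huF : u - F ≤ c := by linarith
  have hγ2 : Real.exp γ - 1 ≤ 1 / (2 * (Cq ^ 2 * K₂)) := by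
    have h1 : Real.exp γ ≤ Real.exp (Real.log (1 + 1 / (2 * (Cq ^ 2 * K₂)))) :=
      Real.exp_le_exp.2 hγ1
    rw [Real.exp_log (by linarith)] at h1
    linarith
  have hq : (Real.exp γ - 1) * ∑ n ∈ Finset.Ioc 0 (2 * N), (Cq * ((n : ℝ) + 1) ^ (-θ)) ^ 2 ≤
      1 / 2 := by
    have h1 := sum_q (Cq := Cq) hsq (2 * N)
    have h0 : 0 ≤ Real.exp γ - 1 := by linarith [Real.one_le_exp hγ]
    calc (Real.exp γ - 1) * ∑ n ∈ Finset.Ioc 0 (2 * N), (Cq * ((n : ℝ) + 1) ^ (-θ)) ^ 2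
        ≤ 1 / (2 * (Cq ^ 2 * K₂)) * (Cq ^ 2 * K₂) :=
          mul_le_mul hγ2 h1 (Finset.sum_nonneg fun n _ => sq_nonneg _) hpos.le
      _ = 1 / 2 := by field_simp
  have hH : Hn C u γ (kap C N) (2 * N) 0 0 ≤
      2 * D ^ 2 * Real.exp (2 * F * ((2 * N : ℕ) : ℝ)) * (w 0 * w 0) := by
    refine hb hw hγ (kap_nonneg C N) (q := fun n : ℕ => Cq * ((n : ℝ) + 1) ^ (-θ)) (2 * N)
      (fun n hn x hx => ?_) (fun n hn x hx => ?_) hq le_rfl le_rfl le_rfl
    · exact f_left hw huF hD0 N n (fun m hm => hT m (hm.trans hn)) hx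
    · refine hub u F hu hu2 hR n ?_ x hx
      have h1 : (n : ℝ) ≤ 2 * N := by exact_mod_cast hn
      exact h1.trans (hN2F.trans (hmono he₂2))
  rw [hw.zero, mul_one, mul_one] at hH
  have hr := ratio_pow hα hα1 he he1 heε hF hF1 hN1' hNe hcu hcl hCb hK' (hup N hN1) hk2N hbN
    (hc2 F hF hFF₂)
  rw [← hD] at hr
  obtain ⟨E, hEdef⟩ : ∃ E : ℝ, E = Real.exp (2 * F * N) := ⟨_, rfl⟩
  have hE0 : 0 < E := by rw [hEdef]; exact Real.exp_pos _
  have hEE : Real.exp (2 * F * ((2 * N : ℕ) : ℝ)) = E ^ 2 := by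
    rw [hEdef, ← Real.exp_nat_mul]
    congr 1
    push_cast
    ring
  rw [hEE] at hH
  rw [← hEdef] at hmlow
  obtain ⟨b, hbdef⟩ : ∃ b : ℝ, b = An C u N * Real.exp (-(2 * F * N)) := ⟨_, rfl⟩
  rw [← hbdef] at hmlow hr
  obtain ⟨m, hmdef⟩ : ∃ m : ℝ, m = Tn C (vu u) (kap C N) (2 * N) 0 := ⟨_, rfl⟩
  rw [← hmdef] at hmlow ⊢
  have h15 : 3 / 2 * (D * E) ≤ F ^ (-(ε / 2)) * m := by
    calc 3 / 2 * (D * E) = 12 * F * D * (E / (8 * F)) := by
          field_simp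
          ring
      _ ≤ F ^ (-(ε / 2)) * (Kp C (2 * N) * b) * (E / (8 * F)) :=
          mul_le_mul_of_nonneg_right hr (by positivity)
      _ = F ^ (-(ε / 2)) * (Kp C (2 * N) * b * (E / (8 * F))) := by ring
      _ ≤ F ^ (-(ε / 2)) * m := mul_le_mul_of_nonneg_left hmlow (by positivity)
  have h16 : F ^ (-ε) = (F ^ (-(ε / 2))) ^ 2 := by
    rw [← Real.rpow_natCast, ← Real.rpow_mul hF.le]
    congr 1
    push_cast
    ring
  have h17 : (3 / 2 * (D * E)) ^ 2 ≤ (F ^ (-(ε / 2)) * m) ^ 2 :=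
    pow_le_pow_left₀ (by positivity) h15 2
  calc Hn C u γ (kap C N) (2 * N) 0 0 ≤ 2 * D ^ 2 * E ^ 2 := hH
    _ ≤ (3 / 2 * (D * E)) ^ 2 := by nlinarith [sq_nonneg (D * E)]
    _ ≤ (F ^ (-(ε / 2)) * m) ^ 2 := h17
    _ = F ^ (-ε) * m ^ 2 := by rw [h16]; ring

end

end Pool.Agent.AS
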