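import Pool.Agent.Lib.MP_daa227_pr_AS.Defs
import Pool.Agent.Lib.MP_daa227_pr_AZ.Strat
import Pool.Agent.Lib.MP_daa227_pr_OT.KZ
import Pool.Agent.Lib.MP_daa227_pr_OT.FreeP

/-!
# PROJECT AS, module R3: the block strategy for the copolymer
-/

namespace Pool.Agent.AS

open MeasureTheory ProbabilityTheory Set Filter
open scoped ENNReal Topology
open MP_daa227_pr (Chain Zk Zf Gk Gf KU K0 ushift shift seqLaw ExpMom Good GoodW mom DepOn)
open Pool.Agent.AZ (Kv Zd Zfd cneg lmg)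
open Pool.Agent.OT (phi Wc Kp Km)

noncomputable section

namespace StratC

open Pool.Agent.AZ.Strat (ab ab_succ' ab_meas ab_dep ab_nonneg ab_le_one ab_sum ab_int ab_integral
  integrable_mul_shift integral_mul_shift rec_sol)

theorem Kp_pos (C : Chain) {k : ℕ} (hk : 1 ≤ k) : 0 < Kp C k := by
  obtain ⟨n, rfl⟩ : ∃ n, k = n + 1 := ⟨k - 1, by omega⟩
  have h1 := MP_daa227_pr.K0_up C n n le_rfl
  have h2 : ((n : ℤ) + 1 - n) = 1 := by ring
  rw [h2] at h1
  unfold Kp
  rw [show 2 * (n + 1) - 1 = n + 1 + n by omega]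
  have h3 := C.up 0
  rw [zero_add] at h3
  exact mul_pos h3 h1

theorem Kp_nonneg (C : Chain) (k : ℕ) : 0 ≤ Kp C k :=
  mul_nonneg (C.nonneg _ _) (MP_daa227_pr.K0_nonneg C _ _)

theorem Km_nonneg (C : Chain) (k : ℕ) : 0 ≤ Km C k :=
  mul_nonneg (C.nonneg _ _) (MP_daa227_pr.K0_nonneg C _ _)

theorem Wc_pos (β h : ℝ) (a : ℝ) (z : ℤ) : 0 < Wc β h a z := Real.exp_pos _

/-- one positive excursion first -/
theorem exc_le (C : Chain) (hnl : ∀ x, C.p x x = 0) (β h : ℝ) {k : ℕ} (hk : 1 ≤ k) (m : ℕ)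
    (ω : ℕ → ℝ) :
    Kp C k * Real.exp (β * ω (2 * k - 1) - h) * Zk C (Wc β h) (2 * m) (shift (2 * k) ω) 0 0 ≤
      Zk C (Wc β h) (2 * (k + m)) ω 0 0 := by
  obtain ⟨j, rfl⟩ : ∃ j, k = j + 1 := ⟨k - 1, by omega⟩
  have hZ : ∀ (i : ℕ) (ω : ℕ → ℝ), 0 ≤ OT.Zr (Kp C) (Km C) i (OT.en β h ω) := fun i ω => by
    rw [← OT.Zk_eq_Zr C hnl]
    exact OT.L1.Zk_nonneg C (Wc_pos β h) _ _ _ _
  have hg : ∀ (i : ℕ) (ω : ℕ → ℝ), 0 ≤ OT.gW (Kp C) (Km C) i (OT.en β h ω) := fun i ω =>
    add_nonneg (mul_nonneg (Kp_nonneg C _) (Real.exp_pos _).le)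
      (mul_nonneg (Km_nonneg C _) (Real.exp_pos _).le)
  rw [OT.Zk_eq_Zr C hnl, OT.Zk_eq_Zr C hnl, show j + 1 + m = (j + m) + 1 by ring, OT.K2.Zr_succ]
  have hnn : ∀ i ∈ Finset.range (j + m + 1), 0 ≤ OT.gW (Kp C) (Km C) (i + 1) (OT.en β h ω) *
      OT.Zr (Kp C) (Km C) (j + m - i) (shift (2 * (i + 1)) (OT.en β h ω)) := fun i _ =>
    mul_nonneg (hg _ _) (hZ _ _)
  refine le_trans ?_ (Finset.single_le_sum hnn (Finset.mem_range.2 (show j < j + m + 1 by omega)))
  rw [show j + m - j = m by omega]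
  refine mul_le_mul_of_nonneg_right ?_ (hZ _ _)
  unfold OT.gW
  have h1 : 0 ≤ Km C (j + 1) * Real.exp (∑ i ∈ Finset.range (2 * (j + 1)), OT.en β h ω i) :=
    mul_nonneg (Km_nonneg C _) (Real.exp_pos _).le
  have h2 : OT.en β h ω (2 * (j + 1) - 1) = β * ω (2 * (j + 1) - 1) - h := rfl
  rw [h2]
  linarith

section

variable (C : Chain) (β h : ℝ) (n : ℕ) (w : ℝ)

/-- indicator of the bad blocks -/
def bd (ω : ℕ → ℝ) : ℝ := if Real.exp w ≤ Zk C (Wc β h) (2 * n) ω 0 0 then 0 else 1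

theorem good_Z (m : ℕ) : Good m |β| (fun ω => Zk C (Wc β h) m ω 0 0) :=
  MP_daa227_pr.good_Zk C (abs_nonneg β) (OT.L1.goodW β h) m 0 0

theorem bd_meas : Measurable (bd C β h n w) :=
  Measurable.ite (measurableSet_le measurable_const (good_Z C β h (2 * n)).meas) measurable_const
    measurable_const

theorem bd_dep : DepOn (2 * n) (bd C β h n w) := by
  intro ω ω' hω
  have h1 : Zk C (Wc β h) (2 * n) ω 0 0 = Zk C (Wc β h) (2 * n) ω' 0 0 :=
    (good_Z C β h (2 * n)).depOn ω ω' hω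
  unfold bd
  rw [h1]

theorem bd_01 (ω : ℕ → ℝ) : bd C β h n w ω = 0 ∨ bd C β h n w ω = 1 := by
  unfold bd
  split_ifs
  · exact Or.inl rfl
  · exact Or.inr rfl

theorem bd_integral (μ : Measure ℝ) [IsProbabilityMeasure μ] {p : ℝ}
    (hp : (seqLaw μ {ω | Real.exp w ≤ Zk C (Wc β h) (2 * n) ω 0 0}).toReal = p) :
    ∫ ω, bd C β h n w ω ∂seqLaw μ = 1 - p := by
  have hs : MeasurableSet {ω | Real.exp w ≤ Zk C (Wc β h) (2 * n) ω 0 0} :=
    measurableSet_le measurable_const (good_Z C β h (2 * n)).meas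
  have h1 : ∀ ω, bd C β h n w ω =
      1 - ({ω | Real.exp w ≤ Zk C (Wc β h) (2 * n) ω 0 0}).indicator (fun _ => (1 : ℝ)) ω := by
    intro ω
    unfold bd
    by_cases h2 : Real.exp w ≤ Zk C (Wc β h) (2 * n) ω 0 0
    · rw [if_pos h2, indicator_of_mem
        (show ω ∈ {ω | Real.exp w ≤ Zk C (Wc β h) (2 * n) ω 0 0} from h2)]
      ring
    · rw [if_neg h2, indicator_of_notMem
        (show ω ∉ {ω | Real.exp w ≤ Zk C (Wc β h) (2 * n) ω 0 0} from h2)]
      ring
  simp_rw [h1]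
  rw [integral_sub (integrable_const 1) ((integrable_const 1).indicator hs),
    integral_indicator_const _ hs]
  simp only [integral_const, probReal_univ, smul_eq_mul, mul_one]
  rw [← hp]
  rfl

/-- the logarithmic cost of a positive excursion of length `2d` -/
def lc (d : ℕ) (ω : ℕ → ℝ) : ℝ :=
  if d = 0 then 0 else Real.log (Kp C d) - h + β * ω (2 * d - 1)

theorem lc_zero (ω : ℕ → ℝ) : lc C β h 0 ω = 0 := if_pos rfl

theorem lc_pos {d : ℕ} (hd : d ≠ 0) (ω : ℕ → ℝ) :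
    lc C β h d ω = Real.log (Kp C d) - h + β * ω (2 * d - 1) := if_neg hd

theorem lc_meas (d : ℕ) : Measurable (lc C β h d) := by
  unfold lc
  split_ifs
  · exact measurable_const
  · exact measurable_const.add (measurable_const.mul (measurable_pi_apply _))

theorem lc_dep (d : ℕ) : DepOn (2 * d) (lc C β h d) := by
  intro ω ω' hω
  rcases Nat.eq_zero_or_pos d with hd | hd
  · subst hd
    rw [lc_zero, lc_zero]
  · rw [lc_pos C β h hd.ne', lc_pos C β h hd.ne', hω (2 * d - 1) (by omega)]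

theorem coord_int {μ : Measure ℝ} [IsProbabilityMeasure μ] (hμ : ExpMom μ) (i : ℕ) :
    Integrable (fun ω : ℕ → ℝ => ω i) (seqLaw μ) :=
  MP_daa227_pr.integrable_apply μ i (Y := fun x => x) measurable_id hμ.integrable_id

theorem lc_int {μ : Measure ℝ} [IsProbabilityMeasure μ] (hμ : ExpMom μ) (d : ℕ) :
    Integrable (lc C β h d) (seqLaw μ) := by
  rcases Nat.eq_zero_or_pos d with hd | hd
  · subst hd
    have h1 : lc C β h 0 = fun _ => 0 := by
      funext ω
      exact lc_zero C β h ω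
    rw [h1]
    exact integrable_const 0
  · have h1 : lc C β h d = fun ω => Real.log (Kp C d) - h + β * ω (2 * d - 1) := by
      funext ω
      exact lc_pos C β h hd.ne' ω
    rw [h1]
    exact (integrable_const _).add ((coord_int hμ _).const_mul β)

end

/-- one charge times a `0`-`1` variable -/
theorem coord_ge {μ : Measure ℝ} [IsProbabilityMeasure μ] (hμ : ExpMom μ)
    (hvar : ∫ x, x ^ 2 ∂μ = 1) {b : (ℕ → ℝ) → ℝ} (hb : Measurable b)
    (h01 : ∀ ω, b ω = 0 ∨ b ω = 1) (i : ℕ) :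
    Integrable (fun ω : ℕ → ℝ => ω i * b ω) (seqLaw μ) ∧
      -1 ≤ ∫ ω, ω i * b ω ∂seqLaw μ := by
  have hI1 := coord_int hμ i
  have hI2 : Integrable (fun ω : ℕ → ℝ => ω i ^ 2) (seqLaw μ) :=
    MP_daa227_pr.integrable_apply μ i (Y := fun x => x ^ 2) (by fun_prop) (by
      have h1 := hμ.sq_abs 0
      simpa using h1)
  have hE2 : ∫ ω : ℕ → ℝ, ω i ^ 2 ∂seqLaw μ = 1 := by
    rw [MP_daa227_pr.integral_apply μ i (Y := fun x => x ^ 2) (by fun_prop), hvar]
  have hbb : ∀ ω, |b ω| ≤ 1 := fun ω => by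
    rcases h01 ω with h | h <;> (rw [h]; norm_num)
  have hIb : Integrable (fun ω : ℕ → ℝ => ω i * b ω) (seqLaw μ) :=
    hI1.mul_bdd (c := 1) hb.aestronglyMeasurable (ae_of_all _ fun ω => hbb ω)
  refine ⟨hIb, ?_⟩
  have hdom : Integrable (fun ω : ℕ → ℝ => -((ω i ^ 2 + 1) / 2)) (seqLaw μ) :=
    ((hI2.add (integrable_const 1)).div_const 2).neg
  have h2 : ∫ ω : ℕ → ℝ, -((ω i ^ 2 + 1) / 2) ∂seqLaw μ = -1 := by
    rw [integral_neg, integral_div, integral_add hI2 (integrable_const 1), hE2]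
    simp
  rw [← h2]
  refine integral_mono hdom hIb fun ω => ?_
  simp only
  rcases h01 ω with h | h
  · rw [h, mul_zero]
    nlinarith [sq_nonneg (ω i)]
  · rw [h, mul_one]
    nlinarith [sq_nonneg (ω i + 1)]

/-- the last charge of a run of bad blocks -/
theorem last_ge {μ : Measure ℝ} [IsProbabilityMeasure μ] (hμ : ExpMom μ)
    (hvar : ∫ x, x ^ 2 ∂μ = 1) {n : ℕ} (hn : 0 < n) {b : (ℕ → ℝ) → ℝ} (hb : Measurable b)
    (hd : DepOn (2 * n) b) (h01 : ∀ ω, b ω = 0 ∨ b ω = 1) {p : ℝ} (hp1 : p ≤ 1)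
    (hp : ∫ ω, b ω ∂seqLaw μ = 1 - p) (k : ℕ) :
    -(1 - p) ^ k ≤ ∫ ω, ω (2 * ((k + 1) * n) - 1) * ab (2 * n) b (k + 1) ω ∂seqLaw μ := by
  have h1 : ∀ ω : ℕ → ℝ, ω (2 * ((k + 1) * n) - 1) * ab (2 * n) b (k + 1) ω =
      ab (2 * n) b k ω * ((fun ω : ℕ → ℝ => ω (2 * n - 1) * b ω) (shift (k * (2 * n)) ω)) := by
    intro ω
    rw [ab_succ']
    simp only
    rw [MP_daa227_pr.shift_apply]
    have h2 : 2 * n - 1 + k * (2 * n) = 2 * ((k + 1) * n) - 1 := by
      have h3 : 2 * ((k + 1) * n) = k * (2 * n) + 2 * n := by ring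
      omega
    rw [h2]
    ring
  rw [integral_congr_ae (ae_of_all _ h1),
    integral_mul_shift μ (Y := fun ω : ℕ → ℝ => ω (2 * n - 1) * b ω) (ab_meas hb k) (ab_dep hd k)
      ((measurable_pi_apply _).mul hb), ab_integral μ hb hd, hp]
  have h3 := (coord_ge hμ hvar hb h01 (2 * n - 1)).2
  have h4 : 0 ≤ (1 - p) ^ k := pow_nonneg (by linarith) k
  nlinarith

end StratC

open StratC in
open Pool.Agent.AZ.Strat (ab ab_succ' ab_meas ab_dep ab_nonneg ab_le_one ab_sum ab_int ab_integral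
  integrable_mul_shift integral_mul_shift rec_sol) in
theorem strategy {μ : Measure ℝ} [IsProbabilityMeasure μ] (C : Chain) (hnl : ∀ x, C.p x x = 0)
    (hμ : ExpMom μ) (hmean : ∫ x, x ∂μ = 0)
    (hvar : ∫ x, x ^ 2 ∂μ = 1) {β h : ℝ} (hβ : 0 < β) (hh : 0 ≤ h) {n : ℕ} (hn : 0 < n) {w p : ℝ}
    (hp : (seqLaw μ {ω | Real.exp w ≤ Zk C (Wc β h) (2 * n) ω 0 0}).toReal = p) (hp0 : 0 < p)
    {c₀ c₁ : ℝ} (h0 : 0 ≤ c₀) (h1 : 0 ≤ c₁)
    (hKp : ∀ k : ℕ, 1 ≤ k → -Real.log (Kp C (k * n)) ≤ c₀ + c₁ * k) (T : ℕ) :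
    T * (p * (w - (c₀ + h + β)) - (1 - p) * c₁) - (c₀ + h + β) ≤ Ps C μ β h (T * (2 * n)) := by
  have hp1 : p ≤ 1 := by
    rw [← hp]
    exact ENNReal.toReal_le_of_le_ofReal zero_le_one (by
      rw [ENNReal.ofReal_one]
      exact prob_le_one)
  have hq0 : 0 ≤ 1 - p := by linarith
  refine rec_sol hp0.le hp1 (fun T => Ps C μ β h (T * (2 * n))) (fun T => ?_) T
  have hb := bd_meas C β h n w
  have hbd := bd_dep C β h n w
  have h01 := bd_01 C β h n w
  have hbi := bd_integral C β h n w μ hp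
  have hgood : ∀ ω, bd C β h n w ω ≠ 1 → w ≤ Real.log (Zk C (Wc β h) (2 * n) ω 0 0) := by
    intro ω hω
    unfold bd at hω
    split_ifs at hω with h2
    · rw [← Real.log_exp w]
      exact Real.log_le_log (Real.exp_pos w) h2
    · exact absurd rfl hω
  set b := bd C β h n w with hbdef
  have hb0 : ∀ ω, 0 ≤ b ω := fun ω => by rcases h01 ω with h | h <;> simp [h]
  have hb1 : ∀ ω, b ω ≤ 1 := fun ω => by rcases h01 ω with h | h <;> simp [h]
  have hW := Wc_pos β h
  have hZpos : ∀ m ω, 0 < Zk C (Wc β h) (2 * m) ω 0 0 := fun m ω =>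
    MP_daa227_pr.Zk_even_pos C hW 0 m ω
  have hZpos' : ∀ m ω, 0 < Zk C (Wc β h) (m * (2 * n)) ω 0 0 := fun m ω => by
    rw [show m * (2 * n) = 2 * (m * n) by ring]
    exact hZpos _ ω
  have hZint : ∀ m, Integrable (fun ω => Real.log (Zk C (Wc β h) (m * (2 * n)) ω 0 0))
      (seqLaw μ) := fun m => (good_Z C β h (m * (2 * n))).integrable_log hμ (hZpos' m)
  have hZmeas : ∀ m, Measurable (fun ω => Real.log (Zk C (Wc β h) (m * (2 * n)) ω 0 0)) := fun m =>
    (good_Z C β h (m * (2 * n))).meas.log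
  -- one good block after k bad ones
  have hpt1 : ∀ k < T, ∀ ω, b (shift (k * (2 * n)) ω) ≠ 1 →
      lc C β h (k * n) ω + w +
        Real.log (Zk C (Wc β h) ((T - k - 1) * (2 * n)) (shift ((k + 1) * (2 * n)) ω) 0 0) ≤
        Real.log (Zk C (Wc β h) (T * (2 * n)) ω 0 0) := by
    intro k hk ω hω
    have h2 := hgood _ hω
    have h3 := MP_daa227_pr.Zk_mul_le C (Wc β h) (fun a z => (hW a z).le) (2 * n)
      ((T - k - 1) * (2 * n)) (shift (k * (2 * n)) ω) 0 0 0
    rw [MP_daa227_pr.shift_shift, show 2 * n + k * (2 * n) = (k + 1) * (2 * n) by ring] at h3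
    have h4 : Real.log (Zk C (Wc β h) (2 * n) (shift (k * (2 * n)) ω) 0 0) +
        Real.log (Zk C (Wc β h) ((T - k - 1) * (2 * n)) (shift ((k + 1) * (2 * n)) ω) 0 0) ≤
        Real.log (Zk C (Wc β h) (2 * n + (T - k - 1) * (2 * n)) (shift (k * (2 * n)) ω) 0 0) := by
      rw [← Real.log_mul (hZpos _ _).ne' (hZpos' _ _).ne']
      exact Real.log_le_log (mul_pos (hZpos _ _) (hZpos' _ _)) h3
    have hpos2 : 0 < Zk C (Wc β h) (2 * n + (T - k - 1) * (2 * n)) (shift (k * (2 * n)) ω) 0 0 :=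
      (mul_pos (hZpos _ _) (hZpos' _ _)).trans_le h3
    have hidx : 2 * n + (T - k - 1) * (2 * n) = 2 * ((T - k) * n) := by
      obtain ⟨m, rfl⟩ : ∃ m, T = k + 1 + m := ⟨T - k - 1, by omega⟩
      rw [show k + 1 + m - k - 1 = m by omega, show k + 1 + m - k = m + 1 by omega]
      ring
    rcases Nat.eq_zero_or_pos k with hk0 | hk0
    · subst hk0
      rw [Nat.zero_mul, lc_zero]
      rw [Nat.zero_mul] at h4 h2
      simp only [MP_daa227_pr.shift_zero] at h4 h2
      rw [hidx, Nat.sub_zero, show 2 * (T * n) = T * (2 * n) by ring] at h4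
      rw [Nat.sub_zero]
      linarith
    · have hkn : k * n ≠ 0 := (Nat.mul_pos hk0 hn).ne'
      have h7 := exc_le C hnl β h (Nat.one_le_iff_ne_zero.2 hkn) ((T - k) * n) ω
      rw [show 2 * (k * n) = k * (2 * n) by ring, ← hidx] at h7
      have hT : 2 * (k * n + (T - k) * n) = T * (2 * n) := by
        obtain ⟨m, rfl⟩ : ∃ m, T = k + m := ⟨T - k, by omega⟩
        rw [show k + m - k = m by omega]
        ring
      rw [hT] at h7
      have h5 : 0 < Kp C (k * n) * Real.exp (β * ω (k * (2 * n) - 1) - h) :=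
        mul_pos (Kp_pos C (Nat.one_le_iff_ne_zero.2 hkn)) (Real.exp_pos _)
      have h8 := Real.log_le_log (mul_pos h5 hpos2) h7
      rw [Real.log_mul h5.ne' hpos2.ne', Real.log_mul (Kp_pos C (Nat.one_le_iff_ne_zero.2 hkn)).ne'
        (Real.exp_ne_zero _), Real.log_exp] at h8
      rw [lc_pos C β h hkn, show 2 * (k * n) = k * (2 * n) by ring]
      linarith
  have hpt2 : ∀ ω, lc C β h (T * n) ω ≤ Real.log (Zk C (Wc β h) (T * (2 * n)) ω 0 0) := by
    intro ω
    rcases Nat.eq_zero_or_pos T with hT | hT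
    · subst hT
      rw [Nat.zero_mul, lc_zero, Nat.zero_mul]
      change (0 : ℝ) ≤ Real.log (if (0 : ℤ) = 0 then 1 else 0)
      rw [if_pos rfl, Real.log_one]
    · have hkn : T * n ≠ 0 := (Nat.mul_pos hT hn).ne'
      have h7 := exc_le C hnl β h (Nat.one_le_iff_ne_zero.2 hkn) 0 ω
      have h8 : Zk C (Wc β h) (2 * 0) (shift (2 * (T * n)) ω) 0 0 = 1 := by
        change (if (0 : ℤ) = 0 then (1 : ℝ) else 0) = 1
        rw [if_pos rfl]
      rw [h8, mul_one, add_zero] at h7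
      have h9 := Real.log_le_log (mul_pos (Kp_pos C (Nat.one_le_iff_ne_zero.2 hkn))
        (Real.exp_pos _)) h7
      rw [Real.log_mul (Kp_pos C (Nat.one_le_iff_ne_zero.2 hkn)).ne' (Real.exp_ne_zero _),
        Real.log_exp] at h9
      rw [lc_pos C β h hkn, show T * (2 * n) = 2 * (T * n) by ring]
      linarith
  have hpt : ∀ ω, ∑ k ∈ Finset.range T, ab (2 * n) b k ω * (1 - b (shift (k * (2 * n)) ω)) *
      (lc C β h (k * n) ω + w +
        Real.log (Zk C (Wc β h) ((T - k - 1) * (2 * n)) (shift ((k + 1) * (2 * n)) ω) 0 0)) +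
      ab (2 * n) b T ω * lc C β h (T * n) ω ≤ Real.log (Zk C (Wc β h) (T * (2 * n)) ω 0 0) := by
    intro ω
    have h2 : Real.log (Zk C (Wc β h) (T * (2 * n)) ω 0 0) = ∑ k ∈ Finset.range T,
        ab (2 * n) b k ω * (1 - b (shift (k * (2 * n)) ω)) *
          Real.log (Zk C (Wc β h) (T * (2 * n)) ω 0 0) +
        ab (2 * n) b T ω * Real.log (Zk C (Wc β h) (T * (2 * n)) ω 0 0) := by
      rw [← Finset.sum_mul, ← add_mul, ab_sum, one_mul]
    rw [h2]
    refine add_le_add (Finset.sum_le_sum fun k hk => ?_)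
      (mul_le_mul_of_nonneg_left (hpt2 ω) (ab_nonneg hb0 T ω))
    rcases h01 (shift (k * (2 * n)) ω) with h3 | h3
    · apply mul_le_mul_of_nonneg_left (hpt1 k (Finset.mem_range.1 hk) ω (by rw [h3]; norm_num))
      rw [h3, sub_zero, mul_one]
      exact ab_nonneg hb0 k ω
    · rw [h3, sub_self, mul_zero, zero_mul, zero_mul]
  -- expectations
  have hgm : Measurable (fun ω => 1 - b ω) := measurable_const.sub hb
  have hgI : Integrable (fun ω => 1 - b ω) (seqLaw μ) :=
    Integrable.of_bound hgm.aestronglyMeasurable 1 (ae_of_all _ fun ω => by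
      rw [Real.norm_of_nonneg (by linarith [hb1 ω])]
      linarith [hb0 ω])
  have hgi : ∫ ω, (1 - b ω) ∂seqLaw μ = p := by
    have hbI : Integrable b (seqLaw μ) :=
      Integrable.of_bound hb.aestronglyMeasurable 1 (ae_of_all _ fun ω => by
        rw [Real.norm_of_nonneg (hb0 ω)]
        exact hb1 ω)
    rw [integral_sub (integrable_const 1) hbI, hbi]
    simp
  have ham : ∀ k, Measurable (ab (2 * n) b k) := fun k => ab_meas hb k
  have haI : ∀ k, Integrable (ab (2 * n) b k) (seqLaw μ) := fun k => ab_int μ hb hb0 hb1 k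
  have hai : ∀ k, ∫ ω, ab (2 * n) b k ω ∂seqLaw μ = (1 - p) ^ k := fun k => by
    rw [ab_integral μ hb hbd, hbi]
  have had : ∀ k, DepOn (k * (2 * n)) (ab (2 * n) b k) := fun k => ab_dep hbd k
  have hlI : ∀ k, Integrable (fun ω => ab (2 * n) b k ω * lc C β h (k * n) ω) (seqLaw μ) :=
    fun k => (lc_int C β h hμ (k * n)).bdd_mul (c := 1) (ham k).aestronglyMeasurable
      (ae_of_all _ fun ω => by
        rw [Real.norm_of_nonneg (ab_nonneg hb0 _ ω)]
        exact ab_le_one hb0 hb1 _ ω)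
  have hlm : ∀ k, Measurable (fun ω => ab (2 * n) b k ω * lc C β h (k * n) ω) := fun k =>
    (ham k).mul (lc_meas C β h _)
  have hld : ∀ k, DepOn (k * (2 * n)) (fun ω => ab (2 * n) b k ω * lc C β h (k * n) ω) :=
    fun k ω ω' hω => by
      simp only
      rw [had k ω ω' hω, lc_dep C β h (k * n) ω ω' (fun i hi => hω i (by
        rw [show k * (2 * n) = 2 * (k * n) by ring]
        exact hi))]
  set X : ℕ → (ℕ → ℝ) → ℝ := fun k ω => ab (2 * n) b k ω * (1 - b (shift (k * (2 * n)) ω)) with hX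
  have hXm : ∀ k, Measurable (X k) := fun k =>
    (ham k).mul (hgm.comp (MP_daa227_pr.measurable_shift _))
  have hXd : ∀ k, DepOn ((k + 1) * (2 * n)) (X k) := fun k ω ω' hω => by
    simp only [hX]
    rw [had k ω ω' fun i hi => hω i (by nlinarith),
      hbd (shift (k * (2 * n)) ω) (shift (k * (2 * n)) ω') fun i hi => hω (i + k * (2 * n)) (by
        rw [add_mul, one_mul]; omega)]
  have hXI : ∀ k, Integrable (X k) (seqLaw μ) := fun k =>
    integrable_mul_shift μ (ham k) (had k) hgm (haI k) hgI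
  have hXi : ∀ k, ∫ ω, X k ω ∂seqLaw μ = (1 - p) ^ k * p := fun k => by
    have h2 := integral_mul_shift μ (ham k) (had k) hgm
    rw [hai, hgi] at h2
    exact h2
  have hterm : ∀ k < T, Integrable (fun ω => ab (2 * n) b k ω *
      (1 - b (shift (k * (2 * n)) ω)) * (lc C β h (k * n) ω + w +
        Real.log (Zk C (Wc β h) ((T - k - 1) * (2 * n)) (shift ((k + 1) * (2 * n)) ω) 0 0)))
      (seqLaw μ) ∧ ∫ ω, ab (2 * n) b k ω * (1 - b (shift (k * (2 * n)) ω)) *
      (lc C β h (k * n) ω + w +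
        Real.log (Zk C (Wc β h) ((T - k - 1) * (2 * n)) (shift ((k + 1) * (2 * n)) ω) 0 0))
      ∂seqLaw μ = (∫ ω, ab (2 * n) b k ω * lc C β h (k * n) ω ∂seqLaw μ) * p +
        w * ((1 - p) ^ k * p) + (1 - p) ^ k * p * Ps C μ β h ((T - k - 1) * (2 * n)) := by
    intro k hk
    have h2 : ∀ ω, ab (2 * n) b k ω * (1 - b (shift (k * (2 * n)) ω)) *
      (lc C β h (k * n) ω + w +
        Real.log (Zk C (Wc β h) ((T - k - 1) * (2 * n)) (shift ((k + 1) * (2 * n)) ω) 0 0)) =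
      (ab (2 * n) b k ω * lc C β h (k * n) ω) * (1 - b (shift (k * (2 * n)) ω)) + w * X k ω +
        X k ω * Real.log (Zk C (Wc β h) ((T - k - 1) * (2 * n))
          (shift ((k + 1) * (2 * n)) ω) 0 0) := by
      intro ω
      simp only [hX]
      ring
    have i1 := integrable_mul_shift μ (hlm k) (hld k) hgm (hlI k) hgI
    have i2 := (hXI k).const_mul w
    have i3 := integrable_mul_shift μ (hXm k) (hXd k) (hZmeas (T - k - 1)) (hXI k)
      (hZint (T - k - 1))
    have e1 := integral_mul_shift μ (hlm k) (hld k) hgm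
    have e3 := integral_mul_shift μ (hXm k) (hXd k) (hZmeas (T - k - 1))
    simp_rw [h2]
    have i12 : Integrable (fun ω => (ab (2 * n) b k ω * lc C β h (k * n) ω) *
        (1 - b (shift (k * (2 * n)) ω)) + w * X k ω) (seqLaw μ) := i1.add i2
    refine ⟨i12.add i3, ?_⟩
    rw [integral_add i12 i3, integral_add i1 i2, e1, e3, integral_const_mul, hgi, hXi]
    rfl
  have hlast := hlI T
  have hsI : Integrable (fun ω => ∑ k ∈ Finset.range T, ab (2 * n) b k ω *
      (1 - b (shift (k * (2 * n)) ω)) * (lc C β h (k * n) ω + w +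
        Real.log (Zk C (Wc β h) ((T - k - 1) * (2 * n)) (shift ((k + 1) * (2 * n)) ω) 0 0)))
      (seqLaw μ) :=
    integrable_finsetSum _ fun k hk => (hterm k (Finset.mem_range.1 hk)).1
  have hfull : Integrable (fun ω => ∑ k ∈ Finset.range T, ab (2 * n) b k ω *
      (1 - b (shift (k * (2 * n)) ω)) * (lc C β h (k * n) ω + w +
        Real.log (Zk C (Wc β h) ((T - k - 1) * (2 * n)) (shift ((k + 1) * (2 * n)) ω) 0 0)) +
      ab (2 * n) b T ω * lc C β h (T * n) ω) (seqLaw μ) := hsI.add hlast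
  have hmain := integral_mono hfull (hZint T) hpt
  rw [integral_add hsI hlast,
    integral_finsetSum _ fun k hk => (hterm k (Finset.mem_range.1 hk)).1,
    Finset.sum_congr rfl fun k hk => (hterm k (Finset.mem_range.1 hk)).2] at hmain
  -- the costs of the runs
  have hcost : ∀ k : ℕ, -((1 - p) ^ k * (c₀ + h + c₁ * k)) -
      (if k = 0 then 0 else β * (1 - p) ^ (k - 1)) ≤
      ∫ ω, ab (2 * n) b k ω * lc C β h (k * n) ω ∂seqLaw μ := by
    intro k
    rcases Nat.eq_zero_or_pos k with hk | hk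
    · subst hk
      rw [if_pos rfl, Nat.zero_mul]
      have h3 : ∀ ω, ab (2 * n) b 0 ω * lc C β h 0 ω = 0 := fun ω => by
        rw [lc_zero, mul_zero]
      simp_rw [h3]
      rw [integral_zero]
      push_cast
      nlinarith
    · obtain ⟨j, rfl⟩ : ∃ j, k = j + 1 := ⟨k - 1, by omega⟩
      have hkn : (j + 1) * n ≠ 0 := (Nat.mul_pos hk hn).ne'
      rw [if_neg (by omega), Nat.add_sub_cancel]
      have hprod : Integrable (fun ω : ℕ → ℝ => ω (2 * ((j + 1) * n) - 1) *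
          ab (2 * n) b (j + 1) ω) (seqLaw μ) :=
        (coord_int hμ _).mul_bdd (c := 1) (ham (j + 1)).aestronglyMeasurable
          (ae_of_all _ fun ω => by
            rw [Real.norm_of_nonneg (ab_nonneg hb0 _ ω)]
            exact ab_le_one hb0 hb1 _ ω)
      have h3 : ∀ ω, ab (2 * n) b (j + 1) ω * lc C β h ((j + 1) * n) ω =
          (Real.log (Kp C ((j + 1) * n)) - h) * ab (2 * n) b (j + 1) ω +
          β * (ω (2 * ((j + 1) * n) - 1) * ab (2 * n) b (j + 1) ω) := by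
        intro ω
        rw [lc_pos C β h hkn]
        ring
      simp_rw [h3]
      rw [integral_add ((haI _).const_mul _) (hprod.const_mul β), integral_const_mul,
        integral_const_mul, hai]
      have h4 := last_ge hμ hvar hn hb hbd h01 hp1 hbi j
      have h5 := hKp (j + 1) hk
      have h6 : 0 ≤ (1 - p) ^ (j + 1) := pow_nonneg hq0 _
      have h7 := mul_le_mul_of_nonneg_left h4 hβ.le
      have h8 := mul_le_mul_of_nonneg_left h5 h6
      nlinarith
  have hend : ∀ T : ℕ, (∑ k ∈ Finset.range T, (if k = 0 then 0 else β * (1 - p) ^ (k - 1)) * p) +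
      (if T = 0 then 0 else β * (1 - p) ^ (T - 1)) ≤ β := by
    intro T
    rcases Nat.eq_zero_or_pos T with hT | hT
    · subst hT
      simp
      exact hβ.le
    · obtain ⟨m, rfl⟩ : ∃ m, T = m + 1 := ⟨T - 1, by omega⟩
      apply le_of_eq
      rw [if_neg (by omega), Nat.add_sub_cancel]
      clear hT
      induction m with
      | zero => simp
      | succ m ih =>
        rw [Finset.sum_range_succ, if_neg (by omega), Nat.add_sub_cancel, pow_succ]
        linarith
  have hone : ∀ T : ℕ, ∑ k ∈ Finset.range T, p * (1 - p) ^ k + (1 - p) ^ T = 1 := by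
    intro T
    induction T with
    | zero => simp
    | succ T ih =>
      rw [Finset.sum_range_succ, pow_succ]
      linarith
  refine le_trans ?_ hmain
  have hL := hcost T
  have hE := hend T
  have hO := hone T
  have hsum : ∑ k ∈ Finset.range T, ((-((1 - p) ^ k * (c₀ + h + c₁ * k)) -
      (if k = 0 then 0 else β * (1 - p) ^ (k - 1))) * p + w * ((1 - p) ^ k * p) +
      (1 - p) ^ k * p * Ps C μ β h ((T - k - 1) * (2 * n))) ≤ ∑ k ∈ Finset.range T,
      ((∫ ω, ab (2 * n) b k ω * lc C β h (k * n) ω ∂seqLaw μ) * p +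
        w * ((1 - p) ^ k * p) + (1 - p) ^ k * p * Ps C μ β h ((T - k - 1) * (2 * n))) := by
    refine Finset.sum_le_sum fun k _ => ?_
    have h3 := mul_le_mul_of_nonneg_right (hcost k) hp0.le
    linarith
  have hsplit : ∑ k ∈ Finset.range T, p * (1 - p) ^ k * (-(c₀ + h + β + c₁ * k) + w +
      Ps C μ β h ((T - k - 1) * (2 * n))) =
      ∑ k ∈ Finset.range T, ((-((1 - p) ^ k * (c₀ + h + c₁ * k)) -
      (if k = 0 then 0 else β * (1 - p) ^ (k - 1))) * p + w * ((1 - p) ^ k * p) +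
      (1 - p) ^ k * p * Ps C μ β h ((T - k - 1) * (2 * n))) +
      ∑ k ∈ Finset.range T, (if k = 0 then 0 else β * (1 - p) ^ (k - 1)) * p -
      β * ∑ k ∈ Finset.range T, p * (1 - p) ^ k := by
    rw [Finset.mul_sum, ← Finset.sum_add_distrib, ← Finset.sum_sub_distrib]
    refine Finset.sum_congr rfl fun k _ => ?_
    ring
  rw [hsplit]
  nlinarith

end

end Pool.Agent.AS
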