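import Pool.Agent.Lib.MP_daa227_pr_AS.SecM
import Pool.Agent.Lib.MP_daa227_pr_AS.StratC
import Pool.Agent.Lib.MP_daa227_pr_AS.Dec
import Pool.Agent.Lib.MP_daa227_pr_AS.ConvA
import Pool.Agent.Lib.MP_daa227_pr.Free

/-!
# Basic facts on the quenched free energy of the copolymer (module R4 of project AS)
-/

namespace Pool.Agent.AS

open MeasureTheory ProbabilityTheory Set Filter
open scoped ENNReal Topology
open MP_daa227_pr (Chain Zk Zf Gk Gf KU K0 ushift shift seqLaw ExpMom Good GoodW mom DepOn)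
open Pool.Agent.AZ (Kv Zd Zfd cneg lmg)
open Pool.Agent.OT (phi Wc Kp Km)

set_option linter.unusedVariables false
set_option linter.unusedSectionVars false

noncomputable section

variable {μ : Measure ℝ} [IsProbabilityMeasure μ]

namespace FqB

/-! ### the deterministic side -/

/-- the point mass at the origin -/
def dl (x : ℤ) : ℝ := if x = 0 then 1 else 0

theorem Zt_dl (C : Chain) (W : ℝ → ℤ → ℝ) : ∀ (n : ℕ) (ω : ℕ → ℝ) (x : ℤ),
    Zt C W dl n ω x = Zk C W n ω x 0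
  | 0, ω, x => by
    rw [Zt, Zk, dl]
  | n + 1, ω, x => by
    rw [Zt, Zk]
    exact Finset.sum_congr rfl fun z _ => by rw [Zt_dl C W n _ z]

theorem Tn_dl (C : Chain) (v : ℤ → ℝ) : ∀ (n : ℕ) (x : ℤ), Tn C v dl n x = Zd C v n x 0
  | 0, x => by
    unfold Zd
    rw [Tn, Zk, dl]
  | n + 1, x => by
    unfold Zd
    rw [Tn, Zk]
    refine Finset.sum_congr rfl fun z _ => ?_
    rw [Tn_dl C v n z]
    rfl

theorem Zd_le_exp (C : Chain) {v : ℤ → ℝ} {c : ℝ} (hv : ∀ z, v z ≤ c) (hc : 0 ≤ c) :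
    ∀ (n : ℕ) (x y : ℤ), Zd C v n x y ≤ Real.exp (c * n)
  | 0, x, y => by
    unfold Zd
    rw [Zk]
    split_ifs <;> simp
  | n + 1, x, y => by
    unfold Zd
    rw [Zk]
    have h1 : ∀ z ∈ Finset.Icc (x - 1) (x + 1),
        C.p x z * Real.exp (v z) * Zk C (fun _ z => Real.exp (v z)) n (shift 1 fun _ => 0) z y ≤
          C.p x z * (Real.exp c * Real.exp (c * n)) := by
      intro z _
      rw [mul_assoc]
      apply mul_le_mul_of_nonneg_left _ (C.nonneg _ _)
      exact mul_le_mul (Real.exp_le_exp.2 (hv z)) (Zd_le_exp C hv hc n z y)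
        (Pool.Agent.AZ.Zd_nonneg C v n z y) (Real.exp_pos _).le
    refine (Finset.sum_le_sum h1).trans ?_
    rw [← Finset.sum_mul, C.sum_one x, one_mul, ← Real.exp_add]
    apply Real.exp_le_exp.2
    push_cast
    linarith

theorem vu_le (u : ℝ) (z : ℤ) : vu u z ≤ max u 0 := by
  unfold vu phi
  split_ifs
  · rw [mul_one]
    exact le_max_left _ _
  · rw [mul_zero]
    exact le_max_right _ _

theorem An_le_exp (C : Chain) (u : ℝ) (n : ℕ) : An C u n ≤ Real.exp (2 * max u 0 * n) := by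
  refine (Zd_le_exp C (vu_le u) (le_max_right _ _) (2 * n) 0 0).trans (le_of_eq ?_)
  push_cast
  ring_nf

theorem An_pos (C : Chain) (u : ℝ) (n : ℕ) : 0 < An C u n :=
  Pool.Agent.AZ.Zd_even_pos C (vu u) n 0

/-! ### integrability and the first moment -/

theorem Zk_pos (C : Chain) (β h : ℝ) (n : ℕ) (ω : ℕ → ℝ) : 0 < Zk C (Wc β h) (2 * n) ω 0 0 :=
  MP_daa227_pr.Zk_even_pos C (StratC.Wc_pos β h) 0 n ω

theorem int_log (C : Chain) (hμ : ExpMom μ) (β h : ℝ) (n : ℕ) :
    Integrable (fun ω => Real.log (Zk C (Wc β h) (2 * n) ω 0 0)) (seqLaw μ) :=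
  (StratC.good_Z C β h (2 * n)).integrable_log hμ fun ω => Zk_pos C β h n ω

theorem Zk_int (C : Chain) (hμ : ExpMom μ) (β h : ℝ) (n : ℕ) :
    Integrable (fun ω => Zk C (Wc β h) (2 * n) ω 0 0) (seqLaw μ) := by
  have h1 := (Zt_int C hμ β h (η := dl) (2 * n) 0).1
  simp only [Zt_dl] at h1
  exact h1

theorem Zk_mean (C : Chain) (hμ : ExpMom μ) (β h : ℝ) (n : ℕ) :
    ∫ ω, Zk C (Wc β h) (2 * n) ω 0 0 ∂seqLaw μ = An C (lmg μ β - h) n := by
  have h1 := Zt_mean C hμ β h dl (2 * n) 0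
  simp only [Zt_dl, Tn_dl] at h1
  exact h1

theorem Ps_le_log (C : Chain) (hμ : ExpMom μ) (β h : ℝ) (n : ℕ) :
    Ps C μ β h (2 * n) ≤ Real.log (An C (lmg μ β - h) n) := by
  set c := An C (lmg μ β - h) n with hc
  have hc0 : 0 < c := An_pos C _ n
  have h1 : ∀ ω : ℕ → ℝ, Real.log (Zk C (Wc β h) (2 * n) ω 0 0) ≤
      Zk C (Wc β h) (2 * n) ω 0 0 / c + (Real.log c - 1) := by
    intro ω
    have h2 := Zk_pos C β h n ω
    have h3 := Real.log_le_sub_one_of_pos (div_pos h2 hc0)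
    rw [Real.log_div h2.ne' hc0.ne'] at h3
    linarith
  have hI : Integrable (fun ω : ℕ → ℝ => Zk C (Wc β h) (2 * n) ω 0 0 / c) (seqLaw μ) :=
    (Zk_int C hμ β h n).div_const c
  have h2 : Ps C μ β h (2 * n) ≤
      ∫ ω, (Zk C (Wc β h) (2 * n) ω 0 0 / c + (Real.log c - 1)) ∂seqLaw μ :=
    integral_mono (int_log C hμ β h n) (hI.add (integrable_const _)) h1
  rw [integral_add hI (integrable_const _), integral_div, Zk_mean C hμ β h n, ← hc,
    div_self hc0.ne', integral_const, probReal_univ, one_smul] at h2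
  linarith

/-! ### Fekete -/

theorem Ps_zero (C : Chain) (β h : ℝ) : Ps C μ β h (2 * 0) = 0 := by
  unfold Ps
  simp [Zk]

theorem Ps_add (C : Chain) (hμ : ExpMom μ) (β h : ℝ) (m n : ℕ) :
    Ps C μ β h (2 * m) + Ps C μ β h (2 * n) ≤ Ps C μ β h (2 * (m + n)) := by
  have h1 : Ps C μ β h (2 * n) =
      ∫ ω, Real.log (Zk C (Wc β h) (2 * n) (shift (2 * m) ω) 0 0) ∂seqLaw μ := by
    unfold Ps
    exact (MP_daa227_pr.integral_shift μ (2 * m)
      (Y := fun ω => Real.log (Zk C (Wc β h) (2 * n) ω 0 0))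
      (StratC.good_Z C β h (2 * n)).meas.log).symm
  have h2 := MP_daa227_pr.integrable_shift μ (2 * m)
    (Y := fun ω => Real.log (Zk C (Wc β h) (2 * n) ω 0 0))
    (StratC.good_Z C β h (2 * n)).meas.log (int_log C hμ β h n)
  rw [h1]
  unfold Ps
  rw [← integral_add (int_log C hμ β h m) h2]
  apply integral_mono ((int_log C hμ β h m).add h2) (int_log C hμ β h (m + n))
  intro ω
  simp only [Pi.add_apply]
  rw [← Real.log_mul (Zk_pos C β h m ω).ne' (Zk_pos C β h n _).ne']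
  refine Real.log_le_log (mul_pos (Zk_pos C β h m ω) (Zk_pos C β h n _)) ?_
  rw [mul_add]
  exact MP_daa227_pr.Zk_mul_le C (Wc β h) (fun a z => (StratC.Wc_pos β h a z).le) (2 * m) (2 * n)
    ω 0 0 0

theorem subadd (C : Chain) (hμ : ExpMom μ) (β h : ℝ) :
    Subadditive (fun n => -Ps C μ β h (2 * n)) := by
  intro m n
  have := Ps_add C hμ β h m n
  show -Ps C μ β h (2 * (m + n)) ≤ -Ps C μ β h (2 * m) + -Ps C μ β h (2 * n)
  linarith

theorem bdd (C : Chain) (hμ : ExpMom μ) (β h : ℝ) :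
    BddBelow (Set.range fun n : ℕ => -Ps C μ β h (2 * n) / n) := by
  refine ⟨-(2 * max (lmg μ β - h) 0), ?_⟩
  rintro _ ⟨n, rfl⟩
  dsimp only
  rcases Nat.eq_zero_or_pos n with rfl | hn
  · simp
  · rw [le_div_iff₀ (by exact_mod_cast hn)]
    have h1 := Ps_le_log C hμ β h n
    have h2 := Real.log_le_log (An_pos C _ n) (An_le_exp C (lmg μ β - h) n)
    rw [Real.log_exp] at h2
    linarith

theorem tends (C : Chain) (hμ : ExpMom μ) (β h : ℝ) :
    Tendsto (fun n : ℕ => Ps C μ β h (2 * n) / ((2 * n : ℕ) : ℝ)) atTop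
      (𝓝 (-(subadd C hμ β h).lim / 2)) := by
  have h1 := ((subadd C hμ β h).tendsto_lim (bdd C hμ β h)).neg.div_const 2
  refine h1.congr (fun n => ?_)
  push_cast
  rw [neg_div, div_div, neg_div, neg_neg, mul_comm (n : ℝ)]

theorem le_lim (C : Chain) (hμ : ExpMom μ) (β h : ℝ) {m : ℕ} (hm : 0 < m) :
    Ps C μ β h (2 * m) / ((2 * m : ℕ) : ℝ) ≤ -(subadd C hμ β h).lim / 2 := by
  have h1 := (subadd C hμ β h).lim_le_div (bdd C hμ β h) hm.ne'
  have h2 : (0 : ℝ) < m := by exact_mod_cast hm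
  rw [le_div_iff₀ h2] at h1
  rw [div_le_iff₀ (by positivity)]
  push_cast
  linarith

theorem Fq_eq (C : Chain) (hμ : ExpMom μ) (β h : ℝ) :
    Fq C μ β h = -(subadd C hμ β h).lim / 2 := by
  have hb : BddAbove
      (Set.range fun n : ℕ => Ps C μ β h (2 * (n + 1)) / ((2 * (n + 1) : ℕ) : ℝ)) := by
    refine ⟨-(subadd C hμ β h).lim / 2, ?_⟩
    rintro _ ⟨n, rfl⟩
    exact le_lim C hμ β h (Nat.succ_pos n)
  apply le_antisymm
  · exact ciSup_le fun n => le_lim C hμ β h (Nat.succ_pos n)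
  · refine le_of_tendsto (tends C hμ β h) ?_
    filter_upwards [eventually_gt_atTop 0] with n hn
    have h1 := le_ciSup hb (n - 1)
    have h2 : n - 1 + 1 = n := Nat.sub_add_cancel hn
    simp only [h2] at h1
    exact h1

theorem Zk_anti (C : Chain) {β h h' : ℝ} (hh : h ≤ h') (n : ℕ) (ω : ℕ → ℝ) :
    Zk C (Wc β h') n ω 0 0 ≤ Zk C (Wc β h) n ω 0 0 := by
  have h1 := (MP_daa227_pr.Model.Zk_le_of_W_le (C := C) (W := Wc β h') (W' := Wc β h) (c := 1)
    (fun a z => (StratC.Wc_pos _ _ _ _).le) zero_le_one (fun a z => by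
      rw [one_mul]
      unfold Wc
      apply Real.exp_le_exp.2
      refine mul_le_mul_of_nonneg_right (by linarith) ?_
      unfold phi
      split_ifs <;> norm_num) n ω 0 0).2
  rw [one_pow, one_mul] at h1
  exact h1

end FqB

open FqB

theorem Ps_le (C : Chain) (hμ : ExpMom μ) {β h : ℝ} (hβ : 0 < β) (n : ℕ) :
    Ps C μ β h (2 * n) ≤ (2 * n : ℕ) * Fq C μ β h := by
  rcases Nat.eq_zero_or_pos n with rfl | hn
  · rw [Ps_zero]
    simp
  · have h1 := le_lim C hμ β h hn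
    rw [← Fq_eq C hμ β h, div_le_iff₀ (by positivity)] at h1
    linarith

theorem tendsto_Fq (C : Chain) (hμ : ExpMom μ) {β : ℝ} (hβ : 0 < β) (h : ℝ) :
    Tendsto (fun n : ℕ => Ps C μ β h (2 * n) / ((2 * n : ℕ) : ℝ)) atTop (𝓝 (Fq C μ β h)) := by
  rw [Fq_eq C hμ β h]
  exact tends C hμ β h

theorem Fq_anti (C : Chain) (hμ : ExpMom μ) {β h h' : ℝ} (hβ : 0 < β) (hh : h ≤ h') :
    Fq C μ β h' ≤ Fq C μ β h := by
  refine le_of_tendsto_of_tendsto' (tendsto_Fq C hμ hβ h') (tendsto_Fq C hμ hβ h) (fun n => ?_)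
  refine div_le_div_of_nonneg_right ?_ (by positivity)
  apply integral_mono (int_log C hμ β h' n) (int_log C hμ β h n)
  intro ω
  exact Real.log_le_log (Zk_pos C β h' n ω) (Zk_anti C hh (2 * n) ω)

/-- Jensen: the quenched free energy is at most the annealed one -/
theorem Fq_le_ann (C : Chain) (hμ : ExpMom μ) {β h G : ℝ} (hβ : 0 < β)
    (hG : ∀ n : ℕ, An C (lmg μ β - h) n ≤ Real.exp (2 * G * n)) : Fq C μ β h ≤ G := by
  refine le_of_tendsto (tendsto_Fq C hμ hβ h) ?_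
  filter_upwards [eventually_gt_atTop 0] with n hn
  have h1 := Ps_le_log C hμ β h n
  have h2 := Real.log_le_log (An_pos C _ n) (hG n)
  rw [Real.log_exp] at h2
  rw [div_le_iff₀ (by positivity)]
  push_cast
  linarith

theorem Fq_nonneg {C : Chain} (hnl : ∀ x, C.p x x = 0) {α : ℝ} (hK : Ker (Kp C) (Km C) α)
    (hμ : ExpMom μ) (hmean : ∫ x, x ∂μ = 0) {β : ℝ} (hβ : 0 < β) (h : ℝ) : 0 ≤ Fq C μ β h := by
  obtain ⟨c, hc, hlow⟩ := hK.low 1 one_pos
  set e : ℝ := 1 + α + 1 with he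
  have hcoord : ∀ i : ℕ, ∫ ω : ℕ → ℝ, ω i ∂seqLaw μ = 0 := fun i => by
    rw [MP_daa227_pr.integral_apply μ i (Y := fun x => x) measurable_id]
    exact hmean
  -- lower bound for the quenched averages
  have hPs : ∀ n : ℕ, 1 ≤ n → Real.log c - e * Real.log n - h ≤ Ps C μ β h (2 * n) := by
    intro n hn
    have hn0 : (0 : ℝ) < n := by exact_mod_cast hn
    have hKp := StratC.Kp_pos C hn
    have h1 : ∀ ω : ℕ → ℝ, (Real.log (Kp C n) - h) + β * ω (2 * n - 1) ≤
        Real.log (Zk C (Wc β h) (2 * n) ω 0 0) := by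
      intro ω
      have h2 := StratC.exc_le C hnl β h hn 0 ω
      have h3 : Zk C (Wc β h) (2 * 0) (shift (2 * n) ω) 0 0 = 1 := by simp [Zk]
      rw [h3, mul_one, add_zero] at h2
      have h4 := Real.log_le_log (mul_pos hKp (Real.exp_pos _)) h2
      rw [Real.log_mul hKp.ne' (Real.exp_pos _).ne', Real.log_exp] at h4
      linarith
    have hI1 : Integrable (fun ω : ℕ → ℝ => β * ω (2 * n - 1)) (seqLaw μ) :=
      (StratC.coord_int hμ _).const_mul β
    have h2 : ∫ ω : ℕ → ℝ, ((Real.log (Kp C n) - h) + β * ω (2 * n - 1)) ∂seqLaw μ ≤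
        Ps C μ β h (2 * n) :=
      integral_mono ((integrable_const _).add hI1) (int_log C hμ β h n) h1
    rw [integral_add (integrable_const _) hI1, integral_const, probReal_univ, one_smul,
      integral_const_mul, hcoord, mul_zero, add_zero] at h2
    have h3 := Real.log_le_log (mul_pos hc (Real.rpow_pos_of_pos hn0 _)) (hlow n hn)
    rw [Real.log_mul hc.ne' (Real.rpow_pos_of_pos hn0 _).ne', Real.log_rpow hn0] at h3
    have h4 : -(1 + α + 1) * Real.log n = -(e * Real.log n) := by rw [he]; ring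
    rw [h4] at h3
    linarith
  -- the limit
  have hl : Tendsto (fun n : ℕ => (Real.log c - e * Real.log n - h) / ((2 * n : ℕ) : ℝ)) atTop
      (𝓝 0) := by
    have h1 : Tendsto (fun n : ℕ => Real.log (n : ℝ) / (n : ℝ)) atTop (𝓝 0) := by
      have h2 := Real.isLittleO_log_id_atTop.tendsto_div_nhds_zero
      exact h2.comp tendsto_natCast_atTop_atTop
    have h2 : Tendsto (fun n : ℕ => (Real.log c - h) / (n : ℝ)) atTop (𝓝 0) :=
      tendsto_const_nhds.div_atTop tendsto_natCast_atTop_atTop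
    have h3 := ((h2.sub (h1.const_mul e)).div_const 2)
    rw [mul_zero, sub_zero, zero_div] at h3
    refine h3.congr' ?_
    filter_upwards [eventually_gt_atTop 0] with n hn
    have hn0 : (0 : ℝ) < n := by exact_mod_cast hn
    push_cast
    field_simp
    ring
  refine le_of_tendsto_of_tendsto hl (tendsto_Fq C hμ hβ h) ?_
  filter_upwards [eventually_ge_atTop 1] with n hn
  exact div_le_div_of_nonneg_right (hPs n hn) (by positivity)

theorem Fq_crit {C : Chain} (hnl : ∀ x, C.p x x = 0) {α : ℝ} (hK : Ker (Kp C) (Km C) α)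
    (hμ : ExpMom μ) {β h : ℝ} (hβ : 0 < β) (hh : lmg μ β ≤ h) : Fq C μ β h ≤ 0 := by
  refine Fq_le_ann C hμ hβ fun n => ?_
  have h1 := An_le_exp C (lmg μ β - h) n
  rw [max_eq_right (by linarith : lmg μ β - h ≤ 0)] at h1
  exact h1

theorem Fq_le_root {C : Chain} (hnl : ∀ x, C.p x x = 0) {α : ℝ} (hK : Ker (Kp C) (Km C) α)
    (hμ : ExpMom μ) {β u F : ℝ} (hβ : 0 < β) (hR : Root (Kp C) (Km C) u F) :
    Fq C μ β (lmg μ β - u) ≤ F := by
  refine Fq_le_ann C hμ hβ fun n => ?_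
  have h1 := bn_le_one hK hR (An_ren C hnl u) n
  rw [show lmg μ β - (lmg μ β - u) = u by ring]
  have h2 : Real.exp (-(2 * F * n)) * Real.exp (2 * F * n) = 1 := by
    rw [← Real.exp_add]
    simp
  calc An C u n = (An C u n * Real.exp (-(2 * F * n))) * Real.exp (2 * F * n) := by
        rw [mul_assoc, h2, mul_one]
    _ ≤ 1 * Real.exp (2 * F * n) := mul_le_mul_of_nonneg_right h1 (Real.exp_pos _).le
    _ = _ := one_mul _

end

end Pool.Agent.AS
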