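import Pool.Agent.Lib.MP_daa227_pr_AS.FqB
import Pool.Agent.Lib.MP_daa227_pr_AZ.FreePin
import Pool.Agent.Lib.MP_daa227_pr.Limit

/-!
# PROJECT AS, module R6: the free partition function has the same free energy
-/

namespace Pool.Agent.AS

open MeasureTheory ProbabilityTheory Set Filter
open scoped ENNReal Topology
open MP_daa227_pr (Chain Zk Zf Gk Gf KU K0 ushift shift seqLaw ExpMom Good GoodW mom DepOn)
open Pool.Agent.AZ (Kv Zd Zfd cneg lmg)
open Pool.Agent.OT (phi Wc Kp Km)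

noncomputable section

namespace FreeQ

theorem phi_nonneg (z : ℤ) : 0 ≤ phi z := by
  unfold phi; split_ifs <;> norm_num

theorem phi_le (z : ℤ) : phi z ≤ 1 := by
  unfold phi; split_ifs <;> norm_num

theorem Wc_pos (β h a : ℝ) (z : ℤ) : 0 < Wc β h a z := Real.exp_pos _

theorem goodW {β : ℝ} (hβ : 0 < β) (h : ℝ) : GoodW β (Wc β h) := by
  refine ⟨fun z => ?_, fun a z => Real.exp_pos _, fun a b z => ?_⟩
  · unfold Wc; fun_prop
  · unfold Wc
    rw [← Real.exp_add]
    apply Real.exp_le_exp.2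
    have h1 : β * (a - b) * phi z ≤ β * |a - b| := by
      calc β * (a - b) * phi z ≤ β * |a - b| * phi z := by
            apply mul_le_mul_of_nonneg_right _ (phi_nonneg z)
            exact mul_le_mul_of_nonneg_left (le_abs_self _) hβ.le
        _ ≤ β * |a - b| * 1 :=
            mul_le_mul_of_nonneg_left (phi_le z) (mul_nonneg hβ.le (abs_nonneg _))
        _ = _ := by ring
    nlinarith

variable {μ : Measure ℝ} [IsProbabilityMeasure μ]

theorem int_Zf (C : Chain) (hμ : ExpMom μ) {β : ℝ} (hβ : 0 < β) (h : ℝ) (N : ℕ) :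
    Integrable (fun ω => Real.log (Zf C (Wc β h) N ω 0)) (seqLaw μ) :=
  (MP_daa227_pr.good_Zf C hβ.le (goodW hβ h) N 0).integrable_log hμ
    (fun ω => MP_daa227_pr.Zf_pos C (Wc_pos β h) N ω 0)

theorem Zk_pos (C : Chain) (β h : ℝ) (m : ℕ) (ω : ℕ → ℝ) : 0 < Zk C (Wc β h) (2 * m) ω 0 0 :=
  MP_daa227_pr.Zk_even_pos C (Wc_pos β h) 0 m ω

theorem int_Zk (C : Chain) (hμ : ExpMom μ) {β : ℝ} (hβ : 0 < β) (h : ℝ) (m : ℕ) :
    Integrable (fun ω => Real.log (Zk C (Wc β h) (2 * m) ω 0 0)) (seqLaw μ) :=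
  (MP_daa227_pr.good_Zk C hβ.le (goodW hβ h) (2 * m) 0 0).integrable_log hμ
    (fun ω => Zk_pos C β h m ω)

theorem Zf_one_ge (C : Chain) (β h : ℝ) (ω : ℕ → ℝ) : C.p 0 1 ≤ Zf C (Wc β h) 1 ω 0 := by
  have h1 : Zf C (Wc β h) 1 ω 0 =
      ∑ z ∈ Finset.Icc ((0 : ℤ) - 1) (0 + 1), C.p 0 z * Wc β h (ω 0) z * 1 := rfl
  rw [h1]
  have h2 := Finset.single_le_sum (f := fun z : ℤ => C.p 0 z * Wc β h (ω 0) z * 1)
    (fun z _ => mul_nonneg (mul_nonneg (C.nonneg _ _) (Wc_pos β h _ _).le) zero_le_one)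
    (show (1 : ℤ) ∈ Finset.Icc ((0 : ℤ) - 1) (0 + 1) by simp)
  have h3 : Wc β h (ω 0) 1 = 1 := by simp [Wc, phi]
  simp only [h3, mul_one] at h2
  simpa using h2

theorem low (C : Chain) (hμ : ExpMom μ) {β : ℝ} (hβ : 0 < β) (h : ℝ) (N : ℕ) :
    Ps C μ β h (2 * (N / 2)) + min 0 (Real.log (C.p 0 1)) ≤
      ∫ ω, Real.log (Zf C (Wc β h) N ω 0) ∂seqLaw μ := by
  set m := N / 2 with hm
  unfold Ps
  have hi : Integrable (fun ω => Real.log (Zk C (Wc β h) (2 * m) ω 0 0) +
      min 0 (Real.log (C.p 0 1))) (seqLaw μ) := (int_Zk C hμ hβ h m).add (integrable_const _)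
  have h0 : ∫ ω, (Real.log (Zk C (Wc β h) (2 * m) ω 0 0) + min 0 (Real.log (C.p 0 1)))
      ∂seqLaw μ = ∫ ω, Real.log (Zk C (Wc β h) (2 * m) ω 0 0) ∂seqLaw μ +
        min 0 (Real.log (C.p 0 1)) := by
    rw [integral_add (int_Zk C hμ hβ h m) (integrable_const _)]
    simp
  rw [← h0]
  apply integral_mono hi (int_Zf C hμ hβ h N)
  intro ω
  have hk := Zk_pos C β h m ω
  rcases Nat.even_or_odd' N with ⟨k, hk1 | hk1⟩
  · have e : N = 2 * m + 0 := by omega
    have h1 := MP_daa227_pr.Zk_mul_Zf_le C (Wc β h) (fun a z => (Wc_pos β h a z).le) (2 * m) 0 ω 0 0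
    rw [← e] at h1
    have h2 : Zf C (Wc β h) 0 (shift (2 * m) ω) 0 = 1 := rfl
    rw [h2, mul_one] at h1
    have h3 := Real.log_le_log hk h1
    simp only
    linarith [min_le_left 0 (Real.log (C.p 0 1))]
  · have e : N = 2 * m + 1 := by omega
    have h1 := MP_daa227_pr.Zk_mul_Zf_le C (Wc β h) (fun a z => (Wc_pos β h a z).le) (2 * m) 1 ω 0 0
    rw [← e] at h1
    have hp : 0 < C.p 0 1 := by simpa using C.up 0
    have h2 := Zf_one_ge C β h (shift (2 * m) ω)
    have h3 : Zk C (Wc β h) (2 * m) ω 0 0 * C.p 0 1 ≤ Zf C (Wc β h) N ω 0 :=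
      (mul_le_mul_of_nonneg_left h2 hk.le).trans h1
    have h4 := Real.log_le_log (mul_pos hk hp) h3
    rw [Real.log_mul hk.ne' hp.ne'] at h4
    simp only
    linarith [min_le_right 0 (Real.log (C.p 0 1))]

theorem int_D (hμ : ExpMom μ) (β h : ℝ) : Integrable (fun a : ℝ => |β * a - h|) μ := by
  have h1 : Integrable (fun a : ℝ => Real.exp (1 * a) + Real.exp (-1 * a)) μ := (hμ 1).add (hμ (-1))
  have h2 : Integrable (fun a : ℝ => a) μ := by
    refine h1.mono' measurable_id.aestronglyMeasurable (Filter.Eventually.of_forall fun a => ?_)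
    rw [Real.norm_eq_abs]
    rcases abs_cases a with ⟨e, _⟩ | ⟨e, _⟩
    · rw [e]
      have := Real.add_one_le_exp (1 * a)
      have h3 := Real.exp_pos (-1 * a)
      linarith
    · rw [e]
      have := Real.add_one_le_exp (-1 * a)
      have h3 := Real.exp_pos (1 * a)
      linarith
  exact ((h2.const_mul β).sub (integrable_const h)).abs

theorem up (C : Chain) (hnl : ∀ x, C.p x x = 0) (hrec : HasSum (fun n : ℕ => K0 C (n + 1) 0) 1)
    (hμ : ExpMom μ) {β : ℝ} (hβ : 0 < β) (h : ℝ) {ε : ℝ} (hε : 0 < ε) :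
    ∃ A : ℝ, ∃ s : ℕ, ∀ N : ℕ, ∫ ω, Real.log (Zf C (Wc β h) N ω 0) ∂seqLaw μ ≤
      A + Real.log ((N : ℝ) + 1) + ε * N + Ps C μ β h (2 * ((N + s + (N + s) % 2) / 2)) := by
  obtain ⟨K, hK, s, hpin⟩ := Pool.Agent.AZ.free_pinned C hnl hrec 0 hε
  set cD : ℝ := ∫ a, |β * a - h| ∂μ with hcD
  have hcD0 : 0 ≤ cD := integral_nonneg fun a => abs_nonneg _
  refine ⟨Real.log K + (s + 1) * cD, s, fun N => ?_⟩
  set m := (N + s + (N + s) % 2) / 2 with hm
  have e2 : N + s + (N + s) % 2 = 2 * m := by omega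
  have hpt : ∀ ω : ℕ → ℝ, Real.log (Zf C (Wc β h) N ω 0) ≤
      Real.log K + Real.log ((N : ℝ) + 1) + ε * N +
        ∑ i ∈ Finset.Ico N (2 * m), |β * ω i - h| + Real.log (Zk C (Wc β h) (2 * m) ω 0 0) := by
    intro ω
    have h1 := hpin (Wc β h) (fun _ => 1) (fun a => Real.exp (β * a - h)) (fun _ => 0)
      (fun a => |β * a - h|) (fun a z => Wc_pos β h a z) (fun _ => one_pos)
      (fun a => Real.exp_pos _) (fun _ => le_rfl) (fun a => abs_nonneg _)
      (fun a z hz => by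
        have hz' : ¬ z ≤ 0 := by simpa using hz
        have : Wc β h a z = 1 := by simp [Wc, phi, hz']
        rw [this]; simp)
      (fun a z hz => by
        have hz' : z ≤ 0 := by
          have : z < 0 := by simpa using hz
          omega
        have : Wc β h a z = Real.exp (β * a - h) := by simp [Wc, phi, hz']
        rw [this]; simp)
      (fun a z => by
        unfold Wc
        apply Real.exp_le_exp.2
        have h2 := phi_nonneg z
        have h3 := phi_le z
        have h4 := neg_abs_le (β * a - h)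
        have h5 := abs_nonneg (β * a - h)
        nlinarith [mul_le_mul_of_nonneg_right h4 h2])
      N ω
    rw [e2] at h1
    simp only [Finset.sum_const_zero, mul_zero, add_zero] at h1
    have hk := Zk_pos C β h m ω
    have hz := MP_daa227_pr.Zf_pos C (Wc_pos β h) N ω 0
    have hN : (0 : ℝ) < (N : ℝ) + 1 := by positivity
    have h2 := Real.log_le_log hz h1
    rw [Real.log_mul (by positivity) hk.ne', Real.log_mul (by positivity) (Real.exp_pos _).ne',
      Real.log_mul hK.ne' hN.ne', Real.log_exp] at h2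
    linarith
  have hiD : ∀ i, Integrable (fun ω : ℕ → ℝ => |β * ω i - h|) (seqLaw μ) := fun i =>
    MP_daa227_pr.integrable_apply μ i (Y := fun a => |β * a - h|) (by fun_prop) (int_D hμ β h)
  have hiS : Integrable (fun ω : ℕ → ℝ => ∑ i ∈ Finset.Ico N (2 * m), |β * ω i - h|)
      (seqLaw μ) := integrable_finsetSum _ fun i _ => hiD i
  have hiZ := int_Zk C hμ hβ h m
  have h3 := integral_mono (int_Zf C hμ hβ h N)
    (((integrable_const (Real.log K + Real.log ((N : ℝ) + 1) + ε * N)).add hiS).add hiZ) hpt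
  refine h3.trans ?_
  have e3 : ∫ ω, (((fun _ : ℕ → ℝ => Real.log K + Real.log ((N : ℝ) + 1) + ε * N) +
      fun ω : ℕ → ℝ => ∑ i ∈ Finset.Ico N (2 * m), |β * ω i - h|) +
      fun ω : ℕ → ℝ => Real.log (Zk C (Wc β h) (2 * m) ω 0 0)) ω ∂seqLaw μ =
      Real.log K + Real.log ((N : ℝ) + 1) + ε * N + ((Finset.Ico N (2 * m)).card : ℝ) * cD +
        Ps C μ β h (2 * m) := by
    rw [integral_add' ((integrable_const _).add hiS) hiZ, integral_add' (integrable_const _) hiS,
      integral_finsetSum _ fun i _ => hiD i]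
    have e4 : ∀ i ∈ Finset.Ico N (2 * m), ∫ ω : ℕ → ℝ, |β * ω i - h| ∂seqLaw μ = cD := fun i _ =>
      MP_daa227_pr.integral_apply μ i (Y := fun a => |β * a - h|) (by fun_prop)
    rw [Finset.sum_congr rfl e4, Finset.sum_const, nsmul_eq_mul]
    simp [Ps]
  rw [e3]
  have hc : ((Finset.Ico N (2 * m)).card : ℝ) ≤ (s : ℝ) + 1 := by
    rw [Nat.card_Ico]
    have : 2 * m - N ≤ s + 1 := by omega
    exact_mod_cast this
  have := mul_le_mul_of_nonneg_right hc hcD0
  linarith

/-- ratio of close indices -/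
theorem tendsto_ratio {F : ℝ} {P : ℕ → ℝ} (hP : Tendsto (fun n : ℕ => P (2 * n) / ((2 * n : ℕ) : ℝ))
    atTop (𝓝 F)) {g : ℕ → ℕ} {c : ℝ} (hg : ∀ N : ℕ, |((2 * g N : ℕ) : ℝ) - N| ≤ c) :
    Tendsto (fun N : ℕ => P (2 * g N) / N) atTop (𝓝 F) := by
  have hg2 : Tendsto g atTop atTop := by
    refine tendsto_atTop.2 fun b => ?_
    filter_upwards [eventually_ge_atTop (2 * b + ⌈c⌉₊)] with N hN
    have h1 := (abs_le.1 (hg N)).1
    have h2 := Nat.le_ceil c
    have h3 : ((2 * b + ⌈c⌉₊ : ℕ) : ℝ) ≤ N := by exact_mod_cast hN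
    push_cast at h1 h3
    have h4 : (b : ℝ) ≤ g N := by linarith
    exact_mod_cast h4
  have h1 := hP.comp hg2
  have h2 : Tendsto (fun N : ℕ => ((2 * g N : ℕ) : ℝ) / N) atTop (𝓝 1) := by
    have h3 : Tendsto (fun N : ℕ => (((2 * g N : ℕ) : ℝ) - N) / N) atTop (𝓝 0) := by
      refine squeeze_zero_norm (a := fun N : ℕ => c / N) (fun N => ?_)
        (tendsto_const_div_atTop_nhds_zero_nat c)
      rw [norm_div, Real.norm_eq_abs, Real.norm_natCast]
      exact div_le_div_of_nonneg_right (hg N) (Nat.cast_nonneg _)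
    have h4 := h3.add_const 1
    rw [zero_add] at h4
    refine h4.congr' ?_
    filter_upwards [eventually_ge_atTop 1] with N hN
    have : (N : ℝ) ≠ 0 := by positivity
    field_simp
    ring
  have h5 := h1.mul h2
  rw [mul_one] at h5
  refine h5.congr' ?_
  filter_upwards [hg2.eventually_ge_atTop 1] with N hN
  have : ((2 * g N : ℕ) : ℝ) ≠ 0 := by positivity
  simp only [Function.comp]
  field_simp

theorem tendsto_log_div : Tendsto (fun N : ℕ => Real.log ((N : ℝ) + 1) / N) atTop (𝓝 0) := by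
  have h1 : Tendsto (fun x : ℝ => Real.log x / x) atTop (𝓝 0) :=
    Real.isLittleO_log_id_atTop.tendsto_div_nhds_zero
  have h2 : Tendsto (fun N : ℕ => (N : ℝ) + 1) atTop atTop :=
    tendsto_atTop_add_const_right _ _ tendsto_natCast_atTop_atTop
  have h3 := h1.comp h2
  have h4 : Tendsto (fun N : ℕ => ((N : ℝ) + 1) / N) atTop (𝓝 1) := by
    have h5 := (tendsto_const_div_atTop_nhds_zero_nat (1 : ℝ)).const_add 1
    rw [add_zero] at h5
    refine h5.congr' ?_
    filter_upwards [eventually_ge_atTop 1] with N hN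
    have : (N : ℝ) ≠ 0 := by positivity
    field_simp
  have h6 := h3.mul h4
  rw [zero_mul] at h6
  refine h6.congr' ?_
  filter_upwards [eventually_ge_atTop 1] with N hN
  have : (N : ℝ) ≠ 0 := by positivity
  have h7 : (N : ℝ) + 1 ≠ 0 := by positivity
  simp only [Function.comp]
  field_simp

end FreeQ

section rand

variable {μ : Measure ℝ} [IsProbabilityMeasure μ]

open FreeQ in
theorem free_lim {C : Chain} (hnl : ∀ x, C.p x x = 0) (hrec : HasSum (fun n : ℕ => K0 C (n + 1) 0) 1)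
    (hμ : ExpMom μ) {β : ℝ} (hβ : 0 < β) (h : ℝ) (h0 : 0 ≤ Fq C μ β h) :
    Tendsto (fun N : ℕ => (∫ ω, Real.log (Zf C (Wc β h) N ω 0) ∂seqLaw μ) / N) atTop
      (𝓝 (Fq C μ β h)) := by
  have _ := h0
  set F := Fq C μ β h with hF
  have hT := tendsto_Fq C hμ hβ h
  -- lower bound
  have hL : Tendsto (fun N : ℕ => Ps C μ β h (2 * (N / 2)) / N +
      min 0 (Real.log (C.p 0 1)) / N) atTop (𝓝 F) := by
    have h1 := tendsto_ratio (P := Ps C μ β h) hT (g := fun N => N / 2) (c := 1) (fun N => by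
      have h2 : 2 * (N / 2) ≤ N := by omega
      have h3 : N ≤ 2 * (N / 2) + 1 := by omega
      have h2' : ((2 * (N / 2) : ℕ) : ℝ) ≤ N := by exact_mod_cast h2
      have h3' : (N : ℝ) ≤ ((2 * (N / 2) : ℕ) : ℝ) + 1 := by exact_mod_cast h3
      rw [abs_le]
      constructor <;> linarith)
    have h4 := h1.add (tendsto_const_div_atTop_nhds_zero_nat (min 0 (Real.log (C.p 0 1))))
    rwa [add_zero] at h4
  rw [Metric.tendsto_nhds]
  intro δ hδ
  obtain ⟨A, s, hA⟩ := up C hnl hrec hμ hβ h (ε := δ / 2) (by positivity)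
  have hU : Tendsto (fun N : ℕ => A / N + Real.log ((N : ℝ) + 1) / N + δ / 2 +
      Ps C μ β h (2 * ((N + s + (N + s) % 2) / 2)) / N) atTop (𝓝 (F + δ / 2)) := by
    have h1 := tendsto_ratio (P := Ps C μ β h) hT (g := fun N => (N + s + (N + s) % 2) / 2)
      (c := s + 1) (fun N => by
      have h2 : 2 * ((N + s + (N + s) % 2) / 2) ≤ N + s + 1 := by omega
      have h3 : N ≤ 2 * ((N + s + (N + s) % 2) / 2) := by omega
      have h2' : ((2 * ((N + s + (N + s) % 2) / 2) : ℕ) : ℝ) ≤ N + s + 1 := by exact_mod_cast h2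
      have h3' : (N : ℝ) ≤ ((2 * ((N + s + (N + s) % 2) / 2) : ℕ) : ℝ) := by exact_mod_cast h3
      rw [abs_le]
      have : (0 : ℝ) ≤ s := Nat.cast_nonneg _
      constructor <;> linarith)
    have h4 := (((tendsto_const_div_atTop_nhds_zero_nat A).add tendsto_log_div).add_const
      (δ / 2)).add h1
    have e : (0 : ℝ) + 0 + δ / 2 + F = F + δ / 2 := by ring
    rwa [e] at h4
  filter_upwards [hL.eventually (lt_mem_nhds (show F - δ < F by linarith)),
    hU.eventually (gt_mem_nhds (show F + δ / 2 < F + δ by linarith)),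
    eventually_ge_atTop 1] with N h1 h2 hN
  have hN' : (0 : ℝ) < N := by exact_mod_cast hN
  have h3 := low C hμ hβ h N
  have h4 := hA N
  rw [Real.dist_eq, abs_lt]
  constructor
  · have h5 : Ps C μ β h (2 * (N / 2)) / N + min 0 (Real.log (C.p 0 1)) / N ≤
        (∫ ω, Real.log (Zf C (Wc β h) N ω 0) ∂seqLaw μ) / N := by
      rw [← add_div]
      exact div_le_div_of_nonneg_right h3 hN'.le
    linarith
  · have h5 : (∫ ω, Real.log (Zf C (Wc β h) N ω 0) ∂seqLaw μ) / N ≤
        A / N + Real.log ((N : ℝ) + 1) / N + δ / 2 +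
          Ps C μ β h (2 * ((N + s + (N + s) % 2) / 2)) / N := by
      have h6 := div_le_div_of_nonneg_right h4 hN'.le
      refine h6.trans (le_of_eq ?_)
      field_simp
    linarith

end rand

end

end Pool.Agent.AS
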