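import Pool.Agent.Lib.MP_daa227_pr_AS.Chn
import Pool.Agent.Lib.MP_daa227_pr_OT.KZ
import Pool.Agent.Lib.MP_daa227_pr.ExcLem

/-!
# The left side of the explicit chain: a biased walk
-/

namespace Pool.Agent.AS

open MP_daa227_pr (Chain K0)
open Pool.Agent.OT (Kp Km)
open Finset (range)
open Filter
open scoped Topology

noncomputable section

theorem left_step_one {α : ℝ} (hα : 0 < α) (n : ℕ) : K0 (chE hα) (n + 1) (-1) =
    (if n = 0 then 2 / 3 else 0) + 1 / 3 * K0 (chE hα) n (-2) := by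
  rw [K0]
  have h2 : (Finset.Icc ((-1 : ℤ) - 1) (-1 + 1) \ {0}) = {-2, -1} := by decide
  have h3 := chE_left_up hα (x := -1) (by norm_num)
  have h4 := chE_left_down hα (x := -1) (by norm_num)
  norm_num at h3 h4
  rw [h2, Finset.sum_pair (by decide), chE_nl, zero_mul, add_zero, h4, h3]

theorem left_step {α : ℝ} (hα : 0 < α) (n m : ℕ) : K0 (chE hα) (n + 1) (-((m : ℤ) + 2)) =
    2 / 3 * K0 (chE hα) n (-((m : ℤ) + 1)) + 1 / 3 * K0 (chE hα) n (-((m : ℤ) + 3)) := by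
  rw [K0]
  have h1 : (if n = 0 then (chE hα).p (-((m : ℤ) + 2)) 0 else 0) = 0 := by
    split_ifs
    · apply (chE hα).near
      rw [Finset.mem_Icc]
      omega
    · rfl
  have h2 : (Finset.Icc (-((m : ℤ) + 2) - 1) (-((m : ℤ) + 2) + 1) \ {0}) =
      Finset.Icc (-((m : ℤ) + 2) - 1) (-((m : ℤ) + 2) + 1) := by
    rw [Finset.sdiff_eq_self_iff_disjoint, Finset.disjoint_singleton_right, Finset.mem_Icc]
    omega
  rw [h1, zero_add, h2, Pool.Agent.AZ.sum_nb, chE_nl, zero_mul, add_zero,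
    chE_left_up hα (by omega), chE_left_down hα (by omega),
    show -((m : ℤ) + 2) - 1 = -((m : ℤ) + 3) by ring,
    show -((m : ℤ) + 2) + 1 = -((m : ℤ) + 1) by ring]
  ring

theorem left_bound {α : ℝ} (hα : 0 < α) : ∀ n m : ℕ, K0 (chE hα) n (-((m : ℤ) + 1)) ≤
    (17 / 18 : ℝ) ^ n * (4 / 3 : ℝ) ^ (m + 1) := by
  intro n
  induction n with
  | zero =>
    intro m
    rw [K0]
    positivity
  | succ n ih =>
    intro m
    rcases Nat.eq_zero_or_pos m with hm | hm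
    · subst hm
      rw [show -(((0 : ℕ) : ℤ) + 1) = -1 by norm_num, left_step_one]
      have h1 := ih 1
      rw [show -(((1 : ℕ) : ℤ) + 1) = -2 by norm_num] at h1
      have h2 : (0 : ℝ) < (17 / 18 : ℝ) ^ n := by positivity
      rcases Nat.eq_zero_or_pos n with hn | hn
      · subst hn
        rw [if_pos rfl, K0]
        norm_num
      · rw [if_neg (by omega), zero_add, pow_succ]
        norm_num at h1 ⊢
        nlinarith
    · obtain ⟨l, rfl⟩ : ∃ l, m = l + 1 := ⟨m - 1, by omega⟩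
      rw [show -(((l + 1 : ℕ) : ℤ) + 1) = -((l : ℤ) + 2) by push_cast; ring, left_step]
      have h1 := ih l
      have h2 := ih (l + 2)
      rw [show -(((l + 2 : ℕ) : ℤ) + 1) = -((l : ℤ) + 3) by push_cast; ring] at h2
      have h3 : (17 / 18 : ℝ) ^ (n + 1) * (4 / 3 : ℝ) ^ (l + 1 + 1) =
          2 / 3 * ((17 / 18 : ℝ) ^ n * (4 / 3 : ℝ) ^ (l + 1)) +
            1 / 3 * ((17 / 18 : ℝ) ^ n * (4 / 3 : ℝ) ^ (l + 2 + 1)) := by
        rw [pow_succ, pow_succ (4 / 3 : ℝ) (l + 1), show l + 2 + 1 = l + 1 + 1 + 1 from rfl,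
          pow_succ (4 / 3 : ℝ) (l + 1 + 1), pow_succ (4 / 3 : ℝ) (l + 1)]
        ring
      rw [h3]
      linarith

theorem left_exp {α : ℝ} (hα : 0 < α) : ∃ c₀ M : ℝ, 0 < c₀ ∧ 0 < M ∧
    ∀ k : ℕ, Km (chE hα) k ≤ M * Real.exp (-(c₀ * k)) := by
  refine ⟨-Real.log (17 / 18), 1, ?_, one_pos, ?_⟩
  · rw [neg_pos]
    exact Real.log_neg (by norm_num) (by norm_num)
  · intro k
    have h1 : Real.exp (-(-Real.log (17 / 18) * k)) = (17 / 18 : ℝ) ^ k := by
      rw [neg_mul, neg_neg, mul_comm, ← Real.log_pow, Real.exp_log (by positivity)]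
    rw [h1, one_mul]
    unfold Km
    rw [chE_zero_down]
    have h2 := left_bound hα (2 * k - 1) 0
    rw [show -(((0 : ℕ) : ℤ) + 1) = -1 by norm_num] at h2
    have h3 : (17 / 18 : ℝ) ^ (2 * k - 1) ≤ (17 / 18 : ℝ) ^ k ∨ k = 0 := by
      rcases Nat.eq_zero_or_pos k with hk | hk
      · exact Or.inr hk
      · left
        exact pow_le_pow_of_le_one (by norm_num) (by norm_num) (by omega)
    rcases h3 with h3 | h3
    · norm_num at h2
      have h4 : (0 : ℝ) < (17 / 18 : ℝ) ^ k := by positivity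
      nlinarith
    · subst h3
      simp [K0]

/-- the probability that `0` has not been visited up to time `n` -/
def tb (C : Chain) (n : ℕ) (x : ℤ) : ℝ := 1 - ∑ t ∈ range n, K0 C (t + 1) x

theorem sum_K0_shift (C : Chain) (n : ℕ) (x : ℤ) :
    ∑ t ∈ range (n + 1), K0 C t x = 1 - tb C n x := by
  rw [Finset.sum_range_succ', K0, tb]
  ring

theorem tb_one {α : ℝ} (hα : 0 < α) (n : ℕ) :
    tb (chE hα) (n + 1) (-1) = 1 / 3 * tb (chE hα) n (-2) := by
  have h1 : ∑ t ∈ range (n + 1), K0 (chE hα) (t + 1) (-1) =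
      2 / 3 + 1 / 3 * (1 - tb (chE hα) n (-2)) := by
    rw [← sum_K0_shift, Finset.mul_sum, Finset.sum_congr rfl fun t _ => left_step_one hα t,
      Finset.sum_add_distrib]
    congr 1
    rw [Finset.sum_ite_eq' (range (n + 1)) 0 (fun _ => (2 / 3 : ℝ)), if_pos (by simp)]
  rw [tb, h1]
  ring

theorem tb_succ {α : ℝ} (hα : 0 < α) (n m : ℕ) :
    tb (chE hα) (n + 1) (-((m : ℤ) + 2)) =
      2 / 3 * tb (chE hα) n (-((m : ℤ) + 1)) + 1 / 3 * tb (chE hα) n (-((m : ℤ) + 3)) := by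
  have h1 : ∑ t ∈ range (n + 1), K0 (chE hα) (t + 1) (-((m : ℤ) + 2)) =
      2 / 3 * (1 - tb (chE hα) n (-((m : ℤ) + 1))) +
        1 / 3 * (1 - tb (chE hα) n (-((m : ℤ) + 3))) := by
    rw [← sum_K0_shift, ← sum_K0_shift, Finset.mul_sum, Finset.mul_sum,
      Finset.sum_congr rfl fun t _ => left_step hα t m, Finset.sum_add_distrib]
  rw [tb, h1]
  ring

theorem tb_bound {α : ℝ} (hα : 0 < α) : ∀ n m : ℕ, 0 ≤ tb (chE hα) n (-((m : ℤ) + 1)) ∧
    tb (chE hα) n (-((m : ℤ) + 1)) ≤ (17 / 18 : ℝ) ^ n * (4 / 3 : ℝ) ^ (m + 1) := by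
  intro n
  induction n with
  | zero =>
    intro m
    have h1 : (1 : ℝ) ≤ (4 / 3 : ℝ) ^ (m + 1) := one_le_pow₀ (by norm_num)
    simp only [tb, Finset.range_zero, Finset.sum_empty, sub_zero, pow_zero, one_mul]
    exact ⟨zero_le_one, h1⟩
  | succ n ih =>
    intro m
    rcases Nat.eq_zero_or_pos m with hm | hm
    · subst hm
      rw [show -(((0 : ℕ) : ℤ) + 1) = -1 by norm_num, tb_one]
      have h1 := ih 1
      rw [show -(((1 : ℕ) : ℤ) + 1) = -2 by norm_num] at h1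
      have h2 : (0 : ℝ) < (17 / 18 : ℝ) ^ n := by positivity
      obtain ⟨h3, h4⟩ := h1
      refine ⟨by linarith, ?_⟩
      rw [pow_succ]
      norm_num at h4 ⊢
      nlinarith
    · obtain ⟨l, rfl⟩ : ∃ l, m = l + 1 := ⟨m - 1, by omega⟩
      rw [show -(((l + 1 : ℕ) : ℤ) + 1) = -((l : ℤ) + 2) by push_cast; ring, tb_succ]
      obtain ⟨h1, h1'⟩ := ih l
      obtain ⟨h2, h2'⟩ := ih (l + 2)
      rw [show -(((l + 2 : ℕ) : ℤ) + 1) = -((l : ℤ) + 3) by push_cast; ring] at h2 h2'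
      have h3 : (17 / 18 : ℝ) ^ (n + 1) * (4 / 3 : ℝ) ^ (l + 1 + 1) =
          2 / 3 * ((17 / 18 : ℝ) ^ n * (4 / 3 : ℝ) ^ (l + 1)) +
            1 / 3 * ((17 / 18 : ℝ) ^ n * (4 / 3 : ℝ) ^ (l + 2 + 1)) := by
        rw [pow_succ, pow_succ (4 / 3 : ℝ) (l + 1), show l + 2 + 1 = l + 1 + 1 + 1 from rfl,
          pow_succ (4 / 3 : ℝ) (l + 1 + 1), pow_succ (4 / 3 : ℝ) (l + 1)]
        ring
      refine ⟨by linarith, ?_⟩
      rw [h3]
      linarith

theorem left_sum {α : ℝ} (hα : 0 < α) :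
    HasSum (fun k : ℕ => K0 (chE hα) (2 * k + 1) (-1)) 1 := by
  have h1 : HasSum (fun t : ℕ => K0 (chE hα) (t + 1) (-1)) 1 := by
    rw [hasSum_iff_tendsto_nat_of_nonneg fun t => MP_daa227_pr.K0_nonneg _ _ _]
    have h2 : (fun n : ℕ => ∑ t ∈ range n, K0 (chE hα) (t + 1) (-1)) =
        fun n => 1 - tb (chE hα) n (-1) := by
      funext n
      rw [tb]
      ring
    rw [h2]
    have h3 : Tendsto (fun n : ℕ => tb (chE hα) n (-1)) atTop (𝓝 0) := by
      have h4 : Tendsto (fun n : ℕ => (17 / 18 : ℝ) ^ n * (4 / 3 : ℝ) ^ (0 + 1)) atTop (𝓝 0) := by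
        have h5 := (tendsto_pow_atTop_nhds_zero_of_lt_one (r := (17 / 18 : ℝ)) (by norm_num)
          (by norm_num)).mul_const ((4 / 3 : ℝ) ^ (0 + 1))
        rwa [zero_mul] at h5
      refine squeeze_zero (fun n => ?_) (fun n => ?_) h4
      · have h5 := (tb_bound hα n 0).1
        rwa [show -(((0 : ℕ) : ℤ) + 1) = -1 by norm_num] at h5
      · have h5 := (tb_bound hα n 0).2
        rwa [show -(((0 : ℕ) : ℤ) + 1) = -1 by norm_num] at h5
    have h6 := h3.const_sub (1 : ℝ)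
    rwa [sub_zero] at h6
  have h7 : Function.Injective (fun k : ℕ => 2 * k) := fun a b h => by
    have h' : 2 * a = 2 * b := h
    omega
  have h8 := (h7.hasSum_iff (f := fun t : ℕ => K0 (chE hα) (t + 1) (-1)) (a := 1) (fun t ht => by
    apply Pool.Agent.OT.K2.K0_parity _ (chE_nl hα)
    have h9 : ¬ ∃ k, 2 * k = t := fun ⟨k, hk⟩ => ht ⟨k, hk⟩
    have h10 : t % 2 = 1 := by
      by_contra hc
      exact h9 ⟨t / 2, by omega⟩
    push_cast
    omega)).2 h1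
  exact h8

end

end Pool.Agent.AS
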