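import Pool.Agent.Lib.MP_daa227_pr_AS.Closed
import Pool.Agent.Lib.MP_daa227_pr_AS.Left
import Pool.Agent.Lib.MP_daa227_pr_AS.Asy
import Pool.Agent.Lib.MP_daa227_pr_OT.KConv

/-!
# The kernels of the explicit chain
-/

namespace Pool.Agent.AS

open MeasureTheory ProbabilityTheory Set Filter
open scoped ENNReal Topology
open MP_daa227_pr (Chain Zk Zf Gk Gf KU K0 ushift shift seqLaw ExpMom Good GoodW mom DepOn)
open Pool.Agent.AZ (Kv Zd Zfd cneg lmg)
open Pool.Agent.OT (phi Wc Kp Km)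

noncomputable section

namespace KerE

theorem Kp_closed {α : ℝ} (hα : 0 < α) (j : ℕ) : Kp (chE hα) (j + 1) =
    1 / 2 * (2 * α / (1 + 2 * α) *
      ∏ i ∈ Finset.range j, (((i : ℝ) + 1 / 2) / ((i : ℝ) + α + 3 / 2))) := by
  unfold Kp
  have h1 : 2 * (j + 1) - 1 = 2 * j + 1 := by omega
  rw [chE_zero_up, h1, K0_closed]

theorem Km_closed {α : ℝ} (hα : 0 < α) (j : ℕ) : Km (chE hα) (j + 1) =
    1 / 2 * K0 (chE hα) (2 * j + 1) (-1) := by
  unfold Km
  have h1 : 2 * (j + 1) - 1 = 2 * j + 1 := by omega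
  rw [chE_zero_down, h1]

end KerE

theorem ker_chE {α : ℝ} (h0 : 0 < α) (h1 : α < 1 / 2) : Ker (Kp (chE h0)) (Km (chE h0)) α := by
  have hnl := chE_nl h0
  have ha0 : Kp (chE h0) 0 = 0 := by
    have e : K0 (chE h0) (2 * 0 - 1) 1 = 0 := rfl
    unfold Kp
    rw [e, mul_zero]
  have hb0 : Km (chE h0) 0 = 0 := by
    have e : K0 (chE h0) (2 * 0 - 1) (-1) = 0 := rfl
    unfold Km
    rw [e, mul_zero]
  have hK : 0 < 1 / 2 * (2 * α / (1 + 2 * α)) := by positivity
  obtain ⟨c, c', hc, hc', hasy⟩ := prod_asy h0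
  exact
    { α_pos := h0
      α_lt := h1
      a_zero := ha0
      b_zero := hb0
      a_pos := fun k hk => OT.Kp_pos _ hk
      a_anti := fun k hk => OT.Kp_anti _ hnl hk
      b_nonneg := by
        intro k
        rcases Nat.eq_zero_or_pos k with rfl | hk
        · exact hb0.ge
        · exact (OT.Km_pos _ hk).le
      sum_one := by
        have h2 : HasSum (fun j : ℕ => Kp (chE h0) (j + 1) + Km (chE h0) (j + 1)) 1 := by
          have h3 := ((prod_sum h0).mul_left (1 / 2)).add ((left_sum h0).mul_left (1 / 2))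
          have h4 : (1 / 2 * 1 + 1 / 2 * 1 : ℝ) = 1 := by norm_num
          rw [h4] at h3
          have h5 : (fun j : ℕ => Kp (chE h0) (j + 1) + Km (chE h0) (j + 1)) = fun j : ℕ =>
              1 / 2 * (2 * α / (1 + 2 * α) *
                ∏ i ∈ Finset.range j, (((i : ℝ) + 1 / 2) / ((i : ℝ) + α + 3 / 2))) +
              1 / 2 * K0 (chE h0) (2 * j + 1) (-1) := by
            funext j
            rw [KerE.Kp_closed, KerE.Km_closed]
          rw [h5]
          exact h3
        have h6 := (hasSum_nat_add_iff (f := fun k => Kp (chE h0) k + Km (chE h0) k)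
          (g := 1) 1).1 h2
        simpa [ha0, hb0] using h6
      low := by
        intro ε hε
        refine ⟨1 / 2 * (2 * α / (1 + 2 * α)) * c, mul_pos hK hc, fun k hk => ?_⟩
        obtain ⟨j, rfl⟩ : ∃ j, k = j + 1 := ⟨k - 1, by omega⟩
        rw [KerE.Kp_closed, ← mul_assoc (1 / 2 : ℝ)]
        have h2 := (hasy j).1
        have h3 : ((j : ℝ) + 1) ^ (-(1 + α + ε)) ≤ ((j : ℝ) + 1) ^ (-(1 + α)) :=
          Real.rpow_le_rpow_of_exponent_le (by have : (0 : ℝ) ≤ j := Nat.cast_nonneg j; linarith)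
            (by linarith)
        push_cast
        rw [mul_assoc]
        exact mul_le_mul_of_nonneg_left ((mul_le_mul_of_nonneg_left h3 hc.le).trans h2) hK.le
      up := by
        intro ε hε
        refine ⟨1 / 2 * (2 * α / (1 + 2 * α)) * c', mul_pos hK hc', fun k hk => ?_⟩
        obtain ⟨j, rfl⟩ : ∃ j, k = j + 1 := ⟨k - 1, by omega⟩
        rw [KerE.Kp_closed, ← mul_assoc (1 / 2 : ℝ)]
        have h2 := (hasy j).2
        have h3 : ((j : ℝ) + 1) ^ (-(1 + α)) ≤ ((j : ℝ) + 1) ^ (-(1 + α - ε)) :=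
          Real.rpow_le_rpow_of_exponent_le (by have : (0 : ℝ) ≤ j := Nat.cast_nonneg j; linarith)
            (by linarith)
        push_cast
        rw [mul_assoc (1 / 2 * (2 * α / (1 + 2 * α))) c']
        exact mul_le_mul_of_nonneg_left (h2.trans (mul_le_mul_of_nonneg_left h3 hc'.le)) hK.le
      neg := left_exp h0 }

end

end Pool.Agent.AS
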