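import Pool.Agent.Lib.MP_daa227_pr_AS.Defs
import Pool.Agent.Lib.MP_daa227_pr.ExcLem
import Pool.Agent.Lib.MP_daa227_pr_OT.KConv
import Pool.Agent.Lib.MP_daa227_pr_OT.Tails

/-!
# PROJECT AS, module E7: the kernels of a chain
-/

namespace Pool.Agent.AS

open MeasureTheory ProbabilityTheory Set Filter
open scoped ENNReal Topology
open MP_daa227_pr (Chain Zk Zf Gk Gf KU K0 ushift shift seqLaw ExpMom Good GoodW mom DepOn)
open Pool.Agent.AZ (Kv Zd Zfd cneg lmg)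
open Pool.Agent.OT (phi Wc Kp Km)

noncomputable section

theorem KerOf.up_of_tail {α : ℝ} {a : ℕ → ℝ} (hpos : ∀ k, 1 ≤ k → 0 < a k)
    (h : Tendsto (fun n : ℕ => Real.log (a n) / Real.log (2 * n)) atTop (𝓝 (-(1 + α))))
    {e : ℝ} (he : 0 < e) :
    ∃ c : ℝ, 0 < c ∧ ∀ k : ℕ, 1 ≤ k → a k ≤ c * (k : ℝ) ^ (-(1 + α - e)) := by
  obtain ⟨N, hN⟩ := eventually_atTop.1 (Pool.Agent.OT.ev_log h he)
  have hmax : ∃ c : ℝ, 0 < c ∧ ∀ k, 1 ≤ k → k ≤ N → a k ≤ c * (k : ℝ) ^ (-(1 + α - e)) := by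
    clear hN
    induction N with
    | zero => exact ⟨1, one_pos, fun k h1 h2 => by omega⟩
    | succ N ih =>
      obtain ⟨c, hc, hc'⟩ := ih
      have hq : (0 : ℝ) < ((N + 1 : ℕ) : ℝ) ^ (-(1 + α - e)) := by positivity
      have hd : 0 < a (N + 1) / ((N + 1 : ℕ) : ℝ) ^ (-(1 + α - e)) :=
        div_pos (hpos _ (by omega)) hq
      refine ⟨c + a (N + 1) / ((N + 1 : ℕ) : ℝ) ^ (-(1 + α - e)), by positivity,
        fun k h1 h2 => ?_⟩
      have hk : (0 : ℝ) < (k : ℝ) := by exact_mod_cast h1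
      have hk2 : (0 : ℝ) < (k : ℝ) ^ (-(1 + α - e)) := Real.rpow_pos_of_pos hk _
      rcases Nat.lt_or_ge N k with h3 | h3
      · have h4 : k = N + 1 := by omega
        subst h4
        rw [add_mul, div_mul_cancel₀ _ hq.ne']
        linarith [mul_pos hc hq]
      · have h5 := hc' k h1 h3
        rw [add_mul]
        linarith [mul_pos hd hk2]
  obtain ⟨c, hc, hc'⟩ := hmax
  refine ⟨c + (2 : ℝ) ^ (-(1 + α - e)), by positivity, fun k hk => ?_⟩
  have hk' : (0 : ℝ) < k := by exact_mod_cast hk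
  have hk2 : (0 : ℝ) < (k : ℝ) ^ (-(1 + α - e)) := Real.rpow_pos_of_pos hk' _
  rcases Nat.lt_or_ge N k with h3 | h3
  · have h4 := (hN k h3.le).2
    have h5 : -(1 + α - e) * Real.log (2 * k) = Real.log ((2 * k : ℝ) ^ (-(1 + α - e))) := by
      rw [Real.log_rpow (by positivity)]
    rw [h5, Real.log_le_log_iff (hpos k hk) (by positivity),
      Real.mul_rpow (by norm_num) (by positivity)] at h4
    rw [add_mul]
    linarith [mul_pos hc hk2]
  · rw [add_mul]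
    have h6 : (0 : ℝ) < (2 : ℝ) ^ (-(1 + α - e)) := by positivity
    linarith [hc' k hk h3, mul_pos h6 hk2]

theorem ker_of {C : Chain} (hnl : ∀ x, C.p x x = 0) {α : ℝ} (h0 : 0 < α) (h1 : α < 1 / 2)
    (hs : HasSum (fun k => Kp C k + Km C k) 1)
    (ht : Tendsto (fun n : ℕ => Real.log (Kp C n) / Real.log (2 * n)) atTop (𝓝 (-(1 + α))))
    (hn : ∃ c₀ M : ℝ, 0 < c₀ ∧ ∀ k : ℕ, Km C k ≤ M * Real.exp (-(c₀ * k))) :
    Ker (Kp C) (Km C) α where
  α_pos := h0
  α_lt := h1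
  a_zero := by simp [Kp, K0]
  b_zero := by simp [Km, K0]
  a_pos := fun k hk => Pool.Agent.OT.Kp_pos C hk
  a_anti := fun k hk => Pool.Agent.OT.Kp_anti C hnl hk
  b_nonneg := fun k => mul_nonneg (C.nonneg _ _) (MP_daa227_pr.K0_nonneg C _ _)
  sum_one := hs
  low := by
    intro ε hε
    obtain ⟨c, hc, h⟩ := Pool.Agent.OT.low_of_tail (e := α + ε)
      (fun k hk => Pool.Agent.OT.Kp_pos C hk) ht (by linarith) (by linarith)
    refine ⟨c, hc, fun k hk => ?_⟩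
    have := h k hk
    rwa [← add_assoc] at this
  up := fun ε hε => KerOf.up_of_tail (fun k hk => Pool.Agent.OT.Kp_pos C hk) ht hε
  neg := by
    obtain ⟨c₀, M, hc, h⟩ := hn
    refine ⟨c₀, max M 1, hc, lt_of_lt_of_le one_pos (le_max_right _ _), fun k => (h k).trans ?_⟩
    exact mul_le_mul_of_nonneg_right (le_max_left _ _) (Real.exp_pos _).le

end

end Pool.Agent.AS
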