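import Pool.Agent.Lib.MP_daa227_pr_AS.SecM
import Pool.Agent.Lib.MP_daa227_pr_AZ.Strat
import Pool.Agent.Lib.MP_daa227_pr_AZ.Lmg

/-!
# A block is good with not too small probability (module R2 of project AS)
-/

namespace Pool.Agent.AS

open MeasureTheory ProbabilityTheory Set Filter
open scoped ENNReal Topology
open MP_daa227_pr (Chain Zk Zf Gk Gf KU K0 ushift shift seqLaw ExpMom Good GoodW mom DepOn)
open Pool.Agent.AZ (Kv Zd Zfd cneg lmg)
open Pool.Agent.OT (phi Wc Kp Km)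

noncomputable section

namespace R2

theorem Wc_pos (β h a : ℝ) (z : ℤ) : 0 < Wc β h a z := Real.exp_pos _

theorem Wc_zero (β h a : ℝ) : Wc β h a 0 = Real.exp (β * a - h) := by
  simp [Wc, phi]

theorem Wc_of_pos (β h a : ℝ) {z : ℤ} (hz : 0 < z) : Wc β h a z = 1 := by
  simp [Wc, phi, not_le.mpr hz]

theorem K0_nonneg (C : Chain) : ∀ (n : ℕ) (x : ℤ), 0 ≤ K0 C n x
  | 0, _ => le_rfl
  | n + 1, x => by
    rw [K0]
    apply add_nonneg
    · split_ifs
      · exact C.nonneg _ _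
      · exact le_rfl
    · exact Finset.sum_nonneg fun z _ => mul_nonneg (C.nonneg _ _) (K0_nonneg C n z)

theorem Zk_nonneg (C : Chain) (β h : ℝ) : ∀ (n : ℕ) (ω : ℕ → ℝ) (x y : ℤ),
    0 ≤ Zk C (Wc β h) n ω x y
  | 0, ω, x, y => by
    rw [Zk]
    split_ifs
    · exact zero_le_one
    · exact le_rfl
  | n + 1, ω, x, y => by
    rw [Zk]
    exact Finset.sum_nonneg fun z _ => mul_nonneg (mul_nonneg (C.nonneg _ _) (Wc_pos _ _ _ _).le)
      (Zk_nonneg C β h n _ z y)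

/-- positive stretches ending at `0` -/
theorem K0_le_Zk (C : Chain) (β h : ℝ) : ∀ (m : ℕ) (ω : ℕ → ℝ) (x : ℤ), 0 < x →
    K0 C (m + 1) x * Real.exp (β * ω m - h) ≤ Zk C (Wc β h) (m + 1) ω x 0
  | 0, ω, x, hx => by
    rw [K0, if_pos rfl, Zk]
    have h1 : ∑ z ∈ Finset.Icc (x - 1) (x + 1) \ {0}, C.p x z * K0 C 0 z = 0 :=
      Finset.sum_eq_zero fun z _ => by rw [K0, mul_zero]
    rw [h1, add_zero]
    by_cases h0 : (0 : ℤ) ∈ Finset.Icc (x - 1) (x + 1)
    · have h2 : C.p x 0 * Real.exp (β * ω 0 - h) =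
          C.p x 0 * Wc β h (ω 0) 0 * Zk C (Wc β h) 0 (shift 1 ω) 0 0 := by
        rw [Wc_zero, Zk, if_pos rfl, mul_one]
      rw [h2]
      exact Finset.single_le_sum (f := fun z => C.p x z * Wc β h (ω 0) z *
        Zk C (Wc β h) 0 (shift 1 ω) z 0) (fun z _ => mul_nonneg (mul_nonneg (C.nonneg _ _)
        (Wc_pos _ _ _ _).le) (Zk_nonneg C β h 0 _ z 0)) h0
    · rw [C.near x 0 h0, zero_mul]
      exact Finset.sum_nonneg fun z _ => mul_nonneg (mul_nonneg (C.nonneg _ _)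
        (Wc_pos _ _ _ _).le) (Zk_nonneg C β h 0 _ z 0)
  | m + 1, ω, x, hx => by
    rw [K0, if_neg (Nat.succ_ne_zero m), zero_add, Zk, Finset.sum_mul]
    refine le_trans (Finset.sum_le_sum (g := fun z => C.p x z * Wc β h (ω 0) z *
      Zk C (Wc β h) (m + 1) (shift 1 ω) z 0) fun z hz => ?_)
      (Finset.sum_le_sum_of_subset_of_nonneg Finset.sdiff_subset fun z _ _ =>
        mul_nonneg (mul_nonneg (C.nonneg _ _) (Wc_pos _ _ _ _).le)
          (Zk_nonneg C β h (m + 1) _ z 0))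
    rw [Finset.mem_sdiff, Finset.mem_Icc, Finset.mem_singleton] at hz
    have hz0 : 0 < z := by omega
    have h1 := K0_le_Zk C β h m (shift 1 ω) z hz0
    rw [MP_daa227_pr.shift_apply] at h1
    rw [Wc_of_pos β h (ω 0) hz0, mul_one, mul_assoc]
    exact mul_le_mul_of_nonneg_left h1 (C.nonneg _ _)

theorem Zt_le_gen (C : Chain) (β h : ℝ) {N : ℕ} (hN : 1 ≤ N) : ∀ (n : ℕ) (ω : ℕ → ℝ) (x : ℤ),
    Zt C (Wc β h) (kap C N) n ω x * Real.exp (β * ω (n + (2 * N - 1)) - h) ≤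
      Zk C (Wc β h) (n + 2 * N) ω x 0
  | 0, ω, x => by
    rw [Zt, kap, zero_add, zero_add]
    split_ifs with hx
    · have h1 := K0_le_Zk C β h (2 * N - 1) ω x hx
      rw [show 2 * N - 1 + 1 = 2 * N by omega] at h1
      exact h1
    · rw [zero_mul]
      exact Zk_nonneg C β h _ _ _ _
  | n + 1, ω, x => by
    rw [show n + 1 + 2 * N = (n + 2 * N) + 1 by omega, Zt, Zk, Finset.sum_mul]
    apply Finset.sum_le_sum
    intro z _
    have h1 := Zt_le_gen C β h hN n (shift 1 ω) z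
    rw [MP_daa227_pr.shift_apply] at h1
    rw [mul_assoc, show n + 1 + (2 * N - 1) = n + (2 * N - 1) + 1 by omega]
    exact mul_le_mul_of_nonneg_left h1 (mul_nonneg (C.nonneg _ _) (Wc_pos _ _ _ _).le)

theorem Zt_nonneg (C : Chain) (β h : ℝ) {η : ℤ → ℝ} (hη : ∀ x, 0 ≤ η x) :
    ∀ (n : ℕ) (ω : ℕ → ℝ) (x : ℤ), 0 ≤ Zt C (Wc β h) η n ω x
  | 0, _, x => hη x
  | n + 1, ω, x => by
    rw [Zt]
    exact Finset.sum_nonneg fun z _ => mul_nonneg (mul_nonneg (C.nonneg _ _) (Wc_pos _ _ _ _).le)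
      (Zt_nonneg C β h hη n _ z)

theorem kap_nonneg (C : Chain) (N : ℕ) (x : ℤ) : 0 ≤ kap C N x := by
  rw [kap]
  split_ifs
  · exact K0_nonneg C _ _
  · exact le_rfl

theorem Wc_meas (β h : ℝ) (z : ℤ) : Measurable (fun a : ℝ => Wc β h a z) := by
  unfold Wc
  fun_prop

theorem Zt_meas (C : Chain) (β h : ℝ) (η : ℤ → ℝ) : ∀ (n : ℕ) (x : ℤ),
    Measurable (fun ω : ℕ → ℝ => Zt C (Wc β h) η n ω x)
  | 0, x => measurable_const
  | n + 1, x => by
    simp only [Zt]
    refine Finset.measurable_sum _ fun z _ => ?_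
    exact (((Wc_meas β h z).comp (measurable_pi_apply 0)).const_mul _).mul
      ((Zt_meas C β h η n z).comp (MP_daa227_pr.measurable_shift 1))

theorem Zt_dep (C : Chain) (β h : ℝ) (η : ℤ → ℝ) : ∀ (n : ℕ) (x : ℤ),
    DepOn n (fun ω : ℕ → ℝ => Zt C (Wc β h) η n ω x)
  | 0, x => fun _ _ _ => rfl
  | n + 1, x => by
    intro ω ω' hω
    simp only [Zt]
    refine Finset.sum_congr rfl fun z _ => ?_
    have h1 := Zt_dep C β h η n z (shift 1 ω) (shift 1 ω') fun i hi => by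
      rw [MP_daa227_pr.shift_apply, MP_daa227_pr.shift_apply]
      exact hω (i + 1) (by omega)
    dsimp only at h1
    rw [h1, hω 0 (by omega)]

/-- Paley-Zygmund -/
theorem paley {Ω : Type*} [MeasurableSpace Ω] {P : Measure Ω} [IsProbabilityMeasure P] {X : Ω → ℝ}
    (hX : Measurable X) (hi : Integrable X P)
    (hi2 : Integrable (fun ω => X ω ^ 2) P) (ha : 0 < ∫ ω, X ω ∂P) :
    0 < ∫ ω, X ω ^ 2 ∂P ∧ (∫ ω, X ω ∂P) ^ 2 / (4 * ∫ ω, X ω ^ 2 ∂P) ≤
      (P {ω | (∫ ω, X ω ∂P) / 2 ≤ X ω}).toReal := by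
  set a := ∫ ω, X ω ∂P with hadef
  set M := ∫ ω, X ω ^ 2 ∂P with hMdef
  set S : Set Ω := {ω | a / 2 ≤ X ω} with hS
  have hSm : MeasurableSet S := measurableSet_le measurable_const hX
  set b := ∫ ω, S.indicator X ω ∂P with hb
  have hiS : Integrable (S.indicator X) P := hi.indicator hSm
  have hi1 : Integrable (S.indicator (fun _ => (1 : ℝ))) P :=
    (integrable_const (1 : ℝ)).indicator hSm
  have hP1 : ∫ ω, S.indicator (fun _ => (1 : ℝ)) ω ∂P = (P S).toReal := by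
    rw [integral_indicator_const _ hSm, smul_eq_mul, mul_one]
    rfl
  have hb2 : a / 2 ≤ b := by
    have h1 : a ≤ ∫ ω, (a / 2 + S.indicator X ω) ∂P := by
      apply integral_mono hi ((integrable_const _).add hiS)
      intro ω
      simp only [Pi.add_apply]
      by_cases h : ω ∈ S
      · rw [Set.indicator_of_mem h]
        linarith
      · rw [Set.indicator_of_notMem h]
        have h' : X ω < a / 2 := not_le.mp h
        linarith
    rw [integral_add (integrable_const _) hiS, integral_const] at h1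
    simp only [probReal_univ, smul_eq_mul, one_mul] at h1
    linarith
  have hq : ∀ t : ℝ, 0 ≤ t ^ 2 * M - 2 * t * b + (P S).toReal := by
    intro t
    have h1 : 0 ≤ ∫ ω, (t * X ω - S.indicator (fun _ => (1 : ℝ)) ω) ^ 2 ∂P :=
      integral_nonneg fun ω => sq_nonneg _
    have h2 : ∫ ω, (t * X ω - S.indicator (fun _ => (1 : ℝ)) ω) ^ 2 ∂P =
        ∫ ω, (t ^ 2 * X ω ^ 2 - 2 * t * S.indicator X ω +
          S.indicator (fun _ => (1 : ℝ)) ω) ∂P := by
      congr 1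
      funext ω
      simp only [Set.indicator]
      split_ifs
      · ring
      · ring
    have h3 : Integrable (fun ω => t ^ 2 * X ω ^ 2) P := hi2.const_mul _
    have h4 : Integrable (fun ω => 2 * t * S.indicator X ω) P := hiS.const_mul _
    have h5 : Integrable (fun ω => t ^ 2 * X ω ^ 2 - 2 * t * S.indicator X ω) P := h3.sub h4
    rw [h2, integral_add h5 hi1, integral_sub h3 h4, integral_const_mul, integral_const_mul,
      hP1] at h1
    exact h1
  have hP0 : 0 ≤ (P S).toReal := ENNReal.toReal_nonneg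
  have hbpos : 0 < b := by linarith
  have hM : 0 < M := by
    by_contra hM
    push Not at hM
    have h1 := hq (((P S).toReal + 1) / b)
    have h2 : (((P S).toReal + 1) / b) * b = (P S).toReal + 1 := by
      field_simp
    have h3 : (((P S).toReal + 1) / b) ^ 2 * M ≤ 0 :=
      mul_nonpos_of_nonneg_of_nonpos (sq_nonneg _) hM
    nlinarith
  refine ⟨hM, ?_⟩
  have h1 := hq (b / M)
  have h2 : (b / M) ^ 2 * M = b ^ 2 / M := by
    field_simp
  have h3 : 2 * (b / M) * b = 2 * (b ^ 2 / M) := by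
    field_simp
  rw [h2, h3] at h1
  have h4 : b ^ 2 / M ≤ (P S).toReal := by linarith
  refine le_trans ?_ h4
  rw [div_le_div_iff₀ (by positivity) hM]
  have h5 : a ^ 2 ≤ 4 * b ^ 2 := by nlinarith
  nlinarith

end R2

section rand

variable {μ : Measure ℝ} [IsProbabilityMeasure μ]

open R2

theorem Zt_le (C : Chain) (β h : ℝ) {N : ℕ} (hN : 1 ≤ N) (ω : ℕ → ℝ) :
    Zt C (Wc β h) (kap C N) (2 * N) ω 0 * Real.exp (β * ω (4 * N - 1) - h) ≤
      Zk C (Wc β h) (4 * N) ω 0 0 := by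
  have h1 := Zt_le_gen C β h hN (2 * N) ω 0
  rw [show 2 * N + (2 * N - 1) = 4 * N - 1 by omega, show 2 * N + 2 * N = 4 * N by omega] at h1
  exact h1

theorem prob_ge (C : Chain) (hμ : ExpMom μ) (β h : ℝ) {N : ℕ} (hN : 1 ≤ N)
    (hm : 0 < Tn C (vu (lmg μ β - h)) (kap C N) (2 * N) 0) :
    Tn C (vu (lmg μ β - h)) (kap C N) (2 * N) 0 ^ 2 /
      (4 * Real.exp (lmg μ (2 * β) - 2 * lmg μ β) *
        Hn C (lmg μ β - h) (lmg μ (2 * β) - 2 * lmg μ β) (kap C N) (2 * N) 0 0) ≤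
    (seqLaw μ {ω | Tn C (vu (lmg μ β - h)) (kap C N) (2 * N) 0 * Real.exp (lmg μ β - h) / 2 ≤
      Zk C (Wc β h) (4 * N) ω 0 0}).toReal := by
  set m := Tn C (vu (lmg μ β - h)) (kap C N) (2 * N) 0 with hmdef
  set H := Hn C (lmg μ β - h) (lmg μ (2 * β) - 2 * lmg μ β) (kap C N) (2 * N) 0 0 with hHdef
  set V : (ℕ → ℝ) → ℝ := fun ω => Zt C (Wc β h) (kap C N) (2 * N) ω 0 with hV
  set Y : (ℕ → ℝ) → ℝ := fun ω => Real.exp (β * ω (2 * N - 1) - h) with hY
  have hVm : Measurable V := Zt_meas C β h _ _ _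
  have hVd : DepOn (2 * N) V := Zt_dep C β h _ _ _
  have hYm : Measurable Y := by
    rw [hY]
    fun_prop
  have hVi := Zt_int (μ := μ) C hμ β h (η := kap C N) (2 * N) 0
  -- moments of `Y`
  have hY1 : Integrable Y (seqLaw μ) ∧ ∫ ω, Y ω ∂seqLaw μ = Real.exp (lmg μ β - h) := by
    have h1 : ∀ x : ℝ, Real.exp (β * x - h) = Real.exp (-h) * Real.exp (β * x) := by
      intro x
      rw [← Real.exp_add]
      congr 1
      ring
    have h2 : Integrable (fun x : ℝ => Real.exp (β * x - h)) μ := by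
      simp_rw [h1]
      exact (hμ β).const_mul _
    refine ⟨MP_daa227_pr.integrable_apply μ (2 * N - 1) (Y := fun x => Real.exp (β * x - h))
      (by fun_prop) h2, ?_⟩
    have h3 := MP_daa227_pr.integral_apply μ (2 * N - 1) (Y := fun x => Real.exp (β * x - h))
      (by fun_prop)
    rw [hY]
    refine h3.trans ?_
    simp_rw [h1]
    rw [integral_const_mul, ← AZ.exp_lmg hμ, ← Real.exp_add]
    congr 1
    ring
  have hY2 : Integrable (fun ω => Y ω ^ 2) (seqLaw μ) ∧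
      ∫ ω, Y ω ^ 2 ∂seqLaw μ = Real.exp (lmg μ (2 * β) - 2 * h) := by
    have h1 : ∀ x : ℝ, Real.exp (β * x - h) ^ 2 = Real.exp (-(2 * h)) * Real.exp (2 * β * x) := by
      intro x
      rw [← Real.exp_add, ← Real.exp_nat_mul]
      congr 1
      push_cast
      ring
    have h2 : Integrable (fun x : ℝ => Real.exp (β * x - h) ^ 2) μ := by
      simp_rw [h1]
      exact (hμ (2 * β)).const_mul _
    refine ⟨MP_daa227_pr.integrable_apply μ (2 * N - 1) (Y := fun x => Real.exp (β * x - h) ^ 2)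
      (by fun_prop) h2, ?_⟩
    have h3 := MP_daa227_pr.integral_apply μ (2 * N - 1)
      (Y := fun x => Real.exp (β * x - h) ^ 2) (by fun_prop)
    rw [hY]
    refine h3.trans ?_
    simp_rw [h1]
    rw [integral_const_mul, ← AZ.exp_lmg hμ, ← Real.exp_add]
    congr 1
    ring
  set X : (ℕ → ℝ) → ℝ := fun ω => V ω * Y (shift (2 * N) ω) with hXdef
  have hXm : Measurable X := hVm.mul (hYm.comp (MP_daa227_pr.measurable_shift _))
  have hX0 : ∀ ω, 0 ≤ X ω := fun ω =>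
    mul_nonneg (Zt_nonneg C β h (kap_nonneg C N) _ _ _) (Real.exp_pos _).le
  have hXi : Integrable X (seqLaw μ) :=
    AZ.Strat.integrable_mul_shift μ hVm hVd hYm hVi.1 hY1.1
  have hX1 : ∫ ω, X ω ∂seqLaw μ = m * Real.exp (lmg μ β - h) := by
    rw [hXdef, AZ.Strat.integral_mul_shift μ hVm hVd hYm, hY1.2, hV, Zt_mean C hμ]
  have hVd2 : DepOn (2 * N) (fun ω => V ω ^ 2) := fun ω ω' hω => by
    dsimp only
    rw [hVd ω ω' hω]
  have hX2e : (fun ω => X ω ^ 2) = fun ω => V ω ^ 2 * (fun ω' => Y ω' ^ 2) (shift (2 * N) ω) := by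
    funext ω
    rw [hXdef]
    ring
  have hX2i : Integrable (fun ω => X ω ^ 2) (seqLaw μ) := by
    rw [hX2e]
    exact AZ.Strat.integrable_mul_shift μ (hVm.pow_const 2) hVd2 (hYm.pow_const 2) hVi.2 hY2.1
  have hX2 : ∫ ω, X ω ^ 2 ∂seqLaw μ = H * Real.exp (lmg μ (2 * β) - 2 * h) := by
    rw [hX2e, AZ.Strat.integral_mul_shift μ (hVm.pow_const 2) hVd2 (hYm.pow_const 2), hY2.2]
    congr 1
    rw [hHdef, ← Zt_sec C hμ]
    congr 1
    funext ω
    rw [hV]
    ring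
  have ha : 0 < ∫ ω, X ω ∂seqLaw μ := by
    rw [hX1]
    exact mul_pos hm (Real.exp_pos _)
  obtain ⟨hM, hp⟩ := paley hXm hXi hX2i ha
  rw [hX2] at hM
  have hH : 0 < H := pos_of_mul_pos_left hM (Real.exp_pos _).le
  rw [hX1, hX2] at hp
  have h1 : (m * Real.exp (lmg μ β - h)) ^ 2 / (4 * (H * Real.exp (lmg μ (2 * β) - 2 * h))) =
      m ^ 2 / (4 * Real.exp (lmg μ (2 * β) - 2 * lmg μ β) * H) := by
    have h2 : Real.exp (lmg μ (2 * β) - 2 * h) =
        Real.exp (lmg μ (2 * β) - 2 * lmg μ β) * Real.exp (lmg μ β - h) ^ 2 := by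
      rw [← Real.exp_nat_mul, ← Real.exp_add]
      congr 1
      push_cast
      ring
    rw [h2]
    have h3 := Real.exp_pos (lmg μ β - h)
    have h4 := Real.exp_pos (lmg μ (2 * β) - 2 * lmg μ β)
    field_simp
  rw [h1] at hp
  refine hp.trans ?_
  apply ENNReal.toReal_mono (measure_ne_top _ _)
  apply measure_mono
  intro ω hω
  rw [Set.mem_ofPred_eq] at hω ⊢
  refine hω.trans ?_
  have h5 := Zt_le C β h hN ω
  rw [hXdef, hV, hY]
  dsimp only
  rw [MP_daa227_pr.shift_apply, show 2 * N - 1 + 2 * N = 4 * N - 1 by omega]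
  exact h5

end rand

end

end Pool.Agent.AS
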