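import Pool.Agent.Lib.MP_daa227_pr_AS.Root
import Pool.Agent.Lib.MP_daa227_pr_AS.RootB
import Pool.Agent.Lib.MP_daa227_pr_AS.Det
import Pool.Agent.Lib.MP_daa227_pr_AS.Prob
import Pool.Agent.Lib.MP_daa227_pr_AS.StratC
import Pool.Agent.Lib.MP_daa227_pr_AS.FqB
import Pool.Agent.Lib.MP_daa227_pr_AZ.Lmg

/-!
# Lower bound on the quenched free energy
-/

namespace Pool.Agent.AS

open MeasureTheory ProbabilityTheory Set Filter
open scoped ENNReal Topology
open MP_daa227_pr (Chain Zk Zf Gk Gf KU K0 ushift shift seqLaw ExpMom Good GoodW mom DepOn)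
open Pool.Agent.AZ (Kv Zd Zfd cneg lmg)
open Pool.Agent.OT (phi Wc Kp Km)

noncomputable section

namespace LowQ

variable {μ : Measure ℝ} [IsProbabilityMeasure μ]

theorem le_of_all {s X J : ℝ} (h : ∀ T : ℕ, T * s - J ≤ T * X) : s ≤ X := by
  by_contra hcon
  push Not at hcon
  have hd : 0 < s - X := sub_pos.2 hcon
  obtain ⟨T, hT⟩ := exists_nat_gt (J / (s - X))
  rw [div_lt_iff₀ hd] at hT
  have h1 := h T
  nlinarith

theorem gamma_nonneg (hμ : ExpMom μ) (β : ℝ) : 0 ≤ lmg μ (2 * β) - 2 * lmg μ β := by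
  have h := (Pool.Agent.AZ.lmg_convex hμ).2 (mem_univ (2 * β)) (mem_univ 0)
    (show (0 : ℝ) ≤ 1 / 2 by norm_num) (show (0 : ℝ) ≤ 1 / 2 by norm_num) (by norm_num)
  simp only [smul_eq_mul, mul_zero, add_zero] at h
  rw [Pool.Agent.AZ.lmg_zero, show 1 / 2 * (2 * β) = β by ring] at h
  linarith

theorem exists_beta (hμ : ExpMom μ) {γ₀ : ℝ} (hγ : 0 < γ₀) : ∃ β₀ : ℝ, 0 < β₀ ∧
    ∀ β : ℝ, 0 < β → β ≤ β₀ → lmg μ (2 * β) - 2 * lmg μ β ≤ γ₀ := by
  have hc : Continuous fun β : ℝ => lmg μ (2 * β) - 2 * lmg μ β :=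
    ((Pool.Agent.AZ.lmg_cont hμ).comp (continuous_const.mul continuous_id)).sub
      (continuous_const.mul (Pool.Agent.AZ.lmg_cont hμ))
  have h0 := hc.tendsto 0
  simp only [mul_zero] at h0
  rw [Pool.Agent.AZ.lmg_zero, mul_zero, sub_zero] at h0
  obtain ⟨r, hr, h1⟩ := Metric.eventually_nhds_iff.1 (h0.eventually (gt_mem_nhds hγ))
  refine ⟨r / 2, by linarith, fun β hβ hβ1 => (h1 ?_).le⟩
  rw [Real.dist_eq, sub_zero, abs_of_pos hβ]
  linarith

theorem sec_pos (C : Chain) (hμ : ExpMom μ) (β h : ℝ) (η : ℤ → ℝ) (n : ℕ) :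
    Tn C (vu (lmg μ β - h)) η n 0 ^ 2 ≤
      Hn C (lmg μ β - h) (lmg μ (2 * β) - 2 * lmg μ β) η n 0 0 := by
  obtain ⟨hi, hi2⟩ := Zt_int (η := η) C hμ β h n 0
  have hm := Zt_mean C hμ β h η n 0
  have hs := Zt_sec C hμ β h η n 0 0
  set m := Tn C (vu (lmg μ β - h)) η n 0 with hmdef
  have h1 : 0 ≤ ∫ ω, (Zt C (Wc β h) η n ω 0 - m) ^ 2 ∂seqLaw μ :=
    integral_nonneg fun _ => sq_nonneg _
  have h2 : ∫ ω, (Zt C (Wc β h) η n ω 0 - m) ^ 2 ∂seqLaw μ =
      ∫ ω, Zt C (Wc β h) η n ω 0 ^ 2 ∂seqLaw μ - 2 * m * ∫ ω, Zt C (Wc β h) η n ω 0 ∂seqLaw μ +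
        m ^ 2 := by
    have h3 : ∀ ω, (Zt C (Wc β h) η n ω 0 - m) ^ 2 =
        Zt C (Wc β h) η n ω 0 ^ 2 - 2 * m * Zt C (Wc β h) η n ω 0 + m ^ 2 := fun ω => by ring
    simp_rw [h3]
    have h4 : Integrable (fun ω => 2 * m * Zt C (Wc β h) η n ω 0) (seqLaw μ) := hi.const_mul _
    have h5 : Integrable (fun ω => Zt C (Wc β h) η n ω 0 ^ 2 - 2 * m * Zt C (Wc β h) η n ω 0)
        (seqLaw μ) := hi2.sub h4
    rw [integral_add h5 (integrable_const _), integral_sub hi2 h4, integral_const_mul]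
    simp
  have h4 : ∫ ω, Zt C (Wc β h) η n ω 0 ^ 2 ∂seqLaw μ =
      Hn C (lmg μ β - h) (lmg μ (2 * β) - 2 * lmg μ β) η n 0 0 := by
    rw [← hs]
    exact integral_congr_ae (ae_of_all _ fun ω => by simp only; ring)
  rw [h2, h4, hm] at h1
  nlinarith

end LowQ

open LowQ

variable {μ : Measure ℝ} [IsProbabilityMeasure μ]

theorem low_q {C : Chain} (hnl : ∀ x, C.p x x = 0) {α : ℝ} (hK : Ker (Kp C) (Km C) α)
    (hμ : ExpMom μ) (hmean : ∫ x, x ∂μ = 0) (hvar : ∫ x, x ^ 2 ∂μ = 1) :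
    ∃ β₀ : ℝ, 0 < β₀ ∧ ∀ β : ℝ, 0 < β → β ≤ β₀ → ∀ ε : ℝ, 0 < ε → ∃ u₁ : ℝ, 0 < u₁ ∧
      ∀ u : ℝ, 0 < u → u ≤ u₁ → u ^ (1 / α + ε) ≤ Fq C μ β (lmg μ β - u) := by
  obtain ⟨γ₀, hγ₀, hdet⟩ := det hnl hK
  obtain ⟨β₀, hβ₀, hβ₀'⟩ := exists_beta hμ hγ₀
  refine ⟨β₀, hβ₀, fun β hβ hββ ε hε => ?_⟩
  have hα := hK.α_pos
  have hα2 := hK.α_lt
  have hα' : 0 < 1 / α := by positivity
  have hα2' : 2 < 1 / α := by
    rw [lt_div_iff₀ hα]
    linarith
  set γ := lmg μ (2 * β) - 2 * lmg μ β with hγ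
  have hγ1 : 0 ≤ γ := gamma_nonneg hμ β
  have hγ2 : γ ≤ γ₀ := hβ₀' β hβ hββ
  -- the small exponent
  set e := min 1 (ε / (4 + 3 * (1 / α))) with he
  have he0 : 0 < e := lt_min one_pos (by positivity)
  have he1 : e ≤ 1 := min_le_left _ _
  have hexp : (1 / α + e) * (1 + 3 * e) ≤ 1 / α + ε := by
    have h1 : e * (4 + 3 * (1 / α)) ≤ ε := by
      have := min_le_right 1 (ε / (4 + 3 * (1 / α)))
      rw [← he, le_div_iff₀ (by positivity)] at this
      exact this
    nlinarith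
  obtain ⟨cK, hcK, hlow⟩ := hK.low (1 / 2) (by norm_num)
  obtain ⟨ud, hud, hdet'⟩ := hdet e 12 he0 (by norm_num)
  obtain ⟨ub, hub, hroot⟩ := root_bounds hK he0
  obtain ⟨ue, hue, hex⟩ := exists_root hK
  have hlp : 0 < lmg μ β := Pool.Agent.AZ.lmg_pos hμ hmean hvar hβ.ne'
  -- constants
  set K₀ : ℝ := |Real.log cK| + 2 * Real.log 2 + 2 * (Real.log 4 + γ₀) + lmg μ β + β + 4 +
    Real.log 2 with hK₀
  set L₀ : ℝ := max K₀ ((Real.log 16 + γ₀) / e) with hL₀
  refine ⟨min (min ud ub) (min (min ue (lmg μ β)) (Real.exp (-L₀))),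
    by positivity, fun u hu hu1 => ?_⟩
  have hu_d : u ≤ ud := hu1.trans ((min_le_left _ _).trans (min_le_left _ _))
  have hu_b : u ≤ ub := hu1.trans ((min_le_left _ _).trans (min_le_right _ _))
  have hu_e : u ≤ ue := hu1.trans ((min_le_right _ _).trans ((min_le_left _ _).trans (min_le_left _ _)))
  have hu_l : u ≤ lmg μ β :=
    hu1.trans ((min_le_right _ _).trans ((min_le_left _ _).trans (min_le_right _ _)))
  have hu_L : u ≤ Real.exp (-L₀) := hu1.trans ((min_le_right _ _).trans (min_le_right _ _))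
  have hK₀0 : 0 < K₀ := by
    have h1 : 0 < Real.log 2 := Real.log_pos (by norm_num)
    have h2 : 0 < Real.log 4 := Real.log_pos (by norm_num)
    have h3 := abs_nonneg (Real.log cK)
    rw [hK₀]
    positivity
  have hL₀0 : 0 < L₀ := lt_max_of_lt_left hK₀0
  have hu_1 : u ≤ 1 := hu_L.trans (Real.exp_le_one_iff.2 (by linarith))
  obtain ⟨F, hR⟩ := hex u hu hu_e
  obtain ⟨hF1, hF2⟩ := hroot u F hu hu_b hR
  have hF0 : 0 < F := hR.1
  have hFu : F ≤ u := by
    refine hF2.trans ?_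
    calc u ^ (1 / α - e) ≤ u ^ (1 : ℝ) :=
          Real.rpow_le_rpow_of_exponent_ge hu hu_1 (by linarith)
      _ = u := Real.rpow_one u
  set L := Real.log (1 / F) with hL
  have hLF : L = -Real.log F := by rw [hL, one_div, Real.log_inv]
  have hFL : F = Real.exp (-L) := by rw [hLF, neg_neg, Real.exp_log hF0]
  have hLL : L₀ ≤ L := by
    have h1 : Real.log F ≤ -L₀ := (Real.log_le_iff_le_exp hF0).2 (hFu.trans hu_L)
    rw [hLF]
    linarith
  have hLK : K₀ ≤ L := (le_max_left _ _).trans hLL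
  have hLe : (Real.log 16 + γ₀) / e ≤ L := (le_max_right _ _).trans hLL
  have hL0 : 0 < L := hL₀0.trans_le hLL
  obtain ⟨N, hN1, hN2, hm1, hH⟩ := hdet' u F hu hu_d hR
  set m := Tn C (vu u) (kap C N) (2 * N) 0 with hm
  have hHγ := hH γ hγ1 hγ2
  set H := Hn C u γ (kap C N) (2 * N) 0 0 with hHdef
  have hmpos : 0 < m := (Real.rpow_pos_of_pos hF0 _).trans_le hm1
  set h := lmg μ β - u with hh
  have hh0 : 0 ≤ h := by rw [hh]; linarith
  have hlu : lmg μ β - h = u := by rw [hh]; ring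
  have hHpos : 0 < H := by
    have h1 := sec_pos C hμ β h (kap C N) (2 * N)
    rw [hlu] at h1
    exact (pow_pos hmpos 2).trans_le h1
  have hN0 : (0 : ℝ) < N := by exact_mod_cast hN1
  have hprob := prob_ge C hμ β h hN1 (by rw [hlu]; exact hmpos)
  rw [hlu] at hprob
  have h4N : 4 * N = 2 * (2 * N) := by ring
  set w := Real.log (m * Real.exp u / 2) with hw
  have hew : Real.exp w = m * Real.exp u / 2 := Real.exp_log (by positivity)
  rw [← hew, h4N] at hprob
  set p := (seqLaw μ {ω | Real.exp w ≤ Zk C (Wc β h) (2 * (2 * N)) ω 0 0}).toReal with hp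
  have hp1 : p ≤ 1 := by
    rw [hp]
    exact ENNReal.toReal_le_of_le_ofReal zero_le_one (by
      rw [ENNReal.ofReal_one]; exact prob_le_one)
  -- lower bound on p
  have hpF : F ^ e / (4 * Real.exp γ₀) ≤ p := by
    refine le_trans ?_ hprob
    rw [div_le_div_iff₀ (by positivity) (by positivity)]
    have h1 : H ≤ F ^ (-e) * m ^ 2 := hHγ
    have h2 : F ^ e * F ^ (-e) = 1 := by
      rw [← Real.rpow_add hF0, add_neg_cancel, Real.rpow_zero]
    have h3 : Real.exp γ ≤ Real.exp γ₀ := Real.exp_le_exp.2 hγ2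
    have h4 : 0 < F ^ e := Real.rpow_pos_of_pos hF0 e
    calc F ^ e * (4 * Real.exp γ * H) ≤ F ^ e * (4 * Real.exp γ₀ * (F ^ (-e) * m ^ 2)) := by
          apply mul_le_mul_of_nonneg_left _ h4.le
          apply mul_le_mul (by linarith) h1 hHpos.le (by positivity)
      _ = (F ^ e * F ^ (-e)) * (4 * Real.exp γ₀ * m ^ 2) := by ring
      _ = m ^ 2 * (4 * Real.exp γ₀) := by rw [h2]; ring
  have hp0 : 0 < p := lt_of_lt_of_le (by positivity) hpF
  -- logarithms
  have hlogp : Real.log (1 / p) ≤ Real.log 4 + γ₀ + e * L := by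
    have h1 : 1 / p ≤ 4 * Real.exp γ₀ * F ^ (-e) := by
      rw [div_le_iff₀ hp0]
      have h2 : F ^ (-e) * F ^ e = 1 := by
        rw [← Real.rpow_add hF0, neg_add_cancel, Real.rpow_zero]
      have h3 : 0 < F ^ (-e) := Real.rpow_pos_of_pos hF0 _
      calc (1 : ℝ) = 4 * Real.exp γ₀ * F ^ (-e) * (F ^ e / (4 * Real.exp γ₀)) := by
            rw [← h2]; field_simp
        _ ≤ _ := mul_le_mul_of_nonneg_left hpF (by positivity)
    have h2 : Real.log (4 * Real.exp γ₀ * F ^ (-e)) = Real.log 4 + γ₀ + e * L := by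
      rw [Real.log_mul (by positivity) (by positivity), Real.log_mul (by norm_num) (by positivity),
        Real.log_exp, Real.log_rpow hF0, hLF]
      ring
    rw [← h2]
    exact Real.log_le_log (by positivity) h1
  have hlogp0 : 0 ≤ Real.log (1 / p) := Real.log_nonneg (by rw [le_div_iff₀ hp0]; linarith)
  have hlogN : Real.log (2 * N) ≤ Real.log 2 + (1 + e) * L := by
    have h1 : Real.log (N : ℝ) ≤ (1 + e) * L := by
      have h2 := Real.log_le_log hN0 hN2
      rw [Real.log_rpow hF0] at h2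
      rw [hLF]
      linarith
    rw [Real.log_mul (by norm_num) hN0.ne']
    linarith
  have hN1' : (1 : ℝ) ≤ N := by exact_mod_cast hN1
  have hlogN0 : 0 ≤ Real.log (2 * N) := Real.log_nonneg (by linarith)
  -- the threshold
  have hwL : 12 * L - Real.log 2 ≤ w := by
    rw [hw, Real.log_div (by positivity) (by norm_num), Real.log_mul hmpos.ne' (by positivity),
      Real.log_exp]
    have h1 := Real.log_le_log (Real.rpow_pos_of_pos hF0 _) hm1
    rw [Real.log_rpow hF0] at h1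
    rw [hLF]
    linarith
  -- the strategy
  set c₀ : ℝ := |Real.log cK| + 2 * Real.log (2 * N) + 2 * Real.log (1 / p) with hc₀
  have hc₀0 : 0 ≤ c₀ := by
    have := abs_nonneg (Real.log cK)
    rw [hc₀]
    positivity
  have hKp : ∀ k : ℕ, 1 ≤ k → -Real.log (Kp C (k * (2 * N))) ≤ c₀ + 2 * p * k := by
    intro k hk
    have hk' : (1 : ℝ) ≤ k := by exact_mod_cast hk
    have h1 : 1 ≤ k * (2 * N) := by nlinarith
    have h2 := hlow _ h1
    have h3 : (0 : ℝ) < ((k * (2 * N) : ℕ) : ℝ) := by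
      have : 0 < k * (2 * N) := h1
      exact_mod_cast this
    have h4 := Real.log_le_log (by positivity) h2
    rw [Real.log_mul hcK.ne' (by positivity), Real.log_rpow h3] at h4
    have h5 : Real.log (((k * (2 * N) : ℕ) : ℝ)) = Real.log k + Real.log (2 * N) := by
      push_cast
      rw [Real.log_mul (by positivity) (by positivity)]
    have h6 : 0 ≤ Real.log (k : ℝ) := Real.log_nonneg hk'
    have h7 : Real.log (k : ℝ) ≤ Real.log (1 / p) + (p * k - 1) := by
      have h8 := Real.log_le_sub_one_of_pos (show 0 < p * k by positivity)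
      rw [Real.log_mul hp0.ne' (by positivity)] at h8
      rw [one_div, Real.log_inv]
      linarith
    have h9 := neg_abs_le (Real.log cK)
    rw [h5] at h4
    have h10 : (1 + α + 1 / 2) * (Real.log k + Real.log (2 * N)) ≤
        2 * (Real.log k + Real.log (2 * N)) :=
      mul_le_mul_of_nonneg_right (by linarith) (by linarith)
    rw [hc₀]
    nlinarith
  have hstr := strategy C hnl hμ hmean hvar hβ hh0 (show 0 < 2 * N by omega) hp.symm hp0 hc₀0
    (show (0 : ℝ) ≤ 2 * p by linarith) hKp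
  set s := p * (w - (c₀ + h + β)) - (1 - p) * (2 * p) with hs
  have hsF : s ≤ (4 * N : ℝ) * Fq C μ β h := by
    apply le_of_all (J := c₀ + h + β)
    intro T
    refine (hstr T).trans ?_
    have h1 := Ps_le C hμ (h := h) hβ (T * (2 * N))
    have h2 : 2 * (T * (2 * N)) = T * (2 * (2 * N)) := by ring
    rw [h2] at h1
    refine h1.trans (le_of_eq ?_)
    push_cast
    ring
  have hsp : p ≤ s := by
    have h1 : 1 ≤ w - (c₀ + h + β) - 2 := by
      have h2 : c₀ + h + β + 3 + Real.log 2 ≤ 12 * L := by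
        have h3 : h ≤ lmg μ β := by rw [hh]; linarith
        have h4 : e * L ≤ 1 * L := mul_le_mul_of_nonneg_right he1 hL0.le
        have h5 : c₀ ≤ |Real.log cK| + 2 * (Real.log 2 + (1 + e) * L) +
            2 * (Real.log 4 + γ₀ + e * L) := by
          rw [hc₀]
          linarith
        have h6 : K₀ ≤ L := hLK
        rw [hK₀] at h6
        nlinarith
      linarith
    have h2 : s = p * (w - (c₀ + h + β) - 2) + 2 * p * p := by rw [hs]; ring
    rw [h2]
    nlinarith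
  have hfin : F ^ (1 + 3 * e) ≤ Fq C μ β h := by
    have h1 : p / (4 * N) ≤ Fq C μ β h := by
      rw [div_le_iff₀ (by positivity)]
      linarith
    refine le_trans ?_ h1
    have h2 : (N : ℝ) * F ^ (1 + e) ≤ 1 := by
      calc (N : ℝ) * F ^ (1 + e) ≤ F ^ (-(1 + e)) * F ^ (1 + e) :=
            mul_le_mul_of_nonneg_right hN2 (Real.rpow_nonneg hF0.le _)
        _ = 1 := by rw [← Real.rpow_add hF0, neg_add_cancel, Real.rpow_zero]
    have h4 : F ^ e ≤ 1 / (16 * Real.exp γ₀) := by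
      have h5 : 1 / (16 * Real.exp γ₀) = Real.exp (-(Real.log 16 + γ₀)) := by
        rw [Real.exp_neg, Real.exp_add, Real.exp_log (by norm_num), one_div]
      rw [h5, hFL, ← Real.exp_mul]
      apply Real.exp_le_exp.2
      rw [div_le_iff₀ he0] at hLe
      linarith
    rw [le_div_iff₀ (by positivity)]
    refine le_trans ?_ hpF
    have h5 : F ^ (1 + 3 * e) = F ^ (1 + e) * F ^ e * F ^ e := by
      rw [← Real.rpow_add hF0, ← Real.rpow_add hF0]
      congr 1
      ring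
    have h6 : 0 < F ^ e := Real.rpow_pos_of_pos hF0 e
    rw [h5, le_div_iff₀ (by positivity)]
    calc F ^ (1 + e) * F ^ e * F ^ e * (4 * N) * (4 * Real.exp γ₀)
        = (N * F ^ (1 + e)) * F ^ e * (F ^ e * (16 * Real.exp γ₀)) := by ring
      _ ≤ 1 * F ^ e * 1 := by
          apply mul_le_mul
          · exact mul_le_mul_of_nonneg_right h2 h6.le
          · rw [le_div_iff₀ (by positivity)] at h4
            exact h4
          · positivity
          · positivity
      _ = F ^ e := by ring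
  refine le_trans ?_ hfin
  calc u ^ (1 / α + ε) ≤ u ^ ((1 / α + e) * (1 + 3 * e)) :=
        Real.rpow_le_rpow_of_exponent_ge hu hu_1 hexp
    _ = (u ^ (1 / α + e)) ^ (1 + 3 * e) := Real.rpow_mul hu.le _ _
    _ ≤ F ^ (1 + 3 * e) := Real.rpow_le_rpow (Real.rpow_nonneg hu.le _) hF1 (by positivity)

end

end Pool.Agent.AS
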