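import Pool.Agent.Lib.MP_daa227_pr_AS.RootB
import Pool.Agent.Lib.MP_daa227_pr_AS.LowQ

/-!
# The order of the transition is exactly `1 / α`
-/

namespace Pool.Agent.AS

open MeasureTheory ProbabilityTheory Set Filter
open scoped ENNReal Topology
open MP_daa227_pr (Chain Zk Zf Gk Gf KU K0 ushift shift seqLaw ExpMom Good GoodW mom DepOn)
open Pool.Agent.AZ (Kv Zd Zfd cneg lmg)
open Pool.Agent.OT (phi Wc Kp Km)

noncomputable section

section rand

variable {μ : Measure ℝ} [IsProbabilityMeasure μ]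

theorem order {C : Chain} (hnl : ∀ x, C.p x x = 0) {α : ℝ} (hK : Ker (Kp C) (Km C) α)
    (hμ : ExpMom μ) (hmean : ∫ x, x ∂μ = 0) (hvar : ∫ x, x ^ 2 ∂μ = 1) :
    ∃ β₀ : ℝ, 0 < β₀ ∧ ∀ β : ℝ, 0 < β → β ≤ β₀ →
      (∀ h : ℝ, 0 < Fq C μ β h ↔ h < lmg μ β) ∧
      Tendsto (fun δ : ℝ => Real.log (Fq C μ β (lmg μ β - δ)) / Real.log δ) (𝓝[>] 0)
        (𝓝 (1 / α)) := by
  obtain ⟨β₀, hβ₀, hlow⟩ := low_q hnl hK hμ hmean hvar
  refine ⟨β₀, hβ₀, fun β hβ hle => ⟨fun h => ⟨fun hF => ?_, fun hh => ?_⟩, ?_⟩⟩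
  · by_contra hge
    have h1 := Fq_crit hnl hK hμ hβ (not_lt.1 hge)
    exact absurd hF (not_lt.2 h1)
  · obtain ⟨u₁, hu₁, hu⟩ := hlow β hβ hle 1 one_pos
    have hd : 0 < lmg μ β - h := sub_pos.2 hh
    have hm : 0 < min (lmg μ β - h) u₁ := lt_min hd hu₁
    have h1 := hu (min (lmg μ β - h) u₁) hm (min_le_right _ _)
    have h2 : h ≤ lmg μ β - min (lmg μ β - h) u₁ := by
      have := min_le_left (lmg μ β - h) u₁
      linarith
    have h3 := Fq_anti C hμ hβ h2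
    have h4 : 0 < (min (lmg μ β - h) u₁) ^ (1 / α + 1) := Real.rpow_pos_of_pos hm _
    linarith
  · -- the two bounds
    obtain ⟨u₀, hu₀, hroot⟩ := exists_root hK
    have key : ∀ ε : ℝ, 0 < ε → ∀ᶠ δ : ℝ in 𝓝[>] 0,
        1 / α - ε ≤ Real.log (Fq C μ β (lmg μ β - δ)) / Real.log δ ∧
          Real.log (Fq C μ β (lmg μ β - δ)) / Real.log δ ≤ 1 / α + ε := by
      intro ε hε
      obtain ⟨u₁, hu₁, hl⟩ := hlow β hβ hle ε hε
      obtain ⟨u₂, hu₂, hr⟩ := root_bounds hK hε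
      have e1 : ∀ᶠ δ : ℝ in 𝓝[>] 0, δ ∈ Ioo (0 : ℝ) (min (min u₀ 1) (min u₁ u₂)) :=
        Ioo_mem_nhdsGT (lt_min (lt_min hu₀ one_pos) (lt_min hu₁ hu₂))
      filter_upwards [e1] with δ hδ
      obtain ⟨hδ0, hδ1⟩ := hδ
      have d0 : δ < u₀ := lt_of_lt_of_le hδ1 ((min_le_left _ _).trans (min_le_left _ _))
      have d1 : δ < 1 := lt_of_lt_of_le hδ1 ((min_le_left _ _).trans (min_le_right _ _))
      have d2 : δ < u₁ := lt_of_lt_of_le hδ1 ((min_le_right _ _).trans (min_le_left _ _))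
      have d3 : δ < u₂ := lt_of_lt_of_le hδ1 ((min_le_right _ _).trans (min_le_right _ _))
      have hlog : Real.log δ < 0 := Real.log_neg hδ0 d1
      have b1 := hl δ hδ0 d2.le
      obtain ⟨F, hF⟩ := hroot δ hδ0 d0.le
      have b2 := (hr δ F hδ0 d3.le hF).2
      have b3 := Fq_le_root hnl hK hμ hβ hF
      have p1 : 0 < δ ^ (1 / α + ε) := Real.rpow_pos_of_pos hδ0 _
      have p2 : 0 < Fq C μ β (lmg μ β - δ) := lt_of_lt_of_le p1 b1
      have l1 : (1 / α + ε) * Real.log δ ≤ Real.log (Fq C μ β (lmg μ β - δ)) := by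
        rw [← Real.log_rpow hδ0]
        exact Real.log_le_log p1 b1
      have l2 : Real.log (Fq C μ β (lmg μ β - δ)) ≤ (1 / α - ε) * Real.log δ := by
        rw [← Real.log_rpow hδ0]
        exact Real.log_le_log p2 (b3.trans b2)
      constructor
      · rw [le_div_iff_of_neg hlog]
        exact l2
      · rw [div_le_iff_of_neg hlog]
        exact l1
    rw [tendsto_order]
    constructor
    · intro a ha
      filter_upwards [key ((1 / α - a) / 2) (by linarith)] with δ hδ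
      linarith [hδ.1]
    · intro b hb
      filter_upwards [key ((b - 1 / α) / 2) (by linarith)] with δ hδ
      linarith [hδ.2]

end rand

end

end Pool.Agent.AS
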