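import Pool.Agent.Lib.MP_daa227_pr_AS.Defs
import Pool.Agent.Lib.MP_daa227_pr_OT.KProb
import Pool.Agent.Lib.MP_daa227_pr.HcPos

/-!
# From the kernels to the chain on a probability space
-/

namespace Pool.Agent.AS

open MeasureTheory ProbabilityTheory Set Filter
open scoped ENNReal Topology
open MP_daa227_pr (Chain Zk Zf Gk Gf KU K0 ushift shift seqLaw ExpMom Good GoodW mom DepOn)
open Pool.Agent.AZ (Kv Zd Zfd cneg lmg)
open Pool.Agent.OT (phi Wc Kp Km)

noncomputable section

theorem sum_K0_of_sum {C : Chain} (hnl : ∀ x, C.p x x = 0)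
    (h : HasSum (fun k => Kp C k + Km C k) 1) : HasSum (fun n : ℕ => K0 C (n + 1) 0) 1 := by
  have h4 : Kp C 0 + Km C 0 = 0 := by simp [Kp, Km, K0]
  have h3 : HasSum (fun k : ℕ => Kp C (k + 1) + Km C (k + 1)) 1 := by
    refine (hasSum_nat_add_iff (f := fun k => Kp C k + Km C k) 1).2 ?_
    simpa [h4] using h
  have hinj : Function.Injective (fun k : ℕ => 2 * k + 1) := by
    intro a b hab
    simp only at hab
    omega
  have h2 : ((fun n : ℕ => K0 C (n + 1) 0) ∘ fun k : ℕ => 2 * k + 1) =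
      fun k : ℕ => Kp C (k + 1) + Km C (k + 1) := by
    funext k
    rw [← Pool.Agent.OT.K3.K0_zero_eq k]
    rfl
  rw [← h2, hinj.hasSum_iff] at h3
  · exact h3
  · intro n hn
    apply MP_daa227_pr.K0_parity hnl
    rintro ⟨m, hm⟩
    apply hn
    rw [Set.mem_range]
    refine ⟨m.toNat - 1, ?_⟩
    push_cast at hm
    omega

theorem return_of_sum {Ω : Type*} [MeasurableSpace Ω] (P : Measure Ω) [IsProbabilityMeasure P]
    (C : Chain) (hnl : ∀ x, C.p x x = 0) (S : ℕ → Ω → ℤ) (hS : MP_daa227_pr.IsChain P C.p S)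
    (h : HasSum (fun k => Kp C k + Km C k) 1) : ∀ᵐ w ∂P, ∃ n, 0 < n ∧ S n w = 0 := by
  have h0 := sum_K0_of_sum hnl h
  set E : ℕ → Set Ω := fun n => {w | S (n + 1) w = 0 ∧ ∀ i, 0 < i → i < n + 1 → S i w ≠ 0} with hE
  have hmE : ∀ n, MeasurableSet (E n) := by
    intro n
    have h : E n = S (n + 1) ⁻¹' {0} ∩ ⋂ i : ℕ, ⋂ _ : 0 < i, ⋂ _ : i < n + 1, S i ⁻¹' {0}ᶜ := by
      ext w
      simp [hE]
    rw [h]
    refine (hS.1 _ (measurableSet_singleton _)).inter ?_
    exact MeasurableSet.iInter fun i => MeasurableSet.iInter fun _ => MeasurableSet.iInter fun _ =>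
      hS.1 i (measurableSet_singleton _).compl
  have hdisj : Pairwise (Function.onFun Disjoint E) := by
    intro n m hnm
    rw [Function.onFun, Set.disjoint_left]
    intro w h1 h2
    rcases lt_or_gt_of_ne hnm with h | h
    · exact h2.2 (n + 1) (Nat.succ_pos n) (by omega) h1.1
    · exact h1.2 (m + 1) (Nat.succ_pos m) (by omega) h2.1
  have hP : ∀ n, P (E n) = ENNReal.ofReal (K0 C (n + 1) 0) := by
    intro n
    rw [← MP_daa227_pr.K0_eq_prob P C S hS (n + 1) (Nat.succ_pos n),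
      ENNReal.ofReal_toReal (measure_ne_top _ _)]
  have hU : P (⋃ n, E n) = 1 := by
    rw [measure_iUnion hdisj hmE]
    simp only [hP]
    rw [← ENNReal.ofReal_tsum_of_nonneg (fun n => MP_daa227_pr.K0_nonneg C (n + 1) 0) h0.summable,
      h0.tsum_eq, ENNReal.ofReal_one]
  rw [← prob_compl_eq_zero_iff (MeasurableSet.iUnion hmE)] at hU
  refine measure_mono_null ?_ hU
  intro w hw hcon
  apply hw
  rw [Set.mem_iUnion] at hcon
  obtain ⟨n, hn⟩ := hcon
  exact ⟨n + 1, Nat.succ_pos n, hn.1⟩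

theorem lim_log_div (K s : ℝ) :
    Tendsto (fun n : ℕ => (K - s * Real.log n) / Real.log (2 * n)) atTop (𝓝 (-s)) := by
  have h1 : Tendsto (fun n : ℕ => Real.log (2 * (n : ℝ))) atTop atTop :=
    Real.tendsto_log_atTop.comp ((tendsto_natCast_atTop_atTop).const_mul_atTop two_pos)
  have h2 : Tendsto (fun n : ℕ => -s + (K + s * Real.log 2) / Real.log (2 * (n : ℝ))) atTop
      (𝓝 (-s + 0)) := tendsto_const_nhds.add (h1.const_div_atTop _)
  rw [add_zero] at h2
  refine h2.congr' ?_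
  filter_upwards [eventually_ge_atTop 1] with n hn
  have hn' : (1 : ℝ) ≤ n := by exact_mod_cast hn
  have h3 : Real.log (2 * n) = Real.log 2 + Real.log n := Real.log_mul two_ne_zero (by positivity)
  have h4 : 0 < Real.log (2 * n) := Real.log_pos (by linarith)
  rw [eq_div_iff h4.ne', add_mul, div_mul_cancel₀ _ h4.ne', h3]
  ring

theorem log_mul_rpow_neg {K s : ℝ} (hK : 0 < K) {n : ℕ} (hn : 1 ≤ n) :
    Real.log (K * (n : ℝ) ^ (-s)) = Real.log K - s * Real.log n := by
  have hn' : (0 : ℝ) < n := by exact_mod_cast hn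
  rw [Real.log_mul hK.ne' (Real.rpow_pos_of_pos hn' _).ne', Real.log_rpow hn']
  ring

theorem ret_tail {C : Chain} {α : ℝ} (hK : Ker (Kp C) (Km C) α) :
    Tendsto (fun n : ℕ => Real.log (Kp C n + Km C n) / Real.log (2 * n)) atTop
      (𝓝 (-(1 + α))) := by
  rw [tendsto_order]
  constructor
  · intro a' ha'
    obtain ⟨c, hc, hlow⟩ := hK.low ((-(1 + α) - a') / 2) (by linarith)
    have h1 := lim_log_div (Real.log c) (1 + α + (-(1 + α) - a') / 2)
    have h2 := (tendsto_order.1 h1).1 a' (by linarith)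
    filter_upwards [h2, eventually_ge_atTop 1] with n hn1 hn2
    refine lt_of_lt_of_le hn1 ?_
    have hn' : (1 : ℝ) ≤ n := by exact_mod_cast hn2
    have h4 : 0 < Real.log (2 * n) := Real.log_pos (by linarith)
    refine div_le_div_of_nonneg_right ?_ h4.le
    rw [← log_mul_rpow_neg hc hn2]
    refine Real.log_le_log (mul_pos hc (Real.rpow_pos_of_pos (by linarith) _)) ?_
    have h5 := hlow n hn2
    have h6 := hK.b_nonneg n
    linarith
  · intro a' ha'
    obtain ⟨c, hc, hup⟩ := hK.up ((a' + (1 + α)) / 2) (by linarith)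
    obtain ⟨c₀, M, hc₀, hM, hneg⟩ := hK.neg
    set s := 1 + α - (a' + (1 + α)) / 2 with hs
    have h1 := lim_log_div (Real.log (c + M)) s
    have h2 := (tendsto_order.1 h1).2 a' (by rw [hs]; linarith)
    have h3 : Tendsto (fun n : ℕ => (n : ℝ) ^ s * Real.exp (-c₀ * n)) atTop (𝓝 0) :=
      (tendsto_rpow_mul_exp_neg_mul_atTop_nhds_zero s c₀ hc₀).comp tendsto_natCast_atTop_atTop
    have h3' := (tendsto_order.1 h3).2 1 one_pos
    filter_upwards [h2, h3', eventually_ge_atTop 1] with n hn1 hn3 hn2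
    refine lt_of_le_of_lt ?_ hn1
    have hn' : (1 : ℝ) ≤ n := by exact_mod_cast hn2
    have hn0 : (0 : ℝ) < n := by linarith
    have h4 : 0 < Real.log (2 * n) := Real.log_pos (by linarith)
    refine div_le_div_of_nonneg_right ?_ h4.le
    rw [← log_mul_rpow_neg (add_pos hc hM) hn2]
    have h5 := hup n hn2
    have h6 := hneg n
    have h7 := hK.b_nonneg n
    have h8 := hK.a_pos n hn2
    refine Real.log_le_log (by linarith) ?_
    have h9 : Real.exp (-(c₀ * n)) ≤ (n : ℝ) ^ (-s) := by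
      rw [Real.rpow_neg hn0.le, le_inv_comm₀ (Real.exp_pos _) (Real.rpow_pos_of_pos hn0 _),
        ← one_div, le_div_iff₀ (Real.exp_pos _), ← neg_mul]
      exact hn3.le
    have h10 : M * Real.exp (-(c₀ * n)) ≤ M * (n : ℝ) ^ (-s) := mul_le_mul_of_nonneg_left h9 hM.le
    rw [add_mul]
    linarith

end

end Pool.Agent.AS
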