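import Pool.Agent.Lib.MP_daa227_pr_AS.Defs

/-!
# AS module S1: existence of the annealed free energy
-/

namespace Pool.Agent.AS

open MeasureTheory ProbabilityTheory Set Filter
open scoped ENNReal Topology

noncomputable section

section seq

variable {a b : ℕ → ℝ} {α : ℝ}

theorem root_a_nonneg (hK : Ker a b α) (k : ℕ) : 0 ≤ a k := by
  rcases Nat.eq_zero_or_pos k with h | h
  · rw [h, hK.a_zero]
  · exact (hK.a_pos k h).le

theorem root_G_nonneg (hK : Ker a b α) (u : ℝ) (k : ℕ) : 0 ≤ G a b u k :=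
  add_nonneg (mul_nonneg (Real.exp_pos _).le (root_a_nonneg hK k))
    (mul_nonneg (Real.exp_pos _).le (hK.b_nonneg k))

theorem root_summable_a (hK : Ker a b α) : Summable a :=
  Summable.of_nonneg_of_le (root_a_nonneg hK)
    (fun k => by linarith [hK.b_nonneg k]) hK.sum_one.summable

theorem root_summable (hK : Ker a b α) {c₀ M : ℝ} (hc : 0 < c₀) (hM : 0 < M)
    (hb : ∀ k : ℕ, b k ≤ M * Real.exp (-(c₀ * k))) {u : ℝ} (hu : u ≤ c₀ / 4) :
    Summable (fun k : ℕ => G a b u (k + 1)) := by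
  have h1 : Summable (fun k : ℕ => Real.exp u * a k) := (root_summable_a hK).mul_left _
  have h2 : Summable (fun k : ℕ => M * Real.exp (-(c₀ / 2)) ^ k) := by
    apply Summable.mul_left
    exact summable_geometric_of_lt_one (Real.exp_pos _).le (Real.exp_lt_one_iff.mpr (by linarith))
  have h3 : Summable (fun k : ℕ => Real.exp (2 * k * u) * b k) := by
    refine Summable.of_nonneg_of_le
      (fun k => mul_nonneg (Real.exp_pos _).le (hK.b_nonneg k)) (fun k => ?_) h2
    calc Real.exp (2 * k * u) * b k ≤ Real.exp (2 * k * u) * (M * Real.exp (-(c₀ * k))) :=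
          mul_le_mul_of_nonneg_left (hb k) (Real.exp_pos _).le
      _ = M * Real.exp (2 * k * u + -(c₀ * k)) := by rw [Real.exp_add]; ring
      _ ≤ M * Real.exp (k * (-(c₀ / 2))) := by
          apply mul_le_mul_of_nonneg_left _ hM.le
          apply Real.exp_le_exp.mpr
          have : (0 : ℝ) ≤ k := Nat.cast_nonneg k
          nlinarith
      _ = M * Real.exp (-(c₀ / 2)) ^ k := by rw [Real.exp_nat_mul]
  exact (summable_nat_add_iff 1).mpr (h1.add h3)

theorem exists_root (hK : Ker a b α) : ∃ u₀ : ℝ, 0 < u₀ ∧ ∀ u : ℝ, 0 < u → u ≤ u₀ →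
    ∃ F : ℝ, Root a b u F := by
  obtain ⟨c₀, M, hc, hM, hb⟩ := hK.neg
  refine ⟨c₀ / 4, by positivity, fun u hu hu0 => ?_⟩
  have hS := root_summable hK hc hM hb hu0
  set g : ℕ → ℝ := fun k => G a b u (k + 1) with hg
  have hg0 : ∀ k, 0 ≤ g k := fun k => root_G_nonneg hK u (k + 1)
  -- value at 0
  have hab : HasSum (fun k : ℕ => a (k + 1) + b (k + 1)) 1 := by
    have := (hasSum_nat_add_iff' (f := fun k => a k + b k) 1).mpr hK.sum_one
    simpa [hK.a_zero, hK.b_zero] using this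
  have hle : ∀ k, a (k + 1) + b (k + 1) ≤ g k := by
    intro k
    have h1 : a (k + 1) ≤ Real.exp u * a (k + 1) :=
      le_mul_of_one_le_left (root_a_nonneg hK _) (Real.one_le_exp hu.le)
    have h2 : b (k + 1) ≤ Real.exp (2 * ((k + 1 : ℕ) : ℝ) * u) * b (k + 1) :=
      le_mul_of_one_le_left (hK.b_nonneg _) (Real.one_le_exp (by positivity))
    simp only [hg, G]
    linarith
  have hlt : a (0 + 1) + b (0 + 1) < g 0 := by
    have ha1 : 0 < a 1 := hK.a_pos 1 le_rfl
    have h1 : a 1 < Real.exp u * a 1 := by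
      have : 1 < Real.exp u := Real.one_lt_exp_iff.mpr hu
      nlinarith
    have h2 : b 1 ≤ Real.exp (2 * ((1 : ℕ) : ℝ) * u) * b 1 :=
      le_mul_of_one_le_left (hK.b_nonneg _) (Real.one_le_exp (by positivity))
    simp only [hg, G, zero_add]
    linarith
  have h1 : 1 < ∑' k, g k := by
    have := hab.summable.tsum_lt_tsum hle hlt hS
    rwa [hab.tsum_eq] at this
  -- the function
  set Φ : ℝ → ℝ := fun F => ∑' k : ℕ, g k * Real.exp (-(2 * F * ((k : ℝ) + 1))) with hΦ
  have hbd : ∀ (k : ℕ) (F : ℝ), 0 ≤ F → g k * Real.exp (-(2 * F * ((k : ℝ) + 1))) ≤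
      g k * Real.exp (-(2 * F)) := by
    intro k F hF
    apply mul_le_mul_of_nonneg_left _ (hg0 k)
    apply Real.exp_le_exp.mpr
    have : (0 : ℝ) ≤ k := Nat.cast_nonneg k
    nlinarith [mul_nonneg hF this]
  have hbd' : ∀ (k : ℕ) (F : ℝ), 0 ≤ F → g k * Real.exp (-(2 * F * ((k : ℝ) + 1))) ≤ g k := by
    intro k F hF
    refine (hbd k F hF).trans ?_
    exact mul_le_of_le_one_right (hg0 k) (Real.exp_le_one_iff.mpr (by linarith))
  have hsum : ∀ F : ℝ, 0 ≤ F →
      Summable (fun k : ℕ => g k * Real.exp (-(2 * F * ((k : ℝ) + 1)))) := fun F hF =>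
    Summable.of_nonneg_of_le (fun k => mul_nonneg (hg0 k) (Real.exp_pos _).le)
      (fun k => hbd' k F hF) hS
  have hcont : ContinuousOn Φ (Ici 0) := by
    apply continuousOn_tsum (u := g)
    · intro k
      fun_prop
    · exact hS
    · intro k F hF
      rw [Real.norm_eq_abs, abs_of_nonneg (mul_nonneg (hg0 k) (Real.exp_pos _).le)]
      exact hbd' k F hF
  have hΦ0 : Φ 0 = ∑' k, g k := by
    simp [hΦ]
  -- small value
  set s : ℝ := ∑' k, g k with hs
  have hspos : 0 < s := by linarith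
  set F1 : ℝ := Real.log s / 2 + 1 with hF1
  have hlog : 0 < Real.log s := Real.log_pos h1
  have hF1pos : 0 ≤ F1 := by positivity
  have hΦ1 : Φ F1 ≤ 1 := by
    have h2 : Φ F1 ≤ ∑' k, g k * Real.exp (-(2 * F1)) :=
      (hsum F1 hF1pos).tsum_le_tsum (fun k => hbd k F1 hF1pos) (hS.mul_right _)
    rw [tsum_mul_right] at h2
    refine h2.trans ?_
    have h3 : Real.exp (-(2 * F1)) = s⁻¹ * Real.exp (-2) := by
      rw [hF1]
      have : -(2 * (Real.log s / 2 + 1)) = -Real.log s + -2 := by ring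
      rw [this, Real.exp_add, Real.exp_neg, Real.exp_log hspos]
    rw [h3, ← mul_assoc, mul_inv_cancel₀ hspos.ne', one_mul]
    exact Real.exp_le_one_iff.mpr (by norm_num)
  have hivt := intermediate_value_Icc' hF1pos (hcont.mono Icc_subset_Ici_self)
  obtain ⟨F, hF, hFe⟩ := hivt ⟨hΦ1, by rw [hΦ0]; exact h1.le⟩
  refine ⟨F, ?_, ?_⟩
  · rcases lt_or_eq_of_le hF.1 with h | h
    · exact h
    · exfalso
      rw [← h, hΦ0] at hFe
      linarith
  · have := (hsum F hF.1).hasSum
    have e : (∑' k : ℕ, g k * Real.exp (-(2 * F * ((k : ℝ) + 1)))) = 1 := hFe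
    rw [e] at this
    exact this

end seq

end

end Pool.Agent.AS
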