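import Pool.Agent.Lib.MP_daa227_pr_AS.Defs
import Pool.Agent.Lib.MP_daa227_pr_AZ.Strat
import Pool.Agent.Lib.MP_daa227_pr_AZ.Lmg

/-!
# First and second moment of the partition function with a terminal function
-/

namespace Pool.Agent.AS

open MeasureTheory ProbabilityTheory Set Filter
open scoped ENNReal Topology
open MP_daa227_pr (Chain Zk Zf Gk Gf KU K0 ushift shift seqLaw ExpMom Good GoodW mom DepOn)
open Pool.Agent.AZ (Kv Zd Zfd cneg lmg)
open Pool.Agent.OT (phi Wc Kp Km)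

noncomputable section

namespace SecM

theorem Zt_succ (C : Chain) (W : ℝ → ℤ → ℝ) (η : ℤ → ℝ) (n : ℕ) (ω : ℕ → ℝ) (x : ℤ) :
    Zt C W η (n + 1) ω x =
      ∑ z ∈ Finset.Icc (x - 1) (x + 1), C.p x z * W (ω 0) z * Zt C W η n (shift 1 ω) z := rfl

theorem phi_cases (z : ℤ) : phi z = 0 ∨ phi z = 1 := by
  unfold phi
  split_ifs
  · exact Or.inr rfl
  · exact Or.inl rfl

theorem W_meas (β h : ℝ) (z : ℤ) : Measurable fun a : ℝ => Wc β h a z := by
  unfold Wc
  fun_prop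

theorem Zt_meas (C : Chain) (β h : ℝ) (η : ℤ → ℝ) : ∀ (n : ℕ) (x : ℤ),
    Measurable fun ω => Zt C (Wc β h) η n ω x
  | 0, x => measurable_const
  | n + 1, x => by
    simp_rw [Zt_succ]
    refine Finset.measurable_sum _ fun z _ => ?_
    exact ((measurable_const.mul ((W_meas β h z).comp (measurable_pi_apply 0))).mul
      ((Zt_meas C β h η n z).comp (MP_daa227_pr.measurable_shift 1)))

variable {μ : Measure ℝ} [IsProbabilityMeasure μ]

omit [IsProbabilityMeasure μ] in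
theorem exp_int (hμ : ExpMom μ) (β h t : ℝ) : Integrable (fun a => Real.exp ((β * a - h) * t)) μ := by
  have h1 : ∀ a : ℝ, Real.exp ((β * a - h) * t) = Real.exp ((β * t) * a) * Real.exp (-(h * t)) := by
    intro a
    rw [← Real.exp_add]
    congr 1
    ring
  simp_rw [h1]
  exact (hμ (β * t)).mul_const _

theorem exp_mean (hμ : ExpMom μ) (β h t : ℝ) :
    ∫ a, Real.exp ((β * a - h) * t) ∂μ = Real.exp (lmg μ (β * t) - h * t) := by
  have h1 : ∀ a : ℝ, Real.exp ((β * a - h) * t) = Real.exp ((β * t) * a) * Real.exp (-(h * t)) := by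
    intro a
    rw [← Real.exp_add]
    congr 1
    ring
  simp_rw [h1]
  rw [integral_mul_const, ← Pool.Agent.AZ.exp_lmg hμ, ← Real.exp_add]
  congr 1

omit [IsProbabilityMeasure μ] in
theorem W_int (hμ : ExpMom μ) (β h : ℝ) (z : ℤ) : Integrable (fun a => Wc β h a z) μ :=
  exp_int hμ β h _

theorem WW_eq (β h a : ℝ) (z z' : ℤ) :
    Wc β h a z * Wc β h a z' = Real.exp ((β * a - h) * (phi z + phi z')) := by
  unfold Wc
  rw [← Real.exp_add]
  congr 1
  ring

theorem W_mean (hμ : ExpMom μ) (β h : ℝ) (z : ℤ) :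
    ∫ a, Wc β h a z ∂μ = Real.exp (vu (lmg μ β - h) z) := by
  have h1 := exp_mean hμ β h (phi z)
  refine Eq.trans h1 ?_
  congr 1
  unfold vu
  rcases phi_cases z with h2 | h2
  · rw [h2, mul_zero, mul_zero, Pool.Agent.AZ.lmg_zero]
    ring
  · rw [h2]
    ring_nf

theorem WW_mean (hμ : ExpMom μ) (β h : ℝ) (z z' : ℤ) :
    ∫ a, Wc β h a z * Wc β h a z' ∂μ = Real.exp (vu (lmg μ β - h) z + vu (lmg μ β - h) z' +
      (lmg μ (2 * β) - 2 * lmg μ β) * (phi z * phi z')) := by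
  simp_rw [WW_eq]
  rw [exp_mean hμ]
  congr 1
  unfold vu
  rcases phi_cases z with h2 | h2 <;> rcases phi_cases z' with h3 | h3
  · rw [h2, h3, add_zero, mul_zero, mul_zero, Pool.Agent.AZ.lmg_zero]
    ring
  · rw [h2, h3, zero_add, mul_one]
    ring
  · rw [h2, h3, add_zero, mul_one]
    ring
  · rw [h2, h3, show β * (1 + 1) = 2 * β by ring]
    ring

theorem dep_one {f : ℝ → ℝ} : DepOn 1 fun ω : ℕ → ℝ => f (ω 0) := by
  intro ω ω' h
  show f (ω 0) = f (ω' 0)
  rw [h 0 (by omega)]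

/-- integrability of one term -/
theorem term_int (c : ℝ) {f : ℝ → ℝ} (hf : Measurable f) (hfi : Integrable f μ)
    {Y : (ℕ → ℝ) → ℝ} (hY : Measurable Y) (hYi : Integrable Y (seqLaw μ)) :
    Integrable (fun ω => c * f (ω 0) * Y (shift 1 ω)) (seqLaw μ) := by
  have h1 := Pool.Agent.AZ.Strat.integrable_mul_shift μ (k := 1) (X := fun ω => f (ω 0)) (Y := Y)
    (hf.comp (measurable_pi_apply 0)) dep_one hY (MP_daa227_pr.integrable_apply μ 0 hf hfi) hYi
  refine (h1.const_mul c).congr (ae_of_all _ fun ω => ?_)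
  show c * (f (ω 0) * Y (shift 1 ω)) = c * f (ω 0) * Y (shift 1 ω)
  ring

/-- expectation of one term -/
theorem term_mean (c : ℝ) {f : ℝ → ℝ} (hf : Measurable f)
    {Y : (ℕ → ℝ) → ℝ} (hY : Measurable Y) :
    ∫ ω, c * f (ω 0) * Y (shift 1 ω) ∂seqLaw μ =
      c * (∫ a, f a ∂μ) * ∫ ω, Y ω ∂seqLaw μ := by
  have h1 := Pool.Agent.AZ.Strat.integral_mul_shift μ (k := 1) (X := fun ω => f (ω 0)) (Y := Y)
    (hf.comp (measurable_pi_apply 0)) dep_one hY
  rw [MP_daa227_pr.integral_apply μ 0 hf] at h1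
  simp_rw [mul_assoc]
  rw [integral_const_mul, h1]

theorem prod_succ (C : Chain) (β h : ℝ) (η : ℤ → ℝ) (n : ℕ) (x y : ℤ) (ω : ℕ → ℝ) :
    Zt C (Wc β h) η (n + 1) ω x * Zt C (Wc β h) η (n + 1) ω y =
      ∑ z ∈ Finset.Icc (x - 1) (x + 1), ∑ z' ∈ Finset.Icc (y - 1) (y + 1),
        (C.p x z * C.p y z') * (Wc β h (ω 0) z * Wc β h (ω 0) z') *
          (Zt C (Wc β h) η n (shift 1 ω) z * Zt C (Wc β h) η n (shift 1 ω) z') := by
  rw [Zt_succ, Zt_succ, Finset.sum_mul_sum]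
  refine Finset.sum_congr rfl fun z _ => Finset.sum_congr rfl fun z' _ => ?_
  ring

theorem WW_meas (β h : ℝ) (z z' : ℤ) : Measurable fun a : ℝ => Wc β h a z * Wc β h a z' :=
  (W_meas β h z).mul (W_meas β h z')

omit [IsProbabilityMeasure μ] in
theorem WW_int (hμ : ExpMom μ) (β h : ℝ) (z z' : ℤ) :
    Integrable (fun a : ℝ => Wc β h a z * Wc β h a z') μ := by
  simp_rw [WW_eq]
  exact exp_int hμ β h _

theorem Zt_int1 (C : Chain) (hμ : ExpMom μ) (β h : ℝ) (η : ℤ → ℝ) : ∀ (n : ℕ) (x : ℤ),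
    Integrable (fun ω => Zt C (Wc β h) η n ω x) (seqLaw μ)
  | 0, x => integrable_const _
  | n + 1, x => by
    simp_rw [Zt_succ]
    refine integrable_finsetSum _ fun z _ => ?_
    exact term_int (C.p x z) (W_meas β h z) (W_int hμ β h z) (Zt_meas C β h η n z)
      (Zt_int1 C hμ β h η n z)

theorem Zt_int2 (C : Chain) (hμ : ExpMom μ) (β h : ℝ) (η : ℤ → ℝ) : ∀ (n : ℕ) (x y : ℤ),
    Integrable (fun ω => Zt C (Wc β h) η n ω x * Zt C (Wc β h) η n ω y) (seqLaw μ)
  | 0, x, y => integrable_const (η x * η y)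
  | n + 1, x, y => by
    simp_rw [prod_succ]
    refine integrable_finsetSum _ fun z _ => integrable_finsetSum _ fun z' _ => ?_
    exact term_int (C.p x z * C.p y z') (WW_meas β h z z') (WW_int hμ β h z z')
      ((Zt_meas C β h η n z).mul (Zt_meas C β h η n z')) (Zt_int2 C hμ β h η n z z')

end SecM

open SecM

section rand

variable {μ : Measure ℝ} [IsProbabilityMeasure μ]

theorem Zt_int (C : Chain) (hμ : ExpMom μ) (β h : ℝ) {η : ℤ → ℝ} (n : ℕ) (x : ℤ) :
    Integrable (fun ω => Zt C (Wc β h) η n ω x) (seqLaw μ) ∧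
    Integrable (fun ω => Zt C (Wc β h) η n ω x ^ 2) (seqLaw μ) := by
  refine ⟨Zt_int1 C hμ β h η n x, ?_⟩
  simp_rw [sq]
  exact Zt_int2 C hμ β h η n x x

theorem Zt_mean (C : Chain) (hμ : ExpMom μ) (β h : ℝ) (η : ℤ → ℝ) (n : ℕ) (x : ℤ) :
    ∫ ω, Zt C (Wc β h) η n ω x ∂seqLaw μ = Tn C (vu (lmg μ β - h)) η n x := by
  induction n generalizing x with
  | zero =>
    show ∫ _, η x ∂seqLaw μ = η x
    rw [integral_const]
    simp
  | succ n ih =>
    simp_rw [Zt_succ]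
    rw [integral_finsetSum _ fun z _ => term_int (C.p x z) (W_meas β h z) (W_int hμ β h z)
      (Zt_meas C β h η n z) (Zt_int1 C hμ β h η n z), Tn]
    refine Finset.sum_congr rfl fun z _ => ?_
    rw [term_mean (μ := μ) (C.p x z) (f := fun a => Wc β h a z)
      (Y := fun ω => Zt C (Wc β h) η n ω z) (W_meas β h z) (Zt_meas C β h η n z), W_mean hμ, ih]

theorem Zt_sec (C : Chain) (hμ : ExpMom μ) (β h : ℝ) (η : ℤ → ℝ) (n : ℕ) (x y : ℤ) :
    ∫ ω, Zt C (Wc β h) η n ω x * Zt C (Wc β h) η n ω y ∂seqLaw μ =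
      Hn C (lmg μ β - h) (lmg μ (2 * β) - 2 * lmg μ β) η n x y := by
  induction n generalizing x y with
  | zero =>
    show ∫ _, η x * η y ∂seqLaw μ = η x * η y
    rw [integral_const]
    simp
  | succ n ih =>
    have hint : ∀ z z' : ℤ, Integrable (fun ω : ℕ → ℝ => (C.p x z * C.p y z') *
        (Wc β h (ω 0) z * Wc β h (ω 0) z') *
          (Zt C (Wc β h) η n (shift 1 ω) z * Zt C (Wc β h) η n (shift 1 ω) z')) (seqLaw μ) :=
      fun z z' => term_int (C.p x z * C.p y z') (WW_meas β h z z') (WW_int hμ β h z z')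
        ((Zt_meas C β h η n z).mul (Zt_meas C β h η n z')) (Zt_int2 C hμ β h η n z z')
    simp_rw [prod_succ]
    rw [integral_finsetSum _ fun z _ => integrable_finsetSum _ fun z' _ => hint z z', Hn]
    refine Finset.sum_congr rfl fun z _ => ?_
    rw [integral_finsetSum _ fun z' _ => hint z z']
    refine Finset.sum_congr rfl fun z' _ => ?_
    rw [term_mean (μ := μ) (C.p x z * C.p y z') (f := fun a => Wc β h a z * Wc β h a z')
      (Y := fun ω => Zt C (Wc β h) η n ω z * Zt C (Wc β h) η n ω z') (WW_meas β h z z')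
      ((Zt_meas C β h η n z).mul (Zt_meas C β h η n z')), WW_mean hμ, ih]

end rand

end

end Pool.Agent.AS
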